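import Mathlib

/-!
MP_56b8f5_nt (eighth moment of the Riemann zeta function), block EM: definitions.

Goal: `liminf M_4(T) / (a_4 (log T)^16 / 16!) >= 1698`.
-/

open MeasureTheory Set Filter Topology

noncomputable section

namespace Pool.Agent.Work.MP_56b8f5_nt.EM

/-! ### The arithmetic factor and the moment -/

/-- The local factor of `a_4`. -/
def a4f (p : Nat.Primes) : ℝ :=
  (1 - 1 / (p : ℝ)) ^ 16 * ∑' m : ℕ, (((m + 3).choose m : ℕ) : ℝ) ^ 2 * (1 / (p : ℝ)) ^ m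

/-- The arithmetic factor `a_4`. -/
def a4 : ℝ := ∏' p : Nat.Primes, a4f p

/-- The eighth moment. -/
def M4 (T : ℝ) : ℝ :=
  (1 / T) * ∫ t in (0 : ℝ)..T, ‖riemannZeta (1 / 2 + t * Complex.I)‖ ^ 8

/-- `|zeta(1/2+it)|^2`. -/
def Zt (t : ℝ) : ℝ := ‖riemannZeta (1 / 2 + t * Complex.I)‖ ^ 2

/-! ### Positive rationals as exponent vectors -/

/-- The group of positive rationals, written additively: `γ` is the rational `∏ p ^ γ p`. -/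
abbrev Gam : Type := Nat.Primes →₀ ℤ

/-- Numerator of the reduced fraction. -/
def num (γ : Gam) : ℕ := γ.prod fun p e => (p : ℕ) ^ e.toNat

/-- Denominator of the reduced fraction. -/
def den (γ : Gam) : ℕ := γ.prod fun p e => (p : ℕ) ^ (-e).toNat

/-- Logarithm of the rational. -/
def ell (γ : Gam) : ℝ := γ.sum fun p e => (e : ℝ) * Real.log (p : ℕ)

/-- Logarithm of the height `num γ * den γ`. -/
def ht (γ : Gam) : ℝ := γ.sum fun p e => |(e : ℝ)| * Real.log (p : ℕ)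

/-- The character `q ^ (-it)`. -/
def chr (γ : Gam) (t : ℝ) : ℂ := Complex.exp (-(Complex.I * (t * ell γ : ℝ)))

/-- Finite sum `∑ c(γ) q^{-it}`. -/
def D (S : Finset Gam) (c : Gam → ℝ) (t : ℝ) : ℂ := ∑ γ ∈ S, (c γ : ℂ) * chr γ t

/-! ### Weight functions -/

/-- Admissible weights: smooth, `0 ≤ w ≤ 1`, supported in `[c, 1]`, `c > 0`. -/
structure IsW (w : ℝ → ℝ) : Prop where
  smooth : ContDiff ℝ ((⊤ : ℕ∞) : WithTop ℕ∞) w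
  nonneg : ∀ u, 0 ≤ w u
  le_one : ∀ u, w u ≤ 1
  supp : ∃ c : ℝ, 0 < c ∧ ∀ u, w u ≠ 0 → c ≤ u ∧ u ≤ 1

/-- `∫ (i u)^j w(u) e^{iyu} du`. -/
def W (w : ℝ → ℝ) (j : ℕ) (y : ℝ) : ℂ :=
  ∫ u : ℝ, (Complex.I * u) ^ j * (w u : ℂ) * Complex.exp (Complex.I * (y * u : ℝ))

/-- total mass -/
def W0 (w : ℝ → ℝ) : ℝ := ∫ u : ℝ, w u

/-! ### The smooth sum approximating zeta -/

/-- `∑_k e^{-k/K} k^{-1/2-it}` (the term `k = 0` is zero). -/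
def P (K t : ℝ) : ℂ := ∑' k : ℕ, (Real.exp (-((k : ℝ) / K)) : ℂ) * (k : ℂ) ^ (-(1 / 2 + t * Complex.I))

/-- `F(a,b) = e^{-a/A - b/B} (ab)^{-1/2} W(T log (a/b))`; here `A = nK`, `B = mK`. -/
def F (w : ℝ → ℝ) (T A B a b : ℝ) : ℂ :=
  (Real.exp (-(a / A) - b / B) / Real.sqrt (a * b) : ℝ) * W w 0 (T * Real.log (a / b))

/-- `F(b+r,b)` for `2|r| ≤ b`, zero otherwise. -/
def fr (w : ℝ → ℝ) (T A B : ℝ) (r : ℤ) (b : ℕ) : ℂ :=
  if 2 * |r| ≤ (b : ℤ) then F w T A B ((b : ℝ) + r) b else 0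

/-! ### Quadruples -/

/-- Triples of elements of `Gam`; the fourth one is `γ₁ + γ₂ - γ₃`. -/
abbrev Quad : Type := Gam × Gam × Gam

/-- The fourth element. -/
def g4 (q : Quad) : Gam := q.1 + q.2.1 - q.2.2

/-- The five log-heights divided by `L`. -/
def xs (L : ℝ) (q : Quad) : Fin 5 → ℝ :=
  ![ht q.1 / L, ht q.2.1 / L, ht q.2.2 / L, ht (g4 q) / L, ht (q.1 + q.2.1) / L]

/-- `∏ h(q_i)^{-1/2}`. -/
def wt (q : Quad) : ℝ := Real.exp (-((ht q.1 + ht q.2.1 + ht q.2.2 + ht (g4 q)) / 2))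

/-- The exponent of the Dirichlet series in five variables. -/
def EX (s : Fin 5 → ℝ) (q : Quad) : ℝ :=
  (1 / 2 + s 0) * ht q.1 + (1 / 2 + s 1) * ht q.2.1 + (1 / 2 + s 2) * ht q.2.2 +
    (1 / 2 + s 3) * ht (g4 q) + s 4 * ht (q.1 + q.2.1)

/-- The Dirichlet series in five variables. -/
def Lam (s : Fin 5 → ℝ) : ℝ := ∑' q : Quad, Real.exp (-(EX s q))

/-- Local exponent. -/
def ex (s : Fin 5 → ℝ) (v : ℤ × ℤ × ℤ) : ℝ :=
  (1 / 2 + s 0) * |(v.1 : ℝ)| + (1 / 2 + s 1) * |(v.2.1 : ℝ)| + (1 / 2 + s 2) * |(v.2.2 : ℝ)| +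
    (1 / 2 + s 3) * |(v.1 : ℝ) + v.2.1 - v.2.2| + s 4 * |(v.1 : ℝ) + v.2.1|

/-- Local factor. -/
def Sp (p : Nat.Primes) (s : Fin 5 → ℝ) : ℝ := ∑' v : ℤ × ℤ × ℤ, ((p : ℕ) : ℝ) ^ (-(ex s v))

/-- The six sums `λ_i + λ_j (+ λ_4)`. -/
def sij (s : Fin 5 → ℝ) : Fin 6 → ℝ :=
  ![s 0 + s 1, s 2 + s 3, s 0 + s 2 + s 4, s 0 + s 3 + s 4, s 1 + s 2 + s 4, s 1 + s 3 + s 4]

/-- Twelve inverse zeta factors. -/
def Zf (p : Nat.Primes) (s : Fin 5 → ℝ) : ℝ :=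
  ∏ i : Fin 6, (1 - ((p : ℕ) : ℝ) ^ (-(1 + sij s i))) ^ 2

/-! ### The limit measure -/

/-- `t dt` on `(0,∞)`. -/
def rho : Measure ℝ := (volume.restrict (Ioi (0 : ℝ))).withDensity fun t => ENNReal.ofReal t

/-- Variables `(d, c, b, a, J, J')`. -/
abbrev T6 : Type := ℝ × ℝ × ℝ × ℝ × ℝ × ℝ

/-- The measure `∏ t dt`. -/
def mu6 : Measure T6 := rho.prod (rho.prod (rho.prod (rho.prod (rho.prod rho))))

/-- The five statistics `J+a+b, J+c+d, J'+a+c, J'+b+d, a+b+c+d` of `(d, c, b, a, J, J')`. -/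
def xx (d c b a J J' : ℝ) : Fin 5 → ℝ :=
  ![J + a + b, J + c + d, J' + a + c, J' + b + d, a + b + c + d]

/-- The five statistics of a point of `T6`. -/
def xt (t : T6) : Fin 5 → ℝ := xx t.1 t.2.1 t.2.2.1 t.2.2.2.1 t.2.2.2.2.1 t.2.2.2.2.2

/-- The limit functional. -/
def Jf (G : (Fin 5 → ℝ) → ℝ) : ℝ := ∫ t, G (xt t) ∂mu6

/-- The arithmetic functional. -/
def AL (G : (Fin 5 → ℝ) → ℝ) (L : ℝ) : ℝ := ∑' q : Quad, wt q * G (xs L q)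

/-! ### Test functions -/

/-- Profiles `η` of width `κ`, supported in `[1/3 - 4κ, 1/3 - 3κ]`. -/
structure IsEta (κ : ℝ) (η : ℝ → ℝ) : Prop where
  cont : Continuous η
  nonneg : ∀ x, 0 ≤ η x
  supp : ∀ x, η x ≠ 0 → 1 / 3 - 4 * κ ≤ x ∧ x ≤ 1 / 3 - 3 * κ
  mass : ∫ x, η x = 1

/-- `(1 - ε - |x|)_+`. -/
def pz (ε x : ℝ) : ℝ := max 0 (1 - ε - |x|)

/-- A continuous cut-off: `1` for `|x| ≤ 2/3 - 2κ`, `0` for `|x| ≥ 2/3 - κ`. -/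
def gc (κ x : ℝ) : ℝ := max 0 (min 1 ((2 / 3 - κ - |x|) / κ))

/-- A continuous cut-off: `1` for `|x| ≤ 1`, `0` for `|x| ≥ 2`. -/
def kc (x : ℝ) : ℝ := max 0 (min 1 (2 - |x|))

/-- The function of the numerator. -/
def GX (κ : ℝ) (η : ℝ → ℝ) (x : Fin 5 → ℝ) : ℝ :=
  pz κ (x 0) * η (x 1) * pz κ (x 2) * η (x 3) * gc κ (x 4)

/-- The function of the denominator. -/
def GY (η : ℝ → ℝ) (x : Fin 5 → ℝ) : ℝ :=
  η (x 0) * η (x 1) * η (x 2) * η (x 3) * kc (x 4)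

/-- Coefficients of the pair function `H`. -/
def Hc (η : ℝ → ℝ) (L : ℝ) (γ : Gam) : ℝ := Real.exp (-(ht γ / 2)) * η (ht γ / L)

/-- Lower bounds for the coefficients of `|zeta|^2`. -/
def cc (κ L : ℝ) (γ : Gam) : ℝ := L * (Real.exp (-(ht γ / 2)) * pz κ (ht γ / L))

end Pool.Agent.Work.MP_56b8f5_nt.EM
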