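import Pool.Agent.Work.MP_56b8f5_nt.EM.Stmts

/-!
MP_56b8f5_nt, block EM, item A4: the arithmetic factor is a convergent positive product.
-/

open MeasureTheory Set Filter Topology

noncomputable section

namespace Pool.Agent.Work.MP_56b8f5_nt.EM

private lemma a4_summable (C : ℝ) :
    Summable (fun p : Nat.Primes => C / ((p : ℕ) : ℝ) ^ 2) := by
  have h : Summable (fun p : Nat.Primes => ((p : ℕ) : ℝ) ^ (-2 : ℝ)) :=
    Nat.Primes.summable_rpow.2 (by norm_num)
  have h2 := h.mul_left C
  refine h2.congr fun p => ?_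
  have hp : (0 : ℝ) ≤ ((p : ℕ) : ℝ) := Nat.cast_nonneg _
  rw [Real.rpow_neg hp, div_eq_mul_inv]
  norm_num

theorem iA4 (h1 : StLoc1) (h3 : StLoc3) : StA4 := by
  obtain ⟨C, hC, hb⟩ := h1
  have hb0 := fun p : Nat.Primes => hb p 0 (fun i => le_refl 0)
  have hpos : ∀ p : Nat.Primes, 0 < a4f p := by
    intro p
    rw [← h3 p]
    exact mul_pos (lt_of_lt_of_le one_pos (hb0 p).2.1) (hb0 p).2.2.1
  have hs : Summable (fun p : Nat.Primes => a4f p - 1) := by
    refine Summable.of_norm_bounded (a4_summable C) (fun p => ?_)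
    rw [Real.norm_eq_abs, ← h3 p]
    exact (hb0 p).2.2.2
  have hl : Summable (fun p : Nat.Primes => Real.log (a4f p)) := by
    have h := Real.summable_log_one_add_of_summable hs
    refine h.congr fun p => ?_
    congr 1
    ring
  refine ⟨Real.multipliable_of_summable_log hpos hl, ?_⟩
  unfold a4
  rw [← Real.rexp_tsum_eq_tprod hpos hl]
  exact Real.exp_pos _

end Pool.Agent.Work.MP_56b8f5_nt.EM
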