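import Pool.Agent.Work.MP_56b8f5_nt.EM.Stmts

set_option autoImplicit false

open MeasureTheory Set Filter Topology

noncomputable section

namespace Pool.Agent.Work.MP_56b8f5_nt.EM

namespace IAr

theorem ht_nonneg (γ : Gam) : 0 ≤ ht γ := by
  unfold ht Finsupp.sum
  refine Finset.sum_nonneg fun p _ => mul_nonneg (abs_nonneg _) (Real.log_nonneg ?_)
  exact_mod_cast p.2.one_lt.le

/-- The arithmetic measure. -/
def ML (L : ℝ) : Measure (Fin 5 → ℝ) :=
  Measure.sum fun q : Quad => ENNReal.ofReal (wt q / L ^ 12) • Measure.dirac (xs L q)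

theorem wt_nonneg (q : Quad) : 0 ≤ wt q := (Real.exp_pos _).le

theorem toR (L : ℝ) (q : Quad) : (ENNReal.ofReal (wt q / L ^ 12)).toReal = wt q / L ^ 12 :=
  ENNReal.toReal_ofReal (div_nonneg (wt_nonneg q) (Even.pow_nonneg (by decide) _))

instance : Countable Quad := by
  unfold Quad Gam
  infer_instance

theorem int_ML (L : ℝ) (f : (Fin 5 → ℝ) → ℝ) :
    ∫ x, f x ∂(ML L) = (∑' q : Quad, wt q * f (xs L q)) / L ^ 12 := by
  unfold ML
  rw [integral_sum_dirac (fun q => ENNReal.ofReal_ne_top), ← tsum_div_const]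
  congr 1
  funext q
  rw [toR, smul_eq_mul]
  ring

theorem ae_ML (L : ℝ) (hL : 0 < L) : ∀ᵐ x ∂(ML L), ∀ i, 0 ≤ x i := by
  unfold ML
  rw [Measure.ae_sum_iff]
  intro q
  refine Measure.ae_smul_measure ?_ _
  have hms : MeasurableSet {x : Fin 5 → ℝ | ∀ i, 0 ≤ x i} := by
    have : {x : Fin 5 → ℝ | ∀ i, 0 ≤ x i} = ⋂ i, {x | 0 ≤ x i} := by ext x; simp
    rw [this]
    exact MeasurableSet.iInter fun i => measurableSet_le measurable_const (measurable_pi_apply i)
  rw [ae_dirac_iff hms]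
  intro i
  fin_cases i <;> simp [xs] <;> exact div_nonneg (ht_nonneg _) hL.le

theorem ae_rho : ∀ᵐ t ∂rho, (0 : ℝ) ≤ t := by
  unfold rho
  refine (withDensity_absolutelyContinuous _ _).ae_le ?_
  have h : ∀ᵐ t ∂(volume.restrict (Ioi (0 : ℝ))), (0 : ℝ) ≤ t := by
    rw [ae_restrict_iff' measurableSet_Ioi]
    exact ae_of_all _ fun t ht => (mem_Ioi.1 ht).le
  exact h

instance : SFinite rho := by unfold rho; infer_instance

theorem ae_mu6 : ∀ᵐ t ∂mu6, ∀ i, 0 ≤ xt t i := by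
  unfold mu6
  have h5 : ∀ᵐ t ∂(rho.prod rho), 0 ≤ t.1 ∧ 0 ≤ t.2 := by
    filter_upwards [(Measure.quasiMeasurePreserving_fst (μ := rho) (ν := rho)).ae ae_rho,
      (Measure.quasiMeasurePreserving_snd (μ := rho) (ν := rho)).ae ae_rho] with t h1 h2
    exact ⟨h1, h2⟩
  have h4 : ∀ᵐ t ∂(rho.prod (rho.prod rho)), 0 ≤ t.1 ∧ 0 ≤ t.2.1 ∧ 0 ≤ t.2.2 := by
    filter_upwards [(Measure.quasiMeasurePreserving_fst (μ := rho) (ν := rho.prod rho)).ae ae_rho,
      (Measure.quasiMeasurePreserving_snd (μ := rho) (ν := rho.prod rho)).ae h5] with t h1 h2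
    exact ⟨h1, h2⟩
  have h3 : ∀ᵐ t ∂(rho.prod (rho.prod (rho.prod rho))), 0 ≤ t.1 ∧ 0 ≤ t.2.1 ∧ 0 ≤ t.2.2.1 ∧
      0 ≤ t.2.2.2 := by
    filter_upwards [(Measure.quasiMeasurePreserving_fst (μ := rho)
      (ν := rho.prod (rho.prod rho))).ae ae_rho,
      (Measure.quasiMeasurePreserving_snd (μ := rho) (ν := rho.prod (rho.prod rho))).ae h4]
      with t h1 h2
    exact ⟨h1, h2⟩
  have h2 : ∀ᵐ t ∂(rho.prod (rho.prod (rho.prod (rho.prod rho)))), 0 ≤ t.1 ∧ 0 ≤ t.2.1 ∧
      0 ≤ t.2.2.1 ∧ 0 ≤ t.2.2.2.1 ∧ 0 ≤ t.2.2.2.2 := by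
    filter_upwards [(Measure.quasiMeasurePreserving_fst (μ := rho)
      (ν := rho.prod (rho.prod (rho.prod rho)))).ae ae_rho,
      (Measure.quasiMeasurePreserving_snd (μ := rho)
        (ν := rho.prod (rho.prod (rho.prod rho)))).ae h3] with t h1 h2
    exact ⟨h1, h2⟩
  filter_upwards [(Measure.quasiMeasurePreserving_fst (μ := rho)
      (ν := rho.prod (rho.prod (rho.prod (rho.prod rho))))).ae ae_rho,
      (Measure.quasiMeasurePreserving_snd (μ := rho)
        (ν := rho.prod (rho.prod (rho.prod (rho.prod rho))))).ae h2] with t h1 h2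
  obtain ⟨a2, a3, a4', a5, a6⟩ := h2
  intro i
  fin_cases i <;> simp [xt, xx] <;> positivity

theorem meas_xt : Measurable xt := by
  rw [measurable_pi_iff]
  intro i
  fin_cases i <;> simp [xt, xx] <;> fun_prop

/-- The limit measure. -/
def M0 : Measure (Fin 5 → ℝ) := ENNReal.ofReal a4 • (mu6.map xt)

theorem int_M0 (ha : 0 ≤ a4) (f : (Fin 5 → ℝ) → ℝ) (hf : Continuous f) :
    ∫ x, f x ∂M0 = a4 * ∫ t, f (xt t) ∂mu6 := by
  unfold M0
  rw [integral_smul_measure, integral_map meas_xt.aemeasurable hf.aestronglyMeasurable,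
    ENNReal.toReal_ofReal ha, smul_eq_mul]

end IAr

open IAr in
theorem iAR (hK : StKar) (hL : StLap) (hJ : StJL) (hG : StGam) (hA : StA4) : StAr := by
  intro G hG' hGs
  have ha : 0 ≤ a4 := hA.2.le
  have hcont : ∀ k : Fin 5 → ℕ, Continuous fun x : Fin 5 → ℝ =>
      Real.exp (-(∑ i, (k i : ℝ) * x i)) := by
    intro k; fun_prop
  have key := hK ML M0 (fun L hL0 => ae_ML L hL0) (by
    unfold M0
    refine Measure.ae_smul_measure ?_ _
    have hms : MeasurableSet {x : Fin 5 → ℝ | ∀ i, 0 ≤ x i} := by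
      have : {x : Fin 5 → ℝ | ∀ i, 0 ≤ x i} = ⋂ i, {x | 0 ≤ x i} := by ext x; simp
      rw [this]
      exact MeasurableSet.iInter fun i => measurableSet_le measurable_const (measurable_pi_apply i)
    rw [ae_map_iff meas_xt.aemeasurable hms]
    exact ae_mu6) (by
    intro k hk'
    have hlam : ∀ i, (0 : ℝ) < (k i : ℝ) := fun i => by exact_mod_cast hk' i
    obtain ⟨l1, l2⟩ := hL (fun i => (k i : ℝ)) hlam
    obtain ⟨j1, j2⟩ := hJ (fun i => (k i : ℝ)) hlam
    refine ⟨fun L hL0 => ?_, ?_, ?_⟩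
    · unfold ML
      rw [integrable_sum_dirac_iff fun q => ENNReal.ofReal_ne_top]
      have := (l1 L hL0).div_const (L ^ 12)
      refine this.congr fun q => ?_
      rw [toR, Real.norm_eq_abs, abs_of_pos (Real.exp_pos _)]
      ring
    · unfold M0
      refine Integrable.smul_measure ?_ ENNReal.ofReal_ne_top
      rw [integrable_map_measure (hcont k).aestronglyMeasurable meas_xt.aemeasurable]
      exact j1
    · rw [int_M0 ha _ (hcont k), j2]
      simp only [int_ML]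
      exact l2) G hG' hGs
  rw [int_M0 ha G hG'] at key
  simp only [int_ML] at key
  exact key

end Pool.Agent.Work.MP_56b8f5_nt.EM
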