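import Pool.Agent.Work.MP_56b8f5_nt.EM.Stmts

/-!
MP_56b8f5_nt, block EM: the two Cauchy-Schwarz steps.
-/

open MeasureTheory Set Filter Topology

noncomputable section

namespace Pool.Agent.Work.MP_56b8f5_nt.EM

/-- Cauchy-Schwarz with a weight. -/
theorem cs_weight (w a b : ℝ → ℝ) (hw : ∀ u, 0 ≤ w u)
    (haa : Integrable fun u => w u * a u ^ 2) (hab : Integrable fun u => w u * (a u * b u))
    (hbb : Integrable fun u => w u * b u ^ 2) :
    (∫ u, w u * (a u * b u)) ^ 2 ≤ (∫ u, w u * a u ^ 2) * ∫ u, w u * b u ^ 2 := by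
  have key : ∀ x : ℝ, 0 ≤ (∫ u, w u * b u ^ 2) * (x * x) + (2 * ∫ u, w u * (a u * b u)) * x +
      ∫ u, w u * a u ^ 2 := by
    intro x
    have h1 : (∫ u, w u * b u ^ 2) * (x * x) + (2 * ∫ u, w u * (a u * b u)) * x +
        ∫ u, w u * a u ^ 2 = ∫ u, w u * (a u + x * b u) ^ 2 := by
      have e : (fun u => w u * (a u + x * b u) ^ 2) = fun u =>
          (w u * b u ^ 2) * (x * x) + (w u * (a u * b u)) * (2 * x) + w u * a u ^ 2 := by
        funext u; ring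
      rw [e, integral_add, integral_add, integral_mul_const, integral_mul_const]
      · ring
      · exact hbb.mul_const _
      · exact hab.mul_const _
      · exact (hbb.mul_const _).add (hab.mul_const _)
      · exact haa
    rw [h1]
    exact integral_nonneg fun u => mul_nonneg (hw u) (sq_nonneg _)
  have h := discrim_le_zero key
  unfold discrim at h
  nlinarith

theorem cs_hcs {w : ℝ → ℝ} (hw : IsW w) : HasCompactSupport w := by
  obtain ⟨c, hc, h⟩ := hw.supp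
  refine HasCompactSupport.intro (isCompact_Icc (a := c) (b := 1)) ?_
  intro x hx
  by_contra h0
  exact hx ⟨(h x h0).1, (h x h0).2⟩

theorem cs_int_mul {w : ℝ → ℝ} (hw : IsW w) {g : ℝ → ℝ} (hg : Continuous g) :
    Integrable fun u => w u * g u :=
  (hw.smooth.continuous.mul hg).integrable_of_hasCompactSupport ((cs_hcs hw).mul_right)

theorem cs_int_mulC {w : ℝ → ℝ} (hw : IsW w) {g : ℝ → ℂ} (hg : Continuous g) :
    Integrable fun u => (w u : ℂ) * g u := by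
  refine ((Complex.continuous_ofReal.comp hw.smooth.continuous).mul hg).integrable_of_hasCompactSupport ?_
  refine HasCompactSupport.mul_right ?_
  exact (cs_hcs hw).comp_left (g := fun x : ℝ => (x : ℂ)) (by simp)

theorem cs_Zt_cont : Continuous Zt := by
  have h : Continuous fun t : ℝ => riemannZeta (1 / 2 + t * Complex.I) := by
    rw [continuous_iff_continuousAt]
    intro t
    have h1 : ContinuousAt riemannZeta (1 / 2 + t * Complex.I) := by
      refine (differentiableAt_riemannZeta ?_).continuousAt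
      intro h
      have := congrArg Complex.re h
      simp at this
    exact ContinuousAt.comp (f := fun t : ℝ => (1 / 2 + t * Complex.I : ℂ)) (x := t) h1
      (by fun_prop)
  unfold Zt
  exact (continuous_norm.comp h).pow 2

theorem cs_Zt_nonneg (t : ℝ) : 0 ≤ Zt t := by unfold Zt; positivity

theorem cs_int_Zt_le (w : ℝ → ℝ) (hw : IsW w) (T : ℝ) (hT : 0 < T) :
    ∫ u : ℝ, w u * (Zt (T * u) ^ 2) ^ 2 ≤ M4 T := by
  obtain ⟨c, hc, h⟩ := hw.supp
  have hcont : Continuous fun u : ℝ => (Zt (T * u) ^ 2) ^ 2 := by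
    have := cs_Zt_cont
    fun_prop
  have h1 : ∫ u : ℝ, w u * (Zt (T * u) ^ 2) ^ 2 =
      ∫ u in Ioc (0 : ℝ) 1, w u * (Zt (T * u) ^ 2) ^ 2 := by
    rw [setIntegral_eq_integral_of_forall_compl_eq_zero]
    intro x hx
    have : w x = 0 := by
      by_contra h0
      exact hx ⟨lt_of_lt_of_le hc (h x h0).1, (h x h0).2⟩
    rw [this, zero_mul]
  have h2 : M4 T = ∫ u in Ioc (0 : ℝ) 1, (Zt (T * u) ^ 2) ^ 2 := by
    unfold M4
    have h3 := intervalIntegral.integral_comp_mul_left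
      (fun t : ℝ => ‖riemannZeta (1 / 2 + t * Complex.I)‖ ^ 8) (a := 0) (b := 1) hT.ne'
    rw [mul_zero, mul_one] at h3
    rw [← intervalIntegral.integral_of_le (by norm_num : (0 : ℝ) ≤ 1)]
    have h4 : (∫ x in (0 : ℝ)..1, (fun t : ℝ => ‖riemannZeta (1 / 2 + t * Complex.I)‖ ^ 8) (T * x)) =
        ∫ u in (0 : ℝ)..1, (Zt (T * u) ^ 2) ^ 2 := by
      refine intervalIntegral.integral_congr fun x _ => ?_
      simp only [Zt]
      ring
    rw [← h4, h3, smul_eq_mul, one_div]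
  rw [h1, h2]
  refine setIntegral_mono_on ?_ ?_ measurableSet_Ioc ?_
  · exact (cs_int_mul hw hcont).integrableOn
  · exact (hcont.integrableOn_Icc (a := 0) (b := 1)).mono_set Ioc_subset_Icc_self
  · intro x _
    have := hw.le_one x
    have h5 : 0 ≤ (Zt (T * x) ^ 2) ^ 2 := by positivity
    nlinarith [hw.nonneg x]

theorem iCS : StCS := by
  intro w hw T hT h f hh hf
  have hZ : Continuous fun u : ℝ => Zt (T * u) := by
    have := cs_Zt_cont
    fun_prop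
  set A : ℝ := ∫ u : ℝ, w u * (Zt (T * u) * ‖h u‖ * ‖f u‖) with hA
  set B : ℝ := ∫ u : ℝ, w u * (Zt (T * u) * ‖h u‖) ^ 2 with hB
  have hnh : Continuous fun u => ‖h u‖ := continuous_norm.comp hh
  have hnf : Continuous fun u => ‖f u‖ := continuous_norm.comp hf
  have s1 : ‖∫ u : ℝ, ((w u * Zt (T * u) : ℝ) : ℂ) * (h u * (starRingEnd ℂ) (f u))‖ ≤ A := by
    refine (norm_integral_le_integral_norm _).trans (le_of_eq ?_)
    rw [hA]
    congr 1
    funext u
    rw [norm_mul, norm_mul, Complex.norm_real, RCLike.norm_conj, Real.norm_eq_abs,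
      abs_of_nonneg (mul_nonneg (hw.nonneg u) (cs_Zt_nonneg _))]
    ring
  have s2 : A ^ 2 ≤ B * ∫ u : ℝ, w u * ‖f u‖ ^ 2 := by
    refine cs_weight w (fun u => Zt (T * u) * ‖h u‖) (fun u => ‖f u‖) hw.nonneg ?_ ?_ ?_
    · exact cs_int_mul hw ((hZ.mul hnh).pow 2)
    · exact cs_int_mul hw ((hZ.mul hnh).mul hnf)
    · exact cs_int_mul hw (hnf.pow 2)
  have s3 : B ^ 2 ≤ (∫ u : ℝ, w u * (Zt (T * u) ^ 2) ^ 2) * ∫ u : ℝ, w u * ‖h u‖ ^ 4 := by
    have h1 := cs_weight w (fun u => Zt (T * u) ^ 2) (fun u => ‖h u‖ ^ 2) hw.nonneg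
      (cs_int_mul hw ((hZ.pow 2).pow 2)) (cs_int_mul hw ((hZ.pow 2).mul (hnh.pow 2)))
      (cs_int_mul hw ((hnh.pow 2).pow 2))
    have e1 : B = ∫ u : ℝ, w u * (Zt (T * u) ^ 2 * ‖h u‖ ^ 2) := by
      rw [hB]; congr 1; funext u; ring
    have e2 : ∫ u : ℝ, w u * ‖h u‖ ^ 4 = ∫ u : ℝ, w u * (‖h u‖ ^ 2) ^ 2 := by
      congr 1; funext u; ring
    rw [e1, e2]
    exact h1
  have s4 := cs_int_Zt_le w hw T hT
  have p0 : 0 ≤ A := integral_nonneg fun u => mul_nonneg (hw.nonneg u)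
    (mul_nonneg (mul_nonneg (cs_Zt_nonneg _) (norm_nonneg _)) (norm_nonneg _))
  have p1 : 0 ≤ B := integral_nonneg fun u => mul_nonneg (hw.nonneg u) (sq_nonneg _)
  have p2 : 0 ≤ ∫ u : ℝ, w u * ‖f u‖ ^ 2 :=
    integral_nonneg fun u => mul_nonneg (hw.nonneg u) (sq_nonneg _)
  have p3 : 0 ≤ ∫ u : ℝ, w u * ‖h u‖ ^ 4 :=
    integral_nonneg fun u => mul_nonneg (hw.nonneg u) (by positivity)
  calc ‖∫ u : ℝ, ((w u * Zt (T * u) : ℝ) : ℂ) * (h u * (starRingEnd ℂ) (f u))‖ ^ 4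
      ≤ A ^ 4 := by gcongr
    _ = (A ^ 2) ^ 2 := by ring
    _ ≤ (B * ∫ u : ℝ, w u * ‖f u‖ ^ 2) ^ 2 := by gcongr
    _ = B ^ 2 * (∫ u : ℝ, w u * ‖f u‖ ^ 2) ^ 2 := by ring
    _ ≤ ((∫ u : ℝ, w u * (Zt (T * u) ^ 2) ^ 2) * ∫ u : ℝ, w u * ‖h u‖ ^ 4) *
        (∫ u : ℝ, w u * ‖f u‖ ^ 2) ^ 2 := by gcongr
    _ ≤ (M4 T * ∫ u : ℝ, w u * ‖h u‖ ^ 4) * (∫ u : ℝ, w u * ‖f u‖ ^ 2) ^ 2 := by gcongr

end Pool.Agent.Work.MP_56b8f5_nt.EM
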