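import Pool.Agent.Work.MP_56b8f5_nt.EM.Stmts

/-!
MP_56b8f5_nt, block EM, item ELL (12130): `ell γ` is not too small.
-/

open MeasureTheory Set Filter Topology

noncomputable section

namespace Pool.Agent.Work.MP_56b8f5_nt.EM

/-- The elementary inequality. -/
lemma ell_aux1 (a b : ℕ) (ha : 0 < a) (hab : a < b) :
    (Real.sqrt ((a : ℝ) * b))⁻¹ / 2 ≤ Real.log b - Real.log a := by
  have ha0 : (0 : ℝ) < a := by exact_mod_cast ha
  have ha1 : (1 : ℝ) ≤ a := by exact_mod_cast ha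
  have hb1 : (a : ℝ) + 1 ≤ b := by exact_mod_cast hab
  have hb0 : (0 : ℝ) < b := by linarith
  have hs : (a : ℝ) ≤ Real.sqrt ((a : ℝ) * b) := by
    apply Real.le_sqrt_of_sq_le
    nlinarith
  have hs0 : 0 < Real.sqrt ((a : ℝ) * b) := by linarith
  have h1 : 1 - ((b : ℝ) / a)⁻¹ ≤ Real.log ((b : ℝ) / a) :=
    Real.one_sub_inv_le_log_of_pos (by positivity)
  rw [Real.log_div hb0.ne' ha0.ne'] at h1
  refine le_trans ?_ h1
  have e : 1 - ((b : ℝ) / a)⁻¹ = (b - a) / b := by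
    field_simp
  rw [e, inv_eq_one_div, div_div, div_le_div_iff₀ (by positivity) hb0]
  have h2 : (a : ℝ) * 1 ≤ Real.sqrt ((a : ℝ) * b) * 1 := by linarith
  nlinarith [mul_le_mul_of_nonneg_left hs (by linarith : (0 : ℝ) ≤ b - a)]

/-- `ell γ` is not too small. -/
theorem iELL (h : StGam) : StEll := by
  obtain ⟨hg, hne, -⟩ := h
  intro γ hγ
  obtain ⟨hn, hd, -, hl, hh, -⟩ := hg γ
  have hn0 : (0 : ℝ) < num γ := by exact_mod_cast hn
  have hd0 : (0 : ℝ) < den γ := by exact_mod_cast hd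
  have hx : (0 : ℝ) < (num γ : ℝ) * (den γ : ℝ) := by positivity
  have he : Real.exp (-(ht γ / 2)) = (Real.sqrt ((num γ : ℝ) * den γ))⁻¹ := by
    rw [Real.exp_neg, Real.exp_half, hh, Real.exp_log hx]
  rw [he, hl]
  rcases lt_trichotomy (num γ) (den γ) with h1 | h1 | h1
  · have h2 := ell_aux1 _ _ hn h1
    rw [abs_sub_comm]
    exact h2.trans (le_abs_self _)
  · exact absurd (hne γ h1) hγ
  · have h2 := ell_aux1 _ _ hd h1
    rw [mul_comm] at h2
    exact h2.trans (le_abs_self _)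

end Pool.Agent.Work.MP_56b8f5_nt.EM
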