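import Pool.Agent.Work.MP_56b8f5_nt.EM.Stmts

/-!
MP_56b8f5_nt, block EM, item EP: the general Euler product over finitely supported functions.
-/

open MeasureTheory Set Filter Topology

noncomputable section

namespace Pool.Agent.Work.MP_56b8f5_nt.EM

/-- Separation of one coordinate. -/
def ep_equiv {ι M : Type} [DecidableEq ι] [Zero M] (j : ι) :
    (ι →₀ M) ≃ M × {x : ι →₀ M // x ∈ {y : ι →₀ M | y j = 0}} where
  toFun x := (x j, ⟨x.erase j, by simp⟩)
  invFun p := p.2.1.update j p.1
  left_inv x := by
    ext i
    simp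
  right_inv p := by
    obtain ⟨m, x, hx⟩ := p
    have hx' : x j = 0 := hx
    refine Prod.ext ?_ (Subtype.ext ?_)
    · simp
    · ext i
      by_cases h : i = j
      · subst h; simp [hx']
      · simp [Finsupp.erase_ne h]

/-- The part of the sum over functions supported in `S`. -/
def ep_G {ι M : Type} [DecidableEq ι] [Zero M] (f : ι → M → ENNReal) (S : Finset ι)
    (x : ι →₀ M) : ENNReal :=
  if x.support ⊆ S then ∏ i ∈ S, f i (x i) else 0

theorem ep_step {ι M : Type} [DecidableEq ι] [Zero M] (f : ι → M → ENNReal) (S : Finset ι)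
    (j : ι) (hj : j ∉ S) (m : M) (x : ι →₀ M) (hx : x j = 0) :
    ep_G f (insert j S) (x.update j m) = f j m * ep_G f S x := by
  have hprod : ∏ i ∈ insert j S, f i ((x.update j m) i) = f j m * ∏ i ∈ S, f i (x i) := by
    rw [Finset.prod_insert hj]
    congr 1
    · simp
    · refine Finset.prod_congr rfl fun i hi => ?_
      have : i ≠ j := fun h => hj (h ▸ hi)
      rw [Finsupp.update_apply, if_neg this]
  have hiff : (x.update j m).support ⊆ insert j S ↔ x.support ⊆ S := by
    constructor
    · intro h i hi
      have hij : i ≠ j := by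
        intro h'
        rw [h', Finsupp.mem_support_iff] at hi
        exact hi hx
      have : i ∈ (x.update j m).support := by
        rw [Finsupp.mem_support_iff, Finsupp.update_apply, if_neg hij]
        exact Finsupp.mem_support_iff.1 hi
      rcases Finset.mem_insert.1 (h this) with h1 | h1
      · exact absurd h1 hij
      · exact h1
    · intro h i hi
      by_cases hij : i = j
      · exact Finset.mem_insert.2 (Or.inl hij)
      · rw [Finsupp.mem_support_iff, Finsupp.update_apply, if_neg hij] at hi
        exact Finset.mem_insert.2 (Or.inr (h (Finsupp.mem_support_iff.2 hi)))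
  unfold ep_G
  by_cases h : x.support ⊆ S
  · rw [if_pos h, if_pos (hiff.2 h), hprod]
  · rw [if_neg h, if_neg (fun h' => h (hiff.1 h')), mul_zero]

theorem ep_prod {ι M : Type} [DecidableEq ι] [Zero M] (f : ι → M → ENNReal) (S : Finset ι) :
    ∑' x : ι →₀ M, ep_G f S x = ∏ i ∈ S, ∑' m : M, f i m := by
  induction S using Finset.induction_on with
  | empty =>
    rw [tsum_eq_single 0]
    · simp [ep_G]
    · intro x hx
      have : ¬ x.support ⊆ ∅ := by
        intro h
        exact hx (Finsupp.support_eq_empty.1 (Finset.subset_empty.1 h))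
      simp only [ep_G]
      rw [if_neg this]
  | insert j S hj ih =>
    have h0 := ENNReal.tsum_prod (f := fun (m : M) (b : {x : ι →₀ M // x ∈ {y : ι →₀ M | y j = 0}}) =>
      ep_G f (insert j S) ((ep_equiv (M := M) j).symm (m, b)))
    rw [Finset.prod_insert hj, ← ih, ← (ep_equiv (M := M) j).symm.tsum_eq (ep_G f (insert j S))]
    refine h0.trans ?_
    have h1 : ∀ m : M, ∑' b : {x : ι →₀ M // x ∈ {y : ι →₀ M | y j = 0}},
        ep_G f (insert j S) ((ep_equiv (M := M) j).symm (m, b)) =
        f j m * ∑' x : ι →₀ M, ep_G f S x := by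
      intro m
      have h2 : ∑' b : {x : ι →₀ M // x ∈ {y : ι →₀ M | y j = 0}}, ep_G f S b.1 =
          ∑' x : ι →₀ M, ep_G f S x := by
        refine tsum_subtype_eq_of_support_subset (f := ep_G f S) (s := {y : ι →₀ M | y j = 0}) ?_
        intro x hx
        have hx' : ep_G f S x ≠ 0 := hx
        unfold ep_G at hx'
        have hs : x.support ⊆ S := by
          by_contra h
          exact hx' (if_neg h)
        show x j = 0
        by_contra h
        exact hj (hs (Finsupp.mem_support_iff.2 h))
      rw [← h2, ← ENNReal.tsum_mul_left]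
      refine tsum_congr fun b => ?_
      exact ep_step f S j hj m b.1 b.2
    rw [tsum_congr h1, ENNReal.tsum_mul_right]

theorem ep_support {ι M : Type} [DecidableEq ι] [Zero M] (f : ι → M → ENNReal)
    (hf : ∀ i, f i 0 = 1) (S : Finset ι) (x : ι →₀ M) (h : x.support ⊆ S) :
    ep_G f S x = ∏ i ∈ x.support, f i (x i) := by
  unfold ep_G
  rw [if_pos h]
  refine (Finset.prod_subset h fun i _ hi => ?_).symm
  rw [Finsupp.notMem_support_iff.1 hi, hf]

theorem iEP : StEP := by
  intro ι M _ _ _ f hf
  refine le_antisymm ?_ ?_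
  · rw [ENNReal.tsum_eq_iSup_sum]
    refine iSup_le fun s => ?_
    refine le_trans ?_ (le_iSup (fun S : Finset ι => ∏ i ∈ S, ∑' m : M, f i m)
      (s.biUnion fun x => x.support))
    show _ ≤ ∏ i ∈ (s.biUnion fun x => x.support), ∑' m : M, f i m
    rw [← ep_prod f (s.biUnion fun x => x.support)]
    refine le_trans (le_of_eq ?_) (ENNReal.sum_le_tsum s)
    refine Finset.sum_congr rfl fun x hx => ?_
    exact (ep_support f hf _ x (Finset.subset_biUnion_of_mem (fun x : ι →₀ M => x.support) hx)).symm
  · refine iSup_le fun S => ?_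
    rw [← ep_prod f S]
    refine ENNReal.tsum_le_tsum fun x => ?_
    by_cases h : x.support ⊆ S
    · exact le_of_eq (ep_support f hf S x h)
    · unfold ep_G
      rw [if_neg h]
      exact zero_le

end Pool.Agent.Work.MP_56b8f5_nt.EM
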