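import Pool.Agent.Work.MP_56b8f5_nt.EM.Stmts

/-!
MP_56b8f5_nt, block EM, item EQ: triples of exponent vectors as finitely supported functions on the
primes, and the Euler factorisation of `exp (-EX)`.
-/

open MeasureTheory Set Filter Topology

noncomputable section

namespace Pool.Agent.Work.MP_56b8f5_nt.EM

/-- The equivalence. -/
def eq_eqv : Quad ≃ (Nat.Primes →₀ ℤ × ℤ × ℤ) where
  toFun q := Finsupp.zipWith (fun a b => (a, b)) rfl q.1
    (Finsupp.zipWith (fun a b => (a, b)) rfl q.2.1 q.2.2)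
  invFun f := (Finsupp.mapRange (fun v => v.1) rfl f, Finsupp.mapRange (fun v => v.2.1) rfl f,
    Finsupp.mapRange (fun v => v.2.2) rfl f)
  left_inv q := by
    obtain ⟨a, b, c⟩ := q
    refine Prod.ext ?_ (Prod.ext ?_ ?_)
    · ext p
      simp [Finsupp.zipWith_apply]
    · ext p
      simp [Finsupp.zipWith_apply]
    · ext p
      simp [Finsupp.zipWith_apply]
  right_inv f := by
    ext p
    · simp [Finsupp.zipWith_apply]
    · simp [Finsupp.zipWith_apply]
    · simp [Finsupp.zipWith_apply]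

lemma eq_apply (q : Quad) (p : Nat.Primes) : eq_eqv q p = (q.1 p, q.2.1 p, q.2.2 p) := by
  simp [eq_eqv, Finsupp.zipWith_apply]

lemma eq_ht (γ : Gam) (S : Finset Nat.Primes) (h : ∀ p, p ∉ S → γ p = 0) :
    ht γ = ∑ p ∈ S, |(γ p : ℝ)| * Real.log ((p : ℕ) : ℝ) := by
  unfold ht
  refine Finsupp.sum_of_support_subset γ (fun p hp => ?_) _ (fun p _ => by simp)
  by_contra hS
  exact (Finsupp.mem_support_iff.1 hp) (h p hS)

theorem iEQ : StEq := by
  refine ⟨eq_eqv, fun s q => ?_⟩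
  have h0 : ∀ p, p ∉ (eq_eqv q).support → q.1 p = 0 ∧ q.2.1 p = 0 ∧ q.2.2 p = 0 := by
    intro p hp
    rw [Finsupp.notMem_support_iff, eq_apply] at hp
    simpa using hp
  have hEX : EX s q = ∑ p ∈ (eq_eqv q).support, ex s (eq_eqv q p) * Real.log ((p : ℕ) : ℝ) := by
    unfold EX
    rw [eq_ht q.1 _ fun p hp => (h0 p hp).1, eq_ht q.2.1 _ fun p hp => (h0 p hp).2.1,
      eq_ht q.2.2 _ fun p hp => (h0 p hp).2.2,
      eq_ht (g4 q) (eq_eqv q).support fun p hp => by
        obtain ⟨h1, h2, h3⟩ := h0 p hp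
        simp [g4, h1, h2, h3],
      eq_ht (q.1 + q.2.1) (eq_eqv q).support fun p hp => by
        obtain ⟨h1, h2, -⟩ := h0 p hp
        simp [h1, h2]]
    simp only [Finset.mul_sum]
    rw [← Finset.sum_add_distrib, ← Finset.sum_add_distrib, ← Finset.sum_add_distrib,
      ← Finset.sum_add_distrib]
    refine Finset.sum_congr rfl fun p _ => ?_
    rw [eq_apply]
    unfold ex g4
    simp only [Finsupp.coe_sub, Finsupp.coe_add, Pi.sub_apply, Pi.add_apply, Int.cast_sub,
      Int.cast_add]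
    ring
  rw [hEX, ← Finset.sum_neg_distrib, Real.exp_sum]
  refine Finset.prod_congr rfl fun p _ => ?_
  have hp : (0 : ℝ) < ((p : ℕ) : ℝ) := by exact_mod_cast p.2.pos
  rw [Real.rpow_def_of_pos hp]
  congr 1
  ring

end Pool.Agent.Work.MP_56b8f5_nt.EM
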