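import Pool.Agent.Work.MP_56b8f5_nt.EM.Stmts

set_option autoImplicit false

open MeasureTheory Set Filter Topology

namespace Pool.Agent.Work.MP_56b8f5_nt.EM

theorem iETA : StEta := by
  intro κ hκ _
  obtain ⟨c0, hc0⟩ : ∃ c0 : ℝ, c0 = 1 / 3 - 7 * κ / 2 := ⟨_, rfl⟩
  obtain ⟨f, hf⟩ : ∃ f : ℝ → ℝ, f = fun x => max 0 (κ / 2 - |x - c0|) := ⟨_, rfl⟩
  have hcont : Continuous f := by
    rw [hf]
    exact continuous_const.max (continuous_const.sub ((continuous_id.sub continuous_const).abs))
  have hnn : ∀ x, 0 ≤ f x := fun x => by rw [hf]; exact le_max_left _ _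
  have hsupp : ∀ x, f x ≠ 0 → 1 / 3 - 4 * κ ≤ x ∧ x ≤ 1 / 3 - 3 * κ := by
    intro x hx
    have h1 : 0 < κ / 2 - |x - c0| := by
      by_contra h
      apply hx
      rw [hf]
      exact max_eq_left (not_lt.mp h)
    have h2 : |x - c0| < κ / 2 := by linarith
    rw [abs_lt] at h2
    constructor <;> linarith [h2.1, h2.2]
  have hcs : HasCompactSupport f := by
    refine HasCompactSupport.intro (K := Icc (1 / 3 - 4 * κ) (1 / 3 - 3 * κ)) isCompact_Icc ?_
    intro x hx
    by_contra h
    exact hx (hsupp x h)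
  have hI : 0 < ∫ x, f x := by
    refine hcont.integral_pos_of_hasCompactSupport_nonneg_nonzero hcs hnn (x := c0) ?_
    rw [hf]
    simp only [sub_self, abs_zero, sub_zero]
    exact (lt_max_of_lt_right (half_pos hκ)).ne'
  refine ⟨fun x => f x / ∫ y, f y, hcont.div_const _, fun x => div_nonneg (hnn x) hI.le, ?_, ?_⟩
  · intro x hx
    exact hsupp x fun h => hx (by simp only [h, zero_div])
  · rw [integral_div]
    exact div_self hI.ne'

end Pool.Agent.Work.MP_56b8f5_nt.EM
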