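import Pool.Agent.Work.MP_56b8f5_nt.EM.Stmts

open MeasureTheory Set Filter Topology

noncomputable section

namespace Pool.Agent.Work.MP_56b8f5_nt.EM

theorem eul_ex_zero (s : Fin 5 → ℝ) : ex s 0 = 0 := by
  simp [ex]

theorem eul_summable_inv_sq (C : ℝ) :
    Summable (fun p : Nat.Primes => C / ((p : ℕ) : ℝ) ^ 2) := by
  have h : Summable (fun p : Nat.Primes => ((p : ℕ) : ℝ) ^ (-2 : ℝ)) :=
    Nat.Primes.summable_rpow.mpr (by norm_num)
  refine (h.mul_left C).congr fun p => ?_
  have hp : (0 : ℝ) < ((p : ℕ) : ℝ) := by exact_mod_cast p.prop.pos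
  rw [Real.rpow_neg hp.le, div_eq_mul_inv]
  norm_num

theorem iEUL (hEP : StEP) (hEq : StEq) (h1 : StLoc1) (hZ : StZe) : StEul := by
  intro s hs
  classical
  obtain ⟨C, hC, hL⟩ := h1
  have hs0 : ∀ i, 0 ≤ s i := fun i => (hs i).le
  obtain ⟨z, hz, -⟩ := hZ s hs
  obtain ⟨hz0, hzp⟩ := hz 1 one_pos
  have e1 : (fun i => s i / (1 : ℝ)) = s := by funext i; simp
  rw [e1] at hzp
  -- the product of the remainders
  have hm : Multipliable (fun p : Nat.Primes => Sp p s * Zf p s) := by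
    have e2 : (fun p : Nat.Primes => Sp p s * Zf p s) = fun p => 1 + (Sp p s * Zf p s - 1) := by
      funext p; ring
    rw [e2]
    refine Real.multipliable_one_add_of_summable ?_
    refine Summable.of_norm_bounded (eul_summable_inv_sq C) fun p => ?_
    rw [Real.norm_eq_abs]
    exact (hL p s hs0).2.2.2
  have hSp : HasProd (fun p : Nat.Primes => Sp p s)
      ((∏' p : Nat.Primes, Sp p s * Zf p s) * (z 1)⁻¹) := by
    have h := hm.hasProd.mul (hzp.inv₀ hz0.ne')
    refine h.congr_fun ?_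
    intro p
    have hZp : Zf p s ≠ 0 := (hL p s hs0).2.2.1.ne'
    field_simp
  set V : ℝ := (∏' p : Nat.Primes, Sp p s * Zf p s) * (z 1)⁻¹ with hV
  have hSp1 : ∀ p : Nat.Primes, 1 ≤ Sp p s := fun p => (hL p s hs0).2.1
  have hSp0 : ∀ p : Nat.Primes, 0 ≤ Sp p s := fun p => zero_le_one.trans (hSp1 p)
  -- the ENNReal side
  let f : Nat.Primes → ℤ × ℤ × ℤ → ENNReal := fun p v => ENNReal.ofReal (((p : ℕ) : ℝ) ^ (-(ex s v)))
  have hf0 : ∀ p, f p 0 = 1 := by
    intro p
    simp [f, eul_ex_zero]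
  have hfs : ∀ p, ∑' v, f p v = ENNReal.ofReal (Sp p s) := by
    intro p
    have hsum := (hL p s hs0).1
    have := ENNReal.ofReal_tsum_of_nonneg
      (f := fun v : ℤ × ℤ × ℤ => ((p : ℕ) : ℝ) ^ (-(ex s v))) (fun v => by positivity) hsum
    exact this.symm
  have hsup : (⨆ S : Finset Nat.Primes, ∏ p ∈ S, ∑' v, f p v) = ENNReal.ofReal V := by
    have e3 : (fun S : Finset Nat.Primes => ∏ p ∈ S, ∑' v, f p v) =
        fun S => ENNReal.ofReal (∏ p ∈ S, Sp p s) := by
      funext S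
      rw [ENNReal.ofReal_prod_of_nonneg (fun p _ => hSp0 p)]
      exact Finset.prod_congr rfl fun p _ => hfs p
    have hmono : Monotone (fun S : Finset Nat.Primes => ENNReal.ofReal (∏ p ∈ S, Sp p s)) := by
      intro S S' hSS
      apply ENNReal.ofReal_le_ofReal
      have h1S : 1 ≤ ∏ p ∈ S' \ S, Sp p s :=
        Finset.prod_induction (fun p => Sp p s) (fun x => 1 ≤ x)
          (fun a b ha hb => one_le_mul_of_one_le_of_one_le ha hb) le_rfl (fun p _ => hSp1 p)
      have h0S : 0 ≤ ∏ p ∈ S, Sp p s := Finset.prod_nonneg fun p _ => hSp0 p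
      rw [← Finset.prod_sdiff hSS]
      exact le_mul_of_one_le_left h0S h1S
    rw [e3]
    have t1 := tendsto_atTop_iSup hmono
    have t2 : Tendsto (fun S : Finset Nat.Primes => ENNReal.ofReal (∏ p ∈ S, Sp p s)) atTop
        (𝓝 (ENNReal.ofReal V)) := (ENNReal.continuous_ofReal.tendsto V).comp hSp
    exact tendsto_nhds_unique t1 t2
  obtain ⟨e, he⟩ := hEq
  have hq : ∀ q : Quad, ENNReal.ofReal (Real.exp (-(EX s q))) =
      ∏ p ∈ (e q).support, f p (e q p) := by
    intro q
    rw [he s q, ENNReal.ofReal_prod_of_nonneg (fun p _ => by positivity)]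
  have htot : ∑' q : Quad, ENNReal.ofReal (Real.exp (-(EX s q))) = ENNReal.ofReal V := by
    rw [← hsup, ← hEP Nat.Primes (ℤ × ℤ × ℤ) f hf0, ← Equiv.tsum_eq e]
    exact tsum_congr hq
  have hsummable : Summable fun q : Quad => Real.exp (-(EX s q)) := by
    have h := ENNReal.summable_toReal (f := fun q : Quad => ENNReal.ofReal (Real.exp (-(EX s q))))
      (by rw [htot]; exact ENNReal.ofReal_ne_top)
    refine h.congr fun q => ?_
    exact ENNReal.toReal_ofReal (Real.exp_pos _).le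
  have hV0 : 0 ≤ V := by
    refine ge_of_tendsto' hSp fun S => ?_
    exact Finset.prod_nonneg fun p _ => hSp0 p
  have hLam : Lam s = V := by
    have h := ENNReal.ofReal_tsum_of_nonneg (f := fun q : Quad => Real.exp (-(EX s q)))
      (fun q => (Real.exp_pos _).le) hsummable
    rw [htot] at h
    have h0 : 0 ≤ ∑' q : Quad, Real.exp (-(EX s q)) := tsum_nonneg fun q => (Real.exp_pos _).le
    exact (ENNReal.ofReal_eq_ofReal_iff h0 hV0).mp h
  exact ⟨hsummable, by rw [hLam]; exact hSp⟩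

end Pool.Agent.Work.MP_56b8f5_nt.EM
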