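import Pool.Agent.Work.MP_56b8f5_nt.EM.Stmts

/-!
MP_56b8f5_nt, block EM, item EXP: expansion of the twisted second moment of `P`.
-/

set_option autoImplicit false

open MeasureTheory Set Filter Topology

noncomputable section

namespace Pool.Agent.Work.MP_56b8f5_nt.EM

/-- the coefficient -/
private def bc (K : ℝ) (k : ℕ) : ℝ := Real.exp (-((k : ℝ) / K)) / Real.sqrt k

private lemma bc_nonneg (K : ℝ) (k : ℕ) : 0 ≤ bc K k := by unfold bc; positivity

private lemma bc_zero (K : ℝ) : bc K 0 = 0 := by simp [bc]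

private lemma exp_aux1 (K t : ℝ) (k : ℕ) :
    (Real.exp (-((k : ℝ) / K)) : ℂ) * (k : ℂ) ^ (-(1 / 2 + t * Complex.I)) =
      (bc K k : ℂ) * Complex.exp (-(Complex.I * ((t * Real.log k : ℝ) : ℂ))) := by
  rcases Nat.eq_zero_or_pos k with hk | hk
  · subst hk
    have h0 : (-(1 / 2 + (t : ℂ) * Complex.I)) ≠ 0 := by
      intro h
      have := congrArg Complex.re h
      norm_num at this
    rw [show ((0 : ℕ) : ℂ) = 0 from Nat.cast_zero, Complex.zero_cpow h0, bc_zero]
    simp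
  · have hk' : (0 : ℝ) < k := by exact_mod_cast hk
    have hk0 : (k : ℂ) ≠ 0 := by exact_mod_cast hk.ne'
    have hs : Real.sqrt k = Real.exp (Real.log k / 2) := by
      rw [Real.sqrt_eq_rpow, Real.rpow_def_of_pos hk']; ring_nf
    have h1 : (k : ℂ) ^ (-(1 / 2 + t * Complex.I)) =
        ((1 / Real.sqrt k : ℝ) : ℂ) * Complex.exp (-(Complex.I * ((t * Real.log k : ℝ) : ℂ))) := by
      have h2 : (1 / Real.exp (Real.log k / 2) : ℝ) = Real.exp (-(Real.log k / 2)) := by
        rw [Real.exp_neg, one_div]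
      rw [Complex.cpow_def_of_ne_zero hk0, ← Complex.natCast_log, hs, h2,
        Complex.ofReal_exp, ← Complex.exp_add]
      congr 1
      push_cast
      ring
    rw [h1, bc]
    push_cast
    ring

private lemma exp_cont (t : ℝ → ℝ) (ht : Continuous t) :
    Continuous fun u => Complex.exp (Complex.I * ((t u : ℝ) : ℂ)) := by
  fun_prop

private lemma exp_norm (t : ℝ) : ‖Complex.exp (Complex.I * ((t : ℝ) : ℂ))‖ = 1 := by
  rw [mul_comm]; exact Complex.norm_exp_ofReal_mul_I t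

/-- the integrand for the pair `p` -/
private def gp (w : ℝ → ℝ) (K T : ℝ) (n m : ℕ) (p : ℕ × ℕ) (u : ℝ) : ℂ :=
  ((w u * (bc K p.1 * bc K p.2) : ℝ) : ℂ) * Complex.exp (Complex.I *
    ((T * u * Real.log p.1 - T * u * Real.log p.2 + T * u * Real.log ((n : ℝ) / m) : ℝ) : ℂ))

private lemma gp_norm (w : ℝ → ℝ) (hw : ∀ u, 0 ≤ w u) (K T : ℝ) (n m : ℕ) (p : ℕ × ℕ) (u : ℝ) :
    ‖gp w K T n m p u‖ = w u * (bc K p.1 * bc K p.2) := by
  unfold gp
  rw [norm_mul, exp_norm, mul_one, Complex.norm_real, Real.norm_eq_abs, abs_of_nonneg]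
  exact mul_nonneg (hw u) (mul_nonneg (bc_nonneg _ _) (bc_nonneg _ _))

private lemma w_cont {w : ℝ → ℝ} (hw : IsW w) : Continuous w := hw.smooth.continuous

private lemma w_comp {w : ℝ → ℝ} (hw : IsW w) : HasCompactSupport w := by
  obtain ⟨c, hc, hs⟩ := hw.supp
  refine HasCompactSupport.intro (isCompact_Icc (a := c) (b := 1)) ?_
  intro x hx
  by_contra h
  exact hx ⟨(hs x h).1, (hs x h).2⟩

private lemma gp_int {w : ℝ → ℝ} (hw : IsW w) (K T : ℝ) (n m : ℕ) (p : ℕ × ℕ) :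
    Integrable (gp w K T n m p) := by
  refine Continuous.integrable_of_hasCompactSupport ?_ ?_
  · unfold gp
    have := w_cont hw
    fun_prop
  · refine (w_comp hw).mono ?_
    intro u hu
    rw [Function.mem_support] at hu ⊢
    intro h
    apply hu
    unfold gp
    rw [h, zero_mul, Complex.ofReal_zero, zero_mul]

private lemma gp_integral (w : ℝ → ℝ) {K T : ℝ} (hK : 1 ≤ K) {n m : ℕ} (hn : 0 < n) (hm : 0 < m)
    (p : ℕ × ℕ) : ∫ u, gp w K T n m p u =
      (Real.sqrt (n * m) : ℂ) * F w T (n * K) (m * K) (n * p.1) (m * p.2) := by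
  have hK0 : (0 : ℝ) < K := by linarith
  have hn' : (0 : ℝ) < n := by exact_mod_cast hn
  have hm' : (0 : ℝ) < m := by exact_mod_cast hm
  rcases Nat.eq_zero_or_pos p.1 with h1 | h1
  · have e1 : ∀ u, gp w K T n m p u = 0 := by
      intro u; unfold gp; rw [h1, bc_zero]; simp
    simp only [e1, integral_zero]
    unfold F
    rw [h1]; simp
  rcases Nat.eq_zero_or_pos p.2 with h2 | h2
  · have e1 : ∀ u, gp w K T n m p u = 0 := by
      intro u; unfold gp; rw [h2, bc_zero]; simp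
    simp only [e1, integral_zero]
    unfold F
    rw [h2]; simp
  have k1 : (0 : ℝ) < p.1 := by exact_mod_cast h1
  have k2 : (0 : ℝ) < p.2 := by exact_mod_cast h2
  have hlog : Real.log ((n * p.1 : ℝ) / (m * p.2)) =
      Real.log p.1 - Real.log p.2 + Real.log ((n : ℝ) / m) := by
    rw [Real.log_div (by positivity) (by positivity), Real.log_mul hn'.ne' k1.ne',
      Real.log_mul hm'.ne' k2.ne', Real.log_div hn'.ne' hm'.ne']
    ring
  have hcoef : Real.sqrt (n * m) * (Real.exp (-((n * p.1 : ℝ) / (n * K)) -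
      (m * p.2 : ℝ) / (m * K)) / Real.sqrt ((n * p.1) * (m * p.2))) = bc K p.1 * bc K p.2 := by
    have e1 : ((n * p.1 : ℝ) / (n * K)) = p.1 / K := by field_simp
    have e2 : ((m * p.2 : ℝ) / (m * K)) = p.2 / K := by field_simp
    have e3 : Real.sqrt ((n * p.1) * (m * p.2)) =
        Real.sqrt (n * m) * (Real.sqrt p.1 * Real.sqrt p.2) := by
      rw [← Real.sqrt_mul k1.le, ← Real.sqrt_mul (by positivity)]
      congr 1; ring
    rw [e1, e2, e3, sub_eq_add_neg, Real.exp_add]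
    unfold bc
    have s1 : Real.sqrt (n * m) ≠ 0 := (Real.sqrt_pos.2 (by positivity)).ne'
    have s2 : Real.sqrt (p.1 : ℝ) ≠ 0 := (Real.sqrt_pos.2 k1).ne'
    have s3 : Real.sqrt (p.2 : ℝ) ≠ 0 := (Real.sqrt_pos.2 k2).ne'
    field_simp
  unfold F
  rw [← mul_assoc, ← Complex.ofReal_mul, hcoef]
  unfold W
  rw [← integral_const_mul]
  refine integral_congr_ae (Filter.Eventually.of_forall fun u => ?_)
  simp only [gp]
  rw [hlog, pow_zero, one_mul]
  have e5 : (T * u * Real.log p.1 - T * u * Real.log p.2 + T * u * Real.log ((n : ℝ) / m) : ℝ) =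
      T * (Real.log p.1 - Real.log p.2 + Real.log ((n : ℝ) / m)) * u := by ring
  rw [e5]
  push_cast
  ring

private lemma gp_tsum (w : ℝ → ℝ) (hP : StPc) {K : ℝ} (hK : 1 ≤ K) (T : ℝ) (n m : ℕ) (u : ℝ) :
    ∑' p : ℕ × ℕ, gp w K T n m p u = ((w u * ‖P K (T * u)‖ ^ 2 : ℝ) : ℂ) *
      Complex.exp (Complex.I * (T * u * Real.log ((n : ℝ) / m) : ℝ)) := by
  obtain ⟨-, -, hs, -, -⟩ := hP K hK
  set a : ℕ → ℂ := fun k => (Real.exp (-((k : ℝ) / K)) : ℂ) *
    (k : ℂ) ^ (-(1 / 2 + ((T * u : ℝ) : ℂ) * Complex.I)) with ha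
  have hsa : Summable fun k => ‖a k‖ := hs ((T * u : ℝ))
  have hPa : P K (T * u) = ∑' k, a k := rfl
  have hsc : Summable fun k => ‖(starRingEnd ℂ) (a k)‖ := by
    simpa only [RCLike.norm_conj] using hsa
  have h1 : ((‖P K (T * u)‖ ^ 2 : ℝ) : ℂ) = ∑' p : ℕ × ℕ, (starRingEnd ℂ) (a p.1) * a p.2 := by
    rw [← tsum_mul_tsum_of_summable_norm hsc hsa, ← Complex.conj_tsum, ← hPa,
      ← Complex.normSq_eq_conj_mul_self, Complex.normSq_eq_norm_sq]
  rw [Complex.ofReal_mul, h1, mul_assoc, mul_comm (∑' p : ℕ × ℕ, (starRingEnd ℂ) (a p.1) * a p.2),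
    ← mul_assoc, ← tsum_mul_left]
  refine tsum_congr fun p => ?_
  have e1 : a p.2 = (bc K p.2 : ℂ) *
      Complex.exp (-(Complex.I * ((T * u * Real.log p.2 : ℝ) : ℂ))) := exp_aux1 K (T * u) p.2
  have e2 : (starRingEnd ℂ) (a p.1) = (bc K p.1 : ℂ) *
      Complex.exp (Complex.I * ((T * u * Real.log p.1 : ℝ) : ℂ)) := by
    have e3 : a p.1 = (bc K p.1 : ℂ) *
      Complex.exp (-(Complex.I * ((T * u * Real.log p.1 : ℝ) : ℂ))) := exp_aux1 K (T * u) p.1
    rw [e3, map_mul, Complex.conj_ofReal, ← Complex.exp_conj]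
    congr 2
    rw [map_neg, map_mul, Complex.conj_I, Complex.conj_ofReal]
    ring
  rw [e1, e2]
  unfold gp
  have e4 : Complex.exp (Complex.I *
    ((T * u * Real.log p.1 - T * u * Real.log p.2 + T * u * Real.log ((n : ℝ) / m) : ℝ) : ℂ)) =
      Complex.exp (Complex.I * ((T * u * Real.log p.1 : ℝ) : ℂ)) *
      Complex.exp (-(Complex.I * ((T * u * Real.log p.2 : ℝ) : ℂ))) *
      Complex.exp (Complex.I * (T * u * Real.log ((n : ℝ) / m) : ℝ)) := by
    rw [← Complex.exp_add, ← Complex.exp_add]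
    congr 1
    push_cast
    ring
  rw [e4]
  push_cast
  ring

theorem iEXP (hW : StW) (hP : StPc) : StExp := by
  intro w hw K T hK hT n m hn hm
  have hbs : Summable (bc K) := (hP K hK).2.2.2.1
  have hsum : Summable fun p : ℕ × ℕ => ∫ u, ‖gp w K T n m p u‖ := by
    have h1 : ∀ p : ℕ × ℕ, ∫ u, ‖gp w K T n m p u‖ = (∫ u, w u) * (bc K p.1 * bc K p.2) := by
      intro p
      rw [← integral_mul_const]
      exact integral_congr_ae (Filter.Eventually.of_forall fun u => gp_norm w hw.nonneg K T n m p u)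
    simp only [h1]
    exact (hbs.mul_of_nonneg hbs (fun k => bc_nonneg K k) (fun k => bc_nonneg K k)).mul_left _
  have hS := hasSum_integral_of_summable_integral_norm (fun p => gp_int hw K T n m p) hsum
  have e1 : (fun p => ∫ u, gp w K T n m p u) = fun p : ℕ × ℕ =>
      (Real.sqrt (n * m) : ℂ) * F w T (n * K) (m * K) (n * p.1) (m * p.2) := by
    funext p; exact gp_integral w hK hn hm p
  have e2 : (∫ u, ∑' p : ℕ × ℕ, gp w K T n m p u) =
      ∫ u : ℝ, ((w u * ‖P K (T * u)‖ ^ 2 : ℝ) : ℂ) *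
      Complex.exp (Complex.I * (T * u * Real.log ((n : ℝ) / m) : ℝ)) :=
    integral_congr_ae (Filter.Eventually.of_forall fun u => gp_tsum w hP hK T n m u)
  rw [e1, e2] at hS
  have hn' : (0 : ℝ) < n := by exact_mod_cast hn
  have hm' : (0 : ℝ) < m := by exact_mod_cast hm
  have hne : (Real.sqrt (n * m) : ℂ) ≠ 0 := by
    exact_mod_cast (Real.sqrt_pos.2 (by positivity : (0 : ℝ) < n * m)).ne'
  have hFs : Summable fun p : ℕ × ℕ => F w T (n * K) (m * K) (n * p.1) (m * p.2) :=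
    (summable_mul_left_iff hne).1 hS.summable
  exact ⟨hFs, by rw [← hS.tsum_eq, tsum_mul_left]⟩

end Pool.Agent.Work.MP_56b8f5_nt.EM
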