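import Pool.Agent.Work.MP_56b8f5_nt.EM.Stmts

/-!
MP_56b8f5_nt, block EM, item F2: two derivatives of `a ↦ F(a,b)`.
-/

open MeasureTheory Set Filter Topology

noncomputable section

namespace Pool.Agent.Work.MP_56b8f5_nt.EM

/-- The real factor. -/
private def f2g (A B b a : ℝ) : ℝ := Real.exp (-(a / A) - b / B) / Real.sqrt (a * b)

/-- Its logarithmic derivative. -/
private def f2u (A a : ℝ) : ℝ := -(1 / A) - 1 / (2 * a)

private def f2F1 (w : ℝ → ℝ) (T A B b a : ℝ) : ℂ :=
  (f2g A B b a : ℂ) * ((f2u A a : ℂ) * W w 0 (T * Real.log (a / b)) +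
    ((T / a : ℝ) : ℂ) * W w 1 (T * Real.log (a / b)))

private def f2F2 (w : ℝ → ℝ) (T A B b a : ℝ) : ℂ :=
  (f2g A B b a : ℂ) * (((f2u A a ^ 2 + 1 / (2 * a ^ 2) : ℝ) : ℂ) * W w 0 (T * Real.log (a / b)) +
    ((2 * f2u A a * (T / a) - T / a ^ 2 : ℝ) : ℂ) * W w 1 (T * Real.log (a / b)) +
    (((T / a) ^ 2 : ℝ) : ℂ) * W w 2 (T * Real.log (a / b)))

private lemma f2_hg (A B b a : ℝ) (hA : 0 < A) (ha : 0 < a) (hb : 0 < b) :
    HasDerivAt (fun a => f2g A B b a) (f2g A B b a * f2u A a) a := by
  have hab : 0 < a * b := mul_pos ha hb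
  have hs : 0 < Real.sqrt (a * b) := Real.sqrt_pos.mpr hab
  have h1 : HasDerivAt (fun a : ℝ => Real.exp (-(a / A) - b / B))
      (Real.exp (-(a / A) - b / B) * (-(1 / A))) a := by
    have h2 : HasDerivAt (fun a : ℝ => -(a / A) - b / B) (-(1 / A)) a := by
      have := ((hasDerivAt_id a).div_const A).neg.sub_const (b / B)
      simpa using this
    exact h2.exp
  have h3 : HasDerivAt (fun a : ℝ => Real.sqrt (a * b)) (b / (2 * Real.sqrt (a * b))) a := by
    have h4 : HasDerivAt (fun a : ℝ => a * b) b a := by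
      simpa using (hasDerivAt_id a).mul_const b
    exact h4.sqrt hab.ne'
  have h5 := h1.div h3 hs.ne'
  refine h5.congr_deriv ?_
  have hsq : Real.sqrt (a * b) ^ 2 = a * b := Real.sq_sqrt hab.le
  unfold f2g f2u
  generalize Real.sqrt (a * b) = s at hs hsq
  generalize Real.exp (-(a / A) - b / B) = e
  have hs0 := hs.ne'
  have hb' : b = s ^ 2 / a := by
    rw [hsq]; field_simp
  rw [hb']
  field_simp

private lemma f2_hy (T b a : ℝ) (ha : 0 < a) (hb : 0 < b) :
    HasDerivAt (fun a : ℝ => T * Real.log (a / b)) (T / a) a := by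
  have h1 : HasDerivAt (fun a : ℝ => a / b) (1 / b) a := (hasDerivAt_id a).div_const b
  have h2 := (h1.log (div_pos ha hb).ne').const_mul T
  refine h2.congr_deriv ?_
  field_simp

private lemma f2_hu (A a : ℝ) (ha : 0 < a) :
    HasDerivAt (fun a : ℝ => f2u A a) (1 / (2 * a ^ 2)) a := by
  have h1 : HasDerivAt (fun a : ℝ => 2 * a) 2 a := by
    simpa using (hasDerivAt_id a).const_mul (2 : ℝ)
  have h2 := (h1.inv (by positivity : (2 * a) ≠ 0)).const_sub (-(1 / A))
  have h3 : (fun a : ℝ => f2u A a) = fun a : ℝ => -(1 / A) - (2 * a)⁻¹ := by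
    funext a
    unfold f2u
    rw [one_div (2 * a)]
  rw [h3]
  refine h2.congr_deriv ?_
  field_simp

private lemma f2_hW (w : ℝ → ℝ) (j : ℕ) (hW : ∀ j y, HasDerivAt (W w j) (W w (j + 1) y) y)
    (T b a : ℝ) (ha : 0 < a) (hb : 0 < b) :
    HasDerivAt (fun a : ℝ => W w j (T * Real.log (a / b)))
      (((T / a : ℝ) : ℂ) * W w (j + 1) (T * Real.log (a / b))) a := by
  have h1 := (hW j (T * Real.log (a / b))).scomp a (f2_hy T b a ha hb)
  refine h1.congr_deriv ?_
  rw [Complex.real_smul]

private lemma f2_F0 (w : ℝ → ℝ) (hW : ∀ j y, HasDerivAt (W w j) (W w (j + 1) y) y)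
    (T A B b a : ℝ) (hA : 0 < A) (ha : 0 < a) (hb : 0 < b) :
    HasDerivAt (fun a => F w T A B a b) (f2F1 w T A B b a) a := by
  have h1 := (f2_hg A B b a hA ha hb).ofReal_comp.mul (f2_hW w 0 hW T b a ha hb)
  have h2 : (fun a => F w T A B a b) =
      fun a : ℝ => (f2g A B b a : ℂ) * W w 0 (T * Real.log (a / b)) := rfl
  rw [h2]
  refine h1.congr_deriv ?_
  unfold f2F1
  push_cast
  ring

private lemma f2_F1 (w : ℝ → ℝ) (hW : ∀ j y, HasDerivAt (W w j) (W w (j + 1) y) y)
    (T A B b a : ℝ) (hA : 0 < A) (ha : 0 < a) (hb : 0 < b) :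
    HasDerivAt (fun a => f2F1 w T A B b a) (f2F2 w T A B b a) a := by
  have hT : HasDerivAt (fun a : ℝ => T / a) (-(T / a ^ 2)) a := by
    have := (hasDerivAt_inv ha.ne').const_mul T
    refine this.congr_deriv ?_
    field_simp
  have h1 := (f2_hg A B b a hA ha hb).ofReal_comp.mul
    (((f2_hu A a ha).ofReal_comp.mul (f2_hW w 0 hW T b a ha hb)).add
      (hT.ofReal_comp.mul (f2_hW w 1 hW T b a ha hb)))
  refine h1.congr_deriv ?_
  unfold f2F2
  simp only [Pi.mul_apply, Pi.add_apply]
  push_cast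
  ring

theorem iF2 (hW : StW) : StF2 := by
  intro w hw
  obtain ⟨hd, hb, -, -, -, -⟩ := hW w hw
  obtain ⟨C0, hC0, hb0⟩ := hb 0 2
  obtain ⟨C1, hC1, hb1⟩ := hb 1 2
  obtain ⟨C2, hC2, hb2⟩ := hb 2 2
  refine ⟨128 * (C0 + C1 + C2), by positivity, ?_⟩
  intro A B T b hA hB hT hb
  have hA0 : 0 < A := by linarith
  have hB0 : 0 < B := by linarith
  have hT0 : 0 < T := by linarith
  refine ⟨f2F1 w T A B b, f2F2 w T A B b, fun a ha => f2_F0 w hd T A B b a hA0 ha hb,
    fun a ha => f2_F1 w hd T A B b a hA0 ha hb, ?_, ?_⟩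
  · have hWc : ∀ j, Continuous (W w j) := fun j =>
      continuous_iff_continuousAt.2 fun y => (hd j y).continuousAt
    have hlog : ContinuousOn (fun a : ℝ => T * Real.log (a / b)) (Ioi 0) := by
      intro a ha
      exact (f2_hy T b a ha hb).continuousAt.continuousWithinAt
    have hWj : ∀ j, ContinuousOn (fun a : ℝ => W w j (T * Real.log (a / b))) (Ioi 0) := fun j =>
      (hWc j).comp_continuousOn hlog
    have hg : ContinuousOn (fun a : ℝ => (f2g A B b a : ℂ)) (Ioi 0) := by
      intro a ha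
      exact (f2_hg A B b a hA0 ha hb).ofReal_comp.continuousAt.continuousWithinAt
    have hu : ContinuousOn (fun a : ℝ => f2u A a) (Ioi 0) := by
      intro a ha
      exact (f2_hu A a ha).continuousAt.continuousWithinAt
    have hinv : ContinuousOn (fun a : ℝ => T / a) (Ioi 0) := by
      intro a ha
      exact (continuousAt_const.div continuousAt_id (ne_of_gt ha)).continuousWithinAt
    have hinv2 : ContinuousOn (fun a : ℝ => T / a ^ 2) (Ioi 0) := by
      intro a ha
      have ha0 : a ≠ 0 := ne_of_gt ha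
      exact (continuousAt_const.div (continuousAt_id.pow 2) (pow_ne_zero 2 ha0)).continuousWithinAt
    have hinv3 : ContinuousOn (fun a : ℝ => 1 / (2 * a ^ 2)) (Ioi 0) := by
      intro a ha
      have ha0 : a ≠ 0 := ne_of_gt ha
      exact (continuousAt_const.div (continuousAt_const.mul (continuousAt_id.pow 2))
        (mul_ne_zero two_ne_zero (pow_ne_zero 2 ha0))).continuousWithinAt
    have c0 : ContinuousOn (fun a : ℝ => (((f2u A a ^ 2 + 1 / (2 * a ^ 2) : ℝ)) : ℂ)) (Ioi 0) :=
      Complex.continuous_ofReal.comp_continuousOn ((hu.pow 2).add hinv3)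
    have c1 : ContinuousOn (fun a : ℝ => (((2 * f2u A a * (T / a) - T / a ^ 2 : ℝ)) : ℂ))
        (Ioi 0) :=
      Complex.continuous_ofReal.comp_continuousOn
        (((continuousOn_const.mul hu).mul hinv).sub hinv2)
    have c2 : ContinuousOn (fun a : ℝ => ((((T / a) ^ 2 : ℝ)) : ℂ)) (Ioi 0) :=
      Complex.continuous_ofReal.comp_continuousOn (hinv.pow 2)
    exact hg.mul (((c0.mul (hWj 0)).add (c1.mul (hWj 1))).add (c2.mul (hWj 2)))
  · intro a ha1 ha2
    have ha : 0 < a := by linarith
    have hab : 0 < a * b := mul_pos ha hb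
    set y := T * Real.log (a / b) with hy
    set z := (a - b) / b with hz
    -- the logarithm
    have hx0 : 0 < a / b := div_pos ha hb
    have hzx : a / b = 1 + z := by rw [hz]; field_simp; ring
    have hz1 : -(1 / 2) ≤ z := by rw [hz, le_div_iff₀ hb]; linarith
    have hz2 : z ≤ 1 / 2 := by rw [hz, div_le_iff₀ hb]; linarith
    have hlog : |z| / 2 ≤ |Real.log (a / b)| := by
      rw [hzx]
      rcases le_total 0 z with h0 | h0
      · have h1 := Real.one_sub_inv_le_log_of_pos (by linarith : 0 < 1 + z)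
        have h2 : z / 2 ≤ 1 - (1 + z)⁻¹ := by
          have h3 : 1 - (1 + z)⁻¹ = z / (1 + z) := by field_simp; ring
          rw [h3]
          exact div_le_div_of_nonneg_left h0 (by linarith) (by linarith)
        rw [abs_of_nonneg h0]
        exact (h2.trans h1).trans (le_abs_self _)
      · have h1 := Real.log_le_sub_one_of_pos (by linarith : 0 < 1 + z)
        rw [abs_of_nonpos h0]
        have h2 : -Real.log (1 + z) ≤ |Real.log (1 + z)| := neg_le_abs _
        linarith
    have hyz : 1 + T * |z| ≤ 2 * (1 + |y|) := by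
      rw [hy, abs_mul, abs_of_pos hT0]
      have := mul_le_mul_of_nonneg_left hlog hT0.le
      linarith
    have hzabs : T * |a - b| / b = T * |z| := by
      rw [hz, abs_div, abs_of_pos hb, mul_div_assoc]
    have hD : 0 < 1 + T * |z| := by positivity
    have hWj : ∀ (j : ℕ) (C : ℝ), 0 ≤ C → (∀ y, ‖W w j y‖ ≤ C / (1 + |y|) ^ 2) →
        ‖W w j y‖ ≤ 4 * C / (1 + T * |z|) ^ 2 := by
      intro j C hC h
      refine (h y).trans ?_
      rw [div_le_div_iff₀ (by positivity) (by positivity)]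
      have h1 : (1 + T * |z|) ^ 2 ≤ (2 * (1 + |y|)) ^ 2 := pow_le_pow_left₀ hD.le hyz 2
      calc C * (1 + T * |z|) ^ 2 ≤ C * (2 * (1 + |y|)) ^ 2 := mul_le_mul_of_nonneg_left h1 hC
        _ = 4 * C * (1 + |y|) ^ 2 := by ring
    have w0 := hWj 0 C0 hC0 hb0
    have w1 := hWj 1 C1 hC1 hb1
    have w2 := hWj 2 C2 hC2 hb2
    -- the real factors
    set x := a / A with hx
    have hxn : 0 ≤ x := by positivity
    have hex1 : Real.exp (-x) ≤ 1 := Real.exp_le_one_iff.mpr (by linarith)
    have hexp := Real.exp_pos (-x)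
    have hx1 : x * Real.exp (-x) ≤ 1 := by
      have h1 : x ≤ Real.exp x := by linarith [Real.add_one_le_exp x]
      calc x * Real.exp (-x) ≤ Real.exp x * Real.exp (-x) :=
            mul_le_mul_of_nonneg_right h1 hexp.le
        _ = 1 := by rw [← Real.exp_add]; simp
    have hx2 : x ^ 2 * Real.exp (-x) ≤ 1 := by
      have h1 : x ≤ Real.exp (x / 2) := by
        have h2 := Real.quadratic_le_exp_of_nonneg (by positivity : 0 ≤ x / 2)
        nlinarith [sq_nonneg (x / 2 - 1)]
      calc x ^ 2 * Real.exp (-x) ≤ Real.exp (x / 2) ^ 2 * Real.exp (-x) := by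
            apply mul_le_mul_of_nonneg_right _ hexp.le
            exact pow_le_pow_left₀ hxn h1 2
        _ = 1 := by
            rw [← Real.exp_nat_mul, ← Real.exp_add]
            norm_num
            ring
    have hs : 0 < Real.sqrt (a * b) := Real.sqrt_pos.mpr hab
    have hsb : b / 2 ≤ Real.sqrt (a * b) := by
      apply Real.le_sqrt_of_sq_le
      nlinarith
    have hg1 : |f2g A B b a| ≤ Real.exp (-x) / Real.sqrt (a * b) := by
      unfold f2g
      rw [abs_of_nonneg (by positivity)]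
      apply div_le_div_of_nonneg_right _ hs.le
      apply Real.exp_le_exp.mpr
      have : 0 ≤ b / B := by positivity
      linarith
    have hau : a * |f2u A a| = x + 1 / 2 := by
      have h1 : f2u A a = -((x + 1 / 2) / a) := by
        unfold f2u
        rw [hx]
        field_simp
        ring
      rw [h1, abs_neg, abs_of_nonneg (by positivity)]
      field_simp
    have hu0 : |f2u A a| = (x + 1 / 2) / a := by
      rw [← hau]; field_simp
    have hT2 : T ≤ T ^ 2 := le_self_pow₀ hT two_ne_zero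
    have hT1 : 1 ≤ T ^ 2 := one_le_pow₀ hT
    have k0 : Real.exp (-x) * |f2u A a ^ 2 + 1 / (2 * a ^ 2)| ≤ 4 * T ^ 2 / a ^ 2 := by
      rw [abs_of_nonneg (by positivity), ← sq_abs (f2u A a), hu0]
      have h1 : Real.exp (-x) * (((x + 1 / 2) / a) ^ 2 + 1 / (2 * a ^ 2)) =
          (x ^ 2 * Real.exp (-x) + x * Real.exp (-x) + 3 / 4 * Real.exp (-x)) / a ^ 2 := by
        field_simp
        ring
      rw [h1]
      apply div_le_div_of_nonneg_right _ (by positivity)
      linarith
    have k1 : Real.exp (-x) * |2 * f2u A a * (T / a) - T / a ^ 2| ≤ 4 * T ^ 2 / a ^ 2 := by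
      have h0 : |2 * f2u A a * (T / a) - T / a ^ 2| ≤ 2 * |f2u A a| * (T / a) + T / a ^ 2 := by
        refine (abs_sub _ _).trans ?_
        rw [abs_mul, abs_mul, abs_of_pos (by positivity : (0 : ℝ) < T / a),
          abs_of_pos (by positivity : (0 : ℝ) < T / a ^ 2), abs_two]
      refine (mul_le_mul_of_nonneg_left h0 hexp.le).trans ?_
      rw [hu0]
      have h1 : Real.exp (-x) * (2 * ((x + 1 / 2) / a) * (T / a) + T / a ^ 2) =
          (2 * (x * Real.exp (-x)) + 2 * Real.exp (-x)) * T / a ^ 2 := by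
        field_simp
        ring
      rw [h1]
      apply div_le_div_of_nonneg_right _ (by positivity)
      have h2 : (2 * (x * Real.exp (-x)) + 2 * Real.exp (-x)) * T ≤ 4 * T :=
        mul_le_mul_of_nonneg_right (by linarith) hT0.le
      linarith
    have k2 : Real.exp (-x) * |(T / a) ^ 2| ≤ 4 * T ^ 2 / a ^ 2 := by
      rw [abs_of_nonneg (by positivity), div_pow]
      have h1 : Real.exp (-x) * (T ^ 2 / a ^ 2) = Real.exp (-x) * T ^ 2 / a ^ 2 := by ring
      rw [h1]
      apply div_le_div_of_nonneg_right _ (by positivity)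
      have h2 : Real.exp (-x) * T ^ 2 ≤ 1 * T ^ 2 :=
        mul_le_mul_of_nonneg_right hex1 (by positivity)
      linarith
    set S := (1 + T * |z|) ^ 2 with hS
    have hSpos : 0 < S := by positivity
    have hmain : ‖f2F2 w T A B b a‖ ≤ (1 / Real.sqrt (a * b)) *
        ((4 * T ^ 2 / a ^ 2) * (4 * C0 / S) + (4 * T ^ 2 / a ^ 2) * (4 * C1 / S) +
          (4 * T ^ 2 / a ^ 2) * (4 * C2 / S)) := by
      unfold f2F2
      rw [norm_mul, Complex.norm_real, Real.norm_eq_abs]
      calc |f2g A B b a| * ‖((f2u A a ^ 2 + 1 / (2 * a ^ 2) : ℝ) : ℂ) * W w 0 y +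
            ((2 * f2u A a * (T / a) - T / a ^ 2 : ℝ) : ℂ) * W w 1 y +
            (((T / a) ^ 2 : ℝ) : ℂ) * W w 2 y‖
          ≤ (Real.exp (-x) / Real.sqrt (a * b)) *
            (|f2u A a ^ 2 + 1 / (2 * a ^ 2)| * (4 * C0 / S) +
              |2 * f2u A a * (T / a) - T / a ^ 2| * (4 * C1 / S) +
              |(T / a) ^ 2| * (4 * C2 / S)) := by
            apply mul_le_mul hg1 _ (norm_nonneg _) (by positivity)
            refine (norm_add_le _ _).trans (add_le_add ((norm_add_le _ _).trans
              (add_le_add ?_ ?_)) ?_)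
            · rw [norm_mul, Complex.norm_real, Real.norm_eq_abs]
              exact mul_le_mul_of_nonneg_left w0 (abs_nonneg _)
            · rw [norm_mul, Complex.norm_real, Real.norm_eq_abs]
              exact mul_le_mul_of_nonneg_left w1 (abs_nonneg _)
            · rw [norm_mul, Complex.norm_real, Real.norm_eq_abs]
              exact mul_le_mul_of_nonneg_left w2 (abs_nonneg _)
        _ = (1 / Real.sqrt (a * b)) *
            ((Real.exp (-x) * |f2u A a ^ 2 + 1 / (2 * a ^ 2)|) * (4 * C0 / S) +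
              (Real.exp (-x) * |2 * f2u A a * (T / a) - T / a ^ 2|) * (4 * C1 / S) +
              (Real.exp (-x) * |(T / a) ^ 2|) * (4 * C2 / S)) := by ring
        _ ≤ _ := by
            apply mul_le_mul_of_nonneg_left _ (by positivity)
            refine add_le_add (add_le_add ?_ ?_) ?_
            · exact mul_le_mul_of_nonneg_right k0 (by positivity)
            · exact mul_le_mul_of_nonneg_right k1 (by positivity)
            · exact mul_le_mul_of_nonneg_right k2 (by positivity)
    refine hmain.trans ?_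
    rw [hzabs, ← hS]
    have h1 : (1 / Real.sqrt (a * b)) *
        ((4 * T ^ 2 / a ^ 2) * (4 * C0 / S) + (4 * T ^ 2 / a ^ 2) * (4 * C1 / S) +
          (4 * T ^ 2 / a ^ 2) * (4 * C2 / S)) =
        (16 * (C0 + C1 + C2) * T ^ 2 / S) * (1 / (Real.sqrt (a * b) * a ^ 2)) := by
      field_simp
      ring
    have h2 : 128 * (C0 + C1 + C2) * T ^ 2 / b ^ 3 / S =
        (16 * (C0 + C1 + C2) * T ^ 2 / S) * (8 / b ^ 3) := by
      field_simp
      ring
    rw [h1, h2]
    apply mul_le_mul_of_nonneg_left _ (by positivity)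
    rw [div_le_div_iff₀ (by positivity) (by positivity)]
    have h3 : b / 2 * (b / 2) ^ 2 ≤ Real.sqrt (a * b) * a ^ 2 :=
      mul_le_mul hsb (pow_le_pow_left₀ (by positivity) ha1 2) (by positivity) hs.le
    have h4 : b / 2 * (b / 2) ^ 2 = b ^ 3 / 8 := by ring
    rw [h4] at h3
    linarith

end Pool.Agent.Work.MP_56b8f5_nt.EM
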