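import Pool.Agent.Work.MP_56b8f5_nt.EM.Stmts

/-!
MP_56b8f5_nt, block EM: the pairs far from the diagonal are negligible.
-/

open MeasureTheory Set Filter Topology

noncomputable section

namespace Pool.Agent.Work.MP_56b8f5_nt.EM

/-- Far pairs have a large logarithm. -/
private lemma far_log (a b : ℝ) (ha : 0 < a) (hb : 0 < b) (h : b < 2 * |a - b|) :
    1 / 3 ≤ |Real.log (a / b)| := by
  have hab : 0 < a / b := div_pos ha hb
  rcases le_total b a with hle | hle
  · rw [abs_of_nonneg (by linarith)] at h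
    have h1 : 3 / 2 ≤ a / b := by
      rw [le_div_iff₀ hb]
      linarith
    have h2 := Real.one_sub_inv_le_log_of_pos hab
    have h3 : (a / b)⁻¹ ≤ 2 / 3 := by
      rw [inv_le_comm₀ hab (by norm_num)]
      norm_num
      linarith
    have h4 : 1 / 3 ≤ Real.log (a / b) := by linarith
    exact h4.trans (le_abs_self _)
  · rw [abs_of_nonpos (by linarith)] at h
    have h1 : a / b ≤ 1 / 2 := by
      rw [div_le_iff₀ hb]
      linarith
    have h2 := Real.log_le_sub_one_of_pos hab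
    have h4 : 1 / 3 ≤ -Real.log (a / b) := by linarith
    exact h4.trans (neg_le_abs _)

/-- The bound of one term. -/
private lemma far_term (w : ℝ → ℝ) (C K T : ℝ) (hC : 0 ≤ C) (hK : 1 ≤ K) (hT : 1 ≤ T)
    (hW : ∀ y, ‖W w 0 y‖ ≤ C / (1 + |y|) ^ 8) (n m : ℕ) (hn : 0 < n) (hm : 0 < m) (k l : ℕ) :
    Real.sqrt (n * m) * (if 2 * |(n * k : ℤ) - m * l| ≤ (m * l : ℤ) then 0
      else ‖F w T (n * K) (m * K) (n * k) (m * l)‖) ≤
    (C * 3 ^ 8 / T ^ 8) * ((Real.exp (-((k : ℝ) / K)) / Real.sqrt k) *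
      (Real.exp (-((l : ℝ) / K)) / Real.sqrt l)) := by
  have hT0 : 0 < T := by linarith
  have hK0 : 0 < K := by linarith
  have hR : 0 ≤ (C * 3 ^ 8 / T ^ 8) * ((Real.exp (-((k : ℝ) / K)) / Real.sqrt k) *
      (Real.exp (-((l : ℝ) / K)) / Real.sqrt l)) := by positivity
  split_ifs with hif
  · rw [mul_zero]
    exact hR
  · rcases Nat.eq_zero_or_pos k with hk | hk
    · have : F w T (n * K) (m * K) (n * (k : ℝ)) (m * (l : ℝ)) = 0 := by
        rw [hk]
        simp [F]
      rw [this, norm_zero, mul_zero]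
      exact hR
    rcases Nat.eq_zero_or_pos l with hl | hl
    · have : F w T (n * K) (m * K) (n * (k : ℝ)) (m * (l : ℝ)) = 0 := by
        rw [hl]
        simp [F]
      rw [this, norm_zero, mul_zero]
      exact hR
    have hn' : (0 : ℝ) < n := by exact_mod_cast hn
    have hm' : (0 : ℝ) < m := by exact_mod_cast hm
    have hk' : (0 : ℝ) < k := by exact_mod_cast hk
    have hl' : (0 : ℝ) < l := by exact_mod_cast hl
    have hfar : (m * l : ℝ) < 2 * |(n * k : ℝ) - m * l| := by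
      have h0 := not_le.mp hif
      exact_mod_cast h0
    have hlog := far_log (n * k) (m * l) (by positivity) (by positivity) hfar
    have hWb : ‖W w 0 (T * Real.log ((n * k : ℝ) / (m * l)))‖ ≤ C * 3 ^ 8 / T ^ 8 := by
      refine (hW _).trans ?_
      have h1 : T / 3 ≤ 1 + |T * Real.log ((n * k : ℝ) / (m * l))| := by
        rw [abs_mul, abs_of_pos hT0]
        nlinarith [mul_le_mul_of_nonneg_left hlog hT0.le]
      have h2 : (T / 3) ^ 8 ≤ (1 + |T * Real.log ((n * k : ℝ) / (m * l))|) ^ 8 :=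
        pow_le_pow_left₀ (by positivity) h1 8
      calc C / (1 + |T * Real.log ((n * k : ℝ) / (m * l))|) ^ 8 ≤ C / (T / 3) ^ 8 :=
            div_le_div_of_nonneg_left hC (by positivity) h2
        _ = C * 3 ^ 8 / T ^ 8 := by
            rw [div_pow]
            field_simp
    have hF : ‖F w T (n * K) (m * K) (n * (k : ℝ)) (m * (l : ℝ))‖ =
        Real.exp (-((n * k : ℝ) / (n * K)) - (m * l : ℝ) / (m * K)) /
          Real.sqrt ((n * k) * (m * l)) * ‖W w 0 (T * Real.log ((n * k : ℝ) / (m * l)))‖ := by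
      rw [F, norm_mul, Complex.norm_real, Real.norm_of_nonneg (by positivity)]
    have hexp : Real.exp (-((n * k : ℝ) / (n * K)) - (m * l : ℝ) / (m * K)) =
        Real.exp (-((k : ℝ) / K)) * Real.exp (-((l : ℝ) / K)) := by
      rw [← Real.exp_add]
      congr 1
      field_simp
      ring
    have hsq : Real.sqrt ((n * k) * (m * l)) =
        Real.sqrt (n * m) * (Real.sqrt k * Real.sqrt l) := by
      rw [← Real.sqrt_mul hk'.le, ← Real.sqrt_mul (by positivity)]
      congr 1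
      ring
    have hs1 : 0 < Real.sqrt (n * m) := Real.sqrt_pos.mpr (by positivity)
    have hs2 : 0 < Real.sqrt k := Real.sqrt_pos.mpr hk'
    have hs3 : 0 < Real.sqrt l := Real.sqrt_pos.mpr hl'
    rw [hF, hexp, hsq]
    have hid : Real.sqrt (n * m) * (Real.exp (-((k : ℝ) / K)) * Real.exp (-((l : ℝ) / K)) /
        (Real.sqrt (n * m) * (Real.sqrt k * Real.sqrt l)) *
        ‖W w 0 (T * Real.log ((n * k : ℝ) / (m * l)))‖) =
        ‖W w 0 (T * Real.log ((n * k : ℝ) / (m * l)))‖ *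
        ((Real.exp (-((k : ℝ) / K)) / Real.sqrt k) * (Real.exp (-((l : ℝ) / K)) / Real.sqrt l)) := by
      field_simp
    rw [hid]
    exact mul_le_mul_of_nonneg_right hWb (by positivity)

theorem iFAR (hW : StW) (hP : StPc) : StFar := by
  intro w hw
  obtain ⟨_, hdec, _⟩ := hW w hw
  obtain ⟨C, hC, hCb⟩ := hdec 0 8
  refine ⟨C * 3 ^ 8 * 4, by positivity, ?_⟩
  intro K T hK hT n m hn hm
  obtain ⟨_, _, _, hsum, htsum⟩ := hP K hK
  have hT0 : 0 < T := by linarith
  have hK0 : 0 < K := by linarith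
  have hnn : ∀ k : ℕ, 0 ≤ Real.exp (-((k : ℝ) / K)) / Real.sqrt k := fun k => by positivity
  have hs2 : Summable (fun p : ℕ × ℕ => (Real.exp (-((p.1 : ℝ) / K)) / Real.sqrt p.1) *
      (Real.exp (-((p.2 : ℝ) / K)) / Real.sqrt p.2)) :=
    hsum.mul_of_nonneg hsum hnn hnn
  have hs3 : Summable (fun p : ℕ × ℕ => (C * 3 ^ 8 / T ^ 8) *
      ((Real.exp (-((p.1 : ℝ) / K)) / Real.sqrt p.1) *
      (Real.exp (-((p.2 : ℝ) / K)) / Real.sqrt p.2))) := hs2.mul_left _
  have hterm := fun p : ℕ × ℕ => far_term w C K T hC hK hT hCb n m hn hm p.1 p.2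
  have hs4 : Summable (fun p : ℕ × ℕ => Real.sqrt (n * m) *
      (if 2 * |(n * p.1 : ℤ) - m * p.2| ≤ (m * p.2 : ℤ) then 0
      else ‖F w T (n * K) (m * K) (n * p.1) (m * p.2)‖)) := by
    refine Summable.of_nonneg_of_le ?_ hterm hs3
    intro p
    split_ifs
    · simp
    · positivity
  rw [← tsum_mul_left]
  refine (hs4.tsum_le_tsum hterm hs3).trans ?_
  rw [tsum_mul_left, ← hsum.tsum_mul_tsum hsum hs2]
  have h0 : 0 ≤ ∑' k : ℕ, Real.exp (-((k : ℝ) / K)) / Real.sqrt k := tsum_nonneg hnn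
  have h1 : (∑' k : ℕ, Real.exp (-((k : ℝ) / K)) / Real.sqrt k) *
      (∑' k : ℕ, Real.exp (-((k : ℝ) / K)) / Real.sqrt k) ≤ 4 * K := by
    calc _ ≤ (2 * Real.sqrt K) * (2 * Real.sqrt K) :=
          mul_le_mul htsum htsum h0 (by positivity)
      _ = 4 * (Real.sqrt K * Real.sqrt K) := by ring
      _ = 4 * K := by rw [Real.mul_self_sqrt hK0.le]
  calc _ ≤ (C * 3 ^ 8 / T ^ 8) * (4 * K) := mul_le_mul_of_nonneg_left h1 (by positivity)
    _ = C * 3 ^ 8 * 4 * K / T ^ 8 := by ring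

end Pool.Agent.Work.MP_56b8f5_nt.EM
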