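import Pool.Agent.Work.MP_56b8f5_nt.EM.Stmts

open MeasureTheory Set Filter Topology

noncomputable section

namespace Pool.Agent.Work.MP_56b8f5_nt.EM

private lemma fin_aux1 {a b : ℕ} {X : ℝ} (ha : 0 < a) (hb : 0 < b)
    (h : Real.log ((a : ℝ) * (b : ℝ)) ≤ X) :
    a ∈ Finset.Icc 1 ⌊Real.exp X⌋₊ ∧ b ∈ Finset.Icc 1 ⌊Real.exp X⌋₊ := by
  have ha' : (1 : ℝ) ≤ a := by exact_mod_cast ha
  have hb' : (1 : ℝ) ≤ b := by exact_mod_cast hb
  have hpos : (0 : ℝ) < (a : ℝ) * b := by positivity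
  have h1 : (a : ℝ) * b ≤ Real.exp X := (Real.log_le_iff_le_exp hpos).1 h
  constructor
  · rw [Finset.mem_Icc]
    refine ⟨ha, Nat.le_floor ?_⟩
    nlinarith
  · rw [Finset.mem_Icc]
    refine ⟨hb, Nat.le_floor ?_⟩
    nlinarith

/-- The ball `{ht γ ≤ X}` is finite, with at most `e^{2X}` elements. -/
theorem iFIN (h : StGam) : StFin := by
  obtain ⟨h1, -, hinj, -⟩ := h
  intro X _
  set N : ℕ := ⌊Real.exp X⌋₊ with hN
  set f : Gam → ℕ × ℕ := fun γ => (num γ, den γ) with hf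
  have hmem : ∀ γ : Gam, ht γ ≤ X → f γ ∈ Finset.Icc 1 N ×ˢ Finset.Icc 1 N := by
    intro γ hγ
    obtain ⟨hn, hd, -, -, hht, -⟩ := h1 γ
    rw [hht] at hγ
    have := fin_aux1 hn hd hγ
    rw [Finset.mem_product]
    exact this
  have hfin : {γ : Gam | ht γ ≤ X}.Finite := by
    have h2 : (f ⁻¹' ((Finset.Icc 1 N ×ˢ Finset.Icc 1 N : Finset (ℕ × ℕ)) : Set (ℕ × ℕ))).Finite :=
      (Finset.finite_toSet _).preimage (hinj.injOn)
    refine h2.subset ?_
    intro γ hγ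
    exact hmem γ hγ
  refine ⟨hfin.toFinset, fun γ => by simp, ?_⟩
  have hcard : hfin.toFinset.card ≤ (Finset.Icc 1 N ×ˢ Finset.Icc 1 N : Finset (ℕ × ℕ)).card := by
    refine Finset.card_le_card_of_injOn f ?_ (hinj.injOn)
    intro γ hγ
    have : ht γ ≤ X := by simpa using hγ
    exact hmem γ this
  rw [Finset.card_product, Nat.card_Icc, Nat.add_sub_cancel] at hcard
  have hNle : (N : ℝ) ≤ Real.exp X := Nat.floor_le (Real.exp_pos X).le
  have h3 : ((hfin.toFinset.card : ℕ) : ℝ) ≤ (N : ℝ) * N := by exact_mod_cast hcard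
  have h4 : Real.exp (2 * X) = Real.exp X * Real.exp X := by
    rw [← Real.exp_add]; ring_nf
  rw [h4]
  refine h3.trans ?_
  exact mul_le_mul hNle hNle (Nat.cast_nonneg N) (Real.exp_pos X).le

end Pool.Agent.Work.MP_56b8f5_nt.EM
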