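import Pool.Agent.Work.MP_56b8f5_nt.EM.Stmts

/-!
MP_56b8f5_nt, block EM, item GA: bounds for the Gamma function on vertical lines.
-/

open MeasureTheory Set Filter Topology

noncomputable section

namespace Pool.Agent.Work.MP_56b8f5_nt.EM

/-- `‖Γ(s)‖ ≤ Γ(re s)` for `re s > 0`. -/
lemma ga_norm_le {s : ℂ} (hs : 0 < s.re) : ‖Complex.Gamma s‖ ≤ Real.Gamma s.re := by
  rw [Complex.Gamma_eq_integral hs, Real.Gamma_eq_integral hs, Complex.GammaIntegral]
  refine (norm_integral_le_integral_norm _).trans (le_of_eq ?_)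
  refine setIntegral_congr_fun measurableSet_Ioi fun x hx => ?_
  have hx' : (0 : ℝ) < x := hx
  simp only [norm_mul, Complex.norm_real, Real.norm_eq_abs, abs_of_pos (Real.exp_pos _)]
  rw [Complex.norm_cpow_eq_rpow_re_of_pos hx']
  simp

/-- Shifting to the right. -/
lemma ga_shift (A : ℕ) {s : ℂ} (hs : 0 < s.re) :
    ‖Complex.Gamma s‖ * |s.im| ^ A ≤ ‖Complex.Gamma (s + A)‖ := by
  induction A with
  | zero => simp
  | succ A ih =>
    have hre : 0 < (s + A).re := by
      simp only [Complex.add_re, Complex.natCast_re]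
      positivity
    have hne : s + (A : ℂ) ≠ 0 := by
      intro h
      rw [h] at hre
      simp at hre
    have h1 : Complex.Gamma (s + ((A + 1 : ℕ) : ℂ)) = (s + A) * Complex.Gamma (s + A) := by
      rw [← Complex.Gamma_add_one _ hne]
      push_cast
      ring_nf
    have h2 : |s.im| ≤ ‖s + (A : ℂ)‖ := by
      have := Complex.abs_im_le_norm (s + (A : ℂ))
      simpa using this
    rw [h1, norm_mul, pow_succ]
    calc ‖Complex.Gamma s‖ * (|s.im| ^ A * |s.im|) = |s.im| * (‖Complex.Gamma s‖ * |s.im| ^ A) := by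
          ring
      _ ≤ ‖s + (A : ℂ)‖ * ‖Complex.Gamma (s + A)‖ :=
          mul_le_mul h2 ih (by positivity) (norm_nonneg _)

/-- The bound. -/
lemma ga_bound (A : ℕ) {s : ℂ} (hs : 0 < s.re) (hi : s.im ≠ 0) :
    ‖Complex.Gamma s‖ ≤ Real.Gamma (s.re + A) / |s.im| ^ A := by
  have hpos : 0 < |s.im| ^ A := pow_pos (abs_pos.mpr hi) A
  rw [le_div_iff₀ hpos]
  refine (ga_shift A hs).trans ?_
  have hre : (s + (A : ℂ)).re = s.re + A := by simp
  have h : 0 < (s + (A : ℂ)).re := by
    rw [hre]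
    positivity
  have := ga_norm_le h
  rwa [hre] at this

theorem iGA : StGa := by
  constructor
  · intro A
    refine ⟨Real.Gamma (1 / 2 + A), (Real.Gamma_pos_of_pos (by positivity)).le, fun t ht => ?_⟩
    have hre : (1 / 2 + (t : ℂ) * Complex.I).re = 1 / 2 := by simp
    have him : (1 / 2 + (t : ℂ) * Complex.I).im = t := by simp
    have := ga_bound A (s := 1 / 2 + (t : ℂ) * Complex.I) (by rw [hre]; norm_num)
      (by rw [him]; exact ht)
    rwa [hre, him] at this
  · refine ⟨Real.Gamma (3 / 2 + 2), (Real.Gamma_pos_of_pos (by positivity)).le, fun t ht => ?_⟩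
    have hre : (3 / 2 - (t : ℂ) * Complex.I).re = 3 / 2 := by simp
    have him : (3 / 2 - (t : ℂ) * Complex.I).im = -t := by simp
    have := ga_bound 2 (s := 3 / 2 - (t : ℂ) * Complex.I) (by rw [hre]; norm_num)
      (by rw [him]; exact neg_ne_zero.mpr ht)
    rw [hre, him, abs_neg] at this
    exact_mod_cast this

end Pool.Agent.Work.MP_56b8f5_nt.EM
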