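import Pool.Agent.Work.MP_56b8f5_nt.EM.Stmts

set_option autoImplicit false

open MeasureTheory Set Filter Topology

namespace Pool.Agent.Work.MP_56b8f5_nt.EM

lemma gc_pz_cont (κ : ℝ) : Continuous (pz κ) :=
  continuous_const.max (continuous_const.sub continuous_abs)

lemma gc_gc_cont (κ : ℝ) : Continuous (gc κ) :=
  continuous_const.max (continuous_const.min
    ((continuous_const.sub continuous_abs).div_const κ))

lemma gc_kc_cont : Continuous kc :=
  continuous_const.max (continuous_const.min (continuous_const.sub continuous_abs))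

lemma gc_pz_supp {κ x : ℝ} (hκ : 0 < κ) (h : pz κ x ≠ 0) : |x| ≤ 2 := by
  unfold pz at h
  by_contra hx
  apply h
  refine max_eq_left ?_
  push Not at hx
  linarith

lemma gc_gc_supp {κ x : ℝ} (hκ : 0 < κ) (h : gc κ x ≠ 0) : |x| ≤ 2 := by
  unfold gc at h
  by_contra hx
  apply h
  refine max_eq_left ?_
  push Not at hx
  refine (min_le_right _ _).trans ?_
  exact div_nonpos_of_nonpos_of_nonneg (by linarith) hκ.le

lemma gc_kc_supp {x : ℝ} (h : kc x ≠ 0) : |x| ≤ 2 := by
  unfold kc at h
  by_contra hx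
  apply h
  refine max_eq_left ?_
  push Not at hx
  refine (min_le_right _ _).trans ?_
  linarith

lemma gc_eta_supp {κ x : ℝ} {η : ℝ → ℝ} (hκ : 0 < κ) (hκ1 : κ < 1 / 100) (hη : IsEta κ η)
    (h : η x ≠ 0) : |x| ≤ 2 := by
  obtain ⟨h1, h2⟩ := hη.supp x h
  rw [abs_le]
  constructor <;> linarith

theorem iGC : StGc := by
  intro κ hκ hκ1 η hη
  have hcs : ∀ G : (Fin 5 → ℝ) → ℝ, (∀ x, G x ≠ 0 → ∀ i, |x i| ≤ 2) → HasCompactSupport G := by
    intro G hG
    refine HasCompactSupport.intro (K := Set.pi univ fun _ => Icc (-2) 2)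
      (isCompact_univ_pi fun _ => isCompact_Icc) ?_
    intro x hx
    by_contra h
    exact hx fun i _ => abs_le.mp (hG x h i)
  have c : ∀ i : Fin 5, Continuous fun x : Fin 5 → ℝ => x i := fun i => continuous_apply i
  refine ⟨?_, ?_, ?_, ?_⟩
  · exact (((((gc_pz_cont κ).comp (c 0)).mul (hη.cont.comp (c 1))).mul
      ((gc_pz_cont κ).comp (c 2))).mul (hη.cont.comp (c 3))).mul ((gc_gc_cont κ).comp (c 4))
  · refine hcs _ fun x hx => ?_
    unfold GX at hx
    have h4 := right_ne_zero_of_mul hx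
    have hx := left_ne_zero_of_mul hx
    have h3 := right_ne_zero_of_mul hx
    have hx := left_ne_zero_of_mul hx
    have h2 := right_ne_zero_of_mul hx
    have hx := left_ne_zero_of_mul hx
    have h1 := right_ne_zero_of_mul hx
    have h0 := left_ne_zero_of_mul hx
    intro i
    fin_cases i
    · exact gc_pz_supp hκ h0
    · exact gc_eta_supp hκ hκ1 hη h1
    · exact gc_pz_supp hκ h2
    · exact gc_eta_supp hκ hκ1 hη h3
    · exact gc_gc_supp hκ h4
  · exact ((((hη.cont.comp (c 0)).mul (hη.cont.comp (c 1))).mul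
      (hη.cont.comp (c 2))).mul (hη.cont.comp (c 3))).mul (gc_kc_cont.comp (c 4))
  · refine hcs _ fun x hx => ?_
    unfold GY at hx
    have h4 := right_ne_zero_of_mul hx
    have hx := left_ne_zero_of_mul hx
    have h3 := right_ne_zero_of_mul hx
    have hx := left_ne_zero_of_mul hx
    have h2 := right_ne_zero_of_mul hx
    have hx := left_ne_zero_of_mul hx
    have h1 := right_ne_zero_of_mul hx
    have h0 := left_ne_zero_of_mul hx
    intro i
    fin_cases i
    · exact gc_eta_supp hκ hκ1 hη h0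
    · exact gc_eta_supp hκ hκ1 hη h1
    · exact gc_eta_supp hκ hκ1 hη h2
    · exact gc_eta_supp hκ hκ1 hη h3
    · exact gc_kc_supp h4

end Pool.Agent.Work.MP_56b8f5_nt.EM
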