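import Pool.Agent.Work.MP_56b8f5_nt.EM.Stmts

/-!
MP_56b8f5_nt, block EM: item JL (Laplace transform of the limit measure).
-/

open MeasureTheory Set Filter Topology

noncomputable section

namespace Pool.Agent.Work.MP_56b8f5_nt.EM

theorem jl_int (c : ℝ) (hc : 0 < c) :
    ∫⁻ t in Ioi (0 : ℝ), ENNReal.ofReal t * ENNReal.ofReal (Real.exp (-(c * t))) =
      ENNReal.ofReal (1 / c ^ 2) := by
  have h1 : ∫ t in Ioi (0 : ℝ), t * Real.exp (-(c * t)) = 1 / c ^ 2 := by
    have h := Real.integral_rpow_mul_exp_neg_mul_Ioi (a := 2) (r := c) (by norm_num) hc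
    have h3 : Real.Gamma 2 = 1 := by
      simp
    rw [h3, mul_one] at h
    have h4 : (1 / c) ^ (2 : ℝ) = 1 / c ^ 2 := by
      rw [Real.rpow_two]; ring
    rw [h4] at h
    rw [← h]
    refine setIntegral_congr_fun measurableSet_Ioi fun t ht => ?_
    have h5 : (t : ℝ) ^ ((2 : ℝ) - 1) = t := by
      rw [show (2 : ℝ) - 1 = 1 by norm_num, Real.rpow_one]
    simp only [h5]
  have h2 : IntegrableOn (fun t : ℝ => t * Real.exp (-(c * t))) (Ioi 0) := by
    by_contra h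
    rw [integral_undef h] at h1
    have : 0 < 1 / c ^ 2 := by positivity
    linarith
  rw [← h1, ofReal_integral_eq_lintegral_ofReal h2]
  · refine setLIntegral_congr_fun measurableSet_Ioi fun t ht => ?_
    exact (ENNReal.ofReal_mul (le_of_lt ht)).symm
  · refine (ae_restrict_iff' measurableSet_Ioi).2 (Eventually.of_forall fun t ht => ?_)
    have : (0 : ℝ) < t := ht
    simp only [Pi.zero_apply]
    positivity

theorem jl_st (c : ℝ) (hc : 0 < c) (K M : ENNReal) :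
    ∫⁻ t in Ioi (0 : ℝ), ENNReal.ofReal t * (K * ENNReal.ofReal (Real.exp (-(c * t))) * M) =
      K * (ENNReal.ofReal (1 / c ^ 2) * M) := by
  have hm : Measurable fun t : ℝ =>
      ENNReal.ofReal t * ENNReal.ofReal (Real.exp (-(c * t))) := by fun_prop
  calc ∫⁻ t in Ioi (0 : ℝ), ENNReal.ofReal t * (K * ENNReal.ofReal (Real.exp (-(c * t))) * M)
      = ∫⁻ t in Ioi (0 : ℝ), (K * M) *
          (ENNReal.ofReal t * ENNReal.ofReal (Real.exp (-(c * t)))) := by
        refine lintegral_congr fun t => ?_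
        ring
    _ = (K * M) * ENNReal.ofReal (1 / c ^ 2) := by
        rw [lintegral_const_mul _ hm, jl_int c hc]
    _ = _ := by ring

theorem jl_six (c1 c2 c3 c4 c5 c6 : ℝ) (h1 : 0 < c1) (h2 : 0 < c2) (h3 : 0 < c3) (h4 : 0 < c4)
    (h5 : 0 < c5) (h6 : 0 < c6) :
    (∫⁻ d in Ioi (0 : ℝ), ENNReal.ofReal d * ∫⁻ c in Ioi (0 : ℝ), ENNReal.ofReal c *
    ∫⁻ b in Ioi (0 : ℝ), ENNReal.ofReal b * ∫⁻ a in Ioi (0 : ℝ), ENNReal.ofReal a *
    ∫⁻ J in Ioi (0 : ℝ), ENNReal.ofReal J * ∫⁻ J' in Ioi (0 : ℝ), ENNReal.ofReal J' *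
    ENNReal.ofReal (Real.exp (-(c6 * d + c5 * c + c4 * b + c3 * a + c1 * J + c2 * J')))) =
    ENNReal.ofReal ((1 / c6 ^ 2) * ((1 / c5 ^ 2) * ((1 / c4 ^ 2) * ((1 / c3 ^ 2) *
      ((1 / c1 ^ 2) * (1 / c2 ^ 2)))))) := by
  have he : ∀ d c b a J J' : ℝ,
      ENNReal.ofReal (Real.exp (-(c6 * d + c5 * c + c4 * b + c3 * a + c1 * J + c2 * J'))) =
      1 * ENNReal.ofReal (Real.exp (-(c6 * d))) * ENNReal.ofReal (Real.exp (-(c5 * c))) *
      ENNReal.ofReal (Real.exp (-(c4 * b))) * ENNReal.ofReal (Real.exp (-(c3 * a))) *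
      ENNReal.ofReal (Real.exp (-(c1 * J))) * ENNReal.ofReal (Real.exp (-(c2 * J'))) * 1 := by
    intro d c b a J J'
    rw [one_mul, mul_one, ← ENNReal.ofReal_mul (Real.exp_pos _).le,
      ← ENNReal.ofReal_mul (by positivity), ← ENNReal.ofReal_mul (by positivity),
      ← ENNReal.ofReal_mul (by positivity), ← ENNReal.ofReal_mul (by positivity)]
    congr 1
    rw [← Real.exp_add, ← Real.exp_add, ← Real.exp_add, ← Real.exp_add, ← Real.exp_add]
    congr 1
    ring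
  simp_rw [he, jl_st c2 h2, jl_st c1 h1, jl_st c3 h3, jl_st c4 h4, jl_st c5 h5]
  rw [jl_st c6 h6, one_mul, mul_one, ← ENNReal.ofReal_mul (by positivity),
    ← ENNReal.ofReal_mul (by positivity), ← ENNReal.ofReal_mul (by positivity),
    ← ENNReal.ofReal_mul (by positivity), ← ENNReal.ofReal_mul (by positivity)]

theorem jl_sum (lam : Fin 5 → ℝ) (d c b a J J' : ℝ) :
    ∑ i, lam i * xt (d, c, b, a, J, J') i =
      (lam 1 + lam 3 + lam 4) * d + (lam 1 + lam 2 + lam 4) * c + (lam 0 + lam 3 + lam 4) * b +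
      (lam 0 + lam 2 + lam 4) * a + (lam 0 + lam 1) * J + (lam 2 + lam 3) * J' := by
  simp [Fin.sum_univ_five, xt, xx]
  ring

theorem jl_cont (lam : Fin 5 → ℝ) :
    Continuous fun t : T6 => Real.exp (-(∑ i, lam i * xt t i)) := by
  have h : ∀ t : T6, ∑ i, lam i * xt t i =
      (lam 1 + lam 3 + lam 4) * t.1 + (lam 1 + lam 2 + lam 4) * t.2.1 +
      (lam 0 + lam 3 + lam 4) * t.2.2.1 + (lam 0 + lam 2 + lam 4) * t.2.2.2.1 +
      (lam 0 + lam 1) * t.2.2.2.2.1 + (lam 2 + lam 3) * t.2.2.2.2.2 := by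
    rintro ⟨d, c, b, a, J, J'⟩
    exact jl_sum lam d c b a J J'
  simp_rw [h]
  fun_prop

theorem iJL (hM : StMu) : StJL := by
  intro lam hlam
  have h0 := hlam 0
  have h1 := hlam 1
  have h2 := hlam 2
  have h3 := hlam 3
  have h4 := hlam 4
  have hc := jl_cont lam
  have hL : ∫⁻ t : T6, ENNReal.ofReal (Real.exp (-(∑ i, lam i * xt t i))) ∂mu6 =
      ENNReal.ofReal (∏ i : Fin 6, (1 / sij lam i ^ 2)) := by
    rw [hM _ (by exact hc.measurable.ennreal_ofReal)]
    simp_rw [jl_sum]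
    rw [jl_six _ _ _ _ _ _ (by positivity) (by positivity) (by positivity) (by positivity)
      (by positivity) (by positivity)]
    congr 1
    rw [Fin.prod_univ_six]
    simp only [sij, Matrix.cons_val]
    ring
  have hnn : 0 ≤ᵐ[mu6] fun t : T6 => Real.exp (-(∑ i, lam i * xt t i)) :=
    Eventually.of_forall fun t => (Real.exp_pos _).le
  have hP : 0 ≤ ∏ i : Fin 6, (1 / sij lam i ^ 2) :=
    Finset.prod_nonneg fun i _ => by positivity
  refine ⟨⟨hc.aestronglyMeasurable, ?_⟩, ?_⟩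
  · rw [hasFiniteIntegral_iff_ofReal hnn, hL]
    exact ENNReal.ofReal_lt_top
  · rw [integral_eq_lintegral_of_nonneg_ae hnn hc.aestronglyMeasurable, hL,
      ENNReal.toReal_ofReal hP]

end Pool.Agent.Work.MP_56b8f5_nt.EM
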