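import Pool.Agent.Work.MP_56b8f5_nt.EM.Stmts

/-! MP_56b8f5_nt, block EM: item `StKar` (helper59). -/

open MeasureTheory Set Filter Topology

noncomputable section

namespace Pool.Agent.Work.MP_56b8f5_nt.EM

theorem iKAR (hSW : StSW) : StKar := by
  intro M M0 hM hM0 hk G hG hGc
  -- the basic exponential
  set E : (Fin 5 → ℕ) → (Fin 5 → ℝ) → ℝ := fun k x => Real.exp (-(∑ i, (k i : ℝ) * x i)) with hE
  have h1 := hk (fun _ => 1) (fun _ => le_refl 1)
  obtain ⟨hI1, hI10, hT1⟩ := h1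
  have hEone : ∀ x : Fin 5 → ℝ, E (fun _ => 1) x = Real.exp (-(∑ i, x i)) := by
    intro x; simp [hE]
  -- the key comparison
  have key : ∀ ε : ℝ, 0 < ε → ∀ (S : Finset (Fin 5 → ℕ)) (c : (Fin 5 → ℕ) → ℝ),
      (∀ x : Fin 5 → ℝ, (∀ i, 0 ≤ x i) →
        |G x - ∑ k ∈ S, c k * Real.exp (-(∑ i, ((k i : ℝ) + 1) * x i))| ≤
          ε * Real.exp (-(∑ i, x i))) →
      ∀ N : Measure (Fin 5 → ℝ), (∀ᵐ x ∂N, ∀ i, 0 ≤ x i) →
      (∀ k : Fin 5 → ℕ, (∀ i, 1 ≤ k i) → Integrable (E k) N) →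
      |(∫ x, G x ∂N) - ∑ k ∈ S, c k * ∫ x, E (fun i => k i + 1) x ∂N| ≤
        ε * ∫ x, E (fun _ => 1) x ∂N := by
    intro ε hε S c hS N hN hNI
    have hEk : ∀ (k : Fin 5 → ℕ) (x : Fin 5 → ℝ), E (fun i => k i + 1) x =
        Real.exp (-(∑ i, ((k i : ℝ) + 1) * x i)) := by
      intro k x; simp [hE]
    have hIk : ∀ k : Fin 5 → ℕ, Integrable (E (fun i => k i + 1)) N := fun k =>
      hNI _ (fun i => by omega)
    have hI1' : Integrable (E (fun _ => 1)) N := hNI _ (fun i => le_refl 1)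
    have hP : Integrable (fun x => ∑ k ∈ S, c k * E (fun i => k i + 1) x) N :=
      integrable_finsetSum _ fun k _ => (hIk k).const_mul _
    have hb : ∀ᵐ x ∂N, ‖G x - ∑ k ∈ S, c k * E (fun i => k i + 1) x‖ ≤
        ε * E (fun _ => 1) x := by
      filter_upwards [hN] with x hx
      rw [Real.norm_eq_abs, hEone]
      simp only [hEk]
      exact hS x hx
    have hmeas : AEStronglyMeasurable G N := hG.aestronglyMeasurable
    have hDI : Integrable (fun x => G x - ∑ k ∈ S, c k * E (fun i => k i + 1) x) N :=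
      Integrable.mono' (hI1'.const_mul ε) (hmeas.sub hP.aestronglyMeasurable) hb
    have hGI : Integrable G N := by
      have := hDI.add hP
      refine this.congr (Eventually.of_forall fun x => ?_)
      simp
    have h2 : (∫ x, G x ∂N) - ∑ k ∈ S, c k * ∫ x, E (fun i => k i + 1) x ∂N =
        ∫ x, (G x - ∑ k ∈ S, c k * E (fun i => k i + 1) x) ∂N := by
      rw [integral_sub hGI hP, integral_finsetSum _ fun k _ => (hIk k).const_mul _]
      simp only [integral_const_mul]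
    rw [h2, ← Real.norm_eq_abs, ← integral_const_mul]
    exact norm_integral_le_of_norm_le (hI1'.const_mul ε) hb
  rw [Metric.tendsto_atTop]
  intro η hη
  set m1 : ℝ := ∫ x, E (fun _ => 1) x ∂M0 with hm1
  have hm1nn : 0 ≤ m1 := integral_nonneg fun x => (Real.exp_pos _).le
  set ε : ℝ := η / (4 * (m1 + 1)) with hε
  have hε0 : 0 < ε := by positivity
  obtain ⟨S, c, hS⟩ := hSW G hG hGc ε hε0
  have hk0 := key ε hε0 S c hS M0 hM0 (fun k hk1 => (hk k hk1).2.1)
  have hTS : Tendsto (fun L => ∑ k ∈ S, c k * ∫ x, E (fun i => k i + 1) x ∂(M L)) atTop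
      (𝓝 (∑ k ∈ S, c k * ∫ x, E (fun i => k i + 1) x ∂M0)) := by
    refine tendsto_finsetSum _ fun k _ => ?_
    exact ((hk (fun i => k i + 1) (fun i => by omega)).2.2).const_mul _
  have hT1' : Tendsto (fun L => ∫ x, E (fun _ => 1) x ∂(M L)) atTop (𝓝 m1) := hT1
  rw [Metric.tendsto_atTop] at hTS hT1'
  obtain ⟨L1, hL1⟩ := hTS (η / 4) (by positivity)
  obtain ⟨L2, hL2⟩ := hT1' 1 one_pos
  refine ⟨max (max L1 L2) 1, fun L hL => ?_⟩
  have hLa : L1 ≤ L := le_trans (le_trans (le_max_left _ _) (le_max_left _ _)) hL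
  have hLb : L2 ≤ L := le_trans (le_trans (le_max_right _ _) (le_max_left _ _)) hL
  have hLc : (0:ℝ) < L := lt_of_lt_of_le one_pos (le_trans (le_max_right _ _) hL)
  have hkL := key ε hε0 S c hS (M L) (hM L hLc) (fun k hk1 => (hk k hk1).1 L hLc)
  have h3 := hL1 L hLa
  have h4 := hL2 L hLb
  rw [Real.dist_eq] at h3 h4 ⊢
  have h5 : ∫ x, E (fun _ => 1) x ∂(M L) ≤ m1 + 1 := by
    have := (abs_lt.mp h4).2
    linarith
  have h6 : ε * ∫ x, E (fun _ => 1) x ∂(M L) ≤ η / 4 := by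
    calc ε * ∫ x, E (fun _ => 1) x ∂(M L) ≤ ε * (m1 + 1) := mul_le_mul_of_nonneg_left h5 hε0.le
      _ = η / 4 := by rw [hε]; field_simp
  have h7 : ε * m1 ≤ η / 4 := by
    calc ε * m1 ≤ ε * (m1 + 1) := mul_le_mul_of_nonneg_left (by linarith) hε0.le
      _ = η / 4 := by rw [hε]; field_simp
  have h8 := hkL.trans h6
  have h9 := hk0.trans h7
  rw [abs_le] at h8 h9
  rw [abs_lt] at h3 ⊢
  constructor <;> linarith [h8.1, h8.2, h9.1, h9.2, h3.1, h3.2]

end Pool.Agent.Work.MP_56b8f5_nt.EM
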