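import Pool.Agent.Work.MP_56b8f5_nt.EM.Stmts

/-!
MP_56b8f5_nt, block EM, item LAP: the Laplace transform of the arithmetic measure.
-/

open MeasureTheory Set Filter Topology

noncomputable section

namespace Pool.Agent.Work.MP_56b8f5_nt.EM

theorem lap_term (lam : Fin 5 → ℝ) (L : ℝ) (q : Quad) :
    wt q * Real.exp (-(∑ i, lam i * xs L q i)) =
      Real.exp (-(EX (fun i => lam i / L) q)) := by
  unfold wt EX
  rw [← Real.exp_add]
  congr 1
  simp only [xs, Fin.sum_univ_five]
  simp
  ring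

theorem lap_val (lam : Fin 5 → ℝ) (hlam : ∀ i, 0 < lam i) (i : Fin 6) : 0 < sij lam i := by
  have h0 := hlam 0
  have h1 := hlam 1
  have h2 := hlam 2
  have h3 := hlam 3
  have h4 := hlam 4
  fin_cases i <;> simp [sij] <;> linarith

theorem iLAP (hE : StEul) (hR : StRem) (hZ : StZe) : StLap := by
  intro lam hlam
  have hs : ∀ L : ℝ, 0 < L → ∀ i, 0 < (fun i => lam i / L) i := fun L hL i =>
    div_pos (hlam i) hL
  have hfun : ∀ L : ℝ, (fun q : Quad => wt q * Real.exp (-(∑ i, lam i * xs L q i))) =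
      fun q : Quad => Real.exp (-(EX (fun i => lam i / L) q)) := fun L =>
    funext fun q => lap_term lam L q
  refine ⟨fun L hL => ?_, ?_⟩
  · rw [hfun L]
    exact (hE _ (hs L hL)).1
  · obtain ⟨hRt, hRm⟩ := hR lam hlam
    obtain ⟨z, hz, hzt⟩ := hZ lam hlam
    have hne : (∏ i : Fin 6, sij lam i ^ 2) ≠ 0 :=
      Finset.prod_ne_zero_iff.mpr fun i _ => pow_ne_zero 2 (lap_val lam hlam i).ne'
    have hdiv := hRt.div hzt hne
    have hval : a4 / ∏ i : Fin 6, sij lam i ^ 2 = a4 * ∏ i : Fin 6, (1 / sij lam i ^ 2) := by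
      rw [Finset.prod_div_distrib]
      simp [div_eq_mul_inv]
    rw [hval] at hdiv
    refine hdiv.congr' ?_
    filter_upwards [eventually_gt_atTop (0 : ℝ)] with L hL
    obtain ⟨hzpos, hzprod⟩ := hz L hL
    have hSp : HasProd (fun p : Nat.Primes => Sp p (fun i => lam i / L))
        (Lam (fun i => lam i / L)) := (hE _ (hs L hL)).2
    have hprod := hSp.mul hzprod
    have heq := hprod.tprod_eq
    simp only [Pi.div_apply]
    rw [heq]
    have hLam : (∑' q : Quad, wt q * Real.exp (-(∑ i, lam i * xs L q i))) =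
        Lam (fun i => lam i / L) := by
      rw [hfun L]
      rfl
    rw [hLam]
    have hL12 : L ^ 12 ≠ 0 := pow_ne_zero _ hL.ne'
    have hz0 : z L ≠ 0 := hzpos.ne'
    field_simp

end Pool.Agent.Work.MP_56b8f5_nt.EM
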