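import Pool.Agent.Work.MP_56b8f5_nt.EM.Stmts

/-!
Block EM, item LOC0: local factors, the twelve vectors of length two and the rest.
-/

open MeasureTheory Set Filter Topology

noncomputable section

namespace Pool.Agent.Work.MP_56b8f5_nt.EM

/-- The zero vector and the twelve vectors of length two. -/
private def loc0_S : Finset (ℤ × ℤ × ℤ) :=
  {(0, 0, 0), (1, -1, 0), (-1, 1, 0), (0, 0, 1), (0, 0, -1), (1, 0, 1), (-1, 0, -1),
    (1, 0, 0), (-1, 0, 0), (0, 1, 1), (0, -1, -1), (0, 1, 0), (0, -1, 0)}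

private theorem loc0_small : ∀ a ∈ Finset.Icc (-3 : ℤ) 3, ∀ b ∈ Finset.Icc (-3 : ℤ) 3,
    ∀ c ∈ Finset.Icc (-3 : ℤ) 3, (a, b, c) ∈ loc0_S ∨ 4 ≤ |a| + |b| + |c| + |a + b - c| := by
  decide +kernel

private theorem loc0_four (v : ℤ × ℤ × ℤ) (hv : v ∉ loc0_S) :
    4 ≤ |v.1| + |v.2.1| + |v.2.2| + |v.1 + v.2.1 - v.2.2| := by
  obtain ⟨a, b, c⟩ := v
  by_contra hcon
  simp only at hcon
  push Not at hcon
  have h1 := abs_nonneg a
  have h2 := abs_nonneg b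
  have h3 := abs_nonneg c
  have h4 := abs_nonneg (a + b - c)
  have ha : |a| ≤ 3 := by linarith
  have hb : |b| ≤ 3 := by linarith
  have hc : |c| ≤ 3 := by linarith
  have := loc0_small a (Finset.mem_Icc.2 (abs_le.1 ha)) b (Finset.mem_Icc.2 (abs_le.1 hb))
    c (Finset.mem_Icc.2 (abs_le.1 hc))
  rcases this with h | h
  · exact hv h
  · linarith

/-- The dominating function. -/
private def loc0_G (v : ℤ × ℤ × ℤ) : ℝ :=
  (2 : ℝ) ^ (-(((|(v.1 : ℝ)| + |(v.2.1 : ℝ)| + |(v.2.2 : ℝ)|) / 2)))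

private theorem loc0_sum1 : Summable fun n : ℤ => (2 : ℝ) ^ (-(|(n : ℝ)| / 2)) := by
  have hr : Summable fun n : ℕ => ((2 : ℝ) ^ (-(1 / 2 : ℝ))) ^ n := by
    apply summable_geometric_of_lt_one (by positivity)
    exact Real.rpow_lt_one_of_one_lt_of_neg (by norm_num) (by norm_num)
  apply Summable.of_nat_of_neg
  · refine hr.congr fun n => ?_
    rw [← Real.rpow_natCast, ← Real.rpow_mul (by norm_num)]
    congr 1
    rw [Int.cast_natCast, abs_of_nonneg (Nat.cast_nonneg n)]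
    ring
  · refine hr.congr fun n => ?_
    rw [← Real.rpow_natCast, ← Real.rpow_mul (by norm_num)]
    congr 1
    rw [Int.cast_neg, Int.cast_natCast, abs_neg, abs_of_nonneg (Nat.cast_nonneg n)]
    ring

private theorem loc0_sumG : Summable loc0_G := by
  have h2 : Summable fun v : ℤ × ℤ => (2 : ℝ) ^ (-(|(v.1 : ℝ)| / 2)) * (2 : ℝ) ^ (-(|(v.2 : ℝ)| / 2)) :=
    loc0_sum1.mul_of_nonneg loc0_sum1 (fun _ => by positivity) (fun _ => by positivity)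
  have h3 := loc0_sum1.mul_of_nonneg h2 (fun _ => by positivity)
    (fun _ => by simp only [Pi.zero_apply]; positivity)
  refine h3.congr fun v => ?_
  simp only [loc0_G]
  rw [← Real.rpow_add (by norm_num), ← Real.rpow_add (by norm_num)]
  congr 1
  ring

private theorem loc0_ex_ge (s : Fin 5 → ℝ) (hs : ∀ i, 0 ≤ s i) (v : ℤ × ℤ × ℤ) :
    (|(v.1 : ℝ)| + |(v.2.1 : ℝ)| + |(v.2.2 : ℝ)| + |(v.1 : ℝ) + v.2.1 - v.2.2|) / 2 ≤ ex s v := by
  unfold ex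
  have h0 := mul_nonneg (hs 0) (abs_nonneg (v.1 : ℝ))
  have h1 := mul_nonneg (hs 1) (abs_nonneg (v.2.1 : ℝ))
  have h2 := mul_nonneg (hs 2) (abs_nonneg (v.2.2 : ℝ))
  have h3 := mul_nonneg (hs 3) (abs_nonneg ((v.1 : ℝ) + v.2.1 - v.2.2))
  have h4 := mul_nonneg (hs 4) (abs_nonneg ((v.1 : ℝ) + v.2.1))
  linarith

private theorem loc0_le_G (p : ℝ) (hp : 2 ≤ p) (s : Fin 5 → ℝ) (hs : ∀ i, 0 ≤ s i)
    (v : ℤ × ℤ × ℤ) : p ^ (-(ex s v)) ≤ loc0_G v := by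
  have h := loc0_ex_ge s hs v
  have h4 := abs_nonneg ((v.1 : ℝ) + v.2.1 - v.2.2)
  have h1 := abs_nonneg (v.1 : ℝ)
  have h2 := abs_nonneg (v.2.1 : ℝ)
  have h3 := abs_nonneg (v.2.2 : ℝ)
  calc p ^ (-(ex s v)) ≤ p ^ (-((|(v.1 : ℝ)| + |(v.2.1 : ℝ)| + |(v.2.2 : ℝ)|) / 2)) :=
        Real.rpow_le_rpow_of_exponent_le (by linarith) (by linarith)
    _ ≤ loc0_G v := by
        unfold loc0_G
        exact Real.rpow_le_rpow_of_nonpos (by norm_num) hp (by linarith)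

private theorem loc0_le_G' (p : ℝ) (hp : 2 ≤ p) (s : Fin 5 → ℝ) (hs : ∀ i, 0 ≤ s i)
    (v : ℤ × ℤ × ℤ) (hv : v ∉ loc0_S) : p ^ (-(ex s v)) ≤ 4 / p ^ 2 * loc0_G v := by
  have h := loc0_ex_ge s hs v
  have h4 := abs_nonneg ((v.1 : ℝ) + v.2.1 - v.2.2)
  have h1 := abs_nonneg (v.1 : ℝ)
  have h2 := abs_nonneg (v.2.1 : ℝ)
  have h3 := abs_nonneg (v.2.2 : ℝ)
  have hfour : (4 : ℝ) ≤ |(v.1 : ℝ)| + |(v.2.1 : ℝ)| + |(v.2.2 : ℝ)| +
      |(v.1 : ℝ) + v.2.1 - v.2.2| := by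
    have := loc0_four v hv
    exact_mod_cast this
  set N : ℝ := |(v.1 : ℝ)| + |(v.2.1 : ℝ)| + |(v.2.2 : ℝ)| + |(v.1 : ℝ) + v.2.1 - v.2.2| with hN
  have hp0 : (0 : ℝ) < p := by linarith
  calc p ^ (-(ex s v)) ≤ p ^ (-(N / 2)) :=
        Real.rpow_le_rpow_of_exponent_le (by linarith) (by linarith)
    _ = p ^ (-(2 : ℝ)) * p ^ (-((N - 4) / 2)) := by
        rw [← Real.rpow_add hp0]; congr 1; ring
    _ ≤ p ^ (-(2 : ℝ)) * (2 : ℝ) ^ (-((N - 4) / 2)) := by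
        apply mul_le_mul_of_nonneg_left _ (by positivity)
        exact Real.rpow_le_rpow_of_nonpos (by norm_num) hp (by linarith)
    _ = p ^ (-(2 : ℝ)) * ((2 : ℝ) ^ (2 : ℝ) * (2 : ℝ) ^ (-(N / 2))) := by
        rw [← Real.rpow_add (by norm_num : (0 : ℝ) < 2)]; congr 2; ring
    _ ≤ p ^ (-(2 : ℝ)) * ((2 : ℝ) ^ (2 : ℝ) * loc0_G v) := by
        apply mul_le_mul_of_nonneg_left _ (by positivity)
        apply mul_le_mul_of_nonneg_left _ (by positivity)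
        unfold loc0_G
        exact Real.rpow_le_rpow_of_exponent_le (by norm_num) (by linarith)
    _ = 4 / p ^ 2 * loc0_G v := by
        rw [Real.rpow_neg hp0.le]
        have e1 : p ^ (2 : ℝ) = p ^ (2 : ℕ) := by exact_mod_cast Real.rpow_natCast p 2
        have e2 : (2 : ℝ) ^ (2 : ℝ) = 4 := by
          rw [show (2 : ℝ) ^ (2 : ℝ) = (2 : ℝ) ^ (2 : ℕ) by exact_mod_cast Real.rpow_natCast 2 2]
          norm_num
        rw [e1, e2]
        ring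

private theorem loc0_sumS (p : ℝ) (s : Fin 5 → ℝ) :
    ∑ v ∈ loc0_S, p ^ (-(ex s v)) = 1 + 2 * ∑ i : Fin 6, p ^ (-(1 + sij s i)) := by
  have e0 : ex s (0, 0, 0) = 0 := by simp [ex]
  have e1 : ex s (1, -1, 0) = 1 + (s 0 + s 1) := by simp [ex]; ring
  have e1' : ex s (-1, 1, 0) = 1 + (s 0 + s 1) := by simp [ex]; ring
  have e2 : ex s (0, 0, 1) = 1 + (s 2 + s 3) := by simp [ex]; ring
  have e2' : ex s (0, 0, -1) = 1 + (s 2 + s 3) := by simp [ex]; ring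
  have e3 : ex s (1, 0, 1) = 1 + (s 0 + s 2 + s 4) := by simp [ex]; ring
  have e3' : ex s (-1, 0, -1) = 1 + (s 0 + s 2 + s 4) := by simp [ex]; ring
  have e4 : ex s (1, 0, 0) = 1 + (s 0 + s 3 + s 4) := by simp [ex]; ring
  have e4' : ex s (-1, 0, 0) = 1 + (s 0 + s 3 + s 4) := by simp [ex]; ring
  have e5 : ex s (0, 1, 1) = 1 + (s 1 + s 2 + s 4) := by simp [ex]; ring
  have e5' : ex s (0, -1, -1) = 1 + (s 1 + s 2 + s 4) := by simp [ex]; ring
  have e6 : ex s (0, 1, 0) = 1 + (s 1 + s 3 + s 4) := by simp [ex]; ring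
  have e6' : ex s (0, -1, 0) = 1 + (s 1 + s 3 + s 4) := by simp [ex]; ring
  unfold loc0_S
  rw [Finset.sum_insert (by decide), Finset.sum_insert (by decide), Finset.sum_insert (by decide),
    Finset.sum_insert (by decide), Finset.sum_insert (by decide), Finset.sum_insert (by decide),
    Finset.sum_insert (by decide), Finset.sum_insert (by decide), Finset.sum_insert (by decide),
    Finset.sum_insert (by decide), Finset.sum_insert (by decide), Finset.sum_insert (by decide),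
    Finset.sum_singleton, e0, e1, e1', e2, e2', e3, e3', e4, e4', e5, e5', e6, e6']
  rw [Fin.sum_univ_six]
  have t0 : sij s 0 = s 0 + s 1 := rfl
  have t1 : sij s 1 = s 2 + s 3 := rfl
  have t2 : sij s 2 = s 0 + s 2 + s 4 := rfl
  have t3 : sij s 3 = s 0 + s 3 + s 4 := rfl
  have t4 : sij s 4 = s 1 + s 2 + s 4 := rfl
  have t5 : sij s 5 = s 1 + s 3 + s 4 := rfl
  rw [t0, t1, t2, t3, t4, t5, neg_zero, Real.rpow_zero]
  ring

theorem iLOC0 : StLoc0 := by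
  refine ⟨4 * ∑' v, loc0_G v, ?_, ?_⟩
  · have : 0 ≤ ∑' v, loc0_G v := tsum_nonneg fun v => by unfold loc0_G; positivity
    positivity
  intro p s hs
  have hp : (2 : ℝ) ≤ ((p : ℕ) : ℝ) := by exact_mod_cast p.2.two_le
  have hsum : Summable fun v : ℤ × ℤ × ℤ => ((p : ℕ) : ℝ) ^ (-(ex s v)) :=
    Summable.of_nonneg_of_le (fun v => by positivity) (fun v => loc0_le_G _ hp s hs v) loc0_sumG
  have hsplit := hsum.sum_add_tsum_compl (s := loc0_S)
  rw [loc0_sumS] at hsplit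
  have hSp : Sp p s - 1 - 2 * ∑ i : Fin 6, ((p : ℕ) : ℝ) ^ (-(1 + sij s i)) =
      ∑' x : ↑((loc0_S : Set (ℤ × ℤ × ℤ))ᶜ), ((p : ℕ) : ℝ) ^ (-(ex s x)) := by
    unfold Sp
    rw [← hsplit]
    ring
  rw [hSp]
  refine ⟨hsum, tsum_nonneg fun _ => by positivity, ?_⟩
  have hG0 : ∀ v, 0 ≤ 4 / ((p : ℕ) : ℝ) ^ 2 * loc0_G v := fun v => by
    unfold loc0_G; positivity
  calc ∑' x : ↑((loc0_S : Set (ℤ × ℤ × ℤ))ᶜ), ((p : ℕ) : ℝ) ^ (-(ex s x))
      ≤ ∑' x : ↑((loc0_S : Set (ℤ × ℤ × ℤ))ᶜ), 4 / ((p : ℕ) : ℝ) ^ 2 * loc0_G x := by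
        apply Summable.tsum_le_tsum
        · intro x
          exact loc0_le_G' _ hp s hs x fun hx => x.2 (Finset.mem_coe.2 hx)
        · exact hsum.subtype _
        · exact (loc0_sumG.mul_left _).subtype _
    _ ≤ ∑' v, 4 / ((p : ℕ) : ℝ) ^ 2 * loc0_G v :=
        Summable.tsum_subtype_le _ _ hG0 (loc0_sumG.mul_left _)
    _ = 4 * (∑' v, loc0_G v) / ((p : ℕ) : ℝ) ^ 2 := by
        rw [tsum_mul_left]; ring

end Pool.Agent.Work.MP_56b8f5_nt.EM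

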