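import Pool.Agent.Work.MP_56b8f5_nt.EM.Stmts

/-!
MP_56b8f5_nt, block EM, item LOC1: the bound for the local factors.
-/

set_option autoImplicit false

open Finset

noncomputable section

namespace Pool.Agent.Work.MP_56b8f5_nt.EM

/-- `1 - Σ ≤ ∏ (1 - y)` for numbers in `[0,1]`. -/
theorem loc1_prod {α : Type} (S : Finset α) (z : α → ℝ) (h0 : ∀ i, 0 ≤ z i) (h1 : ∀ i, z i ≤ 1) :
    1 - ∑ i ∈ S, z i ≤ ∏ i ∈ S, (1 - z i) ∧ 0 ≤ ∏ i ∈ S, (1 - z i) ∧
      ∏ i ∈ S, (1 - z i) ≤ 1 := by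
  classical
  induction S using Finset.induction_on with
  | empty => simp
  | insert a S ha ih =>
    obtain ⟨h2, h3, h4⟩ := ih
    rw [sum_insert ha, prod_insert ha]
    have h5 := h0 a
    have h6 := h1 a
    refine ⟨?_, mul_nonneg (by linarith) h3, ?_⟩
    · nlinarith [mul_nonneg h5 (sub_nonneg.2 h4)]
    · nlinarith

/-- The exponential bound. -/
theorem loc1_exp {x : ℝ} (hx : 0 ≤ x) : Real.exp (-x) ≤ 1 - x + x ^ 2 := by
  have h1 := Real.quadratic_le_exp_of_nonneg hx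
  have h2 : 0 < Real.exp x := Real.exp_pos x
  rw [Real.exp_neg, inv_le_iff_one_le_mul₀ h2]
  have h3 : 0 ≤ 1 - x + x ^ 2 := by nlinarith [sq_nonneg (x - 1)]
  have h4 : (1 - x + x ^ 2) * (1 + x + x ^ 2 / 2) ≤ (1 - x + x ^ 2) * Real.exp x :=
    mul_le_mul_of_nonneg_left h1 h3
  have h5 : 1 ≤ (1 - x + x ^ 2) * (1 + x + x ^ 2 / 2) := by
    have h6 : (1 - x + x ^ 2) * (1 + x + x ^ 2 / 2) = 1 + x ^ 2 / 2 + x ^ 3 / 2 + x ^ 4 / 2 := by
      ring
    rw [h6]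
    have h7 : 0 ≤ x ^ 2 / 2 + x ^ 3 / 2 + x ^ 4 / 2 := by positivity
    linarith
  linarith

theorem loc1_sij {s : Fin 5 → ℝ} (hs : ∀ i, 0 ≤ s i) (i : Fin 6) : 0 ≤ sij s i := by
  have h0 := hs 0
  have h1 := hs 1
  have h2 := hs 2
  have h3 := hs 3
  have h4 := hs 4
  fin_cases i <;> simp [sij] <;> linarith

/-- The algebraic part. -/
theorem loc1_alg {q S Zv sg R C : ℝ} (hq0 : 0 < q) (hq : q ≤ 1 / 2) (hC : 0 ≤ C) (hsg0 : 0 ≤ sg)
    (hsg : sg ≤ 12 * q) (hS : S = 1 + sg + R) (hR0 : 0 ≤ R) (hR : R ≤ C * q ^ 2) (hZ0 : 0 ≤ Zv)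
    (hZl : 1 - sg ≤ Zv) (hZu : Zv ≤ 1 - sg + sg ^ 2) :
    |S * Zv - 1| ≤ (864 + 37 * C) * q ^ 2 := by
  have hsg6 : sg ≤ 6 := by linarith
  have hsgq : sg ^ 2 ≤ 144 * q ^ 2 := by nlinarith
  have hS0 : 0 ≤ S := by rw [hS]; linarith
  have hB0 : 0 ≤ 1 - sg + sg ^ 2 := hZ0.trans hZu
  have hB37 : 1 - sg + sg ^ 2 ≤ 37 := by nlinarith
  rw [abs_le]
  constructor
  · -- lower bound
    rcases le_or_gt sg 1 with h1 | h1
    · have h2 : (1 + sg) * (1 - sg) ≤ S * Zv := by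
        refine mul_le_mul ?_ hZl (by linarith) hS0
        rw [hS]
        linarith
      have h3 : 0 ≤ C * q ^ 2 := by positivity
      have h4 : 0 ≤ q ^ 2 := by positivity
      nlinarith
    · have h2 : 0 ≤ S * Zv := mul_nonneg hS0 hZ0
      have h3 : 1 ≤ sg ^ 2 := by nlinarith
      have h4 : 0 ≤ C * q ^ 2 := by positivity
      have h5 : 0 ≤ q ^ 2 := by positivity
      nlinarith
  · -- upper bound
    have h1 : S * Zv ≤ S * (1 - sg + sg ^ 2) := mul_le_mul_of_nonneg_left hZu hS0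
    have h2 : S * (1 - sg + sg ^ 2) = 1 + sg ^ 3 + R * (1 - sg + sg ^ 2) := by
      rw [hS]
      ring
    have h3 : sg ^ 3 ≤ 864 * q ^ 2 := by
      have h4 : sg ^ 3 = sg * sg ^ 2 := by ring
      rw [h4]
      calc sg * sg ^ 2 ≤ 6 * sg ^ 2 := mul_le_mul_of_nonneg_right hsg6 (sq_nonneg _)
        _ ≤ 6 * (144 * q ^ 2) := by linarith
        _ = 864 * q ^ 2 := by ring
    have h5 : R * (1 - sg + sg ^ 2) ≤ 37 * C * q ^ 2 := by
      calc R * (1 - sg + sg ^ 2) ≤ (C * q ^ 2) * 37 := mul_le_mul hR hB37 hB0 (by positivity)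
        _ = 37 * C * q ^ 2 := by ring
    linarith

theorem iLOC1 (h0 : StLoc0) : StLoc1 := by
  obtain ⟨C, hC, h⟩ := h0
  refine ⟨864 + 37 * C, by positivity, fun p s hs => ?_⟩
  obtain ⟨hsum, hlo, hhi⟩ := h p s hs
  have hp2 : (2 : ℝ) ≤ ((p : ℕ) : ℝ) := by exact_mod_cast p.2.two_le
  have hp0 : (0 : ℝ) < ((p : ℕ) : ℝ) := by linarith
  set y : Fin 6 → ℝ := fun i => ((p : ℕ) : ℝ) ^ (-(1 + sij s i)) with hy
  have hy0 : ∀ i, 0 < y i := fun i => Real.rpow_pos_of_pos hp0 _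
  set q : ℝ := 1 / ((p : ℕ) : ℝ) with hq
  have hq0 : 0 < q := by positivity
  have hq2 : q ≤ 1 / 2 := one_div_le_one_div_of_le (by norm_num) hp2
  have hyq : ∀ i, y i ≤ q := by
    intro i
    have h1 : y i ≤ ((p : ℕ) : ℝ) ^ (-1 : ℝ) :=
      Real.rpow_le_rpow_of_exponent_le (by linarith) (by linarith [loc1_sij hs i])
    rwa [Real.rpow_neg_one, ← one_div] at h1
  set sg : ℝ := 2 * ∑ i : Fin 6, y i with hsg
  have hsg' : sg = ∑ i : Fin 6, 2 * y i := by rw [hsg, mul_sum]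
  have hsg0 : 0 ≤ sg := by
    rw [hsg]
    have : 0 ≤ ∑ i : Fin 6, y i := sum_nonneg fun i _ => (hy0 i).le
    linarith
  have hsg12 : sg ≤ 12 * q := by
    rw [hsg]
    have : ∑ i : Fin 6, y i ≤ ∑ _i : Fin 6, q := sum_le_sum fun i _ => hyq i
    rw [sum_const, card_univ, Fintype.card_fin] at this
    simp only [nsmul_eq_mul] at this
    push_cast at this
    linarith
  have hZdef : Zf p s = ∏ i : Fin 6, (1 - y i) ^ 2 := rfl
  have hZpos : 0 < Zf p s := by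
    rw [hZdef]
    refine prod_pos fun i _ => ?_
    have h1 := hyq i
    have h2 : 0 < 1 - y i := by linarith
    positivity
  have hZl : 1 - sg ≤ Zf p s := by
    have h1 := (loc1_prod (univ : Finset (Fin 6)) (fun i => 2 * y i)
      (fun i => by have := hy0 i; positivity) (fun i => by
        have := hyq i
        show 2 * y i ≤ 1
        linarith)).1
    rw [hsg', hZdef]
    refine h1.trans (prod_le_prod (fun i _ => ?_) fun i _ => ?_)
    · have := hyq i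
      show 0 ≤ 1 - 2 * y i
      linarith
    · show 1 - 2 * y i ≤ (1 - y i) ^ 2
      nlinarith [sq_nonneg (y i)]
  have hZu : Zf p s ≤ 1 - sg + sg ^ 2 := by
    refine le_trans ?_ (loc1_exp hsg0)
    have h1 : Real.exp (-sg) = ∏ i : Fin 6, Real.exp (-(2 * y i)) := by
      rw [hsg', ← Real.exp_sum, sum_neg_distrib]
    rw [h1, hZdef]
    refine prod_le_prod (fun i _ => sq_nonneg _) fun i _ => ?_
    have h2 : 1 - y i ≤ Real.exp (-(y i)) := by
      have := Real.add_one_le_exp (-(y i))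
      linarith
    have h3 : 0 ≤ 1 - y i := by
      have := hyq i
      linarith
    calc (1 - y i) ^ 2 ≤ Real.exp (-(y i)) ^ 2 := pow_le_pow_left₀ h3 h2 2
      _ = Real.exp (-(2 * y i)) := by
        rw [← Real.exp_nat_mul]
        congr 1
        push_cast
        ring
  have hqq : C / ((p : ℕ) : ℝ) ^ 2 = C * q ^ 2 := by
    rw [hq]
    field_simp
  have hR0 : 0 ≤ Sp p s - 1 - sg := hlo
  have hR : Sp p s - 1 - sg ≤ C * q ^ 2 := by
    rw [← hqq]
    exact hhi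
  refine ⟨hsum, by linarith, hZpos, ?_⟩
  have hfin := loc1_alg (S := Sp p s) (Zv := Zf p s) (R := Sp p s - 1 - sg) hq0 hq2 hC hsg0 hsg12
    (by ring) hR0 hR hZpos.le hZl hZu
  have hqq' : (864 + 37 * C) / ((p : ℕ) : ℝ) ^ 2 = (864 + 37 * C) * q ^ 2 := by
    rw [hq]
    field_simp
  rw [hqq']
  exact hfin

end Pool.Agent.Work.MP_56b8f5_nt.EM
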