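import Pool.Agent.Work.MP_56b8f5_nt.EM.Stmts

/-!
MP_56b8f5_nt, block EM, item LOC2: continuity of the local factors at zero.
-/

open MeasureTheory Set Filter Topology

noncomputable section

namespace Pool.Agent.Work.MP_56b8f5_nt.EM

private lemma loc2_sij_cont (i : Fin 6) : Continuous fun s : Fin 5 → ℝ => sij s i := by
  fin_cases i <;> simp only [sij] <;>
    first
      | exact (continuous_apply 0).add (continuous_apply 1)
      | exact (continuous_apply 2).add (continuous_apply 3)
      | exact ((continuous_apply 0).add (continuous_apply 2)).add (continuous_apply 4)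
      | exact ((continuous_apply 0).add (continuous_apply 3)).add (continuous_apply 4)
      | exact ((continuous_apply 1).add (continuous_apply 2)).add (continuous_apply 4)
      | exact ((continuous_apply 1).add (continuous_apply 3)).add (continuous_apply 4)

private lemma loc2_Zf_cont (p : Nat.Primes) : Continuous fun s : Fin 5 → ℝ => Zf p s := by
  have hp : ((p : ℕ) : ℝ) ≠ 0 := by
    have := p.2.pos
    positivity
  unfold Zf
  refine continuous_finsetProd _ fun i _ => ?_
  refine (continuous_const.sub ?_).pow 2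
  exact continuous_const.rpow (continuous_const.add (loc2_sij_cont i)).neg fun _ => Or.inl hp

private lemma loc2_ex_cont (v : ℤ × ℤ × ℤ) : Continuous fun s : Fin 5 → ℝ => ex s v := by
  unfold ex
  fun_prop

private lemma loc2_ex_mono (v : ℤ × ℤ × ℤ) (s : Fin 5 → ℝ) (hs : ∀ i, 0 ≤ s i) :
    ex 0 v ≤ ex s v := by
  unfold ex
  simp only [Pi.zero_apply]
  have h0 := mul_nonneg (hs 0) (abs_nonneg (v.1 : ℝ))
  have h1 := mul_nonneg (hs 1) (abs_nonneg (v.2.1 : ℝ))
  have h2 := mul_nonneg (hs 2) (abs_nonneg (v.2.2 : ℝ))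
  have h3 := mul_nonneg (hs 3) (abs_nonneg ((v.1 : ℝ) + v.2.1 - v.2.2))
  have h4 := mul_nonneg (hs 4) (abs_nonneg ((v.1 : ℝ) + v.2.1))
  nlinarith

theorem iLOC2 (h0 : StLoc0) : StLoc2 := by
  obtain ⟨C, _, h0⟩ := h0
  intro p
  have hp1 : (1 : ℝ) ≤ ((p : ℕ) : ℝ) := by exact_mod_cast p.2.one_lt.le
  have hp0 : (0 : ℝ) < ((p : ℕ) : ℝ) := by linarith
  refine Tendsto.mul ?_ ((loc2_Zf_cont p).tendsto 0 |>.mono_left nhdsWithin_le_nhds)
  unfold Sp
  refine tendsto_tsum_of_dominated_convergence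
    (bound := fun v : ℤ × ℤ × ℤ => ((p : ℕ) : ℝ) ^ (-(ex 0 v))) ?_ ?_ ?_
  · exact (h0 p 0 fun _ => le_rfl).1
  · intro v
    have hc : Continuous fun s : Fin 5 → ℝ => ((p : ℕ) : ℝ) ^ (-(ex s v)) :=
      continuous_const.rpow (loc2_ex_cont v).neg fun _ => Or.inl hp0.ne'
    exact (hc.tendsto 0).mono_left nhdsWithin_le_nhds
  · filter_upwards [self_mem_nhdsWithin] with s hs v
    rw [Real.norm_of_nonneg (Real.rpow_nonneg hp0.le _)]
    exact Real.rpow_le_rpow_of_exponent_le hp1 (neg_le_neg (loc2_ex_mono v s hs))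

end Pool.Agent.Work.MP_56b8f5_nt.EM
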