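import Pool.Agent.Work.MP_56b8f5_nt.EM.Stmts

open MeasureTheory Set Filter Topology

noncomputable section

namespace Pool.Agent.Work.MP_56b8f5_nt.EM

private lemma log_geo (X : ℝ) (hX : 0 < X) :
    HasSum (fun b : ℕ => Real.exp (-((b : ℝ) / X))) (1 - Real.exp (-(1 / X)))⁻¹ := by
  have h1 : Real.exp (-(1 / X)) < 1 := by
    rw [Real.exp_lt_one_iff]
    have : 0 < 1 / X := by positivity
    linarith
  have h2 := hasSum_geometric_of_lt_one (Real.exp_pos (-(1 / X))).le h1
  refine h2.congr_fun ?_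
  intro b
  rw [← Real.exp_nat_mul]
  congr 1
  ring

private lemma log_tail (X : ℝ) (hX : 1 / 2 ≤ X) :
    (1 / X) * (1 - Real.exp (-(1 / X)))⁻¹ ≤ 3 := by
  have hX0 : 0 < X := by linarith
  have hx : 0 < 1 / X := by positivity
  have hx2 : 1 / X ≤ 2 := by
    rw [div_le_iff₀ hX0]; linarith
  set x := 1 / X with hxd
  have h1 : Real.exp (-x) * (1 + x) ≤ 1 := by
    have h := Real.add_one_le_exp x
    have h2 : Real.exp (-x) * Real.exp x = 1 := by
      rw [← Real.exp_add]; simp
    calc Real.exp (-x) * (1 + x) ≤ Real.exp (-x) * Real.exp x :=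
          mul_le_mul_of_nonneg_left (by linarith) (Real.exp_pos _).le
      _ = 1 := h2
  have h3 : 0 < 1 - Real.exp (-x) := by
    have : Real.exp (-x) < 1 := by
      rw [Real.exp_lt_one_iff]; linarith
    linarith
  rw [← div_eq_mul_inv, div_le_iff₀ h3]
  nlinarith [Real.exp_pos (-x)]

private lemma log_harm (N : ℕ) :
    Real.log (N + 1) ≤ (harmonic N : ℝ) ∧ (harmonic N : ℝ) ≤ 1 + Real.log (N + 1) := by
  constructor
  · have := log_add_one_le_harmonic N
    push_cast at this
    exact_mod_cast this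
  · rcases Nat.eq_zero_or_pos N with h | h
    · subst h; simp
    · have h1 := harmonic_le_one_add_log N
      have h2 : Real.log N ≤ Real.log (N + 1) :=
        Real.log_le_log (by exact_mod_cast h) (by linarith)
      linarith

private lemma log_floor (X : ℝ) (hX : 1 / 2 ≤ X) :
    Real.log X ≤ Real.log ((⌊X⌋₊ : ℝ) + 1) ∧ Real.log ((⌊X⌋₊ : ℝ) + 1) ≤ Real.log X + 2 := by
  have hX0 : 0 < X := by linarith
  have h1 : X < (⌊X⌋₊ : ℝ) + 1 := Nat.lt_floor_add_one X
  have h2 : (⌊X⌋₊ : ℝ) ≤ X := Nat.floor_le hX0.le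
  constructor
  · exact Real.log_le_log hX0 h1.le
  · have h3 : Real.log ((⌊X⌋₊ : ℝ) + 1) ≤ Real.log (X * 3) :=
      Real.log_le_log (by positivity) (by linarith)
    rw [Real.log_mul hX0.ne' (by norm_num)] at h3
    have h4 : Real.log 3 ≤ 2 := by
      have := Real.log_le_sub_one_of_pos (show (0 : ℝ) < 3 by norm_num)
      linarith
    linarith

private lemma log_sum_Ioc (a c : ℕ) (hac : a ≤ c) :
    ∑ b ∈ Finset.Ioc a c, (1 : ℝ) / b = (harmonic c : ℝ) - harmonic a := by
  induction c, hac using Nat.le_induction with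
  | base => simp
  | succ n hn ih =>
    rw [Finset.sum_Ioc_succ_top (by omega), ih, harmonic_succ]
    push_cast
    ring

theorem iLOG : StLog := by
  refine ⟨10, by norm_num, ?_⟩
  intro X Y hY hYX
  have hX : 1 / 2 ≤ X := hY.trans hYX
  have hX0 : 0 < X := by linarith
  have hY0 : 0 < Y := by linarith
  have hgeo := log_geo X hX0
  have hterm : ∀ b : ℕ, (0 : ℝ) ≤ Real.exp (-((b : ℝ) / X)) / b := fun b => by positivity
  have hone : ∀ b : ℕ, Y < (b : ℝ) → (1 : ℝ) ≤ b := by
    intro b hb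
    have : 0 < b := by
      rcases Nat.eq_zero_or_pos b with h | h
      · subst h; simp at hb; linarith
      · exact h
    exact_mod_cast this
  have hsum : Summable fun b : ℕ => if Y < (b : ℝ) then Real.exp (-((b : ℝ) / X)) / b else 0 := by
    refine Summable.of_nonneg_of_le ?_ ?_ hgeo.summable
    · intro b; split_ifs
      · exact hterm b
      · exact le_rfl
    · intro b; split_ifs with h
      · exact div_le_self (Real.exp_pos _).le (hone b h)
      · exact (Real.exp_pos _).le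
  refine ⟨hsum, ?_⟩
  -- tail part
  have hsumh : Summable fun b : ℕ => if X < (b : ℝ) then Real.exp (-((b : ℝ) / X)) / b else 0 := by
    refine Summable.of_nonneg_of_le ?_ ?_ hgeo.summable
    · intro b; split_ifs
      · exact hterm b
      · exact le_rfl
    · intro b; split_ifs with h
      · exact div_le_self (Real.exp_pos _).le (hone b (hYX.trans_lt h))
      · exact (Real.exp_pos _).le
  have hh0 : 0 ≤ ∑' b : ℕ, (if X < (b : ℝ) then Real.exp (-((b : ℝ) / X)) / b else 0) := by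
    refine tsum_nonneg ?_
    intro b; split_ifs
    · exact hterm b
    · exact le_rfl
  have hh3 : ∑' b : ℕ, (if X < (b : ℝ) then Real.exp (-((b : ℝ) / X)) / b else 0) ≤ 3 := by
    have h1 : ∑' b : ℕ, (if X < (b : ℝ) then Real.exp (-((b : ℝ) / X)) / b else 0) ≤
        ∑' b : ℕ, (1 / X) * Real.exp (-((b : ℝ) / X)) := by
      refine hsumh.tsum_le_tsum ?_ (hgeo.summable.mul_left _)
      intro b
      split_ifs with h
      · have hb : (0 : ℝ) < b := hX0.trans h
        rw [div_eq_mul_inv, mul_comm, ← one_div]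
        exact mul_le_mul_of_nonneg_right (one_div_le_one_div_of_le hX0 h.le) (Real.exp_pos _).le
      · positivity
    rw [tsum_mul_left, hgeo.tsum_eq] at h1
    exact h1.trans (log_tail X hX)
  -- splitting
  set a := ⌊Y⌋₊ with ha
  set c := ⌊X⌋₊ with hc
  have hac : a ≤ c := Nat.floor_le_floor hYX
  have hmem : ∀ b : ℕ, b ∈ Finset.Ioc a c ↔ Y < (b : ℝ) ∧ (b : ℝ) ≤ X := by
    intro b
    rw [Finset.mem_Ioc, ha, hc, Nat.floor_lt hY0.le, Nat.le_floor_iff hX0.le]
  have hsplit : ∀ b : ℕ, (if Y < (b : ℝ) then Real.exp (-((b : ℝ) / X)) / b else 0) =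
      (if b ∈ Finset.Ioc a c then Real.exp (-((b : ℝ) / X)) / b else 0) +
      (if X < (b : ℝ) then Real.exp (-((b : ℝ) / X)) / b else 0) := by
    intro b
    by_cases h1 : Y < (b : ℝ)
    · by_cases h2 : (b : ℝ) ≤ X
      · rw [if_pos h1, if_pos ((hmem b).2 ⟨h1, h2⟩), if_neg (not_lt.2 h2), add_zero]
      · have h3 : b ∉ Finset.Ioc a c := fun h => h2 ((hmem b).1 h).2
        rw [if_pos h1, if_neg h3, if_pos (not_le.1 h2), zero_add]
    · have h3 : b ∉ Finset.Ioc a c := fun h => h1 ((hmem b).1 h).1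
      have h4 : ¬ X < (b : ℝ) := fun h => h1 (hYX.trans_lt h)
      rw [if_neg h1, if_neg h3, if_neg h4, add_zero]
  have hfin : HasSum (fun b : ℕ => if b ∈ Finset.Ioc a c then Real.exp (-((b : ℝ) / X)) / b else 0)
      (∑ b ∈ Finset.Ioc a c, Real.exp (-((b : ℝ) / X)) / b) := by
    have h1 : HasSum (fun b : ℕ =>
        if b ∈ Finset.Ioc a c then Real.exp (-((b : ℝ) / X)) / b else 0)
        (∑ b ∈ Finset.Ioc a c, if b ∈ Finset.Ioc a c then Real.exp (-((b : ℝ) / X)) / b else 0) :=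
      hasSum_sum_of_ne_finset_zero (fun b hb => if_neg hb)
    have h2 : (∑ b ∈ Finset.Ioc a c, if b ∈ Finset.Ioc a c then
        Real.exp (-((b : ℝ) / X)) / b else 0) =
        ∑ b ∈ Finset.Ioc a c, Real.exp (-((b : ℝ) / X)) / b :=
      Finset.sum_congr rfl (fun b hb => if_pos hb)
    rwa [h2] at h1
  have htot : (∑' b : ℕ, if Y < (b : ℝ) then Real.exp (-((b : ℝ) / X)) / b else 0) =
      (∑ b ∈ Finset.Ioc a c, Real.exp (-((b : ℝ) / X)) / b) +
      ∑' b : ℕ, (if X < (b : ℝ) then Real.exp (-((b : ℝ) / X)) / b else 0) := by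
    rw [tsum_congr hsplit, hfin.summable.tsum_add hsumh, hfin.tsum_eq]
  -- finite part
  have hup : (∑ b ∈ Finset.Ioc a c, Real.exp (-((b : ℝ) / X)) / b) ≤
      ∑ b ∈ Finset.Ioc a c, (1 : ℝ) / b := by
    refine Finset.sum_le_sum ?_
    intro b _
    refine div_le_div_of_nonneg_right ?_ (Nat.cast_nonneg b)
    rw [Real.exp_le_one_iff]
    have : 0 ≤ (b : ℝ) / X := by positivity
    linarith
  have hlo : (∑ b ∈ Finset.Ioc a c, (1 : ℝ) / b) - 1 ≤
      ∑ b ∈ Finset.Ioc a c, Real.exp (-((b : ℝ) / X)) / b := by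
    have h1 : ∀ b ∈ Finset.Ioc a c, (1 : ℝ) / b - 1 / X ≤ Real.exp (-((b : ℝ) / X)) / b := by
      intro b hb
      have hb0 : (0 : ℝ) < b := hY0.trans ((hmem b).1 hb).1
      have h2 := Real.add_one_le_exp (-((b : ℝ) / X))
      rw [le_div_iff₀ hb0]
      have h3 : (1 / (b : ℝ) - 1 / X) * b = -((b : ℝ) / X) + 1 := by
        field_simp
        ring
      rw [h3]; exact h2
    have h2 := Finset.sum_le_sum h1
    rw [Finset.sum_sub_distrib, Finset.sum_const, nsmul_eq_mul] at h2
    have h3 : ((Finset.Ioc a c).card : ℝ) * (1 / X) ≤ 1 := by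
      have h4 : ((Finset.Ioc a c).card : ℝ) ≤ X := by
        rw [Nat.card_Ioc]
        have h5 : ((c - a : ℕ) : ℝ) ≤ c := by exact_mod_cast Nat.sub_le c a
        exact h5.trans (Nat.floor_le hX0.le)
      rw [mul_one_div, div_le_one hX0]
      exact h4
    linarith
  rw [log_sum_Ioc a c hac] at hup hlo
  have e1 := log_harm c
  have e2 := log_harm a
  have e3 := log_floor X hX
  have e4 := log_floor Y hY
  rw [htot, Real.log_div hX0.ne' hY0.ne', abs_le]
  constructor <;> linarith [e1.1, e1.2, e2.1, e2.2, e3.1, e3.2, e4.1, e4.2]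

end Pool.Agent.Work.MP_56b8f5_nt.EM
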