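import Pool.Agent.Work.MP_56b8f5_nt.EM.Stmts

open MeasureTheory Set Filter Topology

noncomputable section

namespace Pool.Agent.Work.MP_56b8f5_nt.EM

theorem main_chr_cont (γ : Gam) : Continuous (chr γ) := by
  unfold chr
  fun_prop

theorem main_D_cont (S : Finset Gam) (c : Gam → ℝ) : Continuous (D S c) := by
  unfold D
  exact continuous_finset_sum _ (fun γ _ => continuous_const.mul (main_chr_cont γ))

/-- The final algebraic step. -/
theorem main_alg {W X Y M a x y L δ : ℝ} (hW : 0 < W) (ha : 0 < a) (hx : 0 < x) (hy : 0 < y)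
    (hL : 0 < L) (hδ : 0 < δ) (hX : a * x * L ^ 14 ≤ X) (hY : Y ≤ a * y * L ^ 12)
    (hbig1 : 1 ≤ δ * (W * X)) (hbig2 : 1 ≤ δ * (W * (a * y * L ^ 12)))
    (hmain : (W * X) ^ 4 ≤ M * (W * Y + 1) * (W * X + 1) ^ 2) (hM : 0 ≤ M) :
    W * (a * x ^ 2 * L ^ 16) ≤ M * ((1 + δ) ^ 3 * y) := by
  have hX0 : 0 < X := lt_of_lt_of_le (by positivity) hX
  have hWX : 0 < W * X := by positivity
  have h1 : W * X + 1 ≤ (1 + δ) * (W * X) := by nlinarith
  have h2 : W * Y + 1 ≤ (1 + δ) * (W * (a * y * L ^ 12)) := by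
    have : W * Y ≤ W * (a * y * L ^ 12) := by gcongr
    nlinarith
  have hZ : 0 ≤ (1 + δ) * (W * (a * y * L ^ 12)) := by positivity
  have h3 : (W * X) ^ 4 ≤ M * ((1 + δ) * (W * (a * y * L ^ 12))) * ((1 + δ) * (W * X)) ^ 2 := by
    refine hmain.trans ?_
    have e1 : M * (W * Y + 1) ≤ M * ((1 + δ) * (W * (a * y * L ^ 12))) := by gcongr
    have e2 : (W * X + 1) ^ 2 ≤ ((1 + δ) * (W * X)) ^ 2 := by gcongr
    calc M * (W * Y + 1) * (W * X + 1) ^ 2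
        ≤ M * ((1 + δ) * (W * (a * y * L ^ 12))) * (W * X + 1) ^ 2 := by gcongr
      _ ≤ _ := by
          have : 0 ≤ M * ((1 + δ) * (W * (a * y * L ^ 12))) := by positivity
          gcongr
  have h4 : (W * X) ^ 2 * (W * X) ^ 2 ≤
      (M * ((1 + δ) * (W * (a * y * L ^ 12))) * (1 + δ) ^ 2) * (W * X) ^ 2 := by
    calc (W * X) ^ 2 * (W * X) ^ 2 = (W * X) ^ 4 := by ring
      _ ≤ _ := h3
      _ = _ := by ring
  have h5 : (W * X) ^ 2 ≤ M * ((1 + δ) * (W * (a * y * L ^ 12))) * (1 + δ) ^ 2 :=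
    le_of_mul_le_mul_right h4 (by positivity)
  have h6 : (W * (a * x * L ^ 14)) ^ 2 ≤ (W * X) ^ 2 := by gcongr
  have h7 : (W * (a * x ^ 2 * L ^ 16)) * (W * (a * L ^ 12)) ≤
      (M * ((1 + δ) ^ 3 * y)) * (W * (a * L ^ 12)) := by
    calc (W * (a * x ^ 2 * L ^ 16)) * (W * (a * L ^ 12)) = (W * (a * x * L ^ 14)) ^ 2 := by ring
      _ ≤ (W * X) ^ 2 := h6
      _ ≤ _ := h5
      _ = _ := by ring
  exact le_of_mul_le_mul_right h7 (by positivity)

/-- The numerical step. -/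
theorem main_num {W j x y : ℝ} (hW : 1 - 1 / 10 ^ 5 ≤ W)
    (hx : x = (1 - 1 / 10 ^ 6) * ((1 - 12 * (1 / 10 ^ 7)) ^ 12 * (1 / 3) ^ 12 * (17627 / 29937600)))
    (hy : y = (1 + 1 / 10 ^ 6) * ((1 / 3) ^ 8 / 10080)) (hj : j = (1 + 1 / 10 ^ 6 : ℝ)) :
    1698 / (Nat.factorial 16 : ℝ) * (j ^ 3 * y) ≤ W * x ^ 2 := by
  have hf : (Nat.factorial 16 : ℝ) = 20922789888000 := by norm_num [Nat.factorial]
  rw [hf]
  have hx2 : 0 ≤ x ^ 2 := sq_nonneg x
  have : (1 - 1 / 10 ^ 5) * x ^ 2 ≤ W * x ^ 2 := by gcongr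
  refine le_trans ?_ this
  rw [hx, hy, hj]
  norm_num

theorem iMAIN (hA4 : StA4) (hAr : StAr) (hGc : StGc) (hX : StNumX) (hY : StNumY) (hYT : StYT)
    (hXT : StXT) (hCr : StCr) (hCS : StCS) (hFin : StFin) (hWex : StWex) (hEta : StEta) :
    StMain := by
  refine ⟨hA4.1, hA4.2, ?_⟩
  obtain ⟨w, hw, hw0⟩ := hWex (1 / 10 ^ 5) (by positivity)
  have hWpos : 0 < W0 w := lt_of_lt_of_le (by norm_num) hw0
  set κ : ℝ := 1 / 10 ^ 7 with hκ
  have hκ0 : 0 < κ := by positivity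
  have hκ1 : κ < 1 / 100 := by rw [hκ]; norm_num
  obtain ⟨η, hη⟩ := hEta κ hκ0 hκ1
  obtain ⟨hGXc, hGXs, hGYc, hGYs⟩ := hGc κ hκ0 hκ1 η hη
  have ha := hA4.2
  set x0 : ℝ := (1 - 12 * κ) ^ 12 * (1 / 3) ^ 12 * (17627 / 29937600) with hx0
  set y0 : ℝ := (1 / 3 : ℝ) ^ 8 / 10080 with hy0
  have hx0pos : 0 < x0 := by
    rw [hx0, hκ]; norm_num
  have hy0pos : 0 < y0 := by
    rw [hy0]; norm_num
  have hjX : x0 ≤ Jf (GX κ η) := hX κ hκ0 hκ1 η hη
  have hjY : Jf (GY η) ≤ y0 := hY κ hκ0 hκ1 η hη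
  set x1 : ℝ := (1 - 1 / 10 ^ 6) * x0 with hx1
  set y1 : ℝ := (1 + 1 / 10 ^ 6) * y0 with hy1
  have hx1pos : 0 < x1 := by rw [hx1]; nlinarith
  have hy1pos : 0 < y1 := by rw [hy1]; nlinarith
  set δ : ℝ := 1 / 10 ^ 6 with hδ
  have hδ0 : 0 < δ := by positivity
  obtain ⟨T1, hT1⟩ := hYT w hw κ hκ0 hκ1 η hη
  obtain ⟨T2, hT2⟩ := hXT w hw κ hκ0 hκ1 η hη
  obtain ⟨T3, hT3⟩ := hCr w hw hWpos κ hκ0 hκ1 η hη
  have hlog : Tendsto Real.log atTop atTop := Real.tendsto_log_atTop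
  have eX : ∀ᶠ L : ℝ in atTop, a4 * x1 * L ^ 12 ≤ AL (GX κ η) L := by
    have h := hAr (GX κ η) hGXc hGXs
    have h1 : a4 * x1 < a4 * Jf (GX κ η) := by
      have : x1 < Jf (GX κ η) := lt_of_lt_of_le (by rw [hx1]; nlinarith) hjX
      exact mul_lt_mul_of_pos_left this ha
    filter_upwards [h.eventually (lt_mem_nhds h1), eventually_gt_atTop (0 : ℝ)] with L hL hL0
    rw [lt_div_iff₀ (by positivity)] at hL
    exact hL.le
  have eY : ∀ᶠ L : ℝ in atTop, AL (GY η) L ≤ a4 * y1 * L ^ 12 := by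
    have h := hAr (GY η) hGYc hGYs
    have h1 : a4 * Jf (GY η) < a4 * y1 := by
      have : Jf (GY η) < y1 := lt_of_le_of_lt hjY (by rw [hy1]; nlinarith)
      exact mul_lt_mul_of_pos_left this ha
    filter_upwards [h.eventually (gt_mem_nhds h1), eventually_gt_atTop (0 : ℝ)] with L hL hL0
    rw [div_lt_iff₀ (by positivity)] at hL
    exact hL.le
  have eB1 : ∀ᶠ L : ℝ in atTop, 1 ≤ δ * (W0 w * (a4 * x1 * L ^ 14)) := by
    have h : Tendsto (fun L : ℝ => δ * (W0 w * (a4 * x1 * L ^ 14))) atTop atTop := by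
      refine Tendsto.const_mul_atTop hδ0 (Tendsto.const_mul_atTop hWpos ?_)
      exact Tendsto.const_mul_atTop (by positivity) (tendsto_pow_atTop (by norm_num))
    exact h.eventually_ge_atTop 1
  have eB2 : ∀ᶠ L : ℝ in atTop, 1 ≤ δ * (W0 w * (a4 * y1 * L ^ 12)) := by
    have h : Tendsto (fun L : ℝ => δ * (W0 w * (a4 * y1 * L ^ 12))) atTop atTop := by
      refine Tendsto.const_mul_atTop hδ0 (Tendsto.const_mul_atTop hWpos ?_)
      exact Tendsto.const_mul_atTop (by positivity) (tendsto_pow_atTop (by norm_num))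
    exact h.eventually_ge_atTop 1
  filter_upwards [hlog.eventually eX, hlog.eventually eY, hlog.eventually eB1, hlog.eventually eB2,
    eventually_ge_atTop T1, eventually_ge_atTop T2, eventually_ge_atTop T3,
    eventually_gt_atTop (1 : ℝ)] with T fX fY fB1 fB2 g1 g2 g3 g4
  set L := Real.log T with hL
  have hL0 : 0 < L := Real.log_pos g4
  have hT0 : 0 < T := by linarith
  obtain ⟨S, hS, -⟩ := hFin (1 / 3 * L) (by positivity)
  obtain ⟨S', hS', -⟩ := hFin (2 / 3 * L) (by positivity)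
  have i1 := hT1 T g1 S hS
  have i2 := hT2 T g2 S S' hS hS'
  have i3 := hT3 T g3 S S' hS hS'
  have i4 := hCS w hw T hT0 (fun u => D S (Hc η L) (T * u)) (fun u => D S' (fc κ η L S) (T * u))
    ((main_D_cont _ _).comp (continuous_const.mul continuous_id))
    ((main_D_cont _ _).comp (continuous_const.mul continuous_id))
  set X : ℝ := L ^ 2 * AL (GX κ η) L with hXd
  set Y : ℝ := AL (GY η) L with hYd
  have hXlow : a4 * x1 * L ^ 14 ≤ X := by
    have : L ^ 2 * (a4 * x1 * L ^ 12) ≤ L ^ 2 * AL (GX κ η) L := by gcongr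
    calc a4 * x1 * L ^ 14 = L ^ 2 * (a4 * x1 * L ^ 12) := by ring
      _ ≤ _ := this
  have hX0 : 0 < X := lt_of_lt_of_le (by positivity) hXlow
  have hM0 : 0 ≤ M4 T := by
    unfold M4
    have : 0 ≤ ∫ t in (0 : ℝ)..T, ‖riemannZeta (1 / 2 + t * Complex.I)‖ ^ 8 :=
      intervalIntegral.integral_nonneg hT0.le (fun t _ => by positivity)
    positivity
  have hwn := hw.nonneg
  have hI4 : 0 ≤ ∫ u : ℝ, w u * ‖D S (Hc η L) (T * u)‖ ^ 4 :=
    integral_nonneg (fun u => mul_nonneg (hwn u) (by positivity))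
  have hI2 : 0 ≤ ∫ u : ℝ, w u * ‖D S' (fc κ η L S) (T * u)‖ ^ 2 :=
    integral_nonneg (fun u => mul_nonneg (hwn u) (by positivity))
  have hmain : (W0 w * X) ^ 4 ≤ M4 T * (W0 w * Y + 1) * (W0 w * X + 1) ^ 2 := by
    calc (W0 w * X) ^ 4 ≤ ‖∫ u : ℝ, ((w u * Zt (T * u) : ℝ) : ℂ) * (D S (Hc η L) (T * u) *
          (starRingEnd ℂ) (D S' (fc κ η L S) (T * u)))‖ ^ 4 := by
          have : 0 ≤ W0 w * X := by positivity
          gcongr
      _ ≤ M4 T * (∫ u : ℝ, w u * ‖D S (Hc η L) (T * u)‖ ^ 4) *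
          (∫ u : ℝ, w u * ‖D S' (fc κ η L S) (T * u)‖ ^ 2) ^ 2 := i4
      _ ≤ M4 T * (W0 w * Y + 1) * (W0 w * X + 1) ^ 2 := by
          have j1 : M4 T * (∫ u : ℝ, w u * ‖D S (Hc η L) (T * u)‖ ^ 4) ≤ M4 T * (W0 w * Y + 1) :=
            mul_le_mul_of_nonneg_left i1 hM0
          have j2 : (∫ u : ℝ, w u * ‖D S' (fc κ η L S) (T * u)‖ ^ 2) ^ 2 ≤ (W0 w * X + 1) ^ 2 :=
            pow_le_pow_left₀ hI2 i2 2
          have j3 : 0 ≤ M4 T * (W0 w * Y + 1) :=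
            mul_nonneg hM0 (hI4.trans i1)
          exact mul_le_mul j1 j2 (by positivity) j3
  have hbig1 : 1 ≤ δ * (W0 w * X) := by
    refine fB1.trans ?_
    gcongr
  have key := main_alg hWpos ha hx1pos hy1pos hL0 hδ0 hXlow fY hbig1 fB2 hmain hM0
  have num := main_num (W := W0 w) (j := 1 + δ) (x := x1) (y := y1) hw0
    (by rw [hx1, hx0, hκ]) (by rw [hy1, hy0]) (by rw [hδ])
  -- conclude
  have hj : 0 < (1 + δ) ^ 3 * y1 := by positivity
  have h9 : (1698 * (a4 / (Nat.factorial 16 : ℝ)) * L ^ 16) * ((1 + δ) ^ 3 * y1) ≤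
      M4 T * ((1 + δ) ^ 3 * y1) := by
    refine le_trans ?_ key
    have : 0 ≤ a4 * L ^ 16 := by positivity
    calc (1698 * (a4 / (Nat.factorial 16 : ℝ)) * L ^ 16) * ((1 + δ) ^ 3 * y1)
        = (1698 / (Nat.factorial 16 : ℝ) * ((1 + δ) ^ 3 * y1)) * (a4 * L ^ 16) := by ring
      _ ≤ (W0 w * x1 ^ 2) * (a4 * L ^ 16) := by gcongr
      _ = _ := by ring
  exact le_of_mul_le_mul_right h9 hj

end Pool.Agent.Work.MP_56b8f5_nt.EM
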