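import Pool.Agent.Work.MP_56b8f5_nt.EM.Stmts

/-!
MP_56b8f5_nt, block EM: item MU (the measure `mu6` as an iterated integral).
-/

open MeasureTheory Set Filter Topology

noncomputable section

namespace Pool.Agent.Work.MP_56b8f5_nt.EM

instance mu_sf : SigmaFinite rho := by
  unfold rho
  exact SigmaFinite.withDensity_ofReal _

theorem mu_one (g : ℝ → ENNReal) (hg : Measurable g) :
    ∫⁻ x, g x ∂rho = ∫⁻ x in Ioi (0 : ℝ), ENNReal.ofReal x * g x := by
  unfold rho
  rw [lintegral_withDensity_eq_lintegral_mul _ ENNReal.measurable_ofReal hg]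
  rfl

theorem mu_step {Y : Type} [MeasurableSpace Y] (ν : Measure Y) [SFinite ν] (f : ℝ × Y → ENNReal)
    (hf : Measurable f) :
    ∫⁻ z, f z ∂(rho.prod ν) = ∫⁻ x in Ioi (0 : ℝ), ENNReal.ofReal x * ∫⁻ y, f (x, y) ∂ν := by
  rw [lintegral_prod _ hf.aemeasurable]
  exact mu_one _ hf.lintegral_prod_right'

theorem iMU : StMu := by
  intro f hf
  unfold mu6
  rw [mu_step _ f hf]
  refine lintegral_congr fun d => ?_
  congr 1
  have h1 : Measurable fun z : ℝ × ℝ × ℝ × ℝ × ℝ => f (d, z) := hf.comp measurable_prodMk_left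
  rw [mu_step _ _ h1]
  refine lintegral_congr fun c => ?_
  congr 1
  have h2 : Measurable fun z : ℝ × ℝ × ℝ × ℝ => f (d, c, z) := h1.comp measurable_prodMk_left
  rw [mu_step _ _ h2]
  refine lintegral_congr fun b => ?_
  congr 1
  have h3 : Measurable fun z : ℝ × ℝ × ℝ => f (d, c, b, z) := h2.comp measurable_prodMk_left
  rw [mu_step _ _ h3]
  refine lintegral_congr fun a => ?_
  congr 1
  have h4 : Measurable fun z : ℝ × ℝ => f (d, c, b, a, z) := h3.comp measurable_prodMk_left
  rw [mu_step _ _ h4]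
  refine lintegral_congr fun J => ?_
  congr 1
  have h5 : Measurable fun z : ℝ => f (d, c, b, a, J, z) := h4.comp measurable_prodMk_left
  rw [mu_one _ h5]

end Pool.Agent.Work.MP_56b8f5_nt.EM
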