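import Pool.Agent.Work.MP_56b8f5_nt.EM.Stmts

/-!
MP_56b8f5_nt, block EM: mean value of a finite sum over small heights.
-/

open MeasureTheory Set Filter Topology

noncomputable section

namespace Pool.Agent.Work.MP_56b8f5_nt.EM

theorem mv_hcs {w : ℝ → ℝ} (hw : IsW w) : HasCompactSupport w := by
  obtain ⟨c, hc, h⟩ := hw.supp
  refine HasCompactSupport.intro (isCompact_Icc (a := c) (b := 1)) ?_
  intro x hx
  by_contra h0
  exact hx ⟨(h x h0).1, (h x h0).2⟩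

theorem mv_intC {w : ℝ → ℝ} (hw : IsW w) {g : ℝ → ℂ} (hg : Continuous g) :
    Integrable fun u => (w u : ℂ) * g u := by
  refine ((Complex.continuous_ofReal.comp hw.smooth.continuous).mul hg).integrable_of_hasCompactSupport ?_
  refine HasCompactSupport.mul_right ?_
  exact (mv_hcs hw).comp_left (g := fun x : ℝ => (x : ℂ)) (by simp)

theorem mv_W0 (w : ℝ → ℝ) : W w 0 0 = (W0 w : ℂ) := by
  unfold W W0
  simp only [pow_zero, one_mul, zero_mul, Complex.ofReal_zero, mul_zero, Complex.exp_zero, mul_one]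
  exact integral_ofReal

theorem mv_chr_cont (γ : Gam) : Continuous (chr γ) := by
  unfold chr
  fun_prop

theorem mv_D_cont (S : Finset Gam) (c : Gam → ℝ) : Continuous (D S c) := by
  unfold D
  refine continuous_finsetSum _ fun γ _ => ?_
  exact continuous_const.mul (mv_chr_cont γ)

theorem mv_chr_mul (hG : StGam) (γ γ' : Gam) (t : ℝ) :
    chr γ t * (starRingEnd ℂ) (chr γ' t) = Complex.exp (Complex.I * (t * ell (γ' - γ) : ℝ)) := by
  obtain ⟨-, -, -, -, hs, -⟩ := hG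
  unfold chr
  rw [← Complex.exp_conj, ← Complex.exp_add, hs]
  congr 1
  simp only [map_neg, map_mul, Complex.conj_I, Complex.conj_ofReal]
  push_cast
  ring

theorem mv_expand (hG : StGam) (w : ℝ → ℝ) (hw : IsW w) (T : ℝ) (S : Finset Gam) (c : Gam → ℝ) :
    ((∫ u : ℝ, w u * ‖D S c (T * u)‖ ^ 2 : ℝ) : ℂ) =
      ∑ γ ∈ S, ∑ γ' ∈ S, ((c γ * c γ' : ℝ) : ℂ) * W w 0 (T * ell (γ' - γ)) := by
  have e0 : ((∫ u : ℝ, w u * ‖D S c (T * u)‖ ^ 2 : ℝ) : ℂ) =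
      ∫ u : ℝ, ((w u * ‖D S c (T * u)‖ ^ 2 : ℝ) : ℂ) := integral_ofReal.symm
  rw [e0]
  have e : (fun u : ℝ => ((w u * ‖D S c (T * u)‖ ^ 2 : ℝ) : ℂ)) = fun u : ℝ =>
      ∑ γ ∈ S, ∑ γ' ∈ S, ((c γ * c γ' : ℝ) : ℂ) *
        ((w u : ℂ) * Complex.exp (Complex.I * (T * u * ell (γ' - γ) : ℝ))) := by
    funext u
    have h1 : ((‖D S c (T * u)‖ ^ 2 : ℝ) : ℂ) = D S c (T * u) * (starRingEnd ℂ) (D S c (T * u)) := by
      rw [Complex.mul_conj, Complex.normSq_eq_norm_sq]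
    rw [Complex.ofReal_mul, h1]
    unfold D
    rw [map_sum, Finset.sum_mul_sum, Finset.mul_sum]
    refine Finset.sum_congr rfl fun γ _ => ?_
    rw [Finset.mul_sum]
    refine Finset.sum_congr rfl fun γ' _ => ?_
    rw [map_mul, Complex.conj_ofReal, ← mv_chr_mul hG]
    push_cast
    ring
  have hi : ∀ γ γ' : Gam, Integrable fun u : ℝ => ((c γ * c γ' : ℝ) : ℂ) *
        ((w u : ℂ) * Complex.exp (Complex.I * (T * u * ell (γ' - γ) : ℝ))) := by
    intro γ γ'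
    refine (mv_intC hw ?_).const_mul _
    fun_prop
  have e2 : (∫ u : ℝ, ((w u * ‖D S c (T * u)‖ ^ 2 : ℝ) : ℂ)) = ∫ u : ℝ,
      ∑ γ ∈ S, ∑ γ' ∈ S, ((c γ * c γ' : ℝ) : ℂ) *
        ((w u : ℂ) * Complex.exp (Complex.I * (T * u * ell (γ' - γ) : ℝ))) := by
    rw [← e]
  rw [show (∫ u : ℝ, ((w u * ‖D S c (T * u)‖ ^ 2 : ℝ) : ℂ)) = ∫ u : ℝ,
      ∑ γ ∈ S, ∑ γ' ∈ S, ((c γ * c γ' : ℝ) : ℂ) *
        ((w u : ℂ) * Complex.exp (Complex.I * (T * u * ell (γ' - γ) : ℝ))) from e2]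
  rw [integral_finsetSum _ fun γ _ => integrable_finsetSum _ fun γ' _ => hi γ γ']
  refine Finset.sum_congr rfl fun γ _ => ?_
  rw [integral_finsetSum _ fun γ' _ => hi γ γ']
  refine Finset.sum_congr rfl fun γ' _ => ?_
  rw [integral_const_mul]
  congr 1
  unfold W
  congr 1
  funext u
  rw [pow_zero, one_mul]
  congr 3
  push_cast
  ring

theorem iMV (_hW : StW) (hO : StOrth) (hG : StGam) : StMV := by
  intro w hw
  obtain ⟨C, hC, h⟩ := hO w hw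
  refine ⟨C, hC, ?_⟩
  intro T hT S c hS
  have hex := mv_expand hG w hw T S c
  set R : ℝ := ∫ u : ℝ, w u * ‖D S c (T * u)‖ ^ 2 with hR
  obtain ⟨-, -, -, -, -, -, -, hsub, hell0, -⟩ := hG
  have hb : ∀ γ ∈ S, ∀ γ' ∈ S, ‖((c γ * c γ' : ℝ) : ℂ) * W w 0 (T * ell (γ' - γ)) -
      (if γ = γ' then ((c γ ^ 2 * W0 w : ℝ) : ℂ) else 0)‖ ≤ |c γ| * |c γ'| * (C / T ^ 20) := by
    intro γ hγ γ' hγ'
    by_cases he : γ = γ'
    · subst he
      rw [if_pos rfl, sub_self, hell0, mul_zero, mv_W0]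
      have : ((c γ * c γ : ℝ) : ℂ) * (W0 w : ℂ) - ((c γ ^ 2 * W0 w : ℝ) : ℂ) = 0 := by
        push_cast; ring
      rw [this, norm_zero]
      positivity
    · rw [if_neg he, sub_zero, norm_mul, Complex.norm_real, Real.norm_eq_abs, abs_mul]
      refine mul_le_mul_of_nonneg_left ?_ (by positivity)
      refine h T hT _ (sub_ne_zero.mpr (Ne.symm he)) ?_
      have := hsub γ' γ
      have h1 := hS γ hγ
      have h2 := hS γ' hγ'
      linarith
  have hsum : (R : ℂ) - ((W0 w * ∑ γ ∈ S, c γ ^ 2 : ℝ) : ℂ) =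
      ∑ γ ∈ S, ∑ γ' ∈ S, (((c γ * c γ' : ℝ) : ℂ) * W w 0 (T * ell (γ' - γ)) -
      (if γ = γ' then ((c γ ^ 2 * W0 w : ℝ) : ℂ) else 0)) := by
    simp_rw [Finset.sum_sub_distrib]
    rw [← hex]
    congr 1
    rw [Finset.mul_sum]
    push_cast
    refine Finset.sum_congr rfl fun γ hγ => ?_
    rw [Finset.sum_ite_eq, if_pos hγ]
    ring
  have h3 : ‖(R : ℂ) - ((W0 w * ∑ γ ∈ S, c γ ^ 2 : ℝ) : ℂ)‖ ≤ C / T ^ 20 * (∑ γ ∈ S, |c γ|) ^ 2 := by
    rw [hsum]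
    calc _ ≤ ∑ γ ∈ S, ∑ γ' ∈ S, |c γ| * |c γ'| * (C / T ^ 20) := by
          refine norm_sum_le_of_le _ fun γ hγ => ?_
          exact norm_sum_le_of_le _ fun γ' hγ' => hb γ hγ γ' hγ'
      _ = C / T ^ 20 * (∑ γ ∈ S, |c γ|) ^ 2 := by
          rw [sq, Finset.sum_mul_sum, Finset.mul_sum]
          refine Finset.sum_congr rfl fun γ _ => ?_
          rw [Finset.mul_sum]
          refine Finset.sum_congr rfl fun γ' _ => ?_
          ring
  rw [← Complex.ofReal_sub, Complex.norm_real, Real.norm_eq_abs] at h3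
  have := (abs_le.mp h3).2
  linarith

end Pool.Agent.Work.MP_56b8f5_nt.EM
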