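import Pool.Agent.Work.MP_56b8f5_nt.EM.Stmts

/-!
MP_56b8f5_nt, block EM: item NEAR (the sum over all `r` for fixed `b`).
-/

open MeasureTheory Set Filter Topology

noncomputable section

namespace Pool.Agent.Work.MP_56b8f5_nt.EM

theorem near_int (s : ℝ) (hs : 0 < s) (R : ℝ) (hR : 0 ≤ R) :
    ∫ x in (0 : ℝ)..R, 1 / (1 + s * |x|) ^ 2 ≤ 1 / s := by
  have h0 : ∫ x in (0 : ℝ)..R, 1 / (1 + s * |x|) ^ 2 = ∫ x in (0 : ℝ)..R, 1 / (1 + s * x) ^ 2 := by
    apply intervalIntegral.integral_congr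
    intro x hx
    rw [uIcc_of_le hR] at hx
    simp only
    rw [abs_of_nonneg hx.1]
  rw [h0]
  have hpos : ∀ x ∈ uIcc (0 : ℝ) R, 0 < 1 + s * x := by
    intro x hx
    rw [uIcc_of_le hR] at hx
    have := mul_nonneg hs.le hx.1
    linarith
  have h1 : ∀ x ∈ uIcc (0 : ℝ) R, HasDerivAt (fun x : ℝ => -(1 / s) * (1 + s * x)⁻¹)
      (1 / (1 + s * x) ^ 2) x := by
    intro x hx
    have h2 : HasDerivAt (fun x : ℝ => 1 + s * x) s x := by
      simpa using ((hasDerivAt_id x).const_mul s).const_add 1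
    have h3 := (h2.inv (hpos x hx).ne').const_mul (-(1 / s))
    refine h3.congr_deriv ?_
    have := (hpos x hx).ne'
    field_simp
  have hcont : ContinuousOn (fun x : ℝ => 1 / (1 + s * x) ^ 2) (uIcc (0 : ℝ) R) := by
    apply ContinuousOn.div continuousOn_const (by fun_prop)
    intro x hx
    exact (pow_pos (hpos x hx) 2).ne'
  rw [intervalIntegral.integral_eq_sub_of_hasDerivAt h1 hcont.intervalIntegrable]
  have h4 : 0 ≤ 1 / s * (1 + s * R)⁻¹ := by positivity
  simp only [mul_zero, add_zero, inv_one, mul_one]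
  linarith

theorem near_cont (s : ℝ) (hs : 0 < s) : Continuous (fun x : ℝ => 1 / (1 + s * |x|) ^ 2) := by
  apply Continuous.div continuous_const (by fun_prop)
  intro x
  have : 0 ≤ s * |x| := by positivity
  positivity

theorem near_int2 (s : ℝ) (hs : 0 < s) (R : ℝ) (hR : 0 ≤ R) :
    ∫ x in (-R)..R, 1 / (1 + s * |x|) ^ 2 ≤ 2 / s := by
  have hc := near_cont s hs
  rw [← intervalIntegral.integral_add_adjacent_intervals (hc.intervalIntegrable (-R) 0)
    (hc.intervalIntegrable 0 R)]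
  have h1 : ∫ x in (-R)..(0 : ℝ), 1 / (1 + s * |x|) ^ 2 = ∫ x in (0 : ℝ)..R, 1 / (1 + s * |x|) ^ 2 := by
    have := intervalIntegral.integral_comp_neg (a := 0) (b := R)
      (fun x : ℝ => 1 / (1 + s * |x|) ^ 2)
    simp only [abs_neg, neg_zero] at this
    exact this.symm
  rw [h1]
  have h2 := near_int s hs R hR
  have h3 : 2 / s = 1 / s + 1 / s := by ring
  linarith

theorem iNEAR (hW : StW) (hT : StTrap) (h2 : StF2) (hF : StFint) : StNear := by
  intro w hw
  obtain ⟨C2, hC2, H2⟩ := h2 w hw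
  obtain ⟨C3, hC3, H3⟩ := hF w hw
  obtain ⟨-, -, hW0, -, hW0n, hW01⟩ := hW w hw
  refine ⟨2 * C2 + 2 * C3 + 1, by positivity, ?_⟩
  intro A B T hA hB hT1 b hb
  have hA0 : 0 < A := by linarith
  have hB0 : 0 < B := by linarith
  have hT0 : 0 < T := by linarith
  have hb0 : (0 : ℝ) < b := by exact_mod_cast hb
  set R : ℕ := b / 2 with hR
  have hsum : ∑' r : ℤ, fr w T A B r b = ∑ r ∈ Finset.Icc (-(R : ℤ)) R, F w T A B ((b : ℝ) + (r : ℝ)) b := by
    rw [tsum_eq_sum (s := Finset.Icc (-(R : ℤ)) R)]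
    · apply Finset.sum_congr rfl
      intro r hr
      rw [Finset.mem_Icc] at hr
      rw [fr, if_pos]
      have h : |r| ≤ (R : ℤ) := abs_le.mpr hr
      omega
    · intro r hr
      rw [Finset.mem_Icc] at hr
      rw [fr, if_neg]
      intro h
      apply hr
      rw [← abs_le]
      omega
  rw [hsum]
  have hsA : 1 ≤ Real.sqrt A := by
    rw [Real.one_le_sqrt]
    exact hA
  have hq1 : 0 ≤ Real.exp (-((b : ℝ) / B)) * Real.sqrt A / T ^ 8 := by positivity
  have hq2 : 0 ≤ T / (b : ℝ) ^ 2 := by positivity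
  rcases Nat.lt_or_ge 1 b with hb2 | hb1
  · -- `2 ≤ b`
    have hb2' : (2 : ℝ) ≤ b := by exact_mod_cast hb2
    have hR1 : (b : ℝ) / 3 ≤ R := by
      have : b ≤ 3 * R := by omega
      have h' : (b : ℝ) ≤ 3 * R := by exact_mod_cast this
      linarith
    have hR2 : (R : ℝ) ≤ b / 2 := by
      have : 2 * R ≤ b := by omega
      have h' : 2 * (R : ℝ) ≤ b := by exact_mod_cast this
      linarith
    obtain ⟨F1, F2, hF1, hF2, hcF2, hbF2⟩ := H2 A B T b hA hB hT1 hb0
    obtain ⟨g1, g2, g3⟩ := H3 A B T b hA hB hT1 hb2' R hR1 hR2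
    have hpos : ∀ x ∈ Icc (-(R : ℝ)) R, 0 < (b : ℝ) + x := by
      intro x hx
      linarith [hx.1]
    have ht := hT (fun x => F w T A B ((b : ℝ) + x) b) (fun x => F1 ((b : ℝ) + x))
      (fun x => F2 ((b : ℝ) + x)) R
      (fun x hx => (hF1 _ (hpos x hx)).comp_const_add (b : ℝ) x)
      (fun x hx => (hF2 _ (hpos x hx)).comp_const_add (b : ℝ) x)
      (hcF2.comp (by fun_prop) (fun x hx => hpos x hx))
    have hi : ∫ x in (-(R : ℝ))..R, ‖F2 ((b : ℝ) + x)‖ ≤ 2 * C2 * (T / (b : ℝ) ^ 2) := by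
      have hRn : (0 : ℝ) ≤ R := Nat.cast_nonneg R
      have hcn : ContinuousOn (fun x : ℝ => ‖F2 ((b : ℝ) + x)‖) (Icc (-(R : ℝ)) R) :=
        (hcF2.comp (by fun_prop) (fun x hx => hpos x hx)).norm
      have hs : 0 < T / b := by positivity
      have hck := near_cont (T / b) hs
      calc ∫ x in (-(R : ℝ))..R, ‖F2 ((b : ℝ) + x)‖
          ≤ ∫ x in (-(R : ℝ))..R, C2 * T ^ 2 / (b : ℝ) ^ 3 * (1 / (1 + T / b * |x|) ^ 2) := by
            apply intervalIntegral.integral_mono_on (by linarith)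
            · apply ContinuousOn.intervalIntegrable
              rw [uIcc_of_le (by linarith)]
              exact hcn
            · exact (continuous_const.mul hck).intervalIntegrable _ _
            · intro x hx
              have h5 := hbF2 ((b : ℝ) + x) (by linarith [hx.1]) (by linarith [hx.2])
              refine le_trans h5 (le_of_eq ?_)
              have h6 : (b : ℝ) + x - b = x := by ring
              rw [h6]
              have h7 : T * |x| / b = T / b * |x| := by ring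
              rw [h7]
              ring
        _ = C2 * T ^ 2 / (b : ℝ) ^ 3 * ∫ x in (-(R : ℝ))..R, 1 / (1 + T / b * |x|) ^ 2 := by
            rw [intervalIntegral.integral_const_mul]
        _ ≤ C2 * T ^ 2 / (b : ℝ) ^ 3 * (2 / (T / b)) := by
            apply mul_le_mul_of_nonneg_left (near_int2 _ hs _ hRn) (by positivity)
        _ = 2 * C2 * (T / (b : ℝ) ^ 2) := by
            field_simp
    have hint : ∫ x in (-(R : ℝ))..R, F w T A B ((b : ℝ) + x) b =
        ∫ a in ((b : ℝ) - R)..((b : ℝ) + R), F w T A B a b := by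
      rw [intervalIntegral.integral_comp_add_left (fun a => F w T A B a b)]
      rfl
    have hE : 0 ≤ Real.exp (-((b : ℝ) / B)) / T ^ 8 := by positivity
    have hbd : ∀ z : ℂ, ‖z‖ ≤ C3 * Real.exp (-((b : ℝ) / B)) / T ^ 8 →
        ‖z‖ ≤ C3 * (Real.exp (-((b : ℝ) / B)) * Real.sqrt A / T ^ 8) := by
      intro z hz
      refine le_trans hz ?_
      have h8 : C3 * Real.exp (-((b : ℝ) / B)) / T ^ 8 =
          C3 * (Real.exp (-((b : ℝ) / B)) / T ^ 8) := by ring
      have h9 : C3 * (Real.exp (-((b : ℝ) / B)) * Real.sqrt A / T ^ 8) =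
          C3 * (Real.exp (-((b : ℝ) / B)) / T ^ 8) * Real.sqrt A := by ring
      rw [h8, h9]
      exact le_mul_of_one_le_right (by positivity) hsA
    have g2' := hbd _ g2
    have g3' := hbd _ g3
    have g1' : ‖∫ a in ((b : ℝ) - R)..((b : ℝ) + R), F w T A B a b‖ ≤
        C3 * (Real.exp (-((b : ℝ) / B)) * Real.sqrt A / T ^ 8) := by
      refine le_trans g1 (le_of_eq ?_)
      ring
    have hfin : ∑ r ∈ Finset.Icc (-(R : ℤ)) R, F w T A B ((b : ℝ) + (r : ℝ)) b =
        (∑ r ∈ Finset.Icc (-(R : ℤ)) R, F w T A B ((b : ℝ) + (r : ℝ)) b -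
          (∫ x in (-(R : ℝ))..R, F w T A B ((b : ℝ) + x) b) -
          (F w T A B ((b : ℝ) + (R : ℝ)) b + F w T A B ((b : ℝ) + -(R : ℝ)) b) / 2) +
        (∫ a in ((b : ℝ) - R)..((b : ℝ) + R), F w T A B a b) +
        (F w T A B ((b : ℝ) + (R : ℝ)) b + F w T A B ((b : ℝ) - (R : ℝ)) b) / 2 := by
      rw [hint, sub_eq_add_neg (b : ℝ) (R : ℝ)]
      ring
    rw [hfin]
    refine le_trans (norm_add_le _ _) ?_
    have k1 := norm_add_le (∑ r ∈ Finset.Icc (-(R : ℤ)) R, F w T A B ((b : ℝ) + (r : ℝ)) b -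
          (∫ x in (-(R : ℝ))..R, F w T A B ((b : ℝ) + x) b) -
          (F w T A B ((b : ℝ) + (R : ℝ)) b + F w T A B ((b : ℝ) + -(R : ℝ)) b) / 2)
          (∫ a in ((b : ℝ) - R)..((b : ℝ) + R), F w T A B a b)
    have k2 : ‖(F w T A B ((b : ℝ) + (R : ℝ)) b + F w T A B ((b : ℝ) - (R : ℝ)) b) / 2‖ ≤
        C3 * (Real.exp (-((b : ℝ) / B)) * Real.sqrt A / T ^ 8) := by
      rw [norm_div]
      have := norm_add_le (F w T A B ((b : ℝ) + (R : ℝ)) b) (F w T A B ((b : ℝ) - (R : ℝ)) b)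
      have h2n : ‖(2 : ℂ)‖ = 2 := by simp
      rw [h2n]
      linarith
    have k3 := le_trans ht hi
    have k4 : (2 * C2 + 2 * C3 + 1) * (T / (b : ℝ) ^ 2 +
        Real.exp (-((b : ℝ) / B)) * Real.sqrt A / T ^ 8) =
        2 * C2 * (T / (b : ℝ) ^ 2) + 2 * C3 * (Real.exp (-((b : ℝ) / B)) * Real.sqrt A / T ^ 8) +
        ((2 * C3 + 1) * (T / (b : ℝ) ^ 2) +
          (2 * C2 + 1) * (Real.exp (-((b : ℝ) / B)) * Real.sqrt A / T ^ 8)) := by ring
    have k5 : 0 ≤ (2 * C3 + 1) * (T / (b : ℝ) ^ 2) +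
          (2 * C2 + 1) * (Real.exp (-((b : ℝ) / B)) * Real.sqrt A / T ^ 8) := by positivity
    rw [k4]
    linarith
  · -- `b = 1`
    have hbe : b = 1 := by omega
    subst hbe
    have hR0 : R = 0 := by rw [hR]
    rw [hR0]
    simp only [Nat.cast_zero, neg_zero, Finset.Icc_self, Finset.sum_singleton, Int.cast_zero,
      add_zero, Nat.cast_one, one_pow, div_one]
    have hF1 : ‖F w T A B 1 1‖ ≤ 1 := by
      rw [F, norm_mul, Complex.norm_real]
      have h5 : ‖Real.exp (-(1 / A) - 1 / B) / Real.sqrt (1 * 1)‖ ≤ 1 := by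
        rw [mul_one, Real.sqrt_one, div_one, Real.norm_of_nonneg (Real.exp_pos _).le,
          Real.exp_le_one_iff]
        have : 0 ≤ 1 / A := by positivity
        have : 0 ≤ 1 / B := by positivity
        linarith
      have h6 := le_trans (hW0 (T * Real.log (1 / 1))) hW01
      calc _ ≤ (1 : ℝ) * 1 := mul_le_mul h5 h6 (norm_nonneg _) zero_le_one
        _ = 1 := one_mul 1
    refine le_trans hF1 ?_
    have h7 : 0 ≤ Real.exp (-(1 / B)) * Real.sqrt A / T ^ 8 := by positivity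
    have h8 : 1 ≤ T + Real.exp (-(1 / B)) * Real.sqrt A / T ^ 8 := by linarith
    calc (1 : ℝ) ≤ T + Real.exp (-(1 / B)) * Real.sqrt A / T ^ 8 := h8
      _ ≤ (2 * C2 + 2 * C3 + 1) * (T + Real.exp (-(1 / B)) * Real.sqrt A / T ^ 8) := by
          apply le_mul_of_one_le_left (by linarith)
          linarith

end Pool.Agent.Work.MP_56b8f5_nt.EM
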