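import Pool.Agent.Work.MP_56b8f5_nt.EM.Stmts

/-!
MP_56b8f5_nt, block EM: item NUMX (the lower bound for the numerator).
-/

open MeasureTheory Set Filter Topology

noncomputable section

namespace Pool.Agent.Work.MP_56b8f5_nt.EM

theorem numx_ofReal {X : Type*} [MeasurableSpace X] (μ : Measure X) (f : X → ℝ) :
    ENNReal.ofReal (∫ x, f x ∂μ) ≤ ∫⁻ x, ENNReal.ofReal (f x) ∂μ := by
  by_cases hf : Integrable f μ
  · rw [integral_eq_lintegral_pos_part_sub_lintegral_neg_part hf]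
    refine le_trans (ENNReal.ofReal_le_ofReal (sub_le_self _ ENNReal.toReal_nonneg)) ?_
    exact ENNReal.ofReal_toReal_le
  · rw [integral_undef hf]
    simp

theorem numx_ii (f : ℝ → ℝ) (e : ℝ) (he : 0 ≤ e) :
    ENNReal.ofReal (∫ x in (0 : ℝ)..e, f x) ≤ ∫⁻ x in Ioo (0 : ℝ) e, ENNReal.ofReal (f x) := by
  rw [intervalIntegral.integral_of_le he, integral_Ioc_eq_integral_Ioo]
  exact numx_ofReal _ _

/-- One level. -/
theorem numx_level (f : ℝ → ℝ) (g : ℝ → ENNReal) (e : ℝ) (he : 0 ≤ e)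
    (h : ∀ x ∈ Ioo (0 : ℝ) e, ENNReal.ofReal (f x) ≤ g x) :
    ENNReal.ofReal (∫ x in (0 : ℝ)..e, f x) ≤ ∫⁻ x in Ioi (0 : ℝ), g x := by
  refine (numx_ii f e he).trans ?_
  refine (setLIntegral_mono' measurableSet_Ioo h).trans ?_
  exact lintegral_mono_set Ioo_subset_Ioi_self

theorem numx_pz_nonneg (κ x : ℝ) : 0 ≤ pz κ x := le_max_left _ _

theorem numx_gc_nonneg (κ x : ℝ) : 0 ≤ gc κ x := le_max_left _ _

theorem numx_nonneg (κ : ℝ) (η : ℝ → ℝ) (hη : IsEta κ η) (x : Fin 5 → ℝ) : 0 ≤ GX κ η x := by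
  unfold GX
  have h1 := numx_pz_nonneg κ (x 0)
  have h2 := numx_pz_nonneg κ (x 2)
  have h3 := numx_gc_nonneg κ (x 4)
  have h4 := hη.nonneg (x 1)
  have h5 := hη.nonneg (x 3)
  positivity

/-- The two inner integrals. -/
theorem numx_inner (hX : StXin) (κ : ℝ) (h0 : 0 < κ) (h1 : κ < 1 / 100) (η : ℝ → ℝ)
    (hη : IsEta κ η) (d c b a : ℝ) (hd : 0 < d) (hc : 0 < c) (hb : 0 < b) (ha : 0 < a)
    (hcd : c + d < 1 / 3 - 4 * κ) (hbd : b + d < 1 / 3 - 4 * κ)
    (hs : a + b + c + d ≤ 2 * (1 / 3 - 4 * κ)) :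
    ENNReal.ofReal ((1 / 3 - 4 * κ - c - d) * (1 / 3 - 4 * κ - b - d) *
      (2 * (1 / 3 - 4 * κ) - a - b + c + d) * (2 * (1 / 3 - 4 * κ) - a - c + b + d)) ≤
    ∫⁻ J in Ioi (0 : ℝ), ENNReal.ofReal J * ∫⁻ J' in Ioi (0 : ℝ), ENNReal.ofReal J' *
      ENNReal.ofReal (GX κ η (xx d c b a J J')) := by
  have hgc : gc κ (a + b + c + d) = 1 := by
    unfold gc
    rw [abs_of_pos (by positivity)]
    have : 1 ≤ (2 / 3 - κ - (a + b + c + d)) / κ := by
      rw [le_div_iff₀ h0]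
      linarith
    rw [min_eq_left this]
    norm_num
  have hG : ∀ J J' : ℝ, ENNReal.ofReal (GX κ η (xx d c b a J J')) =
      ENNReal.ofReal (pz κ (J + (a + b)) * η (J + (c + d))) *
      ENNReal.ofReal (pz κ (J' + (a + c)) * η (J' + (b + d))) := by
    intro J J'
    rw [← ENNReal.ofReal_mul (mul_nonneg (numx_pz_nonneg _ _) (hη.nonneg _))]
    congr 1
    unfold GX
    simp only [xx, Matrix.cons_val]
    rw [hgc, ← add_assoc, ← add_assoc, ← add_assoc, ← add_assoc]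
    ring
  have e1 := hX κ h0 h1 η hη (a + b) (c + d) (by positivity) hcd (by positivity)
  have e2 := hX κ h0 h1 η hη (a + c) (b + d) (by positivity) hbd (by positivity)
  calc ENNReal.ofReal ((1 / 3 - 4 * κ - c - d) * (1 / 3 - 4 * κ - b - d) *
      (2 * (1 / 3 - 4 * κ) - a - b + c + d) * (2 * (1 / 3 - 4 * κ) - a - c + b + d))
      ≤ ENNReal.ofReal (((1 / 3 - 4 * κ - (c + d)) * (2 / 3 + 2 * κ - (a + b) + (c + d))) *
        ((1 / 3 - 4 * κ - (b + d)) * (2 / 3 + 2 * κ - (a + c) + (b + d)))) := by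
        apply ENNReal.ofReal_le_ofReal
        have p1 : 0 < 1 / 3 - 4 * κ - c - d := by linarith
        have p2 : 0 < 1 / 3 - 4 * κ - b - d := by linarith
        have p3 : 0 ≤ 2 * (1 / 3 - 4 * κ) - a - b + c + d := by linarith
        have p4 : 0 ≤ 2 * (1 / 3 - 4 * κ) - a - c + b + d := by linarith
        have q3 : 2 * (1 / 3 - 4 * κ) - a - b + c + d ≤ 2 / 3 + 2 * κ - (a + b) + (c + d) := by
          linarith
        have q4 : 2 * (1 / 3 - 4 * κ) - a - c + b + d ≤ 2 / 3 + 2 * κ - (a + c) + (b + d) := by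
          linarith
        calc (1 / 3 - 4 * κ - c - d) * (1 / 3 - 4 * κ - b - d) *
              (2 * (1 / 3 - 4 * κ) - a - b + c + d) * (2 * (1 / 3 - 4 * κ) - a - c + b + d)
            ≤ (1 / 3 - 4 * κ - c - d) * (1 / 3 - 4 * κ - b - d) *
              (2 / 3 + 2 * κ - (a + b) + (c + d)) * (2 / 3 + 2 * κ - (a + c) + (b + d)) := by
              gcongr
              exact mul_nonneg (mul_nonneg p1.le p2.le) (p3.trans q3)
          _ = _ := by ring
    _ = ENNReal.ofReal ((1 / 3 - 4 * κ - (c + d)) * (2 / 3 + 2 * κ - (a + b) + (c + d))) *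
        ENNReal.ofReal ((1 / 3 - 4 * κ - (b + d)) * (2 / 3 + 2 * κ - (a + c) + (b + d))) := by
        rw [ENNReal.ofReal_mul]
        have p1 : 0 < 1 / 3 - 4 * κ - (c + d) := by linarith
        have p2 : 0 ≤ 2 / 3 + 2 * κ - (a + b) + (c + d) := by linarith
        positivity
    _ ≤ (∫⁻ J in Ioi (0 : ℝ), ENNReal.ofReal J * ENNReal.ofReal (pz κ (J + (a + b)) * η (J + (c + d)))) *
        (∫⁻ J' in Ioi (0 : ℝ), ENNReal.ofReal J' *
          ENNReal.ofReal (pz κ (J' + (a + c)) * η (J' + (b + d)))) := mul_le_mul' e1 e2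
    _ ≤ ∫⁻ J in Ioi (0 : ℝ), (ENNReal.ofReal J * ENNReal.ofReal (pz κ (J + (a + b)) * η (J + (c + d)))) *
        (∫⁻ J' in Ioi (0 : ℝ), ENNReal.ofReal J' *
          ENNReal.ofReal (pz κ (J' + (a + c)) * η (J' + (b + d)))) := lintegral_mul_const_le _ _
    _ ≤ _ := by
        refine lintegral_mono fun J => ?_
        rw [mul_assoc]
        refine mul_le_mul_right ?_ _
        refine (lintegral_const_mul_le _ _).trans (lintegral_mono fun J' => le_of_eq ?_)
        simp only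
        rw [hG J J']
        ring

theorem numx_finite (hJ : StJL) (κ : ℝ) (η : ℝ → ℝ) (hc : Continuous (GX κ η))
    (hs : HasCompactSupport (GX κ η)) :
    ∫⁻ t, ENNReal.ofReal (GX κ η (xt t)) ∂mu6 ≠ ⊤ := by
  obtain ⟨hI, -⟩ := hJ (fun _ => 1) (fun _ => one_pos)
  have hc2 : Continuous fun x : Fin 5 → ℝ => GX κ η x * Real.exp (∑ i, x i) := by fun_prop
  obtain ⟨C, hC⟩ := hc2.bounded_above_of_compact_support hs.mul_right
  have hle : ∀ t : T6, ENNReal.ofReal (GX κ η (xt t)) ≤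
      ENNReal.ofReal (C * Real.exp (-(∑ i, (1 : ℝ) * xt t i))) := by
    intro t
    apply ENNReal.ofReal_le_ofReal
    have h := (le_abs_self _).trans (hC (xt t))
    simp only [one_mul]
    rw [Real.exp_neg, ← div_eq_mul_inv, le_div_iff₀ (Real.exp_pos _)]
    exact h
  have hI2 : Integrable (fun t : T6 => C * Real.exp (-(∑ i, (1 : ℝ) * xt t i))) mu6 :=
    hI.const_mul C
  exact ne_top_of_le_ne_top (hI2.lintegral_lt_top).ne (lintegral_mono hle)

theorem numx_xt_cont : Continuous xt := by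
  unfold xt xx
  apply continuous_pi
  intro i
  fin_cases i <;> simp <;> fun_prop

theorem iNUMX (hM : StMu) (hX : StXin) (hP : StPoly) (hJ : StJL) (hG : StGc) : StNumX := by
  intro κ h0 h1 η hη
  obtain ⟨hc, hs, -, -⟩ := hG κ h0 h1 η hη
  have hfin := numx_finite hJ κ η hc hs
  have hmeas : Measurable fun t : T6 => ENNReal.ofReal (GX κ η (xt t)) :=
    (hc.comp numx_xt_cont).measurable.ennreal_ofReal
  have hσ : 0 ≤ 1 / 3 - 4 * κ := by linarith
  have key : ENNReal.ofReal (17627 / 29937600 * (1 / 3 - 4 * κ) ^ 12) ≤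
      ∫⁻ t, ENNReal.ofReal (GX κ η (xt t)) ∂mu6 := by
    rw [hM _ hmeas, ← hP _ hσ]
    refine numx_level _ _ _ hσ fun d hd => ?_
    rw [← lintegral_const_mul' _ _ ENNReal.ofReal_ne_top]
    refine numx_level _ _ _ (by linarith [hd.2]) fun c hc' => ?_
    rw [← lintegral_const_mul' _ _ ENNReal.ofReal_ne_top,
      ← lintegral_const_mul' _ _ ENNReal.ofReal_ne_top]
    refine numx_level _ _ _ (by linarith [hd.2]) fun b hb => ?_
    rw [← lintegral_const_mul' _ _ ENNReal.ofReal_ne_top,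
      ← lintegral_const_mul' _ _ ENNReal.ofReal_ne_top,
      ← lintegral_const_mul' _ _ ENNReal.ofReal_ne_top]
    refine numx_level _ _ _ (by linarith [hd.1, hb.2, hc'.2]) fun a ha => ?_
    have hin := numx_inner hX κ h0 h1 η hη d c b a hd.1 hc'.1 hb.1 ha.1 (by linarith [hc'.2])
      (by linarith [hb.2]) (by linarith [ha.2])
    have hd0 := hd.1
    have hc0 := hc'.1
    have hb0 := hb.1
    have ha0 := ha.1
    calc ENNReal.ofReal (a * b * c * d * (1 / 3 - 4 * κ - c - d) * (1 / 3 - 4 * κ - b - d) *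
          (2 * (1 / 3 - 4 * κ) - a - b + c + d) * (2 * (1 / 3 - 4 * κ) - a - c + b + d))
        = ENNReal.ofReal d * (ENNReal.ofReal c * (ENNReal.ofReal b * (ENNReal.ofReal a *
          ENNReal.ofReal ((1 / 3 - 4 * κ - c - d) * (1 / 3 - 4 * κ - b - d) *
          (2 * (1 / 3 - 4 * κ) - a - b + c + d) * (2 * (1 / 3 - 4 * κ) - a - c + b + d))))) := by
          rw [← ENNReal.ofReal_mul ha0.le, ← ENNReal.ofReal_mul hb0.le, ← ENNReal.ofReal_mul hc0.le,
            ← ENNReal.ofReal_mul hd0.le]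
          congr 1
          ring
      _ ≤ _ := by gcongr; exact hin
  have hcalc : Jf (GX κ η) = (∫⁻ t, ENNReal.ofReal (GX κ η (xt t)) ∂mu6).toReal := by
    unfold Jf
    rw [integral_eq_lintegral_of_nonneg_ae]
    · exact Filter.Eventually.of_forall fun t => numx_nonneg κ η hη _
    · exact (hc.comp numx_xt_cont).aestronglyMeasurable
  rw [hcalc]
  have h2 := (ENNReal.ofReal_le_iff_le_toReal hfin).1 key
  refine le_trans (le_of_eq ?_) h2
  ring

end Pool.Agent.Work.MP_56b8f5_nt.EM
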