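import Pool.Agent.Work.MP_56b8f5_nt.EM.Stmts

/-!
MP_56b8f5_nt, block EM, item NUMY: the upper bound for the denominator.
-/

open MeasureTheory Set Filter Topology

noncomputable section

set_option linter.unusedVariables false

namespace Pool.Agent.Work.MP_56b8f5_nt.EM

/-- translation and truncation -/
lemma numy_shift (φ : ℝ → ENNReal) (κ : ℝ) (hκ : 0 ≤ κ) :
    ∫⁻ c in Ioi (0 : ℝ), φ (c + κ) ≤ ∫⁻ y in Ioi (0 : ℝ), φ y := by
  rw [← lintegral_indicator measurableSet_Ioi, ← lintegral_indicator measurableSet_Ioi]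
  calc ∫⁻ c, (Ioi (0 : ℝ)).indicator (fun c => φ (c + κ)) c
      ≤ ∫⁻ c, (Ioi (0 : ℝ)).indicator φ (c + κ) := by
        apply lintegral_mono
        intro c
        by_cases hc : c ∈ Ioi (0 : ℝ)
        · have hc' : c + κ ∈ Ioi (0 : ℝ) := by
            have : (0 : ℝ) < c := hc
            show (0 : ℝ) < c + κ
            linarith
          show (Ioi (0 : ℝ)).indicator (fun c => φ (c + κ)) c ≤ (Ioi (0 : ℝ)).indicator φ (c + κ)
          rw [Set.indicator_of_mem hc, Set.indicator_of_mem hc']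
        · rw [Set.indicator_of_notMem hc]
          exact zero_le
    _ = ∫⁻ c, (Ioi (0 : ℝ)).indicator φ c :=
        lintegral_add_right_eq_self (fun c => (Ioi (0 : ℝ)).indicator φ c) κ

/-- restricting a truncated function to an interval -/
lemma numy_trunc (E : ℝ) (n : ℕ) (hn : n ≠ 0) (B : ℝ)
    (hB : 0 < E → ∫ y in (0 : ℝ)..E, y ^ 2 * (E - y) ^ n = B * E ^ (n + 3)) :
    ∫⁻ y in Ioi (0 : ℝ), ENNReal.ofReal (y ^ 2 * (max 0 (E - y)) ^ n) ≤
      ENNReal.ofReal (B * (max 0 E) ^ (n + 3)) := by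
  rcases le_or_gt E 0 with hE | hE
  · have : ∫⁻ y in Ioi (0 : ℝ), ENNReal.ofReal (y ^ 2 * (max 0 (E - y)) ^ n) =
        ∫⁻ y in Ioi (0 : ℝ), 0 := by
      apply setLIntegral_congr_fun measurableSet_Ioi
      intro y hy
      have hy' : (0 : ℝ) < y := hy
      have : max 0 (E - y) = 0 := max_eq_left (by linarith)
      simp [this, hn]
    rw [this]
    simp
  · have h1 : ∫⁻ y in Ioi (0 : ℝ), ENNReal.ofReal (y ^ 2 * (max 0 (E - y)) ^ n) =
        ∫⁻ y in Ioc (0 : ℝ) E, ENNReal.ofReal (y ^ 2 * (E - y) ^ n) := by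
      rw [← lintegral_indicator measurableSet_Ioi, ← lintegral_indicator measurableSet_Ioc]
      apply lintegral_congr
      intro y
      by_cases hy : y ∈ Ioc (0 : ℝ) E
      · have hy0 : y ∈ Ioi (0 : ℝ) := hy.1
        rw [Set.indicator_of_mem hy, Set.indicator_of_mem hy0]
        have : max 0 (E - y) = E - y := max_eq_right (by linarith [hy.2])
        rw [this]
      · rw [Set.indicator_of_notMem hy]
        by_cases hy0 : y ∈ Ioi (0 : ℝ)
        · rw [Set.indicator_of_mem hy0]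
          have hyE : E < y := by
            by_contra hcon
            exact hy ⟨hy0, not_lt.mp hcon⟩
          have : max 0 (E - y) = 0 := max_eq_left (by linarith)
          simp [this, hn]
        · rw [Set.indicator_of_notMem hy0]
    rw [h1, ← ofReal_integral_eq_lintegral_ofReal, ← intervalIntegral.integral_of_le hE.le, hB hE,
      max_eq_right hE.le]
    · have hc : Continuous fun y : ℝ => y ^ 2 * (E - y) ^ n := by fun_prop
      exact (hc.integrableOn_Icc (a := 0) (b := E)).mono_set Ioc_subset_Icc_self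
    · rw [Filter.EventuallyLE, ae_restrict_iff' measurableSet_Ioc]
      apply ae_of_all
      intro y hy
      have : 0 ≤ E - y := by linarith [hy.2]
      show (0 : ℝ) ≤ y ^ 2 * (E - y) ^ n
      positivity

lemma numy_b2 (E : ℝ) : ∫ y in (0 : ℝ)..E, y ^ 2 * (E - y) ^ 2 = 1 / 30 * E ^ (2 + 3) := by
  have h : ∀ y ∈ uIcc (0 : ℝ) E, HasDerivAt
      (fun y : ℝ => E ^ 2 * y ^ 3 / 3 - E * y ^ 4 / 2 + y ^ 5 / 5) (y ^ 2 * (E - y) ^ 2) y := by
    intro y _
    have h3 := (hasDerivAt_pow 3 y).const_mul (E ^ 2 / 3)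
    have h4 := (hasDerivAt_pow 4 y).const_mul (E / 2)
    have h5 := (hasDerivAt_pow 5 y).const_mul (1 / 5 : ℝ)
    have h := (h3.sub h4).add h5
    refine (h.congr_deriv ?_).congr_of_eventuallyEq ?_
    · push_cast
      ring
    · filter_upwards with z
      simp only [Pi.add_apply, Pi.sub_apply]
      ring
  rw [intervalIntegral.integral_eq_sub_of_hasDerivAt h]
  · ring
  · exact Continuous.intervalIntegrable (by fun_prop) _ _

lemma numy_b5 (E : ℝ) : ∫ y in (0 : ℝ)..E, y ^ 2 * (E - y) ^ 5 = 1 / 168 * E ^ (5 + 3) := by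
  have h : ∀ y ∈ uIcc (0 : ℝ) E, HasDerivAt
      (fun y : ℝ => E ^ 5 * y ^ 3 / 3 - 5 * E ^ 4 * y ^ 4 / 4 + 2 * E ^ 3 * y ^ 5
        - 5 * E ^ 2 * y ^ 6 / 3 + 5 * E * y ^ 7 / 7 - y ^ 8 / 8) (y ^ 2 * (E - y) ^ 5) y := by
    intro y _
    have h3 := (hasDerivAt_pow 3 y).const_mul (E ^ 5 / 3)
    have h4 := (hasDerivAt_pow 4 y).const_mul (5 * E ^ 4 / 4)
    have h5 := (hasDerivAt_pow 5 y).const_mul (2 * E ^ 3)
    have h6 := (hasDerivAt_pow 6 y).const_mul (5 * E ^ 2 / 3)
    have h7 := (hasDerivAt_pow 7 y).const_mul (5 * E / 7)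
    have h8 := (hasDerivAt_pow 8 y).const_mul (1 / 8 : ℝ)
    have h := ((((h3.sub h4).add h5).sub h6).add h7).sub h8
    refine (h.congr_deriv ?_).congr_of_eventuallyEq ?_
    · push_cast
      ring
    · filter_upwards with z
      simp only [Pi.add_apply, Pi.sub_apply]
      ring
  rw [intervalIntegral.integral_eq_sub_of_hasDerivAt h]
  · ring
  · exact Continuous.intervalIntegrable (by fun_prop) _ _

/-- the majorant of the weights -/
def numyPi (κ c d : ℝ) : ℝ :=
  (c + κ) ^ 2 * (d + κ) ^ 2 * (max 0 (1 / 3 - (c + κ) - (d + κ))) ^ 2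

lemma numy_pi_int (κ : ℝ) (hκ : 0 ≤ κ) :
    ∫⁻ d in Ioi (0 : ℝ), ∫⁻ c in Ioi (0 : ℝ), ENNReal.ofReal (numyPi κ c d) ≤
      ENNReal.ofReal ((1 / 3) ^ 8 / 5040) := by
  have hin : ∀ d : ℝ, ∫⁻ c in Ioi (0 : ℝ), ENNReal.ofReal (numyPi κ c d) ≤
      ENNReal.ofReal ((d + κ) ^ 2 * (max 0 (1 / 3 - (d + κ))) ^ 5) * ENNReal.ofReal (1 / 30) := by
    intro d
    have e1 : ∀ c : ℝ, ENNReal.ofReal (numyPi κ c d) = ENNReal.ofReal ((d + κ) ^ 2) *
        (fun y : ℝ => ENNReal.ofReal (y ^ 2 * (max 0 ((1 / 3 - (d + κ)) - y)) ^ 2)) (c + κ) := by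
      intro c
      simp only
      rw [← ENNReal.ofReal_mul (by positivity)]
      congr 1
      unfold numyPi
      have : (1 : ℝ) / 3 - (c + κ) - (d + κ) = 1 / 3 - (d + κ) - (c + κ) := by ring
      rw [this]
      ring
    calc ∫⁻ c in Ioi (0 : ℝ), ENNReal.ofReal (numyPi κ c d)
        = ENNReal.ofReal ((d + κ) ^ 2) * ∫⁻ c in Ioi (0 : ℝ),
          (fun y : ℝ => ENNReal.ofReal (y ^ 2 * (max 0 ((1 / 3 - (d + κ)) - y)) ^ 2)) (c + κ) := by
          rw [← lintegral_const_mul' _ _ ENNReal.ofReal_ne_top]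
          apply lintegral_congr
          intro c
          exact e1 c
      _ ≤ ENNReal.ofReal ((d + κ) ^ 2) * ENNReal.ofReal (1 / 30 * (max 0 (1 / 3 - (d + κ))) ^ (2 + 3)) := by
          gcongr
          exact (numy_shift (fun y : ℝ => ENNReal.ofReal (y ^ 2 *
            (max 0 ((1 / 3 - (d + κ)) - y)) ^ 2)) κ hκ).trans
            (numy_trunc (1 / 3 - (d + κ)) 2 (by norm_num) (1 / 30) (fun _ => numy_b2 _))
      _ = _ := by
          rw [← ENNReal.ofReal_mul (by positivity), ← ENNReal.ofReal_mul (by positivity)]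
          congr 1
          ring
  calc ∫⁻ d in Ioi (0 : ℝ), ∫⁻ c in Ioi (0 : ℝ), ENNReal.ofReal (numyPi κ c d)
      ≤ ∫⁻ d in Ioi (0 : ℝ), ENNReal.ofReal ((d + κ) ^ 2 * (max 0 (1 / 3 - (d + κ))) ^ 5) *
        ENNReal.ofReal (1 / 30) := lintegral_mono hin
    _ = (∫⁻ d in Ioi (0 : ℝ), (fun y : ℝ =>
          ENNReal.ofReal (y ^ 2 * (max 0 (1 / 3 - y)) ^ 5)) (d + κ)) * ENNReal.ofReal (1 / 30) := by
        rw [lintegral_mul_const' _ _ ENNReal.ofReal_ne_top]
    _ ≤ ENNReal.ofReal (1 / 168 * (max 0 (1 / 3)) ^ (5 + 3)) * ENNReal.ofReal (1 / 30) := by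
        gcongr
        exact (numy_shift (fun y : ℝ => ENNReal.ofReal (y ^ 2 * (max 0 (1 / 3 - y)) ^ 5)) κ hκ).trans
          (numy_trunc (1 / 3) 5 (by norm_num) (1 / 168) (fun _ => numy_b5 _))
    _ = _ := by
        rw [← ENNReal.ofReal_mul (by positivity)]
        congr 1
        rw [max_eq_right (by norm_num : (0 : ℝ) ≤ 1 / 3)]
        norm_num

/-- the pointwise bound -/
lemma numy_pt (κ : ℝ) (hκ : 0 < κ) (η : ℝ → ℝ) (hη : IsEta κ η) (d c b a J J' : ℝ)
    (hd : 0 < d) (hc : 0 < c) (hb : 0 < b) (ha : 0 < a) (hJ : 0 < J) (hJ' : 0 < J') :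
    d * (c * (b * (a * (J * (J' * GY η (xx d c b a J J')))))) ≤
      numyPi κ c d * (η (J + a + b) * η (J + c + d) * η (J' + a + c) * η (J' + b + d)) := by
  have hGY : GY η (xx d c b a J J') =
      η (J + a + b) * η (J + c + d) * η (J' + a + c) * η (J' + b + d) * kc (a + b + c + d) := by
    simp [GY, xx]
  have hk1 : kc (a + b + c + d) ≤ 1 := by
    unfold kc
    exact max_le (by norm_num) (min_le_left _ _)
  have hk0 : 0 ≤ kc (a + b + c + d) := le_max_left _ _
  have hpi : 0 ≤ numyPi κ c d := by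
    unfold numyPi
    positivity
  have n0 := hη.nonneg (J + a + b)
  have n1 := hη.nonneg (J + c + d)
  have n2 := hη.nonneg (J' + a + c)
  have n3 := hη.nonneg (J' + b + d)
  rw [hGY]
  set P := η (J + a + b) * η (J + c + d) * η (J' + a + c) * η (J' + b + d) with hP
  have hP0 : 0 ≤ P := by positivity
  rcases eq_or_lt_of_le hP0 with h0 | hpos
  · rw [← h0]
    simp
  · have hne : P ≠ 0 := hpos.ne'
    have h0 : η (J + a + b) ≠ 0 := by
      intro h
      exact hne (by rw [hP, h]; ring)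
    have h1 : η (J + c + d) ≠ 0 := by
      intro h
      exact hne (by rw [hP, h]; ring)
    have h2 : η (J' + a + c) ≠ 0 := by
      intro h
      exact hne (by rw [hP, h]; ring)
    have h3 : η (J' + b + d) ≠ 0 := by
      intro h
      exact hne (by rw [hP, h]; ring)
    obtain ⟨l0, u0⟩ := hη.supp _ h0
    obtain ⟨l1, u1⟩ := hη.supp _ h1
    obtain ⟨l2, u2⟩ := hη.supp _ h2
    obtain ⟨l3, u3⟩ := hη.supp _ h3
    have had : a ≤ d + κ := by linarith
    have hbc : b ≤ c + κ := by linarith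
    have hcb : c - κ ≤ b := by linarith
    set e := (1 : ℝ) / 3 - (c + κ) - (d + κ) with he
    have hJe : J ≤ e := by rw [he]; linarith
    have hJe' : J' ≤ e := by rw [he]; linarith
    have hmax : max 0 e = e := max_eq_right (by linarith)
    have hw : d * (c * (b * (a * (J * J')))) ≤ numyPi κ c d := by
      unfold numyPi
      rw [← he, hmax]
      have k1 : d * a ≤ (d + κ) ^ 2 := by nlinarith
      have k2 : c * b ≤ (c + κ) ^ 2 := by nlinarith
      have k3 : J * J' ≤ e ^ 2 := by nlinarith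
      calc d * (c * (b * (a * (J * J')))) = (c * b) * (d * a) * (J * J') := by ring
        _ ≤ (c + κ) ^ 2 * (d + κ) ^ 2 * e ^ 2 := by gcongr
    calc d * (c * (b * (a * (J * (J' * (P * kc (a + b + c + d)))))))
        = (d * (c * (b * (a * (J * J'))))) * (P * kc (a + b + c + d)) := by ring
      _ ≤ numyPi κ c d * (P * 1) := by gcongr
      _ = numyPi κ c d * P := by ring

theorem iNUMY (hM : StMu) (hE : StEta4) (hJ : StJL) (hG : StGc) : StNumY := by
  intro κ hκ hκ' η hη
  obtain ⟨-, -, hcont, -⟩ := hG κ hκ hκ' η hη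
  have hxt : Continuous xt := by
    unfold xt xx
    apply continuous_pi
    intro i
    fin_cases i <;> simp <;> fun_prop
  have hGc : Continuous fun t : T6 => GY η (xt t) := hcont.comp hxt
  have hk0 : ∀ x, 0 ≤ kc x := fun x => le_max_left _ _
  have hGn : ∀ x, 0 ≤ GY η x := by
    intro x
    unfold GY
    have n0 := hη.nonneg (x 0)
    have n1 := hη.nonneg (x 1)
    have n2 := hη.nonneg (x 2)
    have n3 := hη.nonneg (x 3)
    have n4 := hk0 (x 4)
    positivity
  have hcs : HasCompactSupport η := by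
    apply HasCompactSupport.intro (isCompact_Icc (a := 1 / 3 - 4 * κ) (b := 1 / 3 - 3 * κ))
    intro x hx
    by_contra hcon
    exact hx (hη.supp x hcon)
  unfold Jf
  rw [integral_eq_lintegral_of_nonneg_ae (ae_of_all _ fun t => hGn _)
    hGc.aestronglyMeasurable]
  apply ENNReal.toReal_le_of_le_ofReal (by positivity)
  rw [hM (fun t => ENNReal.ofReal (GY η (xt t))) (by
    exact hGc.measurable.ennreal_ofReal)]
  have hE' := hE η hη.cont hη.nonneg hcs hη.mass
  calc _ ≤ ∫⁻ d in Ioi (0 : ℝ), ∫⁻ c in Ioi (0 : ℝ), ENNReal.ofReal (numyPi κ c d) * (1 / 2) := by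
        apply setLIntegral_mono' measurableSet_Ioi
        intro d hd
        rw [← lintegral_const_mul' _ _ ENNReal.ofReal_ne_top]
        apply setLIntegral_mono' measurableSet_Ioi
        intro c hc
        refine le_trans ?_ (mul_le_mul_right (hE' c d) (ENNReal.ofReal (numyPi κ c d)))
        rw [← lintegral_const_mul' _ _ ENNReal.ofReal_ne_top,
          ← lintegral_const_mul' _ _ ENNReal.ofReal_ne_top,
          ← lintegral_const_mul' _ _ ENNReal.ofReal_ne_top]
        refine le_trans (setLIntegral_mono' (g := fun b => ENNReal.ofReal (numyPi κ c d) *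
          ∫⁻ a : ℝ, ∫⁻ J : ℝ, ∫⁻ J' : ℝ,
          ENNReal.ofReal (η (J + a + b) * η (J + c + d) * η (J' + a + c) * η (J' + b + d)))
          measurableSet_Ioi ?_) (setLIntegral_le_lintegral _ _)
        intro b hb
        simp only [← lintegral_const_mul' _ _ ENNReal.ofReal_ne_top]
        refine le_trans (setLIntegral_mono' (g := fun a => 
          ∫⁻ J : ℝ, ∫⁻ J' : ℝ, ENNReal.ofReal (numyPi κ c d) *
          ENNReal.ofReal (η (J + a + b) * η (J + c + d) * η (J' + a + c) * η (J' + b + d)))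
          measurableSet_Ioi ?_) (setLIntegral_le_lintegral _ _)
        intro a ha
        refine le_trans (setLIntegral_mono' (g := fun J => 
          ∫⁻ J' : ℝ, ENNReal.ofReal (numyPi κ c d) *
          ENNReal.ofReal (η (J + a + b) * η (J + c + d) * η (J' + a + c) * η (J' + b + d)))
          measurableSet_Ioi ?_) (setLIntegral_le_lintegral _ _)
        intro J hJ0
        refine le_trans (setLIntegral_mono' (g := fun J' => 
          ENNReal.ofReal (numyPi κ c d) *
          ENNReal.ofReal (η (J + a + b) * η (J + c + d) * η (J' + a + c) * η (J' + b + d)))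
          measurableSet_Ioi ?_) (setLIntegral_le_lintegral _ _)
        intro J' hJ0'
        have hpi : 0 ≤ numyPi κ c d := by
          unfold numyPi
          positivity
        have hd' : (0 : ℝ) < d := hd
        have hc' : (0 : ℝ) < c := hc
        have hb' : (0 : ℝ) < b := hb
        have ha' : (0 : ℝ) < a := ha
        have hJ1 : (0 : ℝ) < J := hJ0
        have hJ1' : (0 : ℝ) < J' := hJ0'
        rw [← ENNReal.ofReal_mul hJ1'.le, ← ENNReal.ofReal_mul hJ1.le, ← ENNReal.ofReal_mul ha'.le,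
          ← ENNReal.ofReal_mul hb'.le, ← ENNReal.ofReal_mul hc'.le, ← ENNReal.ofReal_mul hd'.le,
          ← ENNReal.ofReal_mul hpi]
        exact ENNReal.ofReal_le_ofReal
          (numy_pt κ hκ η hη d c b a J J' hd' hc' hb' ha' hJ1 hJ1')
    _ = (∫⁻ d in Ioi (0 : ℝ), ∫⁻ c in Ioi (0 : ℝ), ENNReal.ofReal (numyPi κ c d)) * (1 / 2) := by
        rw [← lintegral_mul_const' _ _ (by simp)]
        apply lintegral_congr
        intro d
        rw [← lintegral_mul_const' _ _ (by simp)]
    _ ≤ ENNReal.ofReal ((1 / 3) ^ 8 / 5040) * ENNReal.ofReal (1 / 2) := by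
        have h12 : (1 / 2 : ENNReal) = ENNReal.ofReal (1 / 2) := by
          rw [ENNReal.ofReal_div_of_pos (by norm_num)]
          simp
        rw [h12]
        gcongr
        exact numy_pi_int κ hκ.le
    _ = ENNReal.ofReal ((1 / 3) ^ 8 / 10080) := by
        rw [← ENNReal.ofReal_mul (by positivity)]
        congr 1
        norm_num

end Pool.Agent.Work.MP_56b8f5_nt.EM
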