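import Pool.Agent.Work.MP_56b8f5_nt.EM.Stmts

/-!
MP_56b8f5_nt, block EM, item ORTH: the Fourier transform of the weight is negligible at non-zero
`γ` of height at most `T^{4/3}`.
-/

open MeasureTheory Set Filter Topology

noncomputable section

namespace Pool.Agent.Work.MP_56b8f5_nt.EM

theorem iORTH (hW : StW) (hE : StEll) : StOrth := by
  intro w hw
  obtain ⟨-, hdec, -⟩ := hW w hw
  obtain ⟨C, hC0, hC⟩ := hdec 0 60
  refine ⟨C * 2 ^ 60, by positivity, fun T hT γ hγ hht => ?_⟩
  have hT0 : 0 < T := lt_of_lt_of_le one_pos hT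
  set y : ℝ := Real.exp (Real.log T / 3) with hy
  have hy0 : 0 < y := Real.exp_pos _
  have hy3 : y ^ 3 = T := by
    rw [hy, ← Real.exp_nat_mul]
    have : ((3 : ℕ) : ℝ) * (Real.log T / 3) = Real.log T := by push_cast; ring
    rw [this, Real.exp_log hT0]
  have h1 : y / 2 ≤ |T * ell γ| := by
    rw [abs_mul, abs_of_pos hT0]
    have h2 : Real.exp (-(2 / 3 * Real.log T)) / 2 ≤ |ell γ| := by
      refine le_trans ?_ (hE γ hγ)
      have : -(2 / 3 * Real.log T) ≤ -(ht γ / 2) := by linarith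
      have := Real.exp_le_exp.mpr this
      linarith
    have h3 : T * Real.exp (-(2 / 3 * Real.log T)) = y := by
      have : T = Real.exp (Real.log T) := (Real.exp_log hT0).symm
      rw [hy]
      conv_lhs => rw [this]
      rw [Real.log_exp, ← Real.exp_add]
      congr 1
      ring
    calc y / 2 = T * (Real.exp (-(2 / 3 * Real.log T)) / 2) := by rw [← h3]; ring
      _ ≤ T * |ell γ| := mul_le_mul_of_nonneg_left h2 hT0.le
  refine (hC (T * ell γ)).trans ?_
  have h4 : y / 2 ≤ 1 + |T * ell γ| := by linarith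
  have h5 : (y / 2) ^ 60 ≤ (1 + |T * ell γ|) ^ 60 := by gcongr
  have h6 : (y / 2) ^ 60 = T ^ 20 / 2 ^ 60 := by
    rw [← hy3, div_pow, ← pow_mul]
  have h7 : 0 < (y / 2) ^ 60 := by positivity
  calc C / (1 + |T * ell γ|) ^ 60 ≤ C / (y / 2) ^ 60 :=
        div_le_div_of_nonneg_left hC0 h7 h5
    _ = C * 2 ^ 60 / T ^ 20 := by
        rw [h6]
        field_simp

end Pool.Agent.Work.MP_56b8f5_nt.EM
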