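import Pool.Agent.Work.MP_56b8f5_nt.EM.Stmts

/-!
MP_56b8f5_nt, block EM, item PC: `P K` is continuous and bounded.
-/

open MeasureTheory Set Filter Topology

noncomputable section

namespace Pool.Agent.Work.MP_56b8f5_nt.EM

/-- The majorant. -/
def pc_f (K u : ℝ) : ℝ := Real.exp (-(u / K)) / Real.sqrt u

theorem pc_nonneg (K u : ℝ) : 0 ≤ pc_f K u := by
  unfold pc_f; positivity

theorem pc_int {K : ℝ} (hK : 1 ≤ K) :
    ∫ u in Ioi (0 : ℝ), pc_f K u = Real.sqrt (Real.pi * K) := by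
  have hK0 : 0 < K := by linarith
  have h := Real.integral_rpow_mul_exp_neg_mul_Ioi (a := 1 / 2) (r := 1 / K) (by norm_num)
    (by positivity)
  rw [Real.Gamma_one_half_eq, one_div_one_div, ← Real.sqrt_eq_rpow] at h
  rw [Real.sqrt_mul Real.pi_pos.le, mul_comm, ← h]
  refine setIntegral_congr_fun measurableSet_Ioi fun u hu => ?_
  have hu0 : 0 < u := hu
  have h1 : u ^ ((1 : ℝ) / 2 - 1) = 1 / Real.sqrt u := by
    rw [Real.sqrt_eq_rpow, one_div (u ^ ((1 : ℝ) / 2)), ← Real.rpow_neg hu0.le]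
    norm_num
  simp only [pc_f, h1]
  rw [show 1 / K * u = u / K by ring]
  ring

theorem pc_intOn {K : ℝ} (hK : 1 ≤ K) : IntegrableOn (pc_f K) (Ioi 0) := by
  by_contra hc
  have h1 : ∫ u in Ioi (0 : ℝ), pc_f K u = 0 := integral_undef hc
  rw [pc_int hK] at h1
  have hK0 : 0 < K := by linarith
  have h2 : 0 < Real.sqrt (Real.pi * K) := Real.sqrt_pos.2 (mul_pos Real.pi_pos hK0)
  linarith

theorem pc_anti {K u v : ℝ} (hK : 1 ≤ K) (hu : 0 < u) (huv : u ≤ v) : pc_f K v ≤ pc_f K u := by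
  have hK0 : 0 < K := by linarith
  unfold pc_f
  have h1 : Real.exp (-(v / K)) ≤ Real.exp (-(u / K)) := by
    apply Real.exp_le_exp.2
    have : u / K ≤ v / K := div_le_div_of_nonneg_right huv hK0.le
    linarith
  have h2 : Real.sqrt u ≤ Real.sqrt v := Real.sqrt_le_sqrt huv
  have h3 : 0 < Real.sqrt u := Real.sqrt_pos.2 hu
  exact div_le_div₀ (Real.exp_pos _).le h1 h3 h2

theorem pc_ii {K : ℝ} (hK : 1 ≤ K) {a b : ℝ} (ha : 0 ≤ a) (hab : a ≤ b) :
    IntervalIntegrable (pc_f K) volume a b := by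
  rw [intervalIntegrable_iff_integrableOn_Ioc_of_le hab]
  exact (pc_intOn hK).mono_set fun x hx => lt_of_le_of_lt ha hx.1

theorem pc_step {K : ℝ} (hK : 1 ≤ K) (k : ℕ) :
    pc_f K ((k + 1 : ℕ) : ℝ) ≤ ∫ u in (k : ℝ)..((k + 1 : ℕ) : ℝ), pc_f K u := by
  have hk : (k : ℝ) ≤ ((k + 1 : ℕ) : ℝ) := by push_cast; linarith
  have h1 : ∫ _u in (k : ℝ)..((k + 1 : ℕ) : ℝ), pc_f K ((k + 1 : ℕ) : ℝ) =
      pc_f K ((k + 1 : ℕ) : ℝ) := by
    rw [intervalIntegral.integral_const]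
    push_cast
    simp
  rw [← h1]
  refine intervalIntegral.integral_mono_on_of_le_Ioo hk
    intervalIntegrable_const (pc_ii hK (Nat.cast_nonneg k) hk) fun u hu => ?_
  have hu0 : 0 < u := lt_of_le_of_lt (Nat.cast_nonneg k) hu.1
  exact pc_anti hK hu0 hu.2.le

theorem pc_zero (K : ℝ) : pc_f K ((0 : ℕ) : ℝ) = 0 := by
  unfold pc_f
  simp

theorem pc_part {K : ℝ} (hK : 1 ≤ K) (N : ℕ) :
    ∑ k ∈ Finset.range N, pc_f K (k : ℝ) ≤ Real.sqrt (Real.pi * K) := by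
  have h1 : ∀ M : ℕ, ∑ k ∈ Finset.range (M + 1), pc_f K (k : ℝ) ≤
      ∫ u in (0 : ℝ)..(M : ℝ), pc_f K u := by
    intro M
    induction M with
    | zero => simp [pc_f]
    | succ M ih =>
      rw [Finset.sum_range_succ]
      have h2 := pc_step hK M
      have h3 : (∫ u in (0 : ℝ)..(M : ℝ), pc_f K u) +
          ∫ u in (M : ℝ)..((M + 1 : ℕ) : ℝ), pc_f K u =
          ∫ u in (0 : ℝ)..((M + 1 : ℕ) : ℝ), pc_f K u :=
        intervalIntegral.integral_add_adjacent_intervals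
          (pc_ii hK le_rfl (Nat.cast_nonneg M))
          (pc_ii hK (Nat.cast_nonneg M) (by push_cast; linarith))
      linarith
  have h2 : ∑ k ∈ Finset.range N, pc_f K (k : ℝ) ≤ ∑ k ∈ Finset.range (N + 1), pc_f K (k : ℝ) := by
    rw [Finset.sum_range_succ]
    have := pc_nonneg K N
    linarith
  refine (h2.trans (h1 N)).trans ?_
  rw [intervalIntegral.integral_of_le (Nat.cast_nonneg N), ← pc_int hK]
  exact setIntegral_mono_set (pc_intOn hK)
    (Eventually.of_forall fun u => pc_nonneg K u)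
    (LE.le.eventuallyLE (fun u hu => hu.1 : Ioc (0 : ℝ) N ≤ Ioi 0))

theorem pc_sqrt {K : ℝ} (hK : 1 ≤ K) : Real.sqrt (Real.pi * K) ≤ 2 * Real.sqrt K := by
  have h4 : Real.sqrt (4 * K) = 2 * Real.sqrt K := by
    rw [Real.sqrt_mul (by norm_num), show (4 : ℝ) = 2 ^ 2 by norm_num,
      Real.sqrt_sq (by norm_num)]
  rw [← h4]
  apply Real.sqrt_le_sqrt
  have := Real.pi_le_four
  nlinarith

theorem pc_summable {K : ℝ} (hK : 1 ≤ K) : Summable fun k : ℕ => pc_f K (k : ℝ) :=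
  summable_of_sum_range_le (fun k => pc_nonneg K k) (pc_part hK)

theorem pc_tsum {K : ℝ} (hK : 1 ≤ K) : ∑' k : ℕ, pc_f K (k : ℝ) ≤ 2 * Real.sqrt K :=
  (Real.tsum_le_of_sum_range_le (fun k => pc_nonneg K k) (pc_part hK)).trans (pc_sqrt hK)

theorem pc_ne (t : ℝ) : (-(1 / 2 + t * Complex.I) : ℂ) ≠ 0 := by
  intro h
  have := congrArg Complex.re h
  simp at this

theorem pc_term0 (K t : ℝ) : (Real.exp (-(((0 : ℕ) : ℝ) / K)) : ℂ) *
    (((0 : ℕ) : ℂ)) ^ (-(1 / 2 + t * Complex.I)) = 0 := by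
  have h0 : (((0 : ℕ) : ℂ)) = 0 := Nat.cast_zero
  rw [h0, Complex.zero_cpow (pc_ne t), mul_zero]

theorem pc_norm (K t : ℝ) (k : ℕ) : ‖(Real.exp (-((k : ℝ) / K)) : ℂ) *
    (k : ℂ) ^ (-(1 / 2 + t * Complex.I))‖ = pc_f K (k : ℝ) := by
  rcases Nat.eq_zero_or_pos k with rfl | hk
  · rw [pc_zero, pc_term0, norm_zero]
  · rw [norm_mul, Complex.norm_natCast_cpow_of_pos hk, Complex.norm_real,
      Real.norm_of_nonneg (Real.exp_pos _).le]
    have h1 : (-(1 / 2 + t * Complex.I) : ℂ).re = -(1 / 2) := by simp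
    rw [h1, Real.rpow_neg (Nat.cast_nonneg k), ← Real.sqrt_eq_rpow]
    unfold pc_f
    exact (div_eq_mul_inv _ _).symm

theorem pc_sumC {K : ℝ} (hK : 1 ≤ K) (t : ℂ) : Summable fun k : ℕ =>
    ‖(Real.exp (-((k : ℝ) / K)) : ℂ) * (k : ℂ) ^ (-(1 / 2 + t * Complex.I))‖ := by
  have hK0 : 0 < K := by linarith
  obtain ⟨m, hm⟩ := exists_nat_ge t.im
  have hs := Real.summable_pow_mul_exp_neg_nat_mul m (r := 1 / K) (by positivity)
  rw [← summable_nat_add_iff 1]
  rw [← summable_nat_add_iff 1] at hs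
  refine Summable.of_nonneg_of_le (fun k => norm_nonneg _) (fun k => ?_) hs
  have hk : 0 < k + 1 := Nat.succ_pos k
  have hk1 : (1 : ℝ) ≤ ((k + 1 : ℕ) : ℝ) := by exact_mod_cast hk
  rw [norm_mul, Complex.norm_natCast_cpow_of_pos hk, Complex.norm_real,
    Real.norm_of_nonneg (Real.exp_pos _).le, mul_comm]
  have h1 : (-(1 / 2 + t * Complex.I) : ℂ).re = -(1 / 2) + t.im := by
    simp [add_comm]
  have h2 : ((k + 1 : ℕ) : ℝ) ^ (-(1 / 2 + t * Complex.I) : ℂ).re ≤ ((k + 1 : ℕ) : ℝ) ^ m := by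
    rw [← Real.rpow_natCast, h1]
    exact Real.rpow_le_rpow_of_exponent_le hk1 (by linarith)
  have h3 : Real.exp (-(((k + 1 : ℕ) : ℝ) / K)) = Real.exp (-(1 / K) * ((k + 1 : ℕ) : ℝ)) := by
    congr 1
    ring
  rw [h3]
  exact mul_le_mul_of_nonneg_right h2 (Real.exp_pos _).le

theorem iPC : StPc := by
  intro K hK
  have hs := pc_summable hK
  have hsn : ∀ t : ℝ, Summable fun k : ℕ => ‖(Real.exp (-((k : ℝ) / K)) : ℂ) *
      (k : ℂ) ^ (-(1 / 2 + t * Complex.I))‖ := fun t => by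
    simp only [pc_norm]
    exact hs
  refine ⟨?_, ?_, pc_sumC hK, hs, pc_tsum hK⟩
  · unfold P
    refine continuous_tsum (u := fun k : ℕ => pc_f K (k : ℝ)) (fun k => ?_) hs fun k t =>
      (pc_norm K t k).le
    rcases Nat.eq_zero_or_pos k with rfl | hk
    · have : (fun t : ℝ => (Real.exp (-(((0 : ℕ) : ℝ) / K)) : ℂ) *
          ((0 : ℕ) : ℂ) ^ (-(1 / 2 + t * Complex.I))) = fun _ => 0 := by
        funext t
        exact pc_term0 K t
      rw [this]
      exact continuous_const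
    · refine continuous_const.mul ?_
      have hk' : (k : ℂ) ≠ 0 := by
        exact_mod_cast hk.ne'
      exact Continuous.const_cpow (by fun_prop) (Or.inl hk')
  · intro t
    unfold P
    refine (norm_tsum_le_tsum_norm (hsn t)).trans ?_
    simp only [pc_norm]
    exact pc_tsum hK

end Pool.Agent.Work.MP_56b8f5_nt.EM
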