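import Pool.Agent.Work.MP_56b8f5_nt.EM.Stmts

/-!
MP_56b8f5_nt, block EM, item POLY: the polynomial integral.
-/

open MeasureTheory Set Filter Topology

noncomputable section

namespace Pool.Agent.Work.MP_56b8f5_nt.EM

/-- Integral of a polynomial, given by its list of coefficients. -/
theorem poly_int (n : ℕ) (l : List ℝ) (A : ℝ) :
    ∫ x in (0 : ℝ)..A, ∑ k ∈ Finset.range n, l.getD k 0 * x ^ k =
      ∑ k ∈ Finset.range n, l.getD k 0 * (A ^ (k + 1) / (k + 1)) := by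
  rw [intervalIntegral.integral_finsetSum]
  · refine Finset.sum_congr rfl (fun k _ => ?_)
    rw [intervalIntegral.integral_const_mul, integral_pow]
    simp
  · intro k _
    exact (by fun_prop : Continuous fun x : ℝ => l.getD k 0 * x ^ k).intervalIntegrable _ _

/-- Level `a`. -/
theorem poly_a (P Q A : ℝ) :
    ∫ a in (0 : ℝ)..A, a * (P - a) * (Q - a) =
      P * Q * A ^ 2 / 2 - (P + Q) * A ^ 3 / 3 + A ^ 4 / 4 := by
  have h := poly_int 4 [0, P * Q, -(P + Q), 1] A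
  simp only [Finset.sum_range_succ, Finset.sum_range_zero, List.getD_cons_zero,
    List.getD_cons_succ] at h
  norm_num at h
  rw [intervalIntegral.integral_congr (g := fun x : ℝ => P * Q * x + (-Q + -P) * x ^ 2 + x ^ 3)
    (fun x _ => by ring)]
  rw [h]
  ring

/-- Levels `b` and `c`. -/
theorem poly_b (B g0 g1 g2 g3 g4 : ℝ) :
    ∫ x in (0 : ℝ)..B, x * (B - x) * (g0 + g1 * x + g2 * x ^ 2 + g3 * x ^ 3 + g4 * x ^ 4) =
      g0 * B ^ 3 / 6 + g1 * B ^ 4 / 12 + g2 * B ^ 5 / 20 + g3 * B ^ 6 / 30 + g4 * B ^ 7 / 42 := by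
  have h := poly_int 7 [0, B * g0, B * g1 - g0, B * g2 - g1, B * g3 - g2, B * g4 - g3, -g4] B
  have e : ∀ x : ℝ, x * (B - x) * (g0 + g1 * x + g2 * x ^ 2 + g3 * x ^ 3 + g4 * x ^ 4) =
      ∑ k ∈ Finset.range 7, [0, B * g0, B * g1 - g0, B * g2 - g1, B * g3 - g2, B * g4 - g3,
        -g4].getD k 0 * x ^ k := by
    intro x
    simp only [Finset.sum_range_succ, Finset.sum_range_zero, List.getD_cons_zero,
      List.getD_cons_succ]
    ring
  rw [intervalIntegral.integral_congr (fun x _ => e x), h]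
  simp only [Finset.sum_range_succ, Finset.sum_range_zero, List.getD_cons_zero,
    List.getD_cons_succ]
  push_cast
  ring


/-- Level `d`. -/
theorem poly_d (s : ℝ) :
    ∫ d in (0 : ℝ)..s, (((689 / 30240) * s ^ 10) * d ^ 1 + ((-1429 / 15120) * s ^ 9) * d ^ 2 + ((205 / 2016) * s ^ 8) * d ^ 3 + ((361 / 3780) * s ^ 7) * d ^ 4 + ((-77 / 270) * s ^ 6) * d ^ 5 + ((8 / 45) * s ^ 5) * d ^ 6 + ((7 / 135) * s ^ 4) * d ^ 7 + ((-43 / 378) * s ^ 3) * d ^ 8 + ((61 / 1120) * s ^ 2) * d ^ 9 + ((-61 / 5040) * s) * d ^ 10 + ((1 / 672)) * d ^ 11) =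
      17627 / 29937600 * s ^ 12 := by
  have h := poly_int 12 [0, (689 / 30240) * s ^ 10, (-1429 / 15120) * s ^ 9, (205 / 2016) * s ^ 8, (361 / 3780) * s ^ 7, (-77 / 270) * s ^ 6, (8 / 45) * s ^ 5, (7 / 135) * s ^ 4, (-43 / 378) * s ^ 3, (61 / 1120) * s ^ 2, (-61 / 5040) * s, (1 / 672)] s
  have e : ∀ d : ℝ, (((689 / 30240) * s ^ 10) * d ^ 1 + ((-1429 / 15120) * s ^ 9) * d ^ 2 + ((205 / 2016) * s ^ 8) * d ^ 3 + ((361 / 3780) * s ^ 7) * d ^ 4 + ((-77 / 270) * s ^ 6) * d ^ 5 + ((8 / 45) * s ^ 5) * d ^ 6 + ((7 / 135) * s ^ 4) * d ^ 7 + ((-43 / 378) * s ^ 3) * d ^ 8 + ((61 / 1120) * s ^ 2) * d ^ 9 + ((-61 / 5040) * s) * d ^ 10 + ((1 / 672)) * d ^ 11) =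
      ∑ k ∈ Finset.range 12, [0, (689 / 30240) * s ^ 10, (-1429 / 15120) * s ^ 9, (205 / 2016) * s ^ 8, (361 / 3780) * s ^ 7, (-77 / 270) * s ^ 6, (8 / 45) * s ^ 5, (7 / 135) * s ^ 4, (-43 / 378) * s ^ 3, (61 / 1120) * s ^ 2, (-61 / 5040) * s, (1 / 672)].getD k 0 * d ^ k := by
    intro d
    simp only [Finset.sum_range_succ, Finset.sum_range_zero, List.getD_cons_zero,
      List.getD_cons_succ]
    ring
  rw [intervalIntegral.integral_congr (fun d _ => e d), h]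
  simp only [Finset.sum_range_succ, Finset.sum_range_zero, List.getD_cons_zero,
    List.getD_cons_succ]
  push_cast
  ring

theorem iPOLY : StPoly := by
  intro s _
  have ha : ∀ b c d : ℝ, ∫ a in (0 : ℝ)..(2 * s - b - c - d),
      a * b * c * d * (s - c - d) * (s - b - d) * (2 * s - a - b + c + d) *
        (2 * s - a - c + b + d) =
      (c * d * (s - c - d)) * (b * ((s - d) - b) * (((-1 / 4) * c ^ 4 + (2 / 3) * c ^ 3 * d + (4 / 3) * c ^ 3 * s + (7 / 2) * c ^ 2 * d ^ 2 + (-2) * c ^ 2 * d * s + (-2) * c ^ 2 * s ^ 2 + (4) * c * d ^ 3 + (-8) * c * d ^ 2 * s + (17 / 12) * d ^ 4 + (-14 / 3) * d ^ 3 * s + (2) * d ^ 2 * s ^ 2 + (8 / 3) * d * s ^ 3 + (4 / 3) * s ^ 4) + ((1) * c ^ 3 + (6) * c ^ 2 * d + (-4) * c ^ 2 * s + (9) * c * d ^ 2 + (-12) * c * d * s + (4) * c * s ^ 2 + (4) * d ^ 3 + (-8) * d ^ 2 * s) * b + ((5 / 2) * c ^ 2 + (6) * c * d + (-4) * c * s + (7 / 2) * d ^ 2 + (-2)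 * d * s + (-2) * s ^ 2) * b ^ 2 +
        ((1) * c + (2 / 3) * d + (4 / 3) * s) * b ^ 3 + ((-1 / 4)) * b ^ 4)) := by
    intro b c d
    have e : ∀ a : ℝ, a * b * c * d * (s - c - d) * (s - b - d) * (2 * s - a - b + c + d) *
        (2 * s - a - c + b + d) = (b * c * d * (s - c - d) * (s - b - d)) *
        (a * ((2 * s - b + c + d) - a) * ((2 * s - c + b + d) - a)) := fun a => by ring
    rw [intervalIntegral.integral_congr (fun a _ => e a), intervalIntegral.integral_const_mul,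
      poly_a]
    ring
  have hb : ∀ c d : ℝ, ∫ b in (0 : ℝ)..(s - d), ∫ a in (0 : ℝ)..(2 * s - b - c - d),
      a * b * c * d * (s - c - d) * (s - b - d) * (2 * s - a - b + c + d) *
        (2 * s - a - c + b + d) =
      d * (c * ((s - d) - c) * (((-25 / 504) * d ^ 7 + (119 / 360) * d ^ 6 * s + (-2 / 3) * d ^ 5 * s ^ 2 + (1 / 18) * d ^ 4 * s ^ 3 + (10 / 9) * d ^ 3 * s ^ 4 + (-11 / 12) * d ^ 2 * s ^ 5 + (-1 / 40) * d * s ^ 6 + (9 / 56) * s ^ 7) + ((-11 / 60) * d ^ 6 + (5 / 6) * d ^ 5 * s + (-2 / 3) * d ^ 4 * s ^ 2 + (-4 / 3) * d ^ 3 * s ^ 3 + (29 / 12) * d ^ 2 * s ^ 4 + (-37 / 30) * d * s ^ 5 + (1 / 6) * s ^ 6) * c + ((-5 / 24) * d ^ 5 + (3 / 8) * d ^ 4 * s + (2 / 3) * d ^ 3 * s ^ 2 + (-13 / 6) * d ^ 2 * s ^ 3 + (15 / 8) * d * s ^ 4 + (-13 / 24) * s ^ 5) * c ^ 2 +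
        ((-1 / 36) * d ^ 4 + (-2 / 9) * d ^ 3 * s + (5 / 6) * d ^ 2 * s ^ 2 + (-8 / 9) * d * s ^ 3 + (11 / 36) * s ^ 4) * c ^ 3 + ((1 / 24) * d ^ 3 + (-1 / 8) * d ^ 2 * s + (1 / 8) * d * s ^ 2 + (-1 / 24) * s ^ 3) * c ^ 4)) := by
    intro c d
    rw [intervalIntegral.integral_congr (fun b _ => ha b c d),
      intervalIntegral.integral_const_mul, poly_b]
    ring
  have hc : ∀ d : ℝ, ∫ c in (0 : ℝ)..(s - d), ∫ b in (0 : ℝ)..(s - d),
      ∫ a in (0 : ℝ)..(2 * s - b - c - d),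
      a * b * c * d * (s - c - d) * (s - b - d) * (2 * s - a - b + c + d) *
        (2 * s - a - c + b + d) =
      ((689 / 30240) * s ^ 10) * d ^ 1 + ((-1429 / 15120) * s ^ 9) * d ^ 2 + ((205 / 2016) * s ^ 8) * d ^ 3 + ((361 / 3780) * s ^ 7) * d ^ 4 + ((-77 / 270) * s ^ 6) * d ^ 5 + ((8 / 45) * s ^ 5) * d ^ 6 + ((7 / 135) * s ^ 4) * d ^ 7 + ((-43 / 378) * s ^ 3) * d ^ 8 + ((61 / 1120) * s ^ 2) * d ^ 9 + ((-61 / 5040) * s) * d ^ 10 + ((1 / 672)) * d ^ 11 := by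
    intro d
    rw [intervalIntegral.integral_congr (fun c _ => hb c d),
      intervalIntegral.integral_const_mul, poly_b]
    ring
  rw [intervalIntegral.integral_congr (fun d _ => hc d), poly_d]

end Pool.Agent.Work.MP_56b8f5_nt.EM
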