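import Pool.Agent.Work.MP_56b8f5_nt.EM.Stmts

set_option autoImplicit false

open MeasureTheory Set Filter Topology

namespace Pool.Agent.Work.MP_56b8f5_nt.EM

namespace Prog

/-- difference of two terms of a block -/
lemma telescope (g : ℕ → ℂ) (a n i j : ℕ) (hi : i < n) (hj : j < n) :
    ‖g (a + i) - g (a + j)‖ ≤ ∑ l ∈ Finset.range n, ‖g (a + l + 1) - g (a + l)‖ := by
  have main : ∀ i j : ℕ, i ≤ j → j < n →
      ‖g (a + j) - g (a + i)‖ ≤ ∑ l ∈ Finset.range n, ‖g (a + l + 1) - g (a + l)‖ := by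
    intro i j hij hj
    have h1 : g (a + j) - g (a + i) =
        ∑ l ∈ Finset.Ico i j, (g (a + (l + 1)) - g (a + l)) := by
      rw [Finset.sum_Ico_sub (fun l => g (a + l)) hij]
    rw [h1]
    refine (norm_sum_le _ _).trans ?_
    refine Finset.sum_le_sum_of_subset_of_nonneg ?_ (fun _ _ _ => norm_nonneg _)
    intro l hl
    rw [Finset.mem_Ico] at hl
    rw [Finset.mem_range]
    omega
  rcases le_total i j with h | h
  · rw [norm_sub_rev]
    exact main i j h hj
  · exact main j i h hi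

end Prog

open Prog in
theorem iPROG : StProg := by
  intro g hg hv D' β hβ
  have hD : 0 < D' := lt_of_le_of_lt (Nat.zero_le _) hβ
  have : NeZero D' := ⟨hD.ne'⟩
  have hD0 : (D' : ℂ) ≠ 0 := by exact_mod_cast hD.ne'
  have hDr : (0 : ℝ) < D' := by exact_mod_cast hD
  have hgs : Summable g := hg.of_norm
  -- blocks
  obtain ⟨e, hev⟩ : ∃ e : (ℕ × Fin D') ≃ ℕ, ∀ p : ℕ × Fin D', e p = p.1 * D' + (p.2 : ℕ) :=
    ⟨(Nat.divModEquiv D').symm, fun p => by rw [Nat.divModEquiv_symm_apply]⟩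
  have s1 : Summable (fun p : ℕ × Fin D' => g (e p)) := (e.summable_iff).mpr hgs
  have t1 : ∑' b, g b = ∑' k : ℕ, ∑ j : Fin D', g (k * D' + j) := by
    rw [← e.tsum_eq g, s1.tsum_prod]
    refine tsum_congr fun k => ?_
    rw [tsum_fintype]
    exact Finset.sum_congr rfl fun j _ => by rw [hev]
  obtain ⟨f2, hf2⟩ : ∃ f2 : ℕ → ℂ, ∀ b : ℕ, f2 b = if b % D' = β then g b else 0 := ⟨_, fun _ => rfl⟩
  have hs2 : Summable f2 := by
    refine Summable.of_norm_bounded hg ?_
    intro b
    rw [hf2]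
    split_ifs
    · exact le_rfl
    · simp
  have s2 : Summable (fun p : ℕ × Fin D' => f2 (e p)) := (e.summable_iff).mpr hs2
  have t2 : ∑' b : ℕ, (if b % D' = β then g b else 0) = ∑' k : ℕ, g (k * D' + β) := by
    rw [← tsum_congr hf2, ← e.tsum_eq f2, s2.tsum_prod]
    refine tsum_congr fun k => ?_
    rw [tsum_fintype, Finset.sum_eq_single (⟨β, hβ⟩ : Fin D')]
    · rw [hev, hf2]
      simp only
      rw [if_pos]
      rw [Nat.mul_comm, Nat.mul_add_mod, Nat.mod_eq_of_lt hβ]
    · intro j _ hj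
      rw [hev, hf2]
      simp only
      rw [if_neg]
      rw [Nat.mul_comm, Nat.mul_add_mod, Nat.mod_eq_of_lt j.2]
      intro h
      exact hj (Fin.ext h)
    · intro h
      exact absurd (Finset.mem_univ _) h
  have sk1 : Summable (fun k : ℕ => ∑ j : Fin D', g (k * D' + j)) := by
    have h6 : (fun k : ℕ => ∑' c : Fin D', g (e (k, c))) =
        fun k : ℕ => ∑ j : Fin D', g (k * D' + j) := by
      funext k
      rw [tsum_fintype]
      exact Finset.sum_congr rfl fun j _ => by rw [hev]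
    rw [← h6]
    exact s1.prod
  have sk2 : Summable (fun k : ℕ => g (k * D' + β)) := by
    have hinj : Function.Injective (fun k : ℕ => k * D' + β) := by
      intro a b h
      simp only [add_left_inj] at h
      exact Nat.eq_of_mul_eq_mul_right hD h
    exact hgs.comp_injective hinj
  have sv : Summable (fun p : ℕ × Fin D' => ‖g (e p + 1) - g (e p)‖) := (e.summable_iff).mpr hv
  have tv : ∑' b, ‖g (b + 1) - g b‖ =
      ∑' k : ℕ, ∑ j : Fin D', ‖g (k * D' + j + 1) - g (k * D' + j)‖ := by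
    rw [← e.tsum_eq (fun b => ‖g (b + 1) - g b‖), sv.tsum_prod]
    refine tsum_congr fun k => ?_
    rw [tsum_fintype]
    exact Finset.sum_congr rfl fun j _ => by rw [hev]
  have skv : Summable (fun k : ℕ => ∑ j : Fin D', ‖g (k * D' + j + 1) - g (k * D' + j)‖) := by
    have h7 : (fun k : ℕ => ∑' c : Fin D', ‖g (e (k, c) + 1) - g (e (k, c))‖) =
        fun k : ℕ => ∑ j : Fin D', ‖g (k * D' + j + 1) - g (k * D' + j)‖ := by
      funext k
      rw [tsum_fintype]
      exact Finset.sum_congr rfl fun j _ => by rw [hev]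
    rw [← h7]
    exact sv.prod
  rw [t1, t2, tv, ← tsum_mul_left, ← sk2.tsum_sub (sk1.mul_left _)]
  refine tsum_of_norm_bounded skv.hasSum ?_
  intro k
  have h1 : g (k * D' + β) - 1 / (D' : ℂ) * ∑ j : Fin D', g (k * D' + j) =
      1 / (D' : ℂ) * ∑ j : Fin D', (g (k * D' + β) - g (k * D' + j)) := by
    rw [Finset.sum_sub_distrib, Finset.sum_const, Finset.card_univ, Fintype.card_fin, mul_sub]
    congr 1
    rw [nsmul_eq_mul]
    field_simp
  rw [h1, norm_mul]
  have h2 : ‖∑ j : Fin D', (g (k * D' + β) - g (k * D' + j))‖ ≤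
      ∑ _j : Fin D', ∑ l : Fin D', ‖g (k * D' + l + 1) - g (k * D' + l)‖ := by
    refine (norm_sum_le _ _).trans (Finset.sum_le_sum fun j _ => ?_)
    have := telescope g (k * D') D' β j hβ j.2
    rw [Finset.sum_range] at this
    exact this
  rw [Finset.sum_const, Finset.card_univ, Fintype.card_fin, nsmul_eq_mul] at h2
  have h3 : ‖(1 / (D' : ℂ))‖ = 1 / (D' : ℝ) := by
    rw [norm_div, norm_one, Complex.norm_natCast]
  rw [h3]
  calc 1 / (D' : ℝ) * ‖∑ j : Fin D', (g (k * D' + β) - g (k * D' + j))‖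
      ≤ 1 / (D' : ℝ) * (D' * ∑ l : Fin D', ‖g (k * D' + l + 1) - g (k * D' + l)‖) := by
        gcongr
    _ = ∑ l : Fin D', ‖g (k * D' + l + 1) - g (k * D' + l)‖ := by
        field_simp

end Pool.Agent.Work.MP_56b8f5_nt.EM
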