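import Pool.Agent.Work.MP_56b8f5_nt.EM.Stmts

/-!
MP_56b8f5_nt, block EM, item REM: the product of the remainders.
-/

open MeasureTheory Set Filter Topology

noncomputable section

namespace Pool.Agent.Work.MP_56b8f5_nt.EM

private lemma rem_summable (C : ℝ) :
    Summable (fun p : Nat.Primes => C / ((p : ℕ) : ℝ) ^ 2) := by
  have h : Summable (fun p : Nat.Primes => ((p : ℕ) : ℝ) ^ (-2 : ℝ)) :=
    Nat.Primes.summable_rpow.2 (by norm_num)
  have h2 := h.mul_left C
  refine h2.congr fun p => ?_
  have hp : (0 : ℝ) ≤ ((p : ℕ) : ℝ) := Nat.cast_nonneg _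
  rw [Real.rpow_neg hp, div_eq_mul_inv]
  norm_num

private lemma rem_path (lam : Fin 5 → ℝ) (hlam : ∀ i, 0 < lam i) :
    Tendsto (fun L : ℝ => fun i => lam i / L) atTop (𝓝[{s : Fin 5 → ℝ | ∀ i, 0 ≤ s i}] 0) := by
  rw [tendsto_nhdsWithin_iff]
  refine ⟨?_, ?_⟩
  · rw [tendsto_pi_nhds]
    intro i
    exact tendsto_const_nhds.div_atTop tendsto_id
  · filter_upwards [eventually_gt_atTop (0 : ℝ)] with L hL i
    exact (div_pos (hlam i) hL).le

theorem iREM (h1 : StLoc1) (h2 : StLoc2) (h3 : StLoc3) : StRem := by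
  obtain ⟨C, hC, hb⟩ := h1
  intro lam hlam
  have hnn : ∀ L : ℝ, 0 < L → ∀ i, 0 ≤ lam i / L := fun L hL i => (div_pos (hlam i) hL).le
  refine ⟨?_, fun L hL => ?_⟩
  · have key := tendsto_tprod_one_add_of_dominated_convergence (𝓕 := (atTop : Filter ℝ))
      (f := fun (L : ℝ) (p : Nat.Primes) =>
        Sp p (fun i => lam i / L) * Zf p (fun i => lam i / L) - 1)
      (g := fun p : Nat.Primes => a4f p - 1)
      (bound := fun p : Nat.Primes => C / ((p : ℕ) : ℝ) ^ 2) (rem_summable C)
      (fun p => by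
        have h := (h2 p).comp (rem_path lam hlam)
        rw [h3 p] at h
        exact h.sub_const 1)
      (by
        filter_upwards [eventually_gt_atTop (0 : ℝ)] with L hL p
        rw [Real.norm_eq_abs]
        exact (hb p _ (hnn L hL)).2.2.2)
    simpa [a4] using key
  · have hs : Summable (fun p : Nat.Primes =>
        ‖Sp p (fun i => lam i / L) * Zf p (fun i => lam i / L) - 1‖) := by
      refine Summable.of_nonneg_of_le (fun p => norm_nonneg _) (fun p => ?_) (rem_summable C)
      rw [Real.norm_eq_abs]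
      exact (hb p _ (hnn L hL)).2.2.2
    have := multipliable_one_add_of_summable hs
    simpa using this

end Pool.Agent.Work.MP_56b8f5_nt.EM
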