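import Pool.Agent.Work.MP_56b8f5_nt.EM.Stmts

/-!
MP_56b8f5_nt, block EM, item REO: reordering of the near pairs.
-/

open MeasureTheory Set Filter Topology

noncomputable section

namespace Pool.Agent.Work.MP_56b8f5_nt.EM

/-- Chinese remainder theorem in the form used here. -/
theorem reo_crt (n m : ℕ) (hn : 0 < n) (hm : 0 < m) (hco : n.Coprime m) (r : ℤ) :
    ∃ β : ℕ, β < n * m ∧ ∀ b : ℕ, (m ∣ b ∧ (n : ℤ) ∣ (b : ℤ) + r) ↔ b % (n * m) = β := by
  have hn0 : (n : ℤ) ≠ 0 := by exact_mod_cast hn.ne'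
  set c : ℕ := ((-r) % (n : ℤ)).toNat with hc
  have hcc : ((c : ℕ) : ℤ) = (-r) % (n : ℤ) := by
    rw [hc]
    exact Int.toNat_of_nonneg (Int.emod_nonneg _ hn0)
  have hmod : ∀ b : ℕ, ((n : ℤ) ∣ (b : ℤ) + r) ↔ b ≡ c [MOD n] := by
    intro b
    rw [← Int.natCast_modEq_iff, hcc]
    constructor
    · intro h
      have h1 : (b : ℤ) ≡ -r [ZMOD (n : ℤ)] := by
        refine (Int.modEq_iff_dvd.2 ?_).symm
        simpa using h
      exact h1.trans (Int.mod_modEq _ _).symm
    · intro h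
      have h1 : (b : ℤ) ≡ -r [ZMOD (n : ℤ)] := h.trans (Int.mod_modEq _ _)
      have h2 := Int.modEq_iff_dvd.1 h1.symm
      simpa using h2
  refine ⟨(Nat.chineseRemainder hco c 0 : ℕ), Nat.chineseRemainder_lt_mul hco c 0 hn.ne' hm.ne', ?_⟩
  intro b
  have hprop := (Nat.chineseRemainder hco c 0).2
  have hlt := Nat.chineseRemainder_lt_mul hco c 0 hn.ne' hm.ne'
  constructor
  · rintro ⟨h1, h2⟩
    have e1 : b ≡ c [MOD n] := (hmod b).1 h2
    have e2 : b ≡ 0 [MOD m] := (Nat.modEq_zero_iff_dvd).2 h1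
    have e3 := Nat.chineseRemainder_modEq_unique hco e1 e2
    have e4 : b % (n * m) = (Nat.chineseRemainder hco c 0 : ℕ) % (n * m) := e3
    rw [e4, Nat.mod_eq_of_lt hlt]
  · intro h
    have e3 : b ≡ (Nat.chineseRemainder hco c 0 : ℕ) [MOD (n * m)] := by
      show b % (n * m) = (Nat.chineseRemainder hco c 0 : ℕ) % (n * m)
      rw [h, Nat.mod_eq_of_lt hlt]
    have e1 : b ≡ c [MOD n] := (e3.of_mul_right m).trans hprop.1
    have e2 : b ≡ 0 [MOD m] := (e3.of_mul_left n).trans hprop.2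
    exact ⟨(Nat.modEq_zero_iff_dvd).1 e2, (hmod b).2 e1⟩

/-- The change of variables. -/
theorem reo_inj (n m : ℕ) (hn : 0 < n) (hm : 0 < m) :
    Function.Injective (fun p : ℕ × ℕ => (((n : ℤ) * p.1 - m * p.2 : ℤ), (m * p.2 : ℕ))) := by
  rintro ⟨a, b⟩ ⟨a', b'⟩ h
  simp only [Prod.mk.injEq] at h
  obtain ⟨h1, h2⟩ := h
  have hb : b = b' := Nat.eq_of_mul_eq_mul_left hm h2
  subst hb
  have h3 : (n : ℤ) * a = n * a' := by linarith
  have hn0 : (n : ℤ) ≠ 0 := by exact_mod_cast hn.ne'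
  have h4 : (a : ℤ) = a' := mul_left_cancel₀ hn0 h3
  have h5 : a = a' := by exact_mod_cast h4
  rw [h5]

theorem iREO (hW : StW) (hS : StSum) : StReo := by
  intro w hw K T hK hT n m hn hm hco
  choose β hβ using fun r : ℤ => reo_crt n m hn hm hco r
  refine ⟨β, fun r => (hβ r).1, ?_, ?_⟩
  · have h := ((hβ 0).2 0).1 ⟨dvd_zero _, by simp⟩
    rw [Nat.zero_mod] at h
    exact h.symm
  · have hn1 : (1 : ℝ) ≤ n := by exact_mod_cast hn
    have hm1 : (1 : ℝ) ≤ m := by exact_mod_cast hm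
    have hA : (1 : ℝ) ≤ n * K := by nlinarith
    have hB : (1 : ℝ) ≤ m * K := by nlinarith
    have hsum := hS w hw (n * K) (m * K) T hA hB hT
    set g : ℤ × ℕ → ℂ := fun p =>
      if p.2 % (n * m) = β p.1 then fr w T (n * K) (m * K) p.1 p.2 else 0 with hg
    have hgs : Summable g := by
      refine Summable.of_norm_bounded hsum ?_
      rintro ⟨r, b⟩
      simp only [hg]
      split_ifs
      · exact le_refl _
      · simp
    have hr : ∑' r : ℤ, ∑' b : ℕ, (if b % (n * m) = β r then fr w T (n * K) (m * K) r b else 0) =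
        ∑' p : ℤ × ℕ, g p := by
      rw [hgs.tsum_prod]
    rw [hr, ← (reo_inj n m hn hm).tsum_eq (f := g)]
    · refine tsum_congr ?_
      rintro ⟨k', k⟩
      have hcond : (m * k) % (n * m) = β ((n : ℤ) * k' - m * k) := by
        refine ((hβ ((n : ℤ) * k' - m * k)).2 (m * k)).1 ⟨dvd_mul_right _ _, ?_⟩
        refine ⟨(k' : ℤ), ?_⟩
        push_cast
        ring
      simp only [hg]
      rw [if_pos hcond, fr]
      have e1 : (((m * k : ℕ) : ℝ)) + (((n : ℤ) * k' - m * k : ℤ) : ℝ) = (n : ℝ) * k' := by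
        push_cast
        ring
      have e2 : (((m * k : ℕ) : ℝ)) = (m : ℝ) * k := by push_cast; ring
      have e3 : (((m * k : ℕ) : ℤ)) = (m : ℤ) * k := by push_cast; ring
      rw [e1, e2, e3]
    · rintro ⟨r, b⟩ hrb
      have h1 : g (r, b) ≠ 0 := hrb
      simp only [hg] at h1
      have hc : b % (n * m) = β r := by
        by_contra hne
        exact h1 (if_neg hne)
      rw [if_pos hc, fr] at h1
      have h2 : 2 * |r| ≤ (b : ℤ) := by
        by_contra hne
        exact h1 (if_neg hne)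
      obtain ⟨⟨k, hk⟩, ⟨j, hj⟩⟩ := ((hβ r).2 b).2 hc
      have hn0 : (0 : ℤ) < n := by exact_mod_cast hn
      have hnonneg : 0 ≤ (b : ℤ) + r := by
        have := neg_abs_le r
        have h3 := abs_nonneg r
        linarith
      have hj0 : 0 ≤ j := by
        by_contra hneg
        push Not at hneg
        rw [hj] at hnonneg
        nlinarith
      refine ⟨(j.toNat, k), ?_⟩
      have hj' : ((j.toNat : ℕ) : ℤ) = j := Int.toNat_of_nonneg hj0
      have hb' : (m : ℤ) * k = b := by rw [hk]; push_cast; ring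
      simp only [Prod.mk.injEq]
      refine ⟨?_, hk.symm⟩
      rw [hj', hb', ← hj]
      ring

end Pool.Agent.Work.MP_56b8f5_nt.EM
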