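import Pool.Agent.Work.MP_56b8f5_nt.EM.Stmts

/-!
MP_56b8f5_nt (eighth moment of the Riemann zeta function), block EM: the twisted second moment of `P`.
-/

open MeasureTheory Set Filter Topology

noncomputable section

namespace Pool.Agent.Work.MP_56b8f5_nt.EM

/-- Diagonal terms. -/
theorem sec_fr0 (hW : StW) {w : ℝ → ℝ} (hw : IsW w) (T A B : ℝ) (b : ℕ) :
    fr w T A B 0 b = ((W0 w * (Real.exp (-((b : ℝ) / A) - b / B) / b) : ℝ) : ℂ) := by
  obtain ⟨-, -, -, h0, -, -⟩ := hW w hw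
  unfold fr F
  have h1 : (2 * |(0 : ℤ)| ≤ (b : ℤ)) := by simp
  rw [if_pos h1]
  simp only [Int.cast_zero, add_zero]
  rw [Real.sqrt_mul_self (Nat.cast_nonneg b)]
  rcases Nat.eq_zero_or_pos b with hb | hb
  · subst hb
    simp
  · have hb' : (b : ℝ) ≠ 0 := by positivity
    rw [div_self hb', Real.log_one, mul_zero, h0]
    push_cast
    ring

/-- Sum over the nonzero integers of an even function. -/
theorem sec_int {φ : ℕ → ℝ} (h0 : φ 0 = 0) {S : ℝ} (h : HasSum φ S) :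
    HasSum (fun r : ℤ => φ r.natAbs) (S + S) := by
  refine HasSum.of_nat_of_neg_add_one ?_ ?_
  · simpa using h
  · have h1 := (hasSum_nat_add_iff' 1).2 h
    simp only [Finset.sum_range_one, h0, sub_zero] at h1
    have h2 : (fun n : ℕ => φ ((-((n : ℤ) + 1)).natAbs)) = fun n => φ (n + 1) := by
      funext n
      congr 1
    rw [h2]
    exact h1

/-- Sum over a residue class zero. -/
theorem sec_res {D : ℕ} (hD : 0 < D) (h : ℕ → ℝ) :
    ∑' b : ℕ, (if b % D = 0 then h b else 0) = ∑' j : ℕ, h (D * j) := by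
  have hinj : Function.Injective (fun j : ℕ => D * j) := fun a b hab =>
    Nat.eq_of_mul_eq_mul_left hD hab
  have := hinj.tsum_eq (f := fun b => if b % D = 0 then h b else 0) (by
    intro b hb
    have hb' : b % D = 0 := by
      by_contra hne
      exact hb (by simp [hne])
    exact ⟨b / D, Nat.mul_div_cancel' (Nat.dvd_of_mod_eq_zero hb')⟩)
  rw [← this]
  refine tsum_congr fun j => ?_
  simp

/-- The tail of the sum of inverse squares. -/
theorem sec_sq {T : ℝ} (hT : 0 < T) :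
    (Summable fun b : ℕ => if T < (b : ℝ) then T / (b : ℝ) ^ 2 else 0) ∧
    ∑' b : ℕ, (if T < (b : ℝ) then T / (b : ℝ) ^ 2 else 0) ≤ 2 := by
  have h0 : ∀ b : ℕ, 0 ≤ (if T < (b : ℝ) then T / (b : ℝ) ^ 2 else 0) := by
    intro b
    split_ifs
    · positivity
    · exact le_rfl
  have h1 : ∀ N : ℕ, ∑ b ∈ Finset.range N, (if T < (b : ℝ) then T / (b : ℝ) ^ 2 else 0) ≤ 2 := by
    intro N
    rw [← Finset.sum_filter]
    have h2 : (Finset.range N).filter (fun b : ℕ => T < (b : ℝ)) = Finset.Ioo ⌊T⌋₊ N := by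
      ext b
      simp only [Finset.mem_filter, Finset.mem_range, Finset.mem_Ioo]
      rw [Nat.floor_lt hT.le]
      exact and_comm
    rw [h2]
    have h3 := sum_Ioo_inv_sq_le (α := ℝ) ⌊T⌋₊ N
    have h4 : ∑ b ∈ Finset.Ioo ⌊T⌋₊ N, T / (b : ℝ) ^ 2 = T * ∑ b ∈ Finset.Ioo ⌊T⌋₊ N, ((b : ℝ) ^ 2)⁻¹ := by
      rw [Finset.mul_sum]
      refine Finset.sum_congr rfl fun b _ => ?_
      rw [div_eq_mul_inv]
    rw [h4]
    have h5 : T < (⌊T⌋₊ : ℝ) + 1 := Nat.lt_floor_add_one T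
    calc T * ∑ b ∈ Finset.Ioo ⌊T⌋₊ N, ((b : ℝ) ^ 2)⁻¹ ≤ T * (2 / ((⌊T⌋₊ : ℝ) + 1)) :=
          mul_le_mul_of_nonneg_left h3 hT.le
      _ ≤ T * (2 / T) := by
          refine mul_le_mul_of_nonneg_left ?_ hT.le
          exact div_le_div_of_nonneg_left (by norm_num) hT h5.le
      _ = 2 := by field_simp
  exact ⟨summable_of_sum_range_le h0 h1, Real.tsum_le_of_sum_range_le h0 h1⟩

/-- The geometric sum. -/
theorem sec_geo {B : ℝ} (hB : 1 ≤ B) :
    (Summable fun b : ℕ => Real.exp (-((b : ℝ) / B))) ∧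
    ∑' b : ℕ, Real.exp (-((b : ℝ) / B)) ≤ 2 * B := by
  have hB0 : 0 < B := by linarith
  have h1 : ∀ b : ℕ, Real.exp (-((b : ℝ) / B)) = Real.exp (-(1 / B)) ^ b := by
    intro b
    rw [← Real.exp_nat_mul]
    congr 1
    ring
  have h2 : Real.exp (-(1 / B)) < 1 := by
    rw [Real.exp_lt_one_iff]
    have : 0 < 1 / B := by positivity
    linarith
  have h3 : 0 ≤ Real.exp (-(1 / B)) := (Real.exp_pos _).le
  simp_rw [h1]
  refine ⟨summable_geometric_of_lt_one h3 h2, ?_⟩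
  rw [tsum_geometric_of_lt_one h3 h2]
  have h4 : 1 / B + 1 ≤ Real.exp (1 / B) := Real.add_one_le_exp _
  have h5 : Real.exp (-(1 / B)) ≤ B / (B + 1) := by
    rw [Real.exp_neg]
    rw [inv_le_comm₀ (Real.exp_pos _) (by positivity)]
    calc (B / (B + 1))⁻¹ = 1 / B + 1 := by field_simp; ring
      _ ≤ _ := h4
  have h6 : 1 / (B + 1) ≤ 1 - Real.exp (-(1 / B)) := by
    have : 1 / (B + 1) = 1 - B / (B + 1) := by field_simp; ring
    rw [this]
    linarith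
  calc (1 - Real.exp (-(1 / B)))⁻¹ ≤ (1 / (B + 1))⁻¹ := inv_anti₀ (by positivity) h6
    _ = B + 1 := by simp
    _ ≤ 2 * B := by linarith

/-- The contribution of `r = 0`. -/
theorem sec_diag (hW : StW) {w : ℝ → ℝ} (hw : IsW w) {T K : ℝ} (hK : 0 < K) {n m : ℕ}
    (hn : 0 < n) (hm : 0 < m) :
    ∑' b : ℕ, (if b % (n * m) = 0 then fr w T (n * K) (m * K) 0 b else 0) =
    ((W0 w / ((n : ℝ) * m) * ∑' j : ℕ, (if 1 / 2 < (j : ℝ) then
      Real.exp (-((j : ℝ) / (K / ((n : ℝ) + m)))) / j else 0) : ℝ) : ℂ) := by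
  have hn' : (0 : ℝ) < n := by exact_mod_cast hn
  have hm' : (0 : ℝ) < m := by exact_mod_cast hm
  have h1 : ∀ b : ℕ, (if b % (n * m) = 0 then fr w T (n * K) (m * K) 0 b else 0) =
      (((if b % (n * m) = 0 then (fun b : ℕ => W0 w * (Real.exp (-((b : ℝ) / (n * K)) - b / (m * K)) / b)) b
        else 0) : ℝ) : ℂ) := by
    intro b
    split_ifs
    · exact sec_fr0 hW hw T _ _ b
    · simp
  rw [tsum_congr h1, ← Complex.ofReal_tsum, sec_res (Nat.mul_pos hn hm), ← tsum_mul_left]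
  congr 1
  refine tsum_congr fun j => ?_
  rcases Nat.eq_zero_or_pos j with hj | hj
  · subst hj
    simp
  · have hj' : (1 : ℝ) ≤ j := by exact_mod_cast hj
    have hj0 : (0 : ℝ) < j := by linarith
    rw [if_pos (by linarith)]
    push_cast
    have e1 : -((n : ℝ) * m * j / (n * K)) - n * m * j / (m * K) = -((j : ℝ) / (K / ((n : ℝ) + m))) := by
      field_simp
      ring
    rw [e1]
    field_simp

/-- The tail of the diagonal. -/
theorem sec_tail (hW : StW) {w : ℝ → ℝ} (hw : IsW w) {T K : ℝ} (hK : 0 < K) {n m : ℕ}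
    (hn : 0 < n) (hm : 0 < m) (b : ℕ) :
    (if T < (b : ℝ) then fr w T (n * K) (m * K) 0 b else 0) =
    ((W0 w * (if T < (b : ℝ) then
      Real.exp (-((b : ℝ) / (K * ((n : ℝ) * m) / ((n : ℝ) + m)))) / b else 0) : ℝ) : ℂ) := by
  have hn' : (0 : ℝ) < n := by exact_mod_cast hn
  have hm' : (0 : ℝ) < m := by exact_mod_cast hm
  split_ifs
  · rw [sec_fr0 hW hw]
    have e1 : -((b : ℝ) / (n * K)) - b / (m * K) = -((b : ℝ) / (K * ((n : ℝ) * m) / ((n : ℝ) + m))) := by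
      field_simp
      ring
    rw [e1]
  · simp

/-- Sum over `r ≠ 0` of the variations. -/
theorem sec_var (hL : StLog) : ∃ C : ℝ, 0 ≤ C ∧ ∀ B T : ℝ, 1 ≤ B → 0 < T →
    (Summable fun r : ℤ => if r = 0 then 0 else Real.exp (-(2 * |(r : ℝ)| / B)) / (T * |(r : ℝ)|)) ∧
    ∑' r : ℤ, (if r = 0 then 0 else Real.exp (-(2 * |(r : ℝ)| / B)) / (T * |(r : ℝ)|)) ≤
      2 / T * (Real.log B + C) := by
  obtain ⟨C, hC, h⟩ := hL
  refine ⟨C, hC, fun B T hB hT => ?_⟩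
  obtain ⟨h1, h2⟩ := h (B / 2) (1 / 2) le_rfl (by linarith)
  have h3 := sec_int (φ := fun b : ℕ => if 1 / 2 < (b : ℝ) then Real.exp (-((b : ℝ) / (B / 2))) / b else 0)
    (by simp) h1.hasSum
  have h4 := h3.mul_left (1 / T)
  have h5 : (fun r : ℤ => 1 / T * (if 1 / 2 < ((r.natAbs : ℕ) : ℝ) then
      Real.exp (-(((r.natAbs : ℕ) : ℝ) / (B / 2))) / ((r.natAbs : ℕ) : ℝ) else 0)) =
      fun r : ℤ => if r = 0 then 0 else Real.exp (-(2 * |(r : ℝ)| / B)) / (T * |(r : ℝ)|) := by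
    funext r
    have e0 : ((r.natAbs : ℕ) : ℝ) = |(r : ℝ)| := by
      rw [Nat.cast_natAbs]; simp
    rw [e0]
    by_cases hr : r = 0
    · subst hr; simp
    · have h1r : (1 : ℝ) ≤ |(r : ℝ)| := by
        have := Int.one_le_abs hr
        exact_mod_cast this
      rw [if_neg hr, if_pos (by linarith)]
      have e1 : |(r : ℝ)| / (B / 2) = 2 * |(r : ℝ)| / B := by field_simp
      rw [e1]
      field_simp
  rw [h5] at h4
  refine ⟨h4.summable, ?_⟩
  rw [h4.tsum_eq]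
  have h6 : B / 2 / (1 / 2) = B := by ring
  rw [h6] at h2
  have h7 := (abs_le.1 h2).2
  set S := ∑' b : ℕ, (if 1 / 2 < (b : ℝ) then Real.exp (-((b : ℝ) / (B / 2))) / b else 0)
  have h8 : 1 / T * (S + S) = 2 / T * S := by ring
  rw [h8]
  exact mul_le_mul_of_nonneg_left (by linarith) (by positivity)

/-- Splitting off `r = 0` and passing from residue classes to full sums. -/
theorem sec_split (hP : StProg) (f : ℤ → ℕ → ℂ) (hf : Summable fun p : ℤ × ℕ => ‖f p.1 p.2‖)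
    (V : ℤ → ℝ) (hV : Summable fun r : ℤ => if r = 0 then 0 else V r)
    (h1 : ∀ r : ℤ, r ≠ 0 → Summable (fun b : ℕ => ‖f r (b + 1) - f r b‖) ∧
      ∑' b : ℕ, ‖f r (b + 1) - f r b‖ ≤ V r) (D : ℕ) (β : ℤ → ℕ) (hβ : ∀ r, β r < D)
    (hβ0 : β 0 = 0) :
    (∑' r : ℤ, ∑' b : ℕ, (if b % D = β r then f r b else 0) =
      ∑' b : ℕ, (if b % D = 0 then f 0 b else 0) +
        ∑' r : ℤ, (if r = 0 then 0 else ∑' b : ℕ, (if b % D = β r then f r b else 0))) ∧
    ‖∑' r : ℤ, (if r = 0 then 0 else ∑' b : ℕ, (if b % D = β r then f r b else 0)) -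
      (1 / (D : ℂ)) * ∑' b : ℕ, ∑' r : ℤ, (if r = 0 then 0 else f r b)‖ ≤
      ∑' r : ℤ, (if r = 0 then 0 else V r) ∧
    (Summable fun b : ℕ => ∑' r : ℤ, (if r = 0 then 0 else f r b)) ∧
    (Summable fun b : ℕ => ∑' r : ℤ, f r b) ∧
    (∀ b, ∑' r : ℤ, f r b = f 0 b + ∑' r : ℤ, (if r = 0 then 0 else f r b)) := by
  -- summability facts
  have hfr : ∀ r, Summable fun b : ℕ => ‖f r b‖ := fun r => hf.prod_factor r
  have hsum1 : Summable fun r : ℤ => ∑' b : ℕ, ‖f r b‖ := hf.prod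
  have hres : ∀ r, Summable fun b : ℕ => (if b % D = β r then f r b else 0) := by
    intro r
    refine Summable.of_norm_bounded (hfr r) fun b => ?_
    split_ifs
    · exact le_rfl
    · simp
  have hresn : ∀ r, ‖∑' b : ℕ, (if b % D = β r then f r b else 0)‖ ≤ ∑' b : ℕ, ‖f r b‖ := by
    intro r
    refine tsum_of_norm_bounded (hfr r).hasSum fun b => ?_
    split_ifs
    · exact le_rfl
    · simp
  have hG : Summable fun r : ℤ => ∑' b : ℕ, (if b % D = β r then f r b else 0) :=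
    Summable.of_norm_bounded hsum1 hresn
  have hH : Summable fun r : ℤ => ∑' b : ℕ, f r b :=
    Summable.of_norm_bounded hsum1 fun r => norm_tsum_le_tsum_norm (hfr r)
  -- the function with `r = 0` removed
  have hf0 : Summable fun p : ℤ × ℕ => (if p.1 = 0 then 0 else f p.1 p.2) := by
    refine Summable.of_norm_bounded hf fun p => ?_
    split_ifs
    · simp
    · exact le_rfl
  have hfc : Summable fun p : ℤ × ℕ => f p.1 p.2 := hf.of_norm
  have hG0 : Summable fun r : ℤ => (if r = 0 then 0 else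
      ∑' b : ℕ, (if b % D = β r then f r b else 0)) := by
    refine Summable.of_norm_bounded hsum1 fun r => ?_
    split_ifs
    · simp only [norm_zero]; exact tsum_nonneg fun _ => norm_nonneg _
    · exact hresn r
  have hH0 : Summable fun r : ℤ => (if r = 0 then 0 else ∑' b : ℕ, f r b) := by
    refine Summable.of_norm_bounded hsum1 fun r => ?_
    split_ifs
    · simp only [norm_zero]; exact tsum_nonneg fun _ => norm_nonneg _
    · exact norm_tsum_le_tsum_norm (hfr r)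
  have hcomm : ∑' b : ℕ, ∑' r : ℤ, (if r = 0 then 0 else f r b) =
      ∑' r : ℤ, (if r = 0 then 0 else ∑' b : ℕ, f r b) := by
    have h2 := Summable.tsum_comm (f := fun (r : ℤ) (b : ℕ) => if r = 0 then 0 else f r b) hf0
    rw [h2]
    refine tsum_congr fun r => ?_
    split_ifs
    · simp
    · rfl
  refine ⟨?_, ?_, ?_, ?_, ?_⟩
  · rw [hG.tsum_eq_add_tsum_ite 0, hβ0]
  · rw [hcomm, ← tsum_mul_left, ← hG0.tsum_sub (hH0.mul_left _)]
    refine tsum_of_norm_bounded hV.hasSum fun r => ?_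
    by_cases hr : r = 0
    · simp [hr]
    · simp only [hr, if_false]
      exact (hP (f r) (hfr r) (h1 r hr).1 D (β r) (hβ r)).trans (h1 r hr).2
  · exact hf0.prod_symm.prod
  · exact hfc.prod_symm.prod
  · intro b
    have h3 : Summable fun r : ℤ => f r b := hfc.prod_symm.prod_factor b
    exact h3.tsum_eq_add_tsum_ite 0

/-- The sum over `b`. -/
theorem sec_bsum {T A B CS CN W : ℝ} (hT : 1 ≤ T) (hB : 1 ≤ B) (hCS : 0 ≤ CS) (hCN : 0 ≤ CN)
    (E R g : ℕ → ℂ) (hE : Summable E) (hR : Summable R) (hg : ∀ b, R b = g b + E b)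
    (h1 : ∀ b : ℕ, ‖E b‖ ≤ CS * b / T ^ 2)
    (h2 : ∀ b : ℕ, 1 ≤ b → ‖R b‖ ≤
      CN * (T / (b : ℝ) ^ 2 + Real.exp (-((b : ℝ) / B)) * Real.sqrt A / T ^ 8))
    (s : ℕ → ℝ) (hs : ∀ b : ℕ, (if T < (b : ℝ) then g b else 0) = ((W * s b : ℝ) : ℂ)) :
    ‖∑' b : ℕ, E b + ((W * ∑' b : ℕ, s b : ℝ) : ℂ)‖ ≤
      2 * CS + CN * (2 + 2 * B * Real.sqrt A / T ^ 8) := by
  have hT0 : 0 < T := by linarith
  have hlow : Summable fun b : ℕ => (if T < (b : ℝ) then 0 else E b) := by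
    refine Summable.of_norm_bounded hE.norm fun b => ?_
    split_ifs
    · simp
    · exact le_rfl
  have hup : Summable fun b : ℕ => (if T < (b : ℝ) then R b else 0) := by
    refine Summable.of_norm_bounded hR.norm fun b => ?_
    split_ifs
    · exact le_rfl
    · simp
  have hgs : Summable g := by
    have : g = fun b => R b - E b := by
      funext b
      rw [hg b]; ring
    rw [this]
    exact hR.sub hE
  have hgu : Summable fun b : ℕ => (if T < (b : ℝ) then g b else 0) := by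
    refine Summable.of_norm_bounded hgs.norm fun b => ?_
    split_ifs
    · exact le_rfl
    · simp
  have hdec : ∑' b : ℕ, E b = ∑' b : ℕ, (if T < (b : ℝ) then 0 else E b) +
      (∑' b : ℕ, (if T < (b : ℝ) then R b else 0) - ∑' b : ℕ, (if T < (b : ℝ) then g b else 0)) := by
    rw [← hup.tsum_sub hgu, ← hlow.tsum_add (hup.sub hgu)]
    refine tsum_congr fun b => ?_
    split_ifs
    · rw [hg b]; ring
    · ring
  have hgsum : ∑' b : ℕ, (if T < (b : ℝ) then g b else 0) = ((W * ∑' b : ℕ, s b : ℝ) : ℂ) := by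
    rw [tsum_congr hs, ← Complex.ofReal_tsum, tsum_mul_left]
  have e1 : ∑' b : ℕ, E b + ((W * ∑' b : ℕ, s b : ℝ) : ℂ) =
      ∑' b : ℕ, (if T < (b : ℝ) then 0 else E b) + ∑' b : ℕ, (if T < (b : ℝ) then R b else 0) := by
    rw [hdec, hgsum]; ring
  rw [e1]
  -- the low part
  have hlowb : ‖∑' b : ℕ, (if T < (b : ℝ) then 0 else E b)‖ ≤ 2 * CS := by
    have h3 : ∑' b : ℕ, (if T < (b : ℝ) then 0 else E b) =
        ∑ b ∈ Finset.range (⌊T⌋₊ + 1), (if T < (b : ℝ) then 0 else E b) := by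
      refine tsum_eq_sum fun b hb => ?_
      have : T < (b : ℝ) := by
        rw [Finset.mem_range, not_lt] at hb
        rw [← Nat.floor_lt hT0.le]
        omega
      rw [if_pos this]
    rw [h3]
    have h4 : ∀ b ∈ Finset.range (⌊T⌋₊ + 1), ‖(if T < (b : ℝ) then 0 else E b)‖ ≤ CS / T := by
      intro b _
      split_ifs with hb
      · simp only [norm_zero]; positivity
      · rw [not_lt] at hb
        refine (h1 b).trans ?_
        calc CS * b / T ^ 2 ≤ CS * T / T ^ 2 := by gcongr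
          _ = CS / T := by field_simp
    refine (norm_sum_le_of_le _ h4).trans ?_
    rw [Finset.sum_const, Finset.card_range, nsmul_eq_mul]
    push_cast
    have h5 : (⌊T⌋₊ : ℝ) ≤ T := Nat.floor_le hT0.le
    calc ((⌊T⌋₊ : ℝ) + 1) * (CS / T) ≤ (T + T) * (CS / T) := by gcongr
      _ = 2 * CS := by field_simp; ring
  -- the high part
  have hhigh : ‖∑' b : ℕ, (if T < (b : ℝ) then R b else 0)‖ ≤ CN * (2 + 2 * B * Real.sqrt A / T ^ 8) := by
    obtain ⟨hq1, hq2⟩ := sec_sq hT0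
    obtain ⟨hp1, hp2⟩ := sec_geo hB
    have hsum : HasSum (fun b : ℕ => CN * ((if T < (b : ℝ) then T / (b : ℝ) ^ 2 else 0) +
        Real.exp (-((b : ℝ) / B)) * (Real.sqrt A / T ^ 8)))
        (CN * (∑' b : ℕ, (if T < (b : ℝ) then T / (b : ℝ) ^ 2 else 0) +
          (∑' b : ℕ, Real.exp (-((b : ℝ) / B))) * (Real.sqrt A / T ^ 8))) :=
      (hq1.hasSum.add (hp1.hasSum.mul_right _)).mul_left _
    refine (tsum_of_norm_bounded hsum fun b => ?_).trans ?_
    · split_ifs with hb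
      · have hb1 : 1 ≤ b := by
          rcases Nat.eq_zero_or_pos b with h0 | h0
          · subst h0; simp only [Nat.cast_zero] at hb; linarith
          · exact h0
        refine (h2 b hb1).trans (le_of_eq ?_)
        ring
      · simp only [norm_zero, zero_add]
        positivity
    · refine mul_le_mul_of_nonneg_left ?_ hCN
      have h6 : 0 ≤ Real.sqrt A / T ^ 8 := by positivity
      have h7 := mul_le_mul_of_nonneg_right hp2 h6
      have h8 : 2 * B * (Real.sqrt A / T ^ 8) = 2 * B * Real.sqrt A / T ^ 8 := by ring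
      rw [h8] at h7
      linarith
  exact (norm_add_le _ _).trans (by linarith)

/-- The final combination. -/
theorem sec_alg {W D S1 S2 l1 l2 l CF M M2 CL : ℝ} {I N Fa Off E : ℂ} (hD : 1 ≤ D)
    (hW0 : 0 ≤ W) (hW1 : W ≤ 1) (hI : I = ((Real.sqrt D : ℝ) : ℂ) * (N + Fa))
    (hFa : Real.sqrt D * ‖Fa‖ ≤ CF / Real.sqrt D)
    (hN : N = ((W / D * S1 : ℝ) : ℂ) + Off)
    (hOff : ‖Off - (1 / (D : ℂ)) * E‖ ≤ M)
    (hE : ‖E + ((W * S2 : ℝ) : ℂ)‖ ≤ M2)
    (hS1 : |S1 - l1| ≤ CL) (hS2 : |S2 - l2| ≤ CL) (hl : l1 - l2 = Real.log 2 + l) :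
    ‖I - ((W / Real.sqrt D * l : ℝ) : ℂ)‖ ≤ (CF + M2 + 2 * CL + 1) / Real.sqrt D + Real.sqrt D * M := by
  have hD0 : 0 < D := by linarith
  set q := Real.sqrt D with hq
  have hq0 : 0 < q := Real.sqrt_pos.2 hD0
  have hqq : q * q = D := Real.mul_self_sqrt hD0.le
  have hqc : (q : ℂ) ≠ 0 := by exact_mod_cast hq0.ne'
  have hDc : (D : ℂ) = (q : ℂ) * q := by rw [← hqq]; push_cast; ring
  have hlog2 : Real.log 2 ≤ 1 := by
    have := Real.log_le_sub_one_of_pos (show (0 : ℝ) < 2 by norm_num)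
    linarith
  have hlog20 : 0 ≤ Real.log 2 := Real.log_nonneg (by norm_num)
  have hid : I - ((W / q * l : ℝ) : ℂ) = (q : ℂ) * Fa + (q : ℂ) * (Off - (1 / (D : ℂ)) * E) +
      (1 / (q : ℂ)) * (E + ((W * S2 : ℝ) : ℂ)) +
      ((W / q * ((S1 - l1) - (S2 - l2) + Real.log 2) : ℝ) : ℂ) := by
    have hl' : l = l1 - l2 - Real.log 2 := by linarith
    rw [hI, hN, hl', hDc]
    have hWD : ((W / D * S1 : ℝ) : ℂ) = (W : ℂ) / ((q : ℂ) * q) * S1 := by
      rw [← hqq]; push_cast; ring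
    rw [hWD]
    push_cast
    field_simp
    ring
  rw [hid]
  have b1 : ‖(q : ℂ) * Fa‖ ≤ CF / q := by
    rw [norm_mul, Complex.norm_real, Real.norm_of_nonneg hq0.le]
    exact hFa
  have b2 : ‖(q : ℂ) * (Off - (1 / (D : ℂ)) * E)‖ ≤ q * M := by
    rw [norm_mul, Complex.norm_real, Real.norm_of_nonneg hq0.le]
    exact mul_le_mul_of_nonneg_left hOff hq0.le
  have b3 : ‖(1 / (q : ℂ)) * (E + ((W * S2 : ℝ) : ℂ))‖ ≤ M2 / q := by
    rw [norm_mul, norm_div, norm_one, Complex.norm_real, Real.norm_of_nonneg hq0.le]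
    rw [div_mul_eq_mul_div, one_mul]
    exact div_le_div_of_nonneg_right hE hq0.le
  have b4 : ‖((W / q * ((S1 - l1) - (S2 - l2) + Real.log 2) : ℝ) : ℂ)‖ ≤ (2 * CL + 1) / q := by
    rw [Complex.norm_real, Real.norm_eq_abs, abs_mul, abs_of_nonneg (by positivity : 0 ≤ W / q)]
    have h1 : |(S1 - l1) - (S2 - l2) + Real.log 2| ≤ 2 * CL + 1 := by
      have h2 := abs_le.1 hS1
      have h3 := abs_le.1 hS2
      rw [abs_le]
      constructor <;> linarith [h2.1, h2.2, h3.1, h3.2]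
    have hCL : 0 ≤ 2 * CL + 1 := (abs_nonneg _).trans h1
    calc W / q * |(S1 - l1) - (S2 - l2) + Real.log 2| ≤ 1 / q * (2 * CL + 1) := by gcongr
      _ = (2 * CL + 1) / q := by ring
  calc _ ≤ ‖(q : ℂ) * Fa‖ + ‖(q : ℂ) * (Off - (1 / (D : ℂ)) * E)‖ +
        ‖(1 / (q : ℂ)) * (E + ((W * S2 : ℝ) : ℂ))‖ +
        ‖((W / q * ((S1 - l1) - (S2 - l2) + Real.log 2) : ℝ) : ℂ)‖ := by
        refine (norm_add_le _ _).trans (add_le_add ?_ le_rfl)
        refine (norm_add_le _ _).trans (add_le_add ?_ le_rfl)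
        exact norm_add_le _ _
    _ ≤ CF / q + q * M + M2 / q + (2 * CL + 1) / q := by linarith
    _ = (CF + M2 + 2 * CL + 1) / q + q * M := by ring

/-- The twisted second moment of `P`. -/
theorem iSEC (hW : StW) (hE : StExp) (hF : StFar) (hR : StReo) (hS : StSum) (hV : StVar)
    (hP : StProg) (hSm : StSmall) (hN : StNear) (hL : StLog) : StSec := by
  intro w hw
  obtain ⟨CF, hCF, hFar⟩ := hF w hw
  obtain ⟨CV, hCV, hVar⟩ := hV w hw
  obtain ⟨CS, hCS, hSmall⟩ := hSm w hw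
  obtain ⟨CN, hCN, hNear⟩ := hN w hw
  obtain ⟨CW, hCW, hvar⟩ := sec_var hL
  obtain ⟨CL, hCL, hLog⟩ := hL
  obtain ⟨-, -, -, -, hW0, hW1⟩ := hW w hw
  refine ⟨(CF + (2 * CS + 3 * CN) + 2 * CL + 1) + CV * (2 * (4 + 2 * CW)), by positivity, ?_⟩
  intro T hT n m hn hm hco hD
  have hn1 : (1 : ℝ) ≤ n := by exact_mod_cast hn
  have hm1 : (1 : ℝ) ≤ m := by exact_mod_cast hm
  have hT0 : 0 < T := by linarith
  have hT1 : 1 ≤ T := by linarith
  have hnT : (n : ℝ) ≤ T := le_trans (by nlinarith) hD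
  have hmT : (m : ℝ) ≤ T := le_trans (by nlinarith) hD
  have hK1 : 1 ≤ T ^ 3 := one_le_pow₀ hT1
  have hK0 : 0 < T ^ 3 := by positivity
  have hA1 : 1 ≤ (n : ℝ) * T ^ 3 := by nlinarith
  have hB1 : 1 ≤ (m : ℝ) * T ^ 3 := by nlinarith
  have hA4 : (n : ℝ) * T ^ 3 ≤ T ^ 4 := by
    calc (n : ℝ) * T ^ 3 ≤ T * T ^ 3 := by gcongr
      _ = T ^ 4 := by ring
  have hB4 : (m : ℝ) * T ^ 3 ≤ T ^ 4 := by
    calc (m : ℝ) * T ^ 3 ≤ T * T ^ 3 := by gcongr
      _ = T ^ 4 := by ring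
  have hD1 : 1 ≤ (n : ℝ) * m := by nlinarith
  have hD0 : 0 < (n : ℝ) * m := by linarith
  have hDn : ((n * m : ℕ) : ℂ) = (((n : ℝ) * m : ℝ) : ℂ) := by push_cast; ring
  -- the expansion
  obtain ⟨hFs, hI⟩ := hE w hw (T ^ 3) T hK1 hT0 n m hn hm
  have hFar' := hFar (T ^ 3) T hK1 hT1 n m hn hm
  obtain ⟨β, hβ, hβ0, hreo⟩ := hR w hw (T ^ 3) T hK1 hT1 n m hn hm hco
  have hnear_s : Summable fun p : ℕ × ℕ => (if 2 * |(n * p.1 : ℤ) - m * p.2| ≤ (m * p.2 : ℤ) then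
      F w T (n * T ^ 3) (m * T ^ 3) (n * p.1) (m * p.2) else 0) := by
    refine Summable.of_norm_bounded hFs.norm fun p => ?_
    split_ifs
    · exact le_rfl
    · simp
  have hfar_s : Summable fun p : ℕ × ℕ => (if 2 * |(n * p.1 : ℤ) - m * p.2| ≤ (m * p.2 : ℤ) then 0
      else F w T (n * T ^ 3) (m * T ^ 3) (n * p.1) (m * p.2)) := by
    refine Summable.of_norm_bounded hFs.norm fun p => ?_
    split_ifs
    · simp
    · exact le_rfl
  have hsplit : ∑' p : ℕ × ℕ, F w T (n * T ^ 3) (m * T ^ 3) (n * p.1) (m * p.2) =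
      ∑' p : ℕ × ℕ, (if 2 * |(n * p.1 : ℤ) - m * p.2| ≤ (m * p.2 : ℤ) then
        F w T (n * T ^ 3) (m * T ^ 3) (n * p.1) (m * p.2) else 0) +
      ∑' p : ℕ × ℕ, (if 2 * |(n * p.1 : ℤ) - m * p.2| ≤ (m * p.2 : ℤ) then 0
        else F w T (n * T ^ 3) (m * T ^ 3) (n * p.1) (m * p.2)) := by
    rw [← hnear_s.tsum_add hfar_s]
    refine tsum_congr fun p => ?_
    split_ifs <;> ring
  have hfar_n : ‖∑' p : ℕ × ℕ, (if 2 * |(n * p.1 : ℤ) - m * p.2| ≤ (m * p.2 : ℤ) then 0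
        else F w T (n * T ^ 3) (m * T ^ 3) (n * p.1) (m * p.2))‖ ≤
      ∑' p : ℕ × ℕ, (if 2 * |(n * p.1 : ℤ) - m * p.2| ≤ (m * p.2 : ℤ) then 0
        else ‖F w T (n * T ^ 3) (m * T ^ 3) (n * p.1) (m * p.2)‖) := by
    refine (norm_tsum_le_tsum_norm hfar_s.norm).trans (le_of_eq ?_)
    refine tsum_congr fun p => ?_
    split_ifs
    · simp
    · rfl
  have hsqD : Real.sqrt ((n : ℝ) * m) ≤ T := by
    rw [Real.sqrt_le_left hT0.le]
    nlinarith
  have hsq0 : 0 < Real.sqrt ((n : ℝ) * m) := Real.sqrt_pos.2 hD0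
  have hFa : Real.sqrt ((n : ℝ) * m) * ‖∑' p : ℕ × ℕ, (if 2 * |(n * p.1 : ℤ) - m * p.2| ≤
      (m * p.2 : ℤ) then 0 else F w T (n * T ^ 3) (m * T ^ 3) (n * p.1) (m * p.2))‖ ≤
      CF / Real.sqrt ((n : ℝ) * m) := by
    refine (mul_le_mul_of_nonneg_left hfar_n hsq0.le).trans (hFar'.trans ?_)
    calc CF * T ^ 3 / T ^ 8 = CF / T ^ 5 := by field_simp
      _ ≤ CF / T := by
          apply div_le_div_of_nonneg_left hCF hT0
          exact le_self_pow₀ hT1 (by norm_num)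
      _ ≤ CF / Real.sqrt ((n : ℝ) * m) := div_le_div_of_nonneg_left hCF hsq0 hsqD
  -- the near part
  have hsumm := hS w hw ((n : ℝ) * T ^ 3) ((m : ℝ) * T ^ 3) T hA1 hB1 hT1
  obtain ⟨hv1, hv2⟩ := hvar ((m : ℝ) * T ^ 3) T hB1 hT0
  have hv1' : Summable fun r : ℤ => if r = 0 then 0 else
      CV * Real.exp (-(2 * |(r : ℝ)| / ((m : ℝ) * T ^ 3))) / (T * |(r : ℝ)|) := by
    have := hv1.mul_left CV
    refine this.congr fun r => ?_
    split_ifs
    · simp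
    · ring
  have hv2' : ∑' r : ℤ, (if r = 0 then 0 else
      CV * Real.exp (-(2 * |(r : ℝ)| / ((m : ℝ) * T ^ 3))) / (T * |(r : ℝ)|)) ≤
      CV * (2 / T * (Real.log ((m : ℝ) * T ^ 3) + CW)) := by
    have e : ∑' r : ℤ, (if r = 0 then 0 else
      CV * Real.exp (-(2 * |(r : ℝ)| / ((m : ℝ) * T ^ 3))) / (T * |(r : ℝ)|)) =
      CV * ∑' r : ℤ, (if r = 0 then 0 else
        Real.exp (-(2 * |(r : ℝ)| / ((m : ℝ) * T ^ 3))) / (T * |(r : ℝ)|)) := by
      rw [← tsum_mul_left]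
      refine tsum_congr fun r => ?_
      split_ifs
      · simp
      · ring
    rw [e]
    exact mul_le_mul_of_nonneg_left hv2 hCV
  obtain ⟨hs1, hs2, hs3, hs4, hs5⟩ := sec_split hP
    (fun r b => fr w T ((n : ℝ) * T ^ 3) ((m : ℝ) * T ^ 3) r b) hsumm
    (fun r => CV * Real.exp (-(2 * |(r : ℝ)| / ((m : ℝ) * T ^ 3))) / (T * |(r : ℝ)|)) hv1'
    (fun r hr => hVar _ _ T hA1 hB1 hT1 r hr) (n * m) β hβ hβ0
  rw [sec_diag hW hw hK0 hn hm, ← hreo] at hs1
  rw [hDn] at hs2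
  -- the sum over `b`
  have hX2 : T ≤ T ^ 3 * ((n : ℝ) * m) / ((n : ℝ) + m) := by
    rw [le_div_iff₀ (by positivity)]
    have h1 : (n : ℝ) + m ≤ 2 * ((n : ℝ) * m) := by nlinarith
    have h2 : 2 * T ≤ T ^ 3 := by nlinarith [sq_nonneg T, sq_nonneg (T - 2)]
    calc T * ((n : ℝ) + m) ≤ T * (2 * ((n : ℝ) * m)) := by gcongr
      _ = 2 * T * ((n : ℝ) * m) := by ring
      _ ≤ T ^ 3 * ((n : ℝ) * m) := by gcongr
  have hX1 : (1 : ℝ) / 2 ≤ T ^ 3 / ((n : ℝ) + m) := by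
    rw [le_div_iff₀ (by positivity)]
    have h2 : 2 * T ≤ T ^ 3 := by nlinarith [sq_nonneg T, sq_nonneg (T - 2)]
    linarith
  have hbs := sec_bsum (A := (n : ℝ) * T ^ 3) (W := W0 w) hT1 hB1 hCS hCN
    (fun b => ∑' r : ℤ, (if r = 0 then 0 else fr w T ((n : ℝ) * T ^ 3) ((m : ℝ) * T ^ 3) r b))
    (fun b => ∑' r : ℤ, fr w T ((n : ℝ) * T ^ 3) ((m : ℝ) * T ^ 3) r b)
    (fun b => fr w T ((n : ℝ) * T ^ 3) ((m : ℝ) * T ^ 3) 0 b) hs3 hs4 hs5
    (fun b => by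
      obtain ⟨h1, h2⟩ := hSmall _ _ T hA1 hB1 hT1 b
      refine le_trans ?_ h2
      refine tsum_of_norm_bounded h1.hasSum fun r => ?_
      split_ifs
      · simp
      · exact le_rfl)
    (fun b hb => hNear _ _ T hA1 hB1 hT1 b hb)
    (fun b => if T < (b : ℝ) then
      Real.exp (-((b : ℝ) / (T ^ 3 * ((n : ℝ) * m) / ((n : ℝ) + m)))) / b else 0)
    (fun b => sec_tail hW hw hK0 hn hm b)
  have hS1 := (hLog (T ^ 3 / ((n : ℝ) + m)) (1 / 2) le_rfl hX1).2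
  have hS2 := (hLog (T ^ 3 * ((n : ℝ) * m) / ((n : ℝ) + m)) T (by linarith) hX2).2
  have hl : Real.log (T ^ 3 / ((n : ℝ) + m) / (1 / 2)) -
      Real.log (T ^ 3 * ((n : ℝ) * m) / ((n : ℝ) + m) / T) = Real.log 2 + Real.log (T / ((n : ℝ) * m)) := by
    rw [← Real.log_div (by positivity) (by positivity), ← Real.log_mul (by norm_num) (by positivity)]
    congr 1
    field_simp
  have hmain := sec_alg hD1 hW0 hW1 (hI.trans (by rw [hsplit])) hFa hs1 (hs2.trans hv2') hbs hS1 hS2 hl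
  refine hmain.trans ?_
  -- bounding the constants
  have hlogT : 1 / 2 ≤ Real.log T := by
    have h1 : Real.log 2 ≤ Real.log T := Real.log_le_log (by norm_num) hT
    have h2 := Real.log_two_gt_d9
    linarith
  have hlogB : Real.log ((m : ℝ) * T ^ 3) ≤ 4 * Real.log T := by
    have : Real.log ((m : ℝ) * T ^ 3) ≤ Real.log (T ^ 4) := Real.log_le_log (by positivity) hB4
    rw [Real.log_pow] at this
    exact_mod_cast this
  have hsqA : Real.sqrt ((n : ℝ) * T ^ 3) ≤ T ^ 2 := by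
    rw [Real.sqrt_le_left (by positivity)]
    calc (n : ℝ) * T ^ 3 ≤ T ^ 4 := hA4
      _ = (T ^ 2) ^ 2 := by ring
  have hAB : 2 * ((m : ℝ) * T ^ 3) * Real.sqrt ((n : ℝ) * T ^ 3) / T ^ 8 ≤ 1 := by
    rw [div_le_one (by positivity)]
    calc 2 * ((m : ℝ) * T ^ 3) * Real.sqrt ((n : ℝ) * T ^ 3) ≤ 2 * T ^ 4 * T ^ 2 := by gcongr
      _ ≤ T * T ^ 4 * T ^ 2 := by gcongr
      _ = T ^ 7 := by ring
      _ ≤ T ^ 8 := pow_le_pow_right₀ hT1 (by norm_num)
  have hM2 : 2 * CS + CN * (2 + 2 * ((m : ℝ) * T ^ 3) * Real.sqrt ((n : ℝ) * T ^ 3) / T ^ 8) ≤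
      2 * CS + 3 * CN := by
    have : CN * (2 + 2 * ((m : ℝ) * T ^ 3) * Real.sqrt ((n : ℝ) * T ^ 3) / T ^ 8) ≤ CN * 3 :=
      mul_le_mul_of_nonneg_left (by linarith) hCN
    linarith
  have hM : CV * (2 / T * (Real.log ((m : ℝ) * T ^ 3) + CW)) ≤ CV * (2 * (4 + 2 * CW)) * (Real.log T / T) := by
    have h1 : Real.log ((m : ℝ) * T ^ 3) + CW ≤ (4 + 2 * CW) * Real.log T := by nlinarith
    calc CV * (2 / T * (Real.log ((m : ℝ) * T ^ 3) + CW)) ≤
        CV * (2 / T * ((4 + 2 * CW) * Real.log T)) := by gcongr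
      _ = CV * (2 * (4 + 2 * CW)) * (Real.log T / T) := by ring
  have hq : 0 ≤ 1 / Real.sqrt ((n : ℝ) * m) := by positivity
  have hr : 0 ≤ Real.sqrt ((n : ℝ) * m) * Real.log T / T := by positivity
  have t1 : (CF + (2 * CS + CN * (2 + 2 * ((m : ℝ) * T ^ 3) * Real.sqrt ((n : ℝ) * T ^ 3) / T ^ 8)) +
      2 * CL + 1) / Real.sqrt ((n : ℝ) * m) ≤
      (CF + (2 * CS + 3 * CN) + 2 * CL + 1) * (1 / Real.sqrt ((n : ℝ) * m)) := by
    rw [div_eq_mul_one_div]
    exact mul_le_mul_of_nonneg_right (by linarith) hq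
  have t2 : Real.sqrt ((n : ℝ) * m) * (CV * (2 / T * (Real.log ((m : ℝ) * T ^ 3) + CW))) ≤
      CV * (2 * (4 + 2 * CW)) * (Real.sqrt ((n : ℝ) * m) * Real.log T / T) := by
    calc Real.sqrt ((n : ℝ) * m) * (CV * (2 / T * (Real.log ((m : ℝ) * T ^ 3) + CW))) ≤
        Real.sqrt ((n : ℝ) * m) * (CV * (2 * (4 + 2 * CW)) * (Real.log T / T)) :=
          mul_le_mul_of_nonneg_left hM hsq0.le
      _ = _ := by ring
  have t3 : 0 ≤ (CF + (2 * CS + 3 * CN) + 2 * CL + 1) * (Real.sqrt ((n : ℝ) * m) * Real.log T / T) := by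
    positivity
  have t4 : 0 ≤ CV * (2 * (4 + 2 * CW)) * (1 / Real.sqrt ((n : ℝ) * m)) := by positivity
  calc _ ≤ (CF + (2 * CS + 3 * CN) + 2 * CL + 1) * (1 / Real.sqrt ((n : ℝ) * m)) +
        CV * (2 * (4 + 2 * CW)) * (Real.sqrt ((n : ℝ) * m) * Real.log T / T) := add_le_add t1 t2
    _ ≤ _ := by
        have : ((CF + (2 * CS + 3 * CN) + 2 * CL + 1) + CV * (2 * (4 + 2 * CW))) *
            (1 / Real.sqrt ((n : ℝ) * m) + Real.sqrt ((n : ℝ) * m) * Real.log T / T) =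
            (CF + (2 * CS + 3 * CN) + 2 * CL + 1) * (1 / Real.sqrt ((n : ℝ) * m)) +
            CV * (2 * (4 + 2 * CW)) * (Real.sqrt ((n : ℝ) * m) * Real.log T / T) +
            (CF + (2 * CS + 3 * CN) + 2 * CL + 1) * (Real.sqrt ((n : ℝ) * m) * Real.log T / T) +
            CV * (2 * (4 + 2 * CW)) * (1 / Real.sqrt ((n : ℝ) * m)) := by ring
        rw [this]
        linarith

end Pool.Agent.Work.MP_56b8f5_nt.EM
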