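import Pool.Agent.Work.MP_56b8f5_nt.EM.Stmts

open MeasureTheory Set Filter Topology

noncomputable section

namespace Pool.Agent.Work.MP_56b8f5_nt.EM

theorem small_log {z : ℝ} (hz : |z| ≤ 1 / 2) : |z| / 2 ≤ |Real.log (1 + z)| := by
  have h1 := (abs_le.1 hz).1
  have h2 := (abs_le.1 hz).2
  have hpos : (0 : ℝ) < 1 + z := by linarith
  rcases le_or_gt 0 z with h | h
  · have h3 := Real.one_sub_inv_le_log_of_pos hpos
    have h4 : z / 2 ≤ 1 - (1 + z)⁻¹ := by
      have : 1 - (1 + z)⁻¹ = z / (1 + z) := by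
        field_simp
        ring
      rw [this]
      apply div_le_div_of_nonneg_left h hpos
      linarith
    rw [abs_of_nonneg h]
    exact (h4.trans h3).trans (le_abs_self _)
  · have h3 := Real.log_le_sub_one_of_pos hpos
    have h5 : Real.log (1 + z) ≤ z := by linarith
    rw [abs_of_neg h, abs_of_neg (lt_of_le_of_lt h5 h)]
    linarith

theorem iSMALL (hW : StW) : StSmall := by
  intro w hw
  obtain ⟨-, hdec, -⟩ := hW w hw
  obtain ⟨C, hC0, hC⟩ := hdec 0 2
  have hs : Summable (fun r : ℤ => 1 / (r : ℝ) ^ 2) :=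
    (Real.summable_one_div_int_pow).2 (by norm_num)
  have hS0 : 0 ≤ ∑' r : ℤ, 1 / (r : ℝ) ^ 2 := tsum_nonneg fun r => by positivity
  refine ⟨8 * C * ∑' r : ℤ, 1 / (r : ℝ) ^ 2, by positivity, ?_⟩
  intro A B T hA hB hT b
  have key : ∀ r : ℤ, (if r = 0 then 0 else ‖fr w T A B r b‖) ≤
      8 * C * b / T ^ 2 * (1 / (r : ℝ) ^ 2) := by
    intro r
    have hT0 : (0 : ℝ) < T := by linarith
    have hrhs : 0 ≤ 8 * C * b / T ^ 2 * (1 / (r : ℝ) ^ 2) := by positivity
    split_ifs with hr
    · exact hrhs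
    · unfold fr
      split_ifs with hb
      swap
      · simpa using hrhs
      have hr1 : (1 : ℤ) ≤ |r| := Int.one_le_abs hr
      have hbpos : (0 : ℝ) < b := by
        have : (0 : ℤ) < b := by linarith
        exact_mod_cast this
      have hbr : 2 * |(r : ℝ)| ≤ b := by exact_mod_cast hb
      have hrne : (r : ℝ) ≠ 0 := by exact_mod_cast hr
      have hrpos : 0 < |(r : ℝ)| := abs_pos.2 hrne
      have ha : (b : ℝ) / 2 ≤ b + r := by
        have := neg_abs_le (r : ℝ)
        linarith
      have hapos : (0 : ℝ) < b + r := by linarith [half_pos hbpos]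
      unfold F
      rw [norm_mul, Complex.norm_real, Real.norm_eq_abs]
      have hsq : (b : ℝ) / 2 ≤ Real.sqrt (((b : ℝ) + r) * b) := by
        apply Real.le_sqrt_of_sq_le
        nlinarith
      have hsqpos : 0 < Real.sqrt (((b : ℝ) + r) * b) := lt_of_lt_of_le (half_pos hbpos) hsq
      have h1 : |Real.exp (-(((b : ℝ) + r) / A) - b / B) / Real.sqrt (((b : ℝ) + r) * b)| ≤ 2 / b := by
        rw [abs_of_nonneg (by positivity)]
        have he : Real.exp (-(((b : ℝ) + r) / A) - b / B) ≤ 1 := by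
          apply Real.exp_le_one_iff.2
          have : 0 ≤ ((b : ℝ) + r) / A := by positivity
          have : 0 ≤ (b : ℝ) / B := by positivity
          linarith
        rw [div_le_div_iff₀ hsqpos hbpos]
        nlinarith
      have hlog : |(r : ℝ)| / (2 * b) ≤ |Real.log (((b : ℝ) + r) / b)| := by
        have hz : |(r : ℝ) / b| ≤ 1 / 2 := by
          rw [abs_div, abs_of_pos hbpos, div_le_iff₀ hbpos]
          linarith
        have h := small_log hz
        have e1 : ((b : ℝ) + r) / b = 1 + r / b := by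
          field_simp
        rw [e1]
        refine le_trans (le_of_eq ?_) h
        rw [abs_div, abs_of_pos hbpos]
        field_simp
      have hy : T * |(r : ℝ)| / (2 * b) ≤ |T * Real.log (((b : ℝ) + r) / b)| := by
        rw [abs_mul, abs_of_pos hT0]
        calc T * |(r : ℝ)| / (2 * b) = T * (|(r : ℝ)| / (2 * b)) := by ring
          _ ≤ _ := mul_le_mul_of_nonneg_left hlog hT0.le
      have hypos : 0 < T * |(r : ℝ)| / (2 * b) := by positivity
      have h2 : ‖W w 0 (T * Real.log (((b : ℝ) + r) / b))‖ ≤ 4 * C * b ^ 2 / (T ^ 2 * r ^ 2) := by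
        refine (hC _).trans ?_
        have h3 : (T * |(r : ℝ)| / (2 * b)) ^ 2 ≤ (1 + |T * Real.log (((b : ℝ) + r) / b)|) ^ 2 := by
          apply pow_le_pow_left₀ hypos.le
          linarith
        calc C / (1 + |T * Real.log (((b : ℝ) + r) / b)|) ^ 2
            ≤ C / (T * |(r : ℝ)| / (2 * b)) ^ 2 :=
              div_le_div_of_nonneg_left hC0 (by positivity) h3
          _ = 4 * C * b ^ 2 / (T ^ 2 * r ^ 2) := by
              rw [div_pow, mul_pow, sq_abs]
              field_simp
              ring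
      calc |Real.exp (-(((b : ℝ) + r) / A) - b / B) / Real.sqrt (((b : ℝ) + r) * b)| *
            ‖W w 0 (T * Real.log (((b : ℝ) + r) / b))‖
          ≤ 2 / b * (4 * C * b ^ 2 / (T ^ 2 * r ^ 2)) :=
            mul_le_mul h1 h2 (norm_nonneg _) (by positivity)
        _ = 8 * C * b / T ^ 2 * (1 / (r : ℝ) ^ 2) := by
            field_simp
            ring
  have h0 : ∀ r : ℤ, 0 ≤ (if r = 0 then 0 else ‖fr w T A B r b‖) := by
    intro r
    split_ifs
    · exact le_rfl
    · exact norm_nonneg _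
  have hsum : Summable (fun r : ℤ => if r = 0 then 0 else ‖fr w T A B r b‖) :=
    Summable.of_nonneg_of_le h0 key (hs.mul_left _)
  refine ⟨hsum, ?_⟩
  calc ∑' r : ℤ, (if r = 0 then 0 else ‖fr w T A B r b‖)
      ≤ ∑' r : ℤ, 8 * C * b / T ^ 2 * (1 / (r : ℝ) ^ 2) :=
        hsum.tsum_le_tsum key (hs.mul_left _)
    _ = 8 * C * (∑' r : ℤ, 1 / (r : ℝ) ^ 2) * b / T ^ 2 := by
        rw [tsum_mul_left]
        ring

end Pool.Agent.Work.MP_56b8f5_nt.EM
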