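import Pool.Agent.Work.MP_56b8f5_nt.EM.Stmts

/-!
MP_56b8f5_nt, block EM, item SUM (12131): absolute summability of `fr` over `(r, b)`.
-/

open MeasureTheory Set Filter Topology

noncomputable section

namespace Pool.Agent.Work.MP_56b8f5_nt.EM

theorem sum_nat (c : ℝ) (hc : 0 < c) : Summable fun n : ℕ => Real.exp (-((n : ℝ) / c)) := by
  have h := (Real.summable_exp_nat_mul_iff (a := -(1 / c))).2 (by
    have : 0 < 1 / c := by positivity
    linarith)
  refine h.congr fun n => ?_
  congr 1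
  ring

theorem sum_int (c : ℝ) (hc : 0 < c) : Summable fun r : ℤ => Real.exp (-(|(r : ℝ)| / c)) := by
  refine Summable.of_nat_of_neg ?_ ?_
  · refine (sum_nat c hc).congr fun n => ?_
    simp
  · refine (sum_nat c hc).congr fun n => ?_
    simp

theorem sum_bound (w : ℝ → ℝ) (h1 : ∀ y, ‖W w 0 y‖ ≤ 1) (A B T : ℝ) (hA : 1 ≤ A) (hB : 1 ≤ B)
    (r : ℤ) (b : ℕ) : ‖fr w T A B r b‖ ≤
      2 * Real.exp (-(|(r : ℝ)| / B)) * Real.exp (-((b : ℝ) / (2 * B))) := by
  have hpos : 0 ≤ 2 * Real.exp (-(|(r : ℝ)| / B)) * Real.exp (-((b : ℝ) / (2 * B))) := by positivity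
  unfold fr
  split_ifs with h
  · have hr : 2 * |(r : ℝ)| ≤ (b : ℝ) := by exact_mod_cast h
    have hB0 : 0 < B := by linarith
    have hA0 : 0 < A := by linarith
    rcases Nat.eq_zero_or_pos b with hb | hb
    · subst hb
      unfold F
      simpa using hpos
    · have hb1 : (1 : ℝ) ≤ (b : ℝ) := by exact_mod_cast hb
      have hr2 : -|(r : ℝ)| ≤ (r : ℝ) := neg_abs_le _
      have ha : (b : ℝ) / 2 ≤ (b : ℝ) + r := by linarith
      have ha0 : 0 ≤ (b : ℝ) + r := by linarith
      unfold F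
      rw [norm_mul, Complex.norm_real, Real.norm_eq_abs, abs_of_nonneg (by positivity)]
      have hs : (1 : ℝ) / 2 ≤ Real.sqrt (((b : ℝ) + r) * b) := by
        refine Real.le_sqrt_of_sq_le ?_
        nlinarith
      have he : Real.exp (-(((b : ℝ) + r) / A) - (b : ℝ) / B) ≤
          Real.exp (-(|(r : ℝ)| / B)) * Real.exp (-((b : ℝ) / (2 * B))) := by
        rw [← Real.exp_add]
        refine Real.exp_le_exp.2 ?_
        have e1 : 0 ≤ ((b : ℝ) + r) / A := by positivity
        have e2 : (b : ℝ) / B = (b : ℝ) / (2 * B) + (b : ℝ) / 2 / B := by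
          field_simp
          ring
        have e3 : |(r : ℝ)| / B ≤ (b : ℝ) / 2 / B := by
          refine div_le_div_of_nonneg_right ?_ hB0.le
          linarith
        linarith
      have hs0 : 0 < Real.sqrt (((b : ℝ) + r) * b) := by linarith
      have hd : Real.exp (-(((b : ℝ) + r) / A) - (b : ℝ) / B) / Real.sqrt (((b : ℝ) + r) * b) ≤
          2 * (Real.exp (-(|(r : ℝ)| / B)) * Real.exp (-((b : ℝ) / (2 * B)))) := by
        rw [div_le_iff₀ hs0]
        have e4 : 0 < Real.exp (-(|(r : ℝ)| / B)) * Real.exp (-((b : ℝ) / (2 * B))) := by positivity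
        nlinarith
      have hd0 : 0 ≤ Real.exp (-(((b : ℝ) + r) / A) - (b : ℝ) / B) /
          Real.sqrt (((b : ℝ) + r) * b) := by positivity
      calc _ ≤ Real.exp (-(((b : ℝ) + r) / A) - (b : ℝ) / B) / Real.sqrt (((b : ℝ) + r) * b) * 1 :=
            mul_le_mul_of_nonneg_left (h1 _) hd0
        _ ≤ _ := by linarith
  · simpa using hpos

theorem iSUM (hW : StW) : StSum := by
  intro w hw A B T hA hB _
  obtain ⟨_, _, h3, _, _, h6⟩ := hW w hw
  have h1 : ∀ y, ‖W w 0 y‖ ≤ 1 := fun y => (h3 y).trans h6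
  have hs : Summable fun p : ℤ × ℕ =>
      (2 * Real.exp (-(|(p.1 : ℝ)| / B))) * Real.exp (-((p.2 : ℝ) / (2 * B))) :=
    ((sum_int B (by linarith)).mul_left 2).mul_of_nonneg (sum_nat (2 * B) (by linarith))
      (fun r => by positivity) (fun b => by positivity)
  exact Summable.of_nonneg_of_le (fun p => norm_nonneg _)
    (fun p => sum_bound w h1 A B T hA hB p.1 p.2) hs

end Pool.Agent.Work.MP_56b8f5_nt.EM
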