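import Pool.Agent.Work.MP_56b8f5_nt.EM.Stmts

/-!
MP_56b8f5_nt, block EM: item StSW.
-/

open MeasureTheory Set Filter Topology

noncomputable section

namespace Pool.Agent.Work.MP_56b8f5_nt.EM

namespace SW

/-- The cube. -/
abbrev K : Type := Fin 5 → unitInterval

/-- Coordinate functions. -/
def co (i : Fin 5) : C(K, ℝ) := ⟨fun u => (u i : ℝ), by fun_prop⟩

/-- Polynomial functions. -/
def A : Subalgebra ℝ C(K, ℝ) := (MvPolynomial.aeval (R := ℝ) co).range

lemma A_sep : A.SeparatesPoints := by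
  intro x y hxy
  obtain ⟨i, hi⟩ := Function.ne_iff.mp hxy
  refine ⟨co i, ⟨co i, ?_, rfl⟩, ?_⟩
  · exact ⟨MvPolynomial.X i, by simp⟩
  · intro h
    apply hi
    exact Subtype.ext h

lemma aeval_apply (p : MvPolynomial (Fin 5) ℝ) (u : K) :
    (MvPolynomial.aeval (R := ℝ) co p) u = MvPolynomial.eval (fun i => (u i : ℝ)) p := by
  induction p using MvPolynomial.induction_on with
  | C a => simp
  | add p q hp hq => simp [hp, hq]
  | mul_X p i hp => simp [hp, co]

lemma approx (g : C(K, ℝ)) (ε : ℝ) (hε : 0 < ε) :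
    ∃ p : MvPolynomial (Fin 5) ℝ, ∀ u : K,
      |MvPolynomial.eval (fun i => (u i : ℝ)) p - g u| ≤ ε := by
  obtain ⟨f, hf⟩ := ContinuousMap.exists_mem_subalgebra_near_continuousMap_of_separatesPoints
    A A_sep g ε hε
  obtain ⟨f, p, hp⟩ := f
  refine ⟨p, fun u => ?_⟩
  have h1 := ContinuousMap.norm_coe_le_norm (f - g) u
  simp only at hf
  have h2 : (f - g) u = MvPolynomial.eval (fun i => (u i : ℝ)) p - g u := by
    rw [ContinuousMap.sub_apply, ← aeval_apply]
    rw [← hp]
    rfl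
  rw [h2] at h1
  exact le_trans h1 hf.le

/-- Exponent vectors. -/
def eq5 : (Fin 5 →₀ ℕ) ≃ (Fin 5 → ℕ) := Finsupp.equivFunOnFinite

end SW

theorem iSW : StSW := by
  intro G hG hGc ε hε
  -- the support is bounded
  obtain ⟨R, hR0, hR⟩ : ∃ R : ℝ, 0 < R ∧ ∀ x : Fin 5 → ℝ, (∃ i, R ≤ x i) → G x = 0 := by
    obtain ⟨r, hr⟩ := hGc.isBounded.exists_norm_le
    refine ⟨max r 0 + 1, by positivity, ?_⟩
    rintro x ⟨i, hi⟩
    by_contra hne
    have h1 : x ∈ tsupport G := subset_tsupport _ hne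
    have h2 := hr x h1
    have h3 : x i ≤ ‖x‖ := le_trans (le_abs_self _) (norm_le_pi_norm x i)
    have := le_max_left r 0
    linarith
  set δ : ℝ := Real.exp (-R) with hδ
  have hδ0 : 0 < δ := Real.exp_pos _
  have hcont : Continuous fun u : SW.K =>
      G (fun i => -Real.log (max (u i : ℝ) δ)) * ∏ i, (max (u i : ℝ) δ)⁻¹ := by
    have hpos : ∀ (u : SW.K) (i : Fin 5), max (u i : ℝ) δ ≠ 0 := fun u i =>
      (lt_of_lt_of_le hδ0 (le_max_right _ _)).ne'
    refine Continuous.mul ?_ ?_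
    · refine hG.comp (continuous_pi fun i => ?_)
      refine Continuous.neg (Continuous.log ?_ fun u => hpos u i)
      fun_prop
    · refine continuous_finsetProd _ fun i _ => ?_
      refine Continuous.inv₀ ?_ fun u => hpos u i
      fun_prop
  obtain ⟨p, hp⟩ := SW.approx ⟨_, hcont⟩ ε hε
  refine ⟨p.support.map SW.eq5.toEmbedding,
    fun k => p.coeff (SW.eq5.symm k), ?_⟩
  intro x hx
  rw [Finset.sum_map]
  set u : SW.K := fun i => ⟨Real.exp (-(x i)), (Real.exp_pos _).le, by
    rw [Real.exp_le_one_iff]; linarith [hx i]⟩ with hu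
  have hu' : ∀ i, (u i : ℝ) = Real.exp (-(x i)) := fun i => rfl
  have hprod : Real.exp (-(∑ i, x i)) = ∏ i, Real.exp (-(x i)) := by
    rw [← Real.exp_sum, Finset.sum_neg_distrib]
  have hsum : ∑ m ∈ p.support, p.coeff (SW.eq5.symm
        (SW.eq5.toEmbedding m)) *
        Real.exp (-(∑ i, ((SW.eq5.toEmbedding m i : ℝ) + 1)
          * x i)) =
      Real.exp (-(∑ i, x i)) * MvPolynomial.eval (fun i => (u i : ℝ)) p := by
    rw [MvPolynomial.eval_eq', Finset.mul_sum]
    refine Finset.sum_congr rfl fun m _ => ?_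
    have e1 : SW.eq5.symm
        (SW.eq5.toEmbedding m) = m := by simp
    rw [e1]
    have e2 : Real.exp (-(∑ i, ((SW.eq5.toEmbedding m i : ℝ)
        + 1) * x i)) = Real.exp (-(∑ i, x i)) * ∏ i, (u i : ℝ) ^ (m i) := by
      have e3 : ∀ i, (u i : ℝ) ^ (m i) = Real.exp (-((m i : ℝ) * x i)) := by
        intro i
        rw [hu', ← Real.exp_nat_mul]
        congr 1
        ring
      simp only [e3]
      rw [← Real.exp_sum, ← Real.exp_add]
      congr 1
      rw [Finset.sum_neg_distrib]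
      simp only [add_mul, one_mul, Finset.sum_add_distrib]
      simp only [Equiv.coe_toEmbedding, SW.eq5, Finsupp.equivFunOnFinite_apply]
      ring
    rw [e2]
    ring
  rw [hsum]
  have hG' : G x = Real.exp (-(∑ i, x i)) *
      (G (fun i => -Real.log (max (u i : ℝ) δ)) * ∏ i, (max (u i : ℝ) δ)⁻¹) := by
    by_cases hc : ∀ i, x i ≤ R
    · have h1 : ∀ i, max (u i : ℝ) δ = Real.exp (-(x i)) := by
        intro i
        rw [hu', hδ]
        exact max_eq_left (Real.exp_le_exp.mpr (by linarith [hc i]))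
      simp only [h1, Real.log_exp, neg_neg]
      rw [hprod, Finset.prod_inv_distrib]
      have h2 : (∏ i, Real.exp (-(x i))) ≠ 0 :=
        Finset.prod_ne_zero_iff.mpr fun i _ => (Real.exp_pos _).ne'
      field_simp
    · push Not at hc
      obtain ⟨i, hi⟩ := hc
      have h1 : G x = 0 := hR x ⟨i, hi.le⟩
      have h2 : G (fun i => -Real.log (max (u i : ℝ) δ)) = 0 := by
        apply hR
        refine ⟨i, ?_⟩
        have h3 : max (u i : ℝ) δ = δ := by
          rw [hu', hδ]
          exact max_eq_right (Real.exp_le_exp.mpr (by linarith))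
        rw [h3, hδ, Real.log_exp, neg_neg]
      rw [h1, h2]
      simp
  rw [hG']
  have h5 := hp u
  simp only [ContinuousMap.coe_mk] at h5
  rw [← mul_sub, abs_mul, abs_of_pos (Real.exp_pos _), mul_comm ε]
  refine mul_le_mul_of_nonneg_left ?_ (Real.exp_pos _).le
  rw [abs_sub_comm]
  exact h5

end Pool.Agent.Work.MP_56b8f5_nt.EM
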