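import Pool.Agent.Work.MP_56b8f5_nt.EM.Stmts

set_option autoImplicit false

open MeasureTheory Set Filter Topology

namespace Pool.Agent.Work.MP_56b8f5_nt.EM

namespace Trap

/-- one step of the trapezoidal rule -/
lemma step (h h1 h2 : ℝ → ℂ) (a : ℝ)
    (hd : ∀ x ∈ Icc a (a + 1), HasDerivAt h (h1 x) x)
    (hd1 : ∀ x ∈ Icc a (a + 1), HasDerivAt h1 (h2 x) x)
    (hc : ContinuousOn h2 (Icc a (a + 1))) :
    ‖(h a + h (a + 1)) / 2 - ∫ x in a..(a + 1), h x‖ ≤ ∫ x in a..(a + 1), ‖h2 x‖ := by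
  have hle : a ≤ a + 1 := by linarith
  have hu : uIcc a (a + 1) = Icc a (a + 1) := uIcc_of_le hle
  have hch : ContinuousOn h (Icc a (a + 1)) :=
    fun x hx => (hd x hx).continuousAt.continuousWithinAt
  have hch1 : ContinuousOn h1 (Icc a (a + 1)) :=
    fun x hx => (hd1 x hx).continuousAt.continuousWithinAt
  set q : ℝ → ℂ := fun x => (((x - a) * (x - a - 1) / 2 : ℝ) : ℂ) with hq
  set q1 : ℝ → ℂ := fun x => ((x - a - 1 / 2 : ℝ) : ℂ) with hq1
  have hqd : ∀ x, HasDerivAt q (q1 x) x := by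
    intro x
    have h0 : HasDerivAt (fun x : ℝ => (x - a) * (x - a - 1) / 2) (x - a - 1 / 2) x := by
      have e1 : HasDerivAt (fun x : ℝ => x - a) 1 x := (hasDerivAt_id x).sub_const a
      have e2 : HasDerivAt (fun x : ℝ => x - a - 1) 1 x := e1.sub_const 1
      have e3 : HasDerivAt (fun x : ℝ => (x - a) * (x - a - 1) / 2)
          ((1 * (x - a - 1) + (x - a) * 1) / 2) x := (e1.mul e2).div_const 2
      exact e3.congr_deriv (by ring)
    exact h0.ofReal_comp
  have hq1d : ∀ x, HasDerivAt q1 1 x := by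
    intro x
    have h0 : HasDerivAt (fun x : ℝ => x - a - 1 / 2) 1 x :=
      ((hasDerivAt_id x).sub_const a).sub_const (1 / 2)
    have h4 := h0.ofReal_comp
    rw [Complex.ofReal_one] at h4
    exact h4
  have hcq : Continuous q := continuous_iff_continuousAt.mpr fun x => (hqd x).continuousAt
  have hcq1 : Continuous q1 := continuous_iff_continuousAt.mpr fun x => (hq1d x).continuousAt
  have hD : ∀ x ∈ uIcc a (a + 1), HasDerivAt (fun x => q1 x * h x - q x * h1 x)
      (h x - q x * h2 x) x := by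
    intro x hx
    rw [hu] at hx
    have h5 : HasDerivAt (fun x => q1 x * h x - q x * h1 x)
        ((1 * h x + q1 x * h1 x) - (q1 x * h1 x + q x * h2 x)) x :=
      ((hq1d x).mul (hd x hx)).sub ((hqd x).mul (hd1 x hx))
    exact h5.congr_deriv (by ring)
  have hqh2 : ContinuousOn (fun x => q x * h2 x) (Icc a (a + 1)) := hcq.continuousOn.mul hc
  have hI : IntervalIntegrable (fun x => h x - q x * h2 x) volume a (a + 1) :=
    ContinuousOn.intervalIntegrable (by rw [hu]; exact hch.sub hqh2)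
  have hIh : IntervalIntegrable h volume a (a + 1) :=
    ContinuousOn.intervalIntegrable (by rw [hu]; exact hch)
  have hIq : IntervalIntegrable (fun x => q x * h2 x) volume a (a + 1) :=
    ContinuousOn.intervalIntegrable (by rw [hu]; exact hqh2)
  have hFT := intervalIntegral.integral_eq_sub_of_hasDerivAt hD hI
  rw [intervalIntegral.integral_sub hIh hIq] at hFT
  have e1 : q1 (a + 1) = 1 / 2 := by simp only [hq1]; push_cast; ring
  have e2 : q1 a = -(1 / 2) := by simp only [hq1]; push_cast; ring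
  have e3 : q (a + 1) = 0 := by simp only [hq]; push_cast; ring
  have e4 : q a = 0 := by simp only [hq]; push_cast; ring
  rw [e1, e2, e3, e4] at hFT
  have key : (h a + h (a + 1)) / 2 - ∫ x in a..(a + 1), h x =
      -∫ x in a..(a + 1), q x * h2 x := by
    linear_combination -hFT
  rw [key, norm_neg]
  refine (intervalIntegral.norm_integral_le_integral_norm hle).trans ?_
  refine intervalIntegral.integral_mono_on hle hIq.norm
    (ContinuousOn.intervalIntegrable (by rw [hu]; exact hc.norm)) ?_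
  intro x hx
  rw [norm_mul]
  have hq8 : ‖q x‖ ≤ 1 := by
    simp only [hq]
    rw [Complex.norm_real, Real.norm_eq_abs, abs_le]
    obtain ⟨h3, h4⟩ := hx
    constructor <;> nlinarith
  calc ‖q x‖ * ‖h2 x‖ ≤ 1 * ‖h2 x‖ := by gcongr
    _ = ‖h2 x‖ := one_mul _

end Trap

open Trap in
theorem iTRAP : StTrap := by
  intro h h1 h2 R
  induction R with
  | zero =>
    intro _ _ _
    simp
  | succ R ih =>
    intro hd hd1 hc
    have hR : (0 : ℝ) ≤ R := Nat.cast_nonneg _
    have hR1 : (((R + 1 : ℕ)) : ℝ) = (R : ℝ) + 1 := by push_cast; ring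
    rw [hR1] at hd hd1 hc ⊢
    have s1 : Icc (-(R : ℝ)) R ⊆ Icc (-((R : ℝ) + 1)) ((R : ℝ) + 1) :=
      Icc_subset_Icc (by linarith) (by linarith)
    have s2 : Icc (R : ℝ) (R + 1) ⊆ Icc (-((R : ℝ) + 1)) ((R : ℝ) + 1) :=
      Icc_subset_Icc (by linarith) (by linarith)
    have s3 : Icc (-((R : ℝ) + 1)) (-((R : ℝ) + 1) + 1) ⊆ Icc (-((R : ℝ) + 1)) ((R : ℝ) + 1) :=
      Icc_subset_Icc (by linarith) (by linarith)
    have i1 := ih (fun x hx => hd x (s1 hx)) (fun x hx => hd1 x (s1 hx)) (hc.mono s1)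
    have i2 := step h h1 h2 R (fun x hx => hd x (s2 hx)) (fun x hx => hd1 x (s2 hx)) (hc.mono s2)
    have i3 := step h h1 h2 (-((R : ℝ) + 1)) (fun x hx => hd x (s3 hx))
      (fun x hx => hd1 x (s3 hx)) (hc.mono s3)
    have e0 : -((R : ℝ) + 1) + 1 = -(R : ℝ) := by ring
    rw [e0] at i3 s3
    have hch : ContinuousOn h (Icc (-((R : ℝ) + 1)) ((R : ℝ) + 1)) :=
      fun x hx => (hd x hx).continuousAt.continuousWithinAt
    have I : ∀ a b : ℝ, a ≤ b → Icc a b ⊆ Icc (-((R : ℝ) + 1)) ((R : ℝ) + 1) →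
        IntervalIntegrable h volume a b := fun a b hab hs =>
      ContinuousOn.intervalIntegrable (by rw [uIcc_of_le hab]; exact hch.mono hs)
    have J : ∀ a b : ℝ, a ≤ b → Icc a b ⊆ Icc (-((R : ℝ) + 1)) ((R : ℝ) + 1) →
        IntervalIntegrable (fun x => ‖h2 x‖) volume a b := fun a b hab hs =>
      ContinuousOn.intervalIntegrable (by rw [uIcc_of_le hab]; exact (hc.mono hs).norm)
    have l1 : -(R : ℝ) ≤ R := by linarith
    have l2 : (R : ℝ) ≤ R + 1 := by linarith
    have l3 : -((R : ℝ) + 1) ≤ -(R : ℝ) := by linarith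
    have sumI : ∫ x in (-((R : ℝ) + 1))..((R : ℝ) + 1), h x =
        (∫ x in (-((R : ℝ) + 1))..(-(R : ℝ)), h x) + (∫ x in (-(R : ℝ))..R, h x) +
          ∫ x in (R : ℝ)..(R + 1), h x := by
      rw [intervalIntegral.integral_add_adjacent_intervals (I _ _ l3 s3) (I _ _ l1 s1),
        intervalIntegral.integral_add_adjacent_intervals
          ((I _ _ l3 s3).trans (I _ _ l1 s1)) (I _ _ l2 s2)]
    have sumJ : ∫ x in (-((R : ℝ) + 1))..((R : ℝ) + 1), ‖h2 x‖ =
        (∫ x in (-((R : ℝ) + 1))..(-(R : ℝ)), ‖h2 x‖) + (∫ x in (-(R : ℝ))..R, ‖h2 x‖) +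
          ∫ x in (R : ℝ)..(R + 1), ‖h2 x‖ := by
      rw [intervalIntegral.integral_add_adjacent_intervals (J _ _ l3 s3) (J _ _ l1 s1),
        intervalIntegral.integral_add_adjacent_intervals
          ((J _ _ l3 s3).trans (J _ _ l1 s1)) (J _ _ l2 s2)]
    have hset : Finset.Icc (-((R + 1 : ℕ) : ℤ)) ((R + 1 : ℕ) : ℤ) =
        insert (-((R : ℤ) + 1)) (insert ((R : ℤ) + 1) (Finset.Icc (-(R : ℤ)) R)) := by
      ext r
      simp only [Finset.mem_Icc, Finset.mem_insert]
      push_cast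
      omega
    have hn1 : ((R : ℤ) + 1) ∉ Finset.Icc (-(R : ℤ)) R := by
      simp only [Finset.mem_Icc]; omega
    have hn2 : (-((R : ℤ) + 1)) ∉ insert ((R : ℤ) + 1) (Finset.Icc (-(R : ℤ)) R) := by
      simp only [Finset.mem_insert, Finset.mem_Icc]; omega
    rw [hset, Finset.sum_insert hn2, Finset.sum_insert hn1, sumI, sumJ]
    have c1 : (((-((R : ℤ) + 1) : ℤ)) : ℝ) = -((R : ℝ) + 1) := by push_cast; ring
    have c2 : ((((R : ℤ) + 1 : ℤ)) : ℝ) = (R : ℝ) + 1 := by push_cast; ring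
    rw [c1, c2]
    set A := ∑ r ∈ Finset.Icc (-(R : ℤ)) R, h (r : ℝ)
    set I1 := ∫ x in (-((R : ℝ) + 1))..(-(R : ℝ)), h x
    set I2 := ∫ x in (-(R : ℝ))..R, h x
    set I3 := ∫ x in (R : ℝ)..(R + 1), h x
    have key : h (-((R : ℝ) + 1)) + (h ((R : ℝ) + 1) + A) - (I1 + I2 + I3) -
        (h ((R : ℝ) + 1) + h (-((R : ℝ) + 1))) / 2 =
        ((h (-((R : ℝ) + 1)) + h (-(R : ℝ))) / 2 - I1) + (A - I2 - (h R + h (-(R : ℝ))) / 2) +
        ((h R + h ((R : ℝ) + 1)) / 2 - I3) := by ring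
    rw [key]
    refine (norm_add₃_le).trans ?_
    linarith

end Pool.Agent.Work.MP_56b8f5_nt.EM
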