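import Pool.Agent.Work.MP_56b8f5_nt.EM.Stmts

/-!
MP_56b8f5_nt, block EM, item TW: the lower bound for the twisted second moment of zeta.
-/

open MeasureTheory Set Filter Topology

noncomputable section

namespace Pool.Agent.Work.MP_56b8f5_nt.EM

private lemma tw_compact {w : ℝ → ℝ} (hw : IsW w) : HasCompactSupport w := by
  obtain ⟨c, hc, hs⟩ := hw.supp
  refine HasCompactSupport.intro (K := Icc c 1) isCompact_Icc ?_
  intro u hu
  by_contra h
  exact hu (hs u h)

private lemma tw_zeta_cont (T : ℝ) :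
    Continuous fun u : ℝ => riemannZeta (1 / 2 + ((T * u : ℝ) : ℂ) * Complex.I) := by
  rw [continuous_iff_continuousAt]
  intro u
  have h1 : ContinuousAt (fun u : ℝ => (1 / 2 + ((T * u : ℝ) : ℂ) * Complex.I : ℂ)) u := by
    fun_prop
  have h2 : (1 / 2 + ((T * u : ℝ) : ℂ) * Complex.I : ℂ) ≠ 1 := by
    intro h
    have := congrArg Complex.re h
    simp at this
  exact ContinuousAt.comp (g := riemannZeta) (f := fun u : ℝ => (1 / 2 + ((T * u : ℝ) : ℂ) * Complex.I : ℂ))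
    (differentiableAt_riemannZeta h2).continuousAt h1

private lemma tw_int {w : ℝ → ℝ} (hw : IsW w) {g : ℝ → ℝ} (hg : Continuous g) :
    Integrable fun u : ℝ => w u * g u := by
  refine Continuous.integrable_of_hasCompactSupport (hw.smooth.continuous.mul hg) ?_
  exact (tw_compact hw).mul_right

/-- Pointwise comparison. -/
private lemma tw_pt {z p co et W : ℝ} (hz : 0 ≤ z) (hp : 0 ≤ p) (he : 0 ≤ et) (hzp : |z - p| ≤ et)
    (hc : |co| ≤ 1) (hW : 0 ≤ W) :
    W * (p ^ 2 * co) - ((et ^ 2 + et) * W + et * (W * p ^ 2)) ≤ W * (z ^ 2 * co) := by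
  have h1 : |z ^ 2 - p ^ 2| ≤ et ^ 2 + et * (1 + p ^ 2) := by
    have h2 : |z ^ 2 - p ^ 2| = |z - p| * (z + p) := by
      rw [show z ^ 2 - p ^ 2 = (z - p) * (z + p) by ring, abs_mul, abs_of_nonneg (add_nonneg hz hp)]
    rw [h2]
    have h3 : z + p ≤ et + 2 * p := by
      have := (abs_le.1 hzp).2
      linarith
    calc |z - p| * (z + p) ≤ et * (et + 2 * p) := by
          apply mul_le_mul hzp h3 (add_nonneg hz hp) he
      _ ≤ et ^ 2 + et * (1 + p ^ 2) := by nlinarith [mul_nonneg he (sq_nonneg (p - 1))]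
  have h4 : |(z ^ 2 - p ^ 2) * co| ≤ et ^ 2 + et * (1 + p ^ 2) := by
    rw [abs_mul]
    calc |z ^ 2 - p ^ 2| * |co| ≤ |z ^ 2 - p ^ 2| * 1 := by gcongr
      _ ≤ _ := by linarith
  have h5 := (abs_le.1 h4).1
  nlinarith [mul_le_mul_of_nonneg_left h5 hW]

/-- Approximation of zeta by `P` at the points `T u`, `u` in the support. -/
private lemma tw_eta (hZ : StZ) {w : ℝ → ℝ} (hw : IsW w) :
    ∃ C' : ℝ, 0 ≤ C' ∧ ∃ T₁ : ℝ, 1 ≤ T₁ ∧ ∀ T : ℝ, T₁ ≤ T → ∀ u : ℝ, w u ≠ 0 →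
      ‖riemannZeta (1 / 2 + ((T * u : ℝ) : ℂ) * Complex.I) - P (T ^ 3) (T * u)‖ ≤
        C' * T ^ (-(1 / 2) : ℝ) := by
  obtain ⟨C, hC, hZ⟩ := hZ
  obtain ⟨c, hc, hs⟩ := hw.supp
  refine ⟨C * (1 + 1 / c ^ 3), by positivity, max 1 (1 / c), le_max_left _ _, ?_⟩
  intro T hT u hu
  obtain ⟨hcu, hu1⟩ := hs u hu
  have hT1 : 1 ≤ T := (le_max_left _ _).trans hT
  have hTc : 1 / c ≤ T := (le_max_right _ _).trans hT
  have hT0 : 0 < T := by linarith
  have hcT : 1 ≤ c * T := by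
    rw [div_le_iff₀ hc] at hTc
    linarith [mul_comm T c]
  have htu : c * T ≤ T * u := by nlinarith
  have htu0 : 0 < T * u := by linarith
  have habs : |T * u| = T * u := abs_of_pos htu0
  have h1 := hZ (T ^ 3) (one_le_pow₀ hT1) (T * u) (by rw [habs]; linarith)
  refine h1.trans ?_
  rw [habs, mul_assoc]
  refine mul_le_mul_of_nonneg_left ?_ hC
  have hsq : Real.sqrt (T ^ 3) = T * Real.sqrt T := by
    rw [show T ^ 3 = T ^ 2 * T by ring, Real.sqrt_mul (sq_nonneg T), Real.sqrt_sq hT0.le]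
  have hs0 : 0 < Real.sqrt T := Real.sqrt_pos.2 hT0
  have hinv : T ^ (-(1 / 2) : ℝ) = 1 / Real.sqrt T := by
    rw [Real.rpow_neg hT0.le, Real.sqrt_eq_rpow]
    simp
  rw [hsq, hinv]
  have hss : Real.sqrt T * Real.sqrt T = T := Real.mul_self_sqrt hT0.le
  have ha : T * u / (T * Real.sqrt T) ≤ 1 / Real.sqrt T := by
    rw [div_le_div_iff₀ (by positivity) hs0]
    have : u * (T * Real.sqrt T) ≤ 1 * (T * Real.sqrt T) := by
      apply mul_le_mul_of_nonneg_right hu1 (by positivity)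
    nlinarith
  have hb : T * Real.sqrt T / (T * u) ^ 3 ≤ 1 / c ^ 3 * (1 / Real.sqrt T) := by
    have h2 : (c * T) ^ 3 ≤ (T * u) ^ 3 := by
      apply pow_le_pow_left₀ (by positivity) htu
    have h3 : T * Real.sqrt T / (T * u) ^ 3 ≤ T * Real.sqrt T / (c * T) ^ 3 := by
      apply div_le_div_of_nonneg_left (by positivity) (by positivity) h2
    refine h3.trans ?_
    rw [div_mul_div_comm, div_le_div_iff₀ (by positivity) (by positivity)]
    have h4 : T * Real.sqrt T * (c ^ 3 * Real.sqrt T) = c ^ 3 * T ^ 2 := by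
      calc T * Real.sqrt T * (c ^ 3 * Real.sqrt T) = c ^ 3 * T * (Real.sqrt T * Real.sqrt T) := by ring
        _ = c ^ 3 * T ^ 2 := by rw [hss]; ring
    rw [h4]
    have h5 : T ^ 2 ≤ T ^ 3 := pow_le_pow_right₀ hT1 (by norm_num)
    calc c ^ 3 * T ^ 2 ≤ c ^ 3 * T ^ 3 := by gcongr
      _ = 1 * 1 * (c * T) ^ 3 := by ring
  calc T * u / (T * Real.sqrt T) + T * Real.sqrt T / (T * u) ^ 3 ≤
      1 / Real.sqrt T + 1 / c ^ 3 * (1 / Real.sqrt T) := add_le_add ha hb
    _ = (1 + 1 / c ^ 3) * (1 / Real.sqrt T) := by ring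

/-- The final real inequality. -/
private lemma tw_fin {C C' κ ww : ℝ} (hC : 0 ≤ C) (hC' : 0 ≤ C') (hκ : 0 < κ)
    (hw0 : 0 < ww) (hw1 : ww ≤ 1) :
    ∃ T₂ : ℝ, 2 ≤ T₂ ∧ ∀ T : ℝ, T₂ ≤ T → ∀ h : ℝ, 0 ≤ h → h ≤ (1 - κ) * Real.log T →
      C * (Real.exp (-(h / 2)) + Real.exp (h / 2) * Real.log T / T) +
        (((C' * T ^ (-(1 / 2) : ℝ)) ^ 2 + C' * T ^ (-(1 / 2) : ℝ)) * ww +
        (C' * T ^ (-(1 / 2) : ℝ)) * (ww * Real.log T + C * (1 + Real.log T / T))) ≤
      ww * (Real.exp (-(h / 2)) * (κ * Real.log T)) := by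
  have h1 : ∀ᶠ T : ℝ in atTop, max 1 (2 * C / (ww * κ)) ≤ Real.log T :=
    Real.tendsto_log_atTop.eventually_ge_atTop _
  have h2 : ∀ᶠ T : ℝ in atTop, (C + C' * (C' + 2 + 2 * C)) * T ^ (-(κ / 2)) ≤ ww * κ / 2 := by
    have h3 : Tendsto (fun T : ℝ => (C + C' * (C' + 2 + 2 * C)) * T ^ (-(κ / 2))) atTop
        (𝓝 ((C + C' * (C' + 2 + 2 * C)) * 0)) :=
      (tendsto_rpow_neg_atTop (by positivity)).const_mul _
    rw [mul_zero] at h3
    exact h3.eventually_le_const (by positivity)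
  obtain ⟨T₂, hT₂⟩ := eventually_atTop.1 (h1.and h2)
  refine ⟨max 2 T₂, le_max_left _ _, ?_⟩
  intro T hT h hh0 hh
  have hT2 : 2 ≤ T := (le_max_left _ _).trans hT
  obtain ⟨hL, hR⟩ := hT₂ T ((le_max_right _ _).trans hT)
  have hT0 : 0 < T := by linarith
  set L := Real.log T with hLdef
  have hL1 : 1 ≤ L := (le_max_left _ _).trans hL
  have hL2 : 2 * C / (ww * κ) ≤ L := (le_max_right _ _).trans hL
  have hL3 : C ≤ ww * κ / 2 * L := by
    rw [div_le_iff₀ (by positivity)] at hL2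
    nlinarith
  set E := Real.exp (-(h / 2)) with hE
  have hE0 : 0 < E := Real.exp_pos _
  have hTk : T ^ (-(κ / 2)) = Real.exp (-(κ / 2) * L) := by
    rw [Real.rpow_def_of_pos hT0, mul_comm]
  set q := T ^ (-(κ / 2)) with hq
  have hq0 : 0 < q := by rw [hTk]; exact Real.exp_pos _
  -- `E⁻¹ L / T ≤ E q L`
  have hTexp : T = Real.exp L := (Real.exp_log hT0).symm
  have ha : Real.exp (h / 2) * L / T ≤ E * q * L := by
    rw [hTk, hE]
    have h4 : Real.exp (h / 2) * L / T = Real.exp (h / 2 - L) * L := by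
      rw [Real.exp_sub, ← hTexp]
      ring
    rw [h4, ← Real.exp_add]
    refine mul_le_mul_of_nonneg_right ?_ (by linarith)
    apply Real.exp_le_exp.2
    nlinarith
  -- `T^{-1/2} ≤ E q`
  have hb : T ^ (-(1 / 2) : ℝ) ≤ E * q := by
    rw [hTk, hE, Real.rpow_def_of_pos hT0, ← Real.exp_add]
    apply Real.exp_le_exp.2
    rw [← hLdef]
    nlinarith
  have hb0 : 0 < T ^ (-(1 / 2) : ℝ) := Real.rpow_pos_of_pos hT0 _
  have hb1 : T ^ (-(1 / 2) : ℝ) ≤ 1 := Real.rpow_le_one_of_one_le_of_nonpos (by linarith) (by norm_num)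
  set s := T ^ (-(1 / 2) : ℝ) with hs
  have hLT : L / T ≤ L := by
    rw [div_le_iff₀ hT0]
    nlinarith
  have hc1 : (C' * s) ^ 2 ≤ C' * C' * s := by
    have : C' * C' * (s * s) ≤ C' * C' * (s * 1) := by
      gcongr
    nlinarith
  -- assemble
  have h5 : ((C' * s) ^ 2 + C' * s) * ww ≤ (C' * C' + C') * s := by
    have h6 : ((C' * s) ^ 2 + C' * s) * ww ≤ ((C' * s) ^ 2 + C' * s) * 1 := by
      apply mul_le_mul_of_nonneg_left hw1 (by positivity)
    nlinarith
  have h7 : C' * s * (ww * L + C * (1 + L / T)) ≤ C' * s * (L + C * (1 + L)) := by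
    apply mul_le_mul_of_nonneg_left _ (by positivity)
    have : ww * L ≤ 1 * L := mul_le_mul_of_nonneg_right hw1 (by linarith)
    have : C * (1 + L / T) ≤ C * (1 + L) := mul_le_mul_of_nonneg_left (by linarith) hC
    linarith
  have h8 : (C' * C' + C') * s + C' * s * (L + C * (1 + L)) ≤ C' * (C' + 2 + 2 * C) * (s * L) := by
    have e1 : (C' * C' + C') * s ≤ (C' * C' + C') * (s * L) := by
      apply mul_le_mul_of_nonneg_left _ (by positivity)
      nlinarith
    have e2 : C' * s * (L + C * (1 + L)) ≤ C' * s * ((1 + 2 * C) * L) := by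
      apply mul_le_mul_of_nonneg_left _ (by positivity)
      nlinarith
    nlinarith
  have h9 : C' * (C' + 2 + 2 * C) * (s * L) ≤ C' * (C' + 2 + 2 * C) * (E * q * L) := by
    apply mul_le_mul_of_nonneg_left _ (by positivity)
    exact mul_le_mul_of_nonneg_right hb (by linarith)
  have h10 : C * (E + Real.exp (h / 2) * L / T) ≤ C * (E + E * q * L) :=
    mul_le_mul_of_nonneg_left (by linarith) hC
  have h11 : C * (E + E * q * L) + C' * (C' + 2 + 2 * C) * (E * q * L) ≤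
      ww * (E * (κ * L)) := by
    have e1 : C * E ≤ ww * κ / 2 * L * E := mul_le_mul_of_nonneg_right hL3 hE0.le
    have e2 : (C + C' * (C' + 2 + 2 * C)) * q * (E * L) ≤ ww * κ / 2 * (E * L) :=
      mul_le_mul_of_nonneg_right hR (by positivity)
    nlinarith
  linarith

theorem iTW (hSec : StSec) (hZ : StZ) (hP : StPc) (hG : StGam) (hW : StW) : StTw := by
  intro w hw hw0 κ hκ hκ1
  obtain ⟨C', hC', T₁, hT₁1, hT₁⟩ := tw_eta hZ hw
  obtain ⟨C, hC, hS⟩ := hSec w hw
  have hw1 : W0 w ≤ 1 := (hW w hw).2.2.2.2.2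
  obtain ⟨T₂, hT₂2, hT₂⟩ := tw_fin hC hC' hκ hw0 hw1
  refine ⟨max T₁ T₂, ?_⟩
  intro T hT γ hγ
  have hTT1 : T₁ ≤ T := (le_max_left _ _).trans hT
  have hTT2 : T₂ ≤ T := (le_max_right _ _).trans hT
  have hT1 : 1 ≤ T := hT₁1.trans hTT1
  have hT2 : 2 ≤ T := hT₂2.trans hTT2
  have hT0 : 0 < T := by linarith
  obtain ⟨hn, hm, hcop, hell, hht, hht0⟩ := hG.1 γ
  set L := Real.log T with hL
  have hLpos : 0 < L := Real.log_pos (by linarith)
  have hnm0 : (0 : ℝ) < (num γ : ℝ) * (den γ : ℝ) := by positivity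
  have hexp : Real.exp (ht γ) = (num γ : ℝ) * (den γ : ℝ) := by
    rw [hht, Real.exp_log hnm0]
  have hnmT : (num γ : ℝ) * (den γ : ℝ) ≤ T := by
    rw [← hexp, ← Real.exp_log hT0]
    apply Real.exp_le_exp.2
    nlinarith
  have hsq : Real.sqrt ((num γ : ℝ) * (den γ : ℝ)) = Real.exp (ht γ / 2) := by
    rw [← hexp, Real.exp_half]
  -- notation
  set p : ℝ → ℝ := fun u => ‖P (T ^ 3) (T * u)‖ with hp
  have hPc : Continuous (P (T ^ 3)) := (hP (T ^ 3) (one_le_pow₀ hT1)).1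
  have hpc : Continuous p := by
    have : Continuous fun u : ℝ => P (T ^ 3) (T * u) := hPc.comp (by fun_prop)
    exact this.norm
  have hzc : Continuous fun u : ℝ => ‖riemannZeta (1 / 2 + ((T * u : ℝ) : ℂ) * Complex.I)‖ :=
    (tw_zeta_cont T).norm
  have hI1 : Integrable fun u : ℝ => w u * (p u ^ 2 * Real.cos (T * u * ell γ)) :=
    tw_int hw (by fun_prop)
  have hI2 : Integrable fun u : ℝ => w u * p u ^ 2 := tw_int hw (by fun_prop)
  have hI3 : Integrable fun u : ℝ => w u := by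
    have := tw_int hw (g := fun _ => 1) continuous_const
    simpa using this
  have hI4 : Integrable fun u : ℝ => w u * (Zt (T * u) * Real.cos (T * u * ell γ)) := by
    apply tw_int hw
    unfold Zt
    have : Continuous fun u : ℝ => ‖riemannZeta (1 / 2 + ((T * u : ℝ) : ℂ) * Complex.I)‖ ^ 2 :=
      hzc.pow 2
    exact this.mul (by fun_prop)
  -- (1) the second moment of `P`
  have hA : ∫ u : ℝ, w u * p u ^ 2 ≤ W0 w * L + C * (1 + L / T) := by
    have h1 := hS T hT2 1 1 one_pos one_pos (Nat.coprime_one_left 1) (by norm_num; linarith)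
    have h2 : (∫ u : ℝ, ((w u * ‖P (T ^ 3) (T * u)‖ ^ 2 : ℝ) : ℂ) *
        Complex.exp (Complex.I * (T * u * Real.log (((1 : ℕ) : ℝ) / ((1 : ℕ) : ℝ)) : ℝ))) =
        ((∫ u : ℝ, w u * p u ^ 2 : ℝ) : ℂ) := by
      rw [← integral_complex_ofReal]
      apply integral_congr_ae
      filter_upwards with u
      simp [hp]
    rw [h2] at h1
    have h3 : (((W0 w / Real.sqrt (((1 : ℕ) : ℝ) * ((1 : ℕ) : ℝ)) *
        Real.log (T / (((1 : ℕ) : ℝ) * ((1 : ℕ) : ℝ))) : ℝ)) : ℂ) = ((W0 w * L : ℝ) : ℂ) := by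
      simp [hL]
    rw [h3, ← Complex.ofReal_sub, Complex.norm_real, Real.norm_eq_abs] at h1
    have h4 := (abs_le.1 h1).2
    have h5 : C * (1 / Real.sqrt (((1 : ℕ) : ℝ) * ((1 : ℕ) : ℝ)) +
        Real.sqrt (((1 : ℕ) : ℝ) * ((1 : ℕ) : ℝ)) * Real.log T / T) = C * (1 + L / T) := by
      simp [hL]
    rw [h5] at h4
    linarith
  -- (2) the twisted second moment of `P`
  have hB : W0 w * (Real.exp (-(ht γ / 2)) * (L - ht γ)) -
      C * (Real.exp (-(ht γ / 2)) + Real.exp (ht γ / 2) * L / T) ≤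
      ∫ u : ℝ, w u * (p u ^ 2 * Real.cos (T * u * ell γ)) := by
    have h1 := hS T hT2 (num γ) (den γ) hn hm hcop hnmT
    have hlog : Real.log ((num γ : ℝ) / (den γ : ℝ)) = ell γ := by
      rw [hell, Real.log_div (by positivity) (by positivity)]
    rw [hlog, hsq] at h1
    have hint : Integrable fun u : ℝ => ((w u * ‖P (T ^ 3) (T * u)‖ ^ 2 : ℝ) : ℂ) *
        Complex.exp (Complex.I * (T * u * ell γ : ℝ)) := by
      refine Continuous.integrable_of_hasCompactSupport ?_ ?_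
      · have h2 : Continuous fun u : ℝ => w u * ‖P (T ^ 3) (T * u)‖ ^ 2 :=
          hw.smooth.continuous.mul (hpc.pow 2)
        exact (Complex.continuous_ofReal.comp h2).mul (by fun_prop)
      · refine HasCompactSupport.mul_right ?_
        have h3 : HasCompactSupport fun u : ℝ => w u * ‖P (T ^ 3) (T * u)‖ ^ 2 :=
          (tw_compact hw).mul_right
        exact h3.comp_left (g := fun x : ℝ => (x : ℂ)) (by simp)
    have hre := Complex.reCLM.integral_comp_comm hint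
    have h4 : (∫ u : ℝ, Complex.reCLM (((w u * ‖P (T ^ 3) (T * u)‖ ^ 2 : ℝ) : ℂ) *
        Complex.exp (Complex.I * (T * u * ell γ : ℝ)))) =
        ∫ u : ℝ, w u * (p u ^ 2 * Real.cos (T * u * ell γ)) := by
      apply integral_congr_ae
      filter_upwards with u
      have h5 : Complex.exp (Complex.I * ((T * u * ell γ : ℝ) : ℂ)) =
          Complex.exp (((T * u * ell γ : ℝ) : ℂ) * Complex.I) := by rw [mul_comm]
      simp only [Complex.reCLM_apply]
      rw [h5, Complex.re_ofReal_mul, Complex.exp_ofReal_mul_I_re]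
      simp only [hp]
      ring
    rw [h4] at hre
    have h6 := (Complex.abs_re_le_norm _).trans h1
    rw [Complex.sub_re, Complex.ofReal_re] at h6
    have h7 : (∫ u : ℝ, ((w u * ‖P (T ^ 3) (T * u)‖ ^ 2 : ℝ) : ℂ) *
        Complex.exp (Complex.I * (T * u * ell γ : ℝ))).re =
        ∫ u : ℝ, w u * (p u ^ 2 * Real.cos (T * u * ell γ)) := hre.symm
    rw [h7] at h6
    have h8 := (abs_le.1 h6).1
    have h9 : Real.log (T / ((num γ : ℝ) * (den γ : ℝ))) = L - ht γ := by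
      rw [Real.log_div hT0.ne' hnm0.ne', ← hht]
    rw [h9] at h8
    have h10 : W0 w / Real.exp (ht γ / 2) * (L - ht γ) =
        W0 w * (Real.exp (-(ht γ / 2)) * (L - ht γ)) := by
      rw [Real.exp_neg]
      ring
    have h11 : 1 / Real.exp (ht γ / 2) = Real.exp (-(ht γ / 2)) := by
      rw [Real.exp_neg, one_div]
    rw [h10, h11] at h8
    linarith
  -- (3) comparison
  set et := C' * T ^ (-(1 / 2) : ℝ) with het
  have het0 : 0 ≤ et := by positivity
  have hmain : (∫ u : ℝ, w u * (p u ^ 2 * Real.cos (T * u * ell γ))) -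
      ((et ^ 2 + et) * W0 w + et * ∫ u : ℝ, w u * p u ^ 2) ≤
      ∫ u : ℝ, w u * (Zt (T * u) * Real.cos (T * u * ell γ)) := by
    have hI5 : Integrable fun u : ℝ => (et ^ 2 + et) * w u + et * (w u * p u ^ 2) :=
      (hI3.const_mul _).add (hI2.const_mul _)
    have h0 : ∫ u : ℝ, ((et ^ 2 + et) * w u + et * (w u * p u ^ 2)) =
        (et ^ 2 + et) * W0 w + et * ∫ u : ℝ, w u * p u ^ 2 := by
      rw [integral_add (hI3.const_mul _) (hI2.const_mul _), integral_const_mul, integral_const_mul]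
      rfl
    have h1 : (∫ u : ℝ, w u * (p u ^ 2 * Real.cos (T * u * ell γ))) -
        ((et ^ 2 + et) * W0 w + et * ∫ u : ℝ, w u * p u ^ 2) =
        ∫ u : ℝ, (w u * (p u ^ 2 * Real.cos (T * u * ell γ)) -
          ((et ^ 2 + et) * w u + et * (w u * p u ^ 2))) := by
      rw [integral_sub hI1 hI5, h0]
    rw [h1]
    apply integral_mono (hI1.sub hI5) hI4
    intro u
    by_cases hu : w u = 0
    · simp [hu]
    · have h2 := hT₁ T hTT1 u hu
      have h3 : |‖riemannZeta (1 / 2 + ((T * u : ℝ) : ℂ) * Complex.I)‖ - p u| ≤ et :=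
        (abs_norm_sub_norm_le _ _).trans h2
      have h4 := tw_pt (co := Real.cos (T * u * ell γ)) (norm_nonneg _) (norm_nonneg _) het0 h3
        (Real.abs_cos_le_one _) (hw.nonneg u)
      simpa [Zt, hp] using h4
  -- (4) conclusion
  have hfin := hT₂ T hTT2 (ht γ) hht0 hγ
  have hcc : cc κ L γ = Real.exp (-(ht γ / 2)) * (L - ht γ - κ * L) := by
    unfold cc pz
    have h1 : |ht γ / L| = ht γ / L := abs_of_nonneg (div_nonneg hht0 hLpos.le)
    have h2 : ht γ / L ≤ 1 - κ := by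
      rw [div_le_iff₀ hLpos]
      exact hγ
    rw [h1, max_eq_right (by linarith)]
    field_simp
    ring
  rw [hcc]
  have h12 : et * (∫ u : ℝ, w u * p u ^ 2) ≤ et * (W0 w * L + C * (1 + L / T)) :=
    mul_le_mul_of_nonneg_left hA het0
  have h13 : W0 w * (Real.exp (-(ht γ / 2)) * (L - ht γ - κ * L)) =
      W0 w * (Real.exp (-(ht γ / 2)) * (L - ht γ)) - W0 w * (Real.exp (-(ht γ / 2)) * (κ * L)) := by
    ring
  rw [h13]
  linarith

end Pool.Agent.Work.MP_56b8f5_nt.EM
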