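import Pool.Agent.Work.MP_56b8f5_nt.EM.Stmts

/-!
MP_56b8f5_nt, block EM: item VAR (variation in `b` for fixed `r`).
-/

open MeasureTheory Set Filter Topology

noncomputable section

namespace Pool.Agent.Work.MP_56b8f5_nt.EM

/-- Multiplying by a decreasing non-negative sequence. -/
theorem var_mul (g : ℕ → ℂ) (u : ℕ → ℝ) (S V : ℝ) (hu : ∀ b, u (b + 1) ≤ u b)
    (hu0 : ∀ b, 0 ≤ u b) (hS : ∀ b, ‖g b‖ ≤ S)
    (hg : Summable fun b => ‖g (b + 1) - g b‖) (hV : ∑' b, ‖g (b + 1) - g b‖ ≤ V) :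
    (Summable fun b => ‖(u (b + 1) : ℂ) * g (b + 1) - (u b : ℂ) * g b‖) ∧
    ∑' b, ‖(u (b + 1) : ℂ) * g (b + 1) - (u b : ℂ) * g b‖ ≤ u 0 * (V + S) := by
  have hS0 : 0 ≤ S := le_trans (norm_nonneg _) (hS 0)
  have hanti : ∀ b, u b ≤ u 0 := by
    intro b
    induction b with
    | zero => exact le_refl _
    | succ n ih => exact le_trans (hu n) ih
  have hterm : ∀ b, ‖(u (b + 1) : ℂ) * g (b + 1) - (u b : ℂ) * g b‖ ≤
      u 0 * ‖g (b + 1) - g b‖ + S * (u b - u (b + 1)) := by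
    intro b
    have h1 : (u (b + 1) : ℂ) * g (b + 1) - (u b : ℂ) * g b =
        (u (b + 1) : ℂ) * (g (b + 1) - g b) - ((u b - u (b + 1) : ℝ) : ℂ) * g b := by
      push_cast; ring
    rw [h1]
    refine le_trans (norm_sub_le _ _) ?_
    rw [norm_mul, norm_mul, Complex.norm_real, Complex.norm_real, Real.norm_of_nonneg (hu0 _),
      Real.norm_of_nonneg (sub_nonneg.mpr (hu b))]
    have h2 := mul_le_mul_of_nonneg_right (hanti (b + 1)) (norm_nonneg (g (b + 1) - g b))
    have h3 := mul_le_mul_of_nonneg_left (hS b) (sub_nonneg.mpr (hu b))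
    linarith
  have htel : ∀ n : ℕ, ∑ b ∈ Finset.range n, (u b - u (b + 1)) = u 0 - u n := by
    intro n
    rw [Finset.sum_range_sub']
  have hpart : ∀ n : ℕ, ∑ b ∈ Finset.range n, ‖(u (b + 1) : ℂ) * g (b + 1) - (u b : ℂ) * g b‖ ≤
      u 0 * (V + S) := by
    intro n
    calc ∑ b ∈ Finset.range n, ‖(u (b + 1) : ℂ) * g (b + 1) - (u b : ℂ) * g b‖
        ≤ ∑ b ∈ Finset.range n, (u 0 * ‖g (b + 1) - g b‖ + S * (u b - u (b + 1))) :=
          Finset.sum_le_sum fun b _ => hterm b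
      _ = u 0 * ∑ b ∈ Finset.range n, ‖g (b + 1) - g b‖ + S * (u 0 - u n) := by
          rw [Finset.sum_add_distrib, ← Finset.mul_sum, ← Finset.mul_sum, htel]
      _ ≤ u 0 * V + S * u 0 := by
          have h4 : ∑ b ∈ Finset.range n, ‖g (b + 1) - g b‖ ≤ V :=
            le_trans (hg.sum_le_tsum _ fun _ _ => norm_nonneg _) hV
          have h5 := mul_le_mul_of_nonneg_left h4 (hu0 0)
          have h6 := mul_le_mul_of_nonneg_left (sub_le_self (u 0) (hu0 n)) hS0
          linarith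
      _ = u 0 * (V + S) := by ring
  exact ⟨summable_of_sum_range_le (fun _ => norm_nonneg _) hpart,
    Real.tsum_le_of_sum_range_le (fun _ => norm_nonneg _) hpart⟩

/-- Lower bound for the logarithm. -/
theorem var_log (x r : ℝ) (hx : 0 < x) (hr : 2 * |r| ≤ x) :
    |r| / (2 * x) ≤ |Real.log ((x + r) / x)| := by
  have hxr : 0 < x + r := by
    have := neg_abs_le r
    linarith [abs_nonneg r]
  have hq : 0 < (x + r) / x := div_pos hxr hx
  rcases le_or_gt 0 r with h | h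
  · have h1 := Real.one_sub_inv_le_log_of_pos hq
    have h2 : 1 - ((x + r) / x)⁻¹ = r / (x + r) := by
      field_simp
      ring
    rw [h2] at h1
    rw [abs_of_nonneg h] at hr ⊢
    have h3 : r / (2 * x) ≤ r / (x + r) := by
      apply div_le_div_of_nonneg_left h hxr
      linarith
    exact le_trans h3 (le_trans h1 (le_abs_self _))
  · have h1 := Real.log_le_sub_one_of_pos hq
    have h2 : (x + r) / x - 1 = r / x := by
      field_simp
      ring
    rw [h2] at h1
    rw [abs_of_neg h]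
    have h3 : -r / (2 * x) ≤ -r / x := by
      apply div_le_div_of_nonneg_left (by linarith) hx
      linarith
    have h4 : -r / x = -(r / x) := by ring
    rw [h4] at h3
    have h5 : -(r / x) ≤ -Real.log ((x + r) / x) := by linarith
    exact le_trans h3 (le_trans h5 (neg_le_abs _))

/-- The function without exponential factors. -/
def var_zf (w : ℝ → ℝ) (T r x : ℝ) : ℂ :=
  ((Real.sqrt ((x + r) * x))⁻¹ : ℝ) * W w 0 (T * Real.log ((x + r) / x))

/-- Its derivative. -/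
def var_zf' (w : ℝ → ℝ) (T r x : ℝ) : ℂ :=
  ((-((2 * x + r) / (2 * Real.sqrt ((x + r) * x))) / (Real.sqrt ((x + r) * x)) ^ 2 : ℝ) : ℂ) *
    W w 0 (T * Real.log ((x + r) / x)) +
  ((Real.sqrt ((x + r) * x))⁻¹ : ℝ) *
    (((T * (-r / x ^ 2 / ((x + r) / x)) : ℝ) : ℂ) * W w 1 (T * Real.log ((x + r) / x)))

theorem var_zf_deriv (w : ℝ → ℝ) (hw : ∀ y, HasDerivAt (W w 0) (W w 1 y) y) (T r x : ℝ) (hx : 0 < x)
    (hxr : 0 < x + r) : HasDerivAt (var_zf w T r) (var_zf' w T r x) x := by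
  have hp : 0 < (x + r) * x := mul_pos hxr hx
  have h1 : HasDerivAt (fun x : ℝ => (x + r) * x) (2 * x + r) x := by
    have := ((hasDerivAt_id x).add_const r).mul (hasDerivAt_id x)
    refine this.congr_deriv ?_
    simp
    ring
  have h2 : HasDerivAt (fun x : ℝ => Real.sqrt ((x + r) * x))
      ((2 * x + r) / (2 * Real.sqrt ((x + r) * x))) x := h1.sqrt hp.ne'
  have h3 : HasDerivAt (fun x : ℝ => (Real.sqrt ((x + r) * x))⁻¹)
      (-((2 * x + r) / (2 * Real.sqrt ((x + r) * x))) / (Real.sqrt ((x + r) * x)) ^ 2) x := by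
    exact h2.inv (Real.sqrt_pos.mpr hp).ne'
  have h4 : HasDerivAt (fun x : ℝ => (x + r) / x) (-r / x ^ 2) x := by
    have := ((hasDerivAt_id x).add_const r).div (hasDerivAt_id x) hx.ne'
    refine this.congr_deriv ?_
    simp
  have h5 : HasDerivAt (fun x : ℝ => T * Real.log ((x + r) / x))
      (T * (-r / x ^ 2 / ((x + r) / x))) x :=
    (h4.log (div_pos hxr hx).ne').const_mul T
  have h6 : HasDerivAt (fun x : ℝ => W w 0 (T * Real.log ((x + r) / x)))
      ((T * (-r / x ^ 2 / ((x + r) / x))) • W w 1 (T * Real.log ((x + r) / x))) x :=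
    (hw _).scomp x h5
  have h7 := h3.ofReal_comp.mul h6
  refine h7.congr_deriv ?_
  rw [var_zf', Complex.real_smul]

/-- Bounds for `W` along the diagonal. -/
theorem var_W (w : ℝ → ℝ) (j : ℕ) (C : ℝ) (hC : 0 ≤ C) (hW : ∀ y, ‖W w j y‖ ≤ C / (1 + |y|) ^ 3)
    (T r x : ℝ) (hT : 0 ≤ T) (hx : 0 < x) (hr : 2 * |r| ≤ x) :
    ‖W w j (T * Real.log ((x + r) / x))‖ ≤ C / (1 + T * |r| / 2 / x) ^ 3 := by
  have h1 := var_log x r hx hr
  have h2 : T * |r| / 2 / x ≤ |T * Real.log ((x + r) / x)| := by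
    rw [abs_mul, abs_of_nonneg hT]
    have h3 := mul_le_mul_of_nonneg_left h1 hT
    have h4 : T * |r| / 2 / x = T * (|r| / (2 * x)) := by
      field_simp
    rw [h4]
    exact h3
  have h5 : 0 ≤ T * |r| / 2 / x := by positivity
  refine le_trans (hW _) ?_
  apply div_le_div_of_nonneg_left hC (by positivity)
  exact pow_le_pow_left₀ (by positivity) (by linarith) 3

/-- Lower bound for the square root. -/
theorem var_sqrt (x r : ℝ) (hx : 0 < x) (hr : 2 * |r| ≤ x) :
    x ^ 2 / 2 ≤ (x + r) * x ∧ x / 2 ≤ Real.sqrt ((x + r) * x) ∧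
    Real.sqrt ((x + r) * x) ^ 2 = (x + r) * x ∧ 2 * x + r ≤ 3 * x ∧ 0 ≤ 2 * x + r := by
  have h0 := neg_abs_le r
  have h0' := le_abs_self r
  have h1 : x / 2 ≤ x + r := by linarith
  have h2 : x ^ 2 / 2 ≤ (x + r) * x := by
    have := mul_le_mul_of_nonneg_right h1 hx.le
    nlinarith
  have hp : 0 ≤ (x + r) * x := le_trans (by positivity) h2
  refine ⟨h2, ?_, Real.sq_sqrt hp, by linarith, by linarith⟩
  apply Real.le_sqrt_of_sq_le
  nlinarith [sq_nonneg x]

theorem var_zf_bound (w : ℝ → ℝ) (C : ℝ) (hC : 0 ≤ C) (hW : ∀ y, ‖W w 0 y‖ ≤ C / (1 + |y|) ^ 3)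
    (T r x : ℝ) (hT : 1 ≤ T) (hx : 0 < x) (hr : 2 * |r| ≤ x) (hr0 : 0 < |r|) :
    ‖var_zf w T r x‖ ≤ 4 * C / (T * |r|) := by
  have hTr : 0 < T * |r| := by positivity
  have h1 := var_W w 0 C hC hW T r x (by linarith) hx hr
  obtain ⟨-, h2, -, -, -⟩ := var_sqrt x r hx hr
  have hs : 0 < Real.sqrt ((x + r) * x) := lt_of_lt_of_le (by positivity) h2
  rw [var_zf, norm_mul, Complex.norm_real, Real.norm_of_nonneg (by positivity)]
  have h3 : (Real.sqrt ((x + r) * x))⁻¹ ≤ 2 / x := by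
    rw [inv_le_comm₀ hs (by positivity)]
    refine le_trans (le_of_eq ?_) h2
    field_simp
  have h4 : ‖W w 0 (T * Real.log ((x + r) / x))‖ ≤ C / (1 + T * |r| / 2 / x) := by
    refine le_trans h1 ?_
    apply div_le_div_of_nonneg_left hC (by positivity)
    have h5 : 1 ≤ 1 + T * |r| / 2 / x := by
      have : 0 ≤ T * |r| / 2 / x := by positivity
      linarith
    calc 1 + T * |r| / 2 / x = (1 + T * |r| / 2 / x) ^ 1 := (pow_one _).symm
      _ ≤ (1 + T * |r| / 2 / x) ^ 3 := pow_le_pow_right₀ h5 (by norm_num)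
  calc (Real.sqrt ((x + r) * x))⁻¹ * ‖W w 0 (T * Real.log ((x + r) / x))‖
      ≤ 2 / x * (C / (1 + T * |r| / 2 / x)) := by
        apply mul_le_mul h3 h4 (norm_nonneg _) (by positivity)
    _ = 2 * C / (x + T * |r| / 2) := by
        field_simp
    _ ≤ 2 * C / (T * |r| / 2) := by
        apply div_le_div_of_nonneg_left (by positivity) (by positivity)
        linarith
    _ = 4 * C / (T * |r|) := by
        field_simp
        ring

theorem var_zf'_bound (w : ℝ → ℝ) (C D : ℝ) (hC : 0 ≤ C) (hW : ∀ y, ‖W w 0 y‖ ≤ C / (1 + |y|) ^ 3)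
    (hD : 0 ≤ D) (hW1 : ∀ y, ‖W w 1 y‖ ≤ D / (1 + |y|) ^ 3)
    (T r x : ℝ) (hT : 1 ≤ T) (hx : 0 < x) (hr : 2 * |r| ≤ x) :
    ‖var_zf' w T r x‖ ≤ (6 * C + 8 * D) / (x + T * |r| / 2) ^ 2 := by
  have h1 := var_W w 0 C hC hW T r x (by linarith) hx hr
  have h1' := var_W w 1 D hD hW1 T r x (by linarith) hx hr
  obtain ⟨hp, h2, hsq, h3, h3'⟩ := var_sqrt x r hx hr
  have hs : 0 < Real.sqrt ((x + r) * x) := lt_of_lt_of_le (by positivity) h2
  have hp0 : 0 < (x + r) * x := lt_of_lt_of_le (by positivity) hp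
  have hxr : 0 < x + r := by
    by_contra h
    push Not at h
    nlinarith
  set s := T * |r| / 2 with hsdef
  have hs0 : 0 ≤ s := by positivity
  set q := 1 + s / x with hq
  have hq1 : 1 ≤ q := by
    have : 0 ≤ s / x := by positivity
    linarith
  have hq0 : 0 < q := by linarith
  have hinv : (Real.sqrt ((x + r) * x))⁻¹ ≤ 2 / x := by
    rw [inv_le_comm₀ hs (by positivity)]
    refine le_trans (le_of_eq ?_) h2
    field_simp
  rw [var_zf']
  refine le_trans (norm_add_le _ _) ?_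
  rw [norm_mul, norm_mul, norm_mul, Complex.norm_real, Complex.norm_real, Complex.norm_real,
    Real.norm_of_nonneg (inv_nonneg.mpr hs.le)]
  have e1 : ‖-((2 * x + r) / (2 * Real.sqrt ((x + r) * x))) / (Real.sqrt ((x + r) * x)) ^ 2‖ ≤
      6 / x ^ 2 := by
    rw [neg_div, norm_neg, Real.norm_of_nonneg (by positivity), hsq]
    calc (2 * x + r) / (2 * Real.sqrt ((x + r) * x)) / ((x + r) * x)
        ≤ (3 * x) / (2 * (x / 2)) / (x ^ 2 / 2) := by
          apply div_le_div₀ (by positivity) _ (by positivity) hp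
          apply div_le_div₀ (by positivity) h3 (by positivity)
          linarith
      _ = 6 / x ^ 2 := by
          field_simp
          norm_num
  have e2 : ‖T * (-r / x ^ 2 / ((x + r) / x))‖ ≤ 4 * s / x ^ 2 := by
    have e3 : -r / x ^ 2 / ((x + r) / x) = -(r / ((x + r) * x)) := by
      field_simp
    rw [e3, norm_mul, norm_neg, norm_div, Real.norm_of_nonneg (by linarith : (0 : ℝ) ≤ T),
      Real.norm_of_nonneg hp0.le, Real.norm_eq_abs]
    calc T * (|r| / ((x + r) * x)) ≤ T * (|r| / (x ^ 2 / 2)) := by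
          apply mul_le_mul_of_nonneg_left _ (by linarith)
          apply div_le_div_of_nonneg_left (abs_nonneg _) (by positivity) hp
      _ = 4 * s / x ^ 2 := by
          rw [hsdef]
          field_simp
          norm_num
  have hpow : ∀ E : ℝ, 0 ≤ E → E / q ^ 3 ≤ E / q ^ 2 := by
    intro E hE
    apply div_le_div_of_nonneg_left hE (by positivity)
    exact pow_le_pow_right₀ hq1 (by norm_num)
  have hsx : s / x ≤ q := by linarith
  have f1 : ‖-((2 * x + r) / (2 * Real.sqrt ((x + r) * x))) / (Real.sqrt ((x + r) * x)) ^ 2‖ *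
      ‖W w 0 (T * Real.log ((x + r) / x))‖ ≤ 6 * C / (x + s) ^ 2 := by
    calc _ ≤ 6 / x ^ 2 * (C / q ^ 2) :=
          mul_le_mul e1 (le_trans h1 (hpow C hC)) (norm_nonneg _) (by positivity)
      _ = 6 * C / (x + s) ^ 2 := by
          have : x + s = x * q := by
            rw [hq]
            field_simp
          rw [this]
          field_simp
  have f2 : (Real.sqrt ((x + r) * x))⁻¹ * (‖T * (-r / x ^ 2 / ((x + r) / x))‖ *
      ‖W w 1 (T * Real.log ((x + r) / x))‖) ≤ 8 * D / (x + s) ^ 2 := by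
    calc _ ≤ 2 / x * (4 * s / x ^ 2 * (D / q ^ 3)) := by
          apply mul_le_mul hinv _ (by positivity) (by positivity)
          exact mul_le_mul e2 h1' (norm_nonneg _) (by positivity)
      _ = (s / x) * (8 * D / (x ^ 2 * q ^ 3)) := by
          field_simp
          ring
      _ ≤ q * (8 * D / (x ^ 2 * q ^ 3)) := by
          apply mul_le_mul_of_nonneg_right hsx (by positivity)
      _ = 8 * D / (x + s) ^ 2 := by
          have : x + s = x * q := by
            rw [hq]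
            field_simp
          rw [this]
          field_simp
  calc _ ≤ 6 * C / (x + s) ^ 2 + 8 * D / (x + s) ^ 2 := add_le_add f1 f2
    _ = (6 * C + 8 * D) / (x + s) ^ 2 := by ring

/-- One step. -/
theorem var_zf_step (w : ℝ → ℝ) (hw : ∀ y, HasDerivAt (W w 0) (W w 1 y) y) (C D : ℝ) (hC : 0 ≤ C)
    (hW : ∀ y, ‖W w 0 y‖ ≤ C / (1 + |y|) ^ 3)
    (hD : 0 ≤ D) (hW1 : ∀ y, ‖W w 1 y‖ ≤ D / (1 + |y|) ^ 3)
    (T r x : ℝ) (hT : 1 ≤ T) (hx : 0 < x) (hr : 2 * |r| ≤ x) :
    ‖var_zf w T r (x + 1) - var_zf w T r x‖ ≤ (6 * C + 8 * D) / (x + T * |r| / 2) ^ 2 := by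
  have hpos : 0 < x + T * |r| / 2 := by
    have : 0 ≤ T * |r| / 2 := by positivity
    linarith
  have h := Convex.norm_image_sub_le_of_norm_hasDerivWithin_le (f := var_zf w T r)
    (f' := var_zf' w T r) (s := Icc x (x + 1)) (C := (6 * C + 8 * D) / (x + T * |r| / 2) ^ 2)
    (x := x) (y := x + 1) ?_ ?_ (convex_Icc _ _) ⟨le_refl _, by linarith⟩ ⟨by linarith, le_refl _⟩
  · simpa using h
  · intro y hy
    have hy0 : 0 < y := lt_of_lt_of_le hx hy.1
    have h0 := neg_abs_le r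
    refine (var_zf_deriv w hw T r y hy0 ?_).hasDerivWithinAt
    linarith [hy.1, abs_nonneg r]
  · intro y hy
    have hy0 : 0 < y := lt_of_lt_of_le hx hy.1
    refine le_trans (var_zf'_bound w C D hC hW hD hW1 T r y hT hy0 (le_trans hr hy.1)) ?_
    apply div_le_div_of_nonneg_left (by positivity) (by positivity)
    exact pow_le_pow_left₀ hpos.le (by linarith [hy.1]) 2

/-- Total variation without exponential factors. -/
theorem var_zf_var (w : ℝ → ℝ) (hw : ∀ y, HasDerivAt (W w 0) (W w 1 y) y) (C D : ℝ) (hC : 0 ≤ C)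
    (hW : ∀ y, ‖W w 0 y‖ ≤ C / (1 + |y|) ^ 3)
    (hD : 0 ≤ D) (hW1 : ∀ y, ‖W w 1 y‖ ≤ D / (1 + |y|) ^ 3)
    (T r : ℝ) (N : ℕ) (hT : 1 ≤ T) (hN : 1 ≤ N) (hr : 2 * |r| ≤ N) (hr0 : 0 < |r|) :
    (Summable fun b : ℕ => ‖var_zf w T r ((b + 1 : ℕ) + N) - var_zf w T r ((b : ℕ) + N)‖) ∧
    ∑' b : ℕ, ‖var_zf w T r ((b + 1 : ℕ) + N) - var_zf w T r ((b : ℕ) + N)‖ ≤
      (12 * C + 16 * D) / (T * |r|) := by
  have hTr : 0 < T * |r| := by positivity
  set s := T * |r| / 2 with hs
  have hs0 : 0 < s := by positivity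
  set E := 6 * C + 8 * D with hE
  have hE0 : 0 ≤ E := by positivity
  have hN' : (1 : ℝ) ≤ N := by exact_mod_cast hN
  have hterm : ∀ b : ℕ, ‖var_zf w T r ((b + 1 : ℕ) + N) - var_zf w T r ((b : ℕ) + N)‖ ≤
      E * (1 / ((b : ℝ) + N - 1 + s) - 1 / (((b + 1 : ℕ) : ℝ) + N - 1 + s)) := by
    intro b
    have hb : (0 : ℝ) ≤ b := Nat.cast_nonneg b
    have h1 := var_zf_step w hw C D hC hW hD hW1 T r ((b : ℝ) + N) hT (by linarith) (by linarith)
    have h2 : ((b + 1 : ℕ) : ℝ) + N = (b : ℝ) + N + 1 := by push_cast; ring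
    rw [h2]
    refine le_trans h1 ?_
    rw [← hs, ← hE, div_eq_mul_one_div]
    apply mul_le_mul_of_nonneg_left _ hE0
    have h3 : 0 < (b : ℝ) + N - 1 + s := by linarith
    have h4 : 0 < (b : ℝ) + N + 1 - 1 + s := by linarith
    rw [div_sub_div _ _ h3.ne' h4.ne', div_le_div_iff₀ (by positivity) (by positivity)]
    nlinarith
  have hpart : ∀ n : ℕ, ∑ b ∈ Finset.range n, ‖var_zf w T r ((b + 1 : ℕ) + N) - var_zf w T r ((b : ℕ) + N)‖ ≤
      (12 * C + 16 * D) / (T * |r|) := by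
    intro n
    calc _ ≤ ∑ b ∈ Finset.range n,
          E * (1 / ((b : ℝ) + N - 1 + s) - 1 / (((b + 1 : ℕ) : ℝ) + N - 1 + s)) :=
          Finset.sum_le_sum fun b _ => hterm b
      _ = E * (1 / (((0 : ℕ) : ℝ) + N - 1 + s) - 1 / ((n : ℝ) + N - 1 + s)) := by
          rw [← Finset.mul_sum, Finset.sum_range_sub' (fun b : ℕ => 1 / ((b : ℝ) + N - 1 + s))]
      _ ≤ E * (1 / s) := by
          apply mul_le_mul_of_nonneg_left _ hE0
          have h5 : 0 ≤ 1 / ((n : ℝ) + N - 1 + s) := by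
            have : (0 : ℝ) ≤ n := Nat.cast_nonneg n
            apply div_nonneg zero_le_one
            linarith
          have h6 : 1 / (((0 : ℕ) : ℝ) + N - 1 + s) ≤ 1 / s := by
            apply one_div_le_one_div_of_le hs0
            push_cast
            linarith
          linarith
      _ = (12 * C + 16 * D) / (T * |r|) := by
          rw [hE, hs]
          field_simp
          ring
  exact ⟨summable_of_sum_range_le (fun _ => norm_nonneg _) hpart,
    Real.tsum_le_of_sum_range_le (fun _ => norm_nonneg _) hpart⟩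

/-- `F` as a product. -/
theorem var_F_eq (w : ℝ → ℝ) (T A B r x : ℝ) :
    F w T A B (x + r) x = (Real.exp (-(x / B)) : ℂ) * ((Real.exp (-((x + r) / A)) : ℂ) * var_zf w T r x) := by
  rw [F, var_zf]
  have h : Real.exp (-((x + r) / A) - x / B) = Real.exp (-(x / B)) * Real.exp (-((x + r) / A)) := by
    rw [← Real.exp_add]
    ring_nf
  rw [h, div_eq_mul_inv]
  push_cast
  ring

/-- Item VAR. -/
theorem iVAR (hW : StW) : StVar := by
  intro w hw
  obtain ⟨hd, hb, -⟩ := hW w hw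
  obtain ⟨C, hC, hWC⟩ := hb 0 3
  obtain ⟨D, hD, hWD⟩ := hb 1 3
  have hd0 : ∀ y, HasDerivAt (W w 0) (W w 1 y) y := fun y => hd 0 y
  refine ⟨24 * C + 16 * D, by positivity, ?_⟩
  intro A B T hA hB hT r hr
  have hA0 : 0 < A := by linarith
  have hB0 : 0 < B := by linarith
  set R : ℝ := |(r : ℝ)| with hR
  have hR1 : 1 ≤ R := by
    rw [hR]
    exact_mod_cast Int.one_le_abs hr
  have hR0 : 0 < R := by linarith
  set N : ℕ := 2 * r.natAbs with hNdef
  have hNR : (N : ℝ) = 2 * R := by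
    rw [hNdef, hR]
    push_cast
    rw [Nat.cast_natAbs]
    push_cast
    ring
  have hN1 : 1 ≤ N := by
    have : 0 < r.natAbs := Int.natAbs_pos.mpr hr
    omega
  have hTR : 0 < T * R := by positivity
  have hlt : ∀ b : ℕ, b < N → fr w T A B r b = 0 := by
    intro b hb
    rw [fr, if_neg]
    have : |r| = (r.natAbs : ℤ) := Int.abs_eq_natAbs r
    omega
  have hge : ∀ b : ℕ, fr w T A B r (b + N) = (Real.exp (-(((b : ℝ) + N) / B)) : ℂ) *
      ((Real.exp (-(((b : ℝ) + N + r) / A)) : ℂ) * var_zf w T r ((b : ℝ) + N)) := by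
    intro b
    rw [fr, if_pos]
    · have := var_F_eq w T A B r ((b : ℝ) + N)
      rw [← this]
      push_cast
      rfl
    · have : |r| = (r.natAbs : ℤ) := Int.abs_eq_natAbs r
      push_cast
      omega
  -- first factor
  obtain ⟨hs0, hv0⟩ := var_zf_var w hd0 C D hC hWC hD hWD T r N hT hN1 (by rw [hNR]) hR0
  have hbd : ∀ b : ℕ, ‖var_zf w T r ((b : ℝ) + N)‖ ≤ 4 * C / (T * R) := by
    intro b
    have hb : (0 : ℝ) ≤ b := Nat.cast_nonneg b
    have : (1 : ℝ) ≤ N := by exact_mod_cast hN1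
    exact var_zf_bound w C hC hWC T r _ hT (by linarith) (by rw [hNR]; linarith) hR0
  have hα0 : Real.exp (-((((0 : ℕ) : ℝ) + N + r) / A)) ≤ 1 := by
    rw [Real.exp_le_one_iff, neg_nonpos]
    apply div_nonneg _ hA0.le
    rw [hNR]
    have := neg_abs_le (r : ℝ)
    push_cast
    linarith
  obtain ⟨hs1, hv1⟩ := var_mul (fun b : ℕ => var_zf w T r ((b : ℝ) + N))
    (fun b : ℕ => Real.exp (-(((b : ℝ) + N + r) / A))) (4 * C / (T * R))
    ((12 * C + 16 * D) / (T * R)) (by
      intro b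
      apply Real.exp_le_exp.mpr
      apply neg_le_neg
      apply div_le_div_of_nonneg_right _ hA0.le
      push_cast
      linarith) (fun b => (Real.exp_pos _).le) hbd hs0 hv0
  have hs1' : (fun b : ℕ => Real.exp (-(((b : ℝ) + N + r) / A))) 0 *
      ((12 * C + 16 * D) / (T * R) + 4 * C / (T * R)) ≤ (16 * C + 16 * D) / (T * R) := by
    have e : (12 * C + 16 * D) / (T * R) + 4 * C / (T * R) = (16 * C + 16 * D) / (T * R) := by
      ring
    rw [e]
    exact mul_le_of_le_one_left (by positivity) hα0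
  have hbd1 : ∀ b : ℕ, ‖(Real.exp (-(((b : ℝ) + N + r) / A)) : ℂ) * var_zf w T r ((b : ℝ) + N)‖ ≤
      4 * C / (T * R) := by
    intro b
    rw [norm_mul, Complex.norm_real, Real.norm_of_nonneg (Real.exp_pos _).le]
    refine le_trans (mul_le_of_le_one_left (norm_nonneg _) ?_) (hbd b)
    refine le_trans (Real.exp_le_exp.mpr ?_) hα0
    apply neg_le_neg
    apply div_le_div_of_nonneg_right _ hA0.le
    push_cast
    have : (0 : ℝ) ≤ b := Nat.cast_nonneg b
    linarith
  obtain ⟨hs2, hv2⟩ := var_mul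
    (fun b : ℕ => (Real.exp (-(((b : ℝ) + N + r) / A)) : ℂ) * var_zf w T r ((b : ℝ) + N))
    (fun b : ℕ => Real.exp (-(((b : ℝ) + N) / B))) (4 * C / (T * R))
    ((16 * C + 16 * D) / (T * R)) (by
      intro b
      apply Real.exp_le_exp.mpr
      apply neg_le_neg
      apply div_le_div_of_nonneg_right _ hB0.le
      push_cast
      linarith) (fun b => (Real.exp_pos _).le) hbd1 hs1 (le_trans hv1 hs1')
  have hu0 : Real.exp (-((((0 : ℕ) : ℝ) + N) / B)) = Real.exp (-(2 * R / B)) := by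
    rw [hNR]
    push_cast
    ring_nf
  have hshift : ∀ b : ℕ, fr w T A B r (b + N + 1) - fr w T A B r (b + N) =
      (Real.exp (-((((b + 1 : ℕ) : ℝ) + N) / B)) : ℂ) *
      ((Real.exp (-((((b + 1 : ℕ) : ℝ) + N + r) / A)) : ℂ) * var_zf w T r (((b + 1 : ℕ) : ℝ) + N)) -
      (Real.exp (-(((b : ℝ) + N) / B)) : ℂ) *
      ((Real.exp (-(((b : ℝ) + N + r) / A)) : ℂ) * var_zf w T r ((b : ℝ) + N)) := by
    intro b
    have e : b + N + 1 = (b + 1) + N := by ring
    rw [e, hge, hge]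
  have hsum : Summable (fun b : ℕ => ‖fr w T A B r (b + 1) - fr w T A B r b‖) := by
    rw [← summable_nat_add_iff N]
    refine hs2.congr ?_
    intro b
    rw [hshift b]
  refine ⟨hsum, ?_⟩
  rw [← hsum.sum_add_tsum_nat_add N]
  have h1 : ∑' b : ℕ, ‖fr w T A B r (b + N + 1) - fr w T A B r (b + N)‖ ≤
      Real.exp (-(2 * R / B)) * ((16 * C + 16 * D) / (T * R) + 4 * C / (T * R)) := by
    rw [← hu0]
    refine le_trans (le_of_eq ?_) hv2
    refine tsum_congr ?_
    intro b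
    rw [hshift b]
  have h2 : ∑ b ∈ Finset.range N, ‖fr w T A B r (b + 1) - fr w T A B r b‖ ≤
      Real.exp (-(2 * R / B)) * (4 * C / (T * R)) := by
    obtain ⟨M, hM⟩ : ∃ M, N = M + 1 := ⟨N - 1, by omega⟩
    rw [hM, Finset.sum_range_succ, Finset.sum_eq_zero, zero_add, hlt M (by omega), sub_zero, ← hM]
    · have h3 := hge 0
      rw [zero_add] at h3
      rw [h3, norm_mul, Complex.norm_real, Real.norm_of_nonneg (Real.exp_pos _).le, ← hu0]
      have h4 := hbd1 0
      exact mul_le_mul_of_nonneg_left h4 (Real.exp_pos _).le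
    · intro b hb
      rw [Finset.mem_range] at hb
      rw [hlt (b + 1) (by omega), hlt b (by omega), sub_zero, norm_zero]
  calc _ ≤ Real.exp (-(2 * R / B)) * (4 * C / (T * R)) +
        Real.exp (-(2 * R / B)) * ((16 * C + 16 * D) / (T * R) + 4 * C / (T * R)) :=
        add_le_add h2 h1
    _ = (24 * C + 16 * D) * Real.exp (-(2 * R / B)) / (T * R) := by ring

end Pool.Agent.Work.MP_56b8f5_nt.EM
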