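import Pool.Agent.Work.MP_56b8f5_nt.EM.Stmts

/-!
MP_56b8f5_nt, block EM, item W: derivatives and decay of the Fourier transform of the weight.
-/

open MeasureTheory Set Filter Topology

noncomputable section

namespace Pool.Agent.Work.MP_56b8f5_nt.EM

/-- Fourier integral. -/
def w_J (f : ℝ → ℂ) (y : ℝ) : ℂ := ∫ u : ℝ, f u * Complex.exp (Complex.I * (y * u : ℝ))

theorem w_norm_exp (y u : ℝ) : ‖Complex.exp (Complex.I * (y * u : ℝ))‖ = 1 := by
  rw [mul_comm]
  exact Complex.norm_exp_ofReal_mul_I _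

theorem w_hasDerivAt_exp (y u : ℝ) : HasDerivAt
    (fun u : ℝ => Complex.exp (Complex.I * (y * u : ℝ)))
    (Complex.I * y * Complex.exp (Complex.I * (y * u : ℝ))) u := by
  have h1 : HasDerivAt (fun u : ℝ => ((y * u : ℝ) : ℂ)) ((y * 1 : ℝ) : ℂ) u :=
    ((hasDerivAt_id u).const_mul y).ofReal_comp
  have h2 := (h1.const_mul Complex.I).cexp
  rw [mul_one] at h2
  rw [mul_comm (Complex.I * (y : ℂ))]
  exact h2

theorem w_cont_exp (y : ℝ) : Continuous (fun u : ℝ => Complex.exp (Complex.I * (y * u : ℝ))) := by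
  fun_prop

theorem w_J_norm (f : ℝ → ℂ) (y : ℝ) : ‖w_J f y‖ ≤ ∫ u : ℝ, ‖f u‖ := by
  unfold w_J
  refine (norm_integral_le_integral_norm _).trans (le_of_eq ?_)
  refine integral_congr_ae (Eventually.of_forall fun u => ?_)
  show ‖f u * _‖ = ‖f u‖
  rw [norm_mul, w_norm_exp, mul_one]

theorem w_parts (f : ℝ → ℂ) (hf : ContDiff ℝ ((⊤ : ℕ∞) : WithTop ℕ∞) f)
    (hc : HasCompactSupport f) (y : ℝ) : |y| * ‖w_J f y‖ = ‖w_J (deriv f) y‖ := by
  have hd : ContDiff ℝ ((⊤ : ℕ∞) : WithTop ℕ∞) (deriv f) := by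
    have h := (contDiff_infty_iff_deriv.1 hf).2
    exact h
  have hdiff : ∀ x, HasDerivAt f (deriv f x) x := fun x =>
    ((contDiff_infty_iff_deriv.1 hf).1 x).hasDerivAt
  have hc' : HasCompactSupport (deriv f) := hc.deriv
  have h := integral_mul_deriv_eq_deriv_mul_of_integrable (u := f)
    (v := fun u : ℝ => Complex.exp (Complex.I * (y * u : ℝ))) (u' := deriv f)
    (v' := fun u : ℝ => Complex.I * y * Complex.exp (Complex.I * (y * u : ℝ)))
    (fun x _ => hdiff x) (fun x _ => w_hasDerivAt_exp y x)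
    ((hf.continuous.mul (continuous_const.mul (w_cont_exp y))).integrable_of_hasCompactSupport
      hc.mul_right)
    ((hd.continuous.mul (w_cont_exp y)).integrable_of_hasCompactSupport hc'.mul_right)
    ((hf.continuous.mul (w_cont_exp y)).integrable_of_hasCompactSupport hc.mul_right)
  have h2 : Complex.I * y * w_J f y = -w_J (deriv f) y := by
    unfold w_J
    rw [← h, ← integral_const_mul]
    refine integral_congr_ae (Eventually.of_forall fun u => ?_)
    show Complex.I * y * (f u * _) = f u * (Complex.I * y * _)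
    ring
  have h3 := congrArg norm h2
  rw [norm_mul, norm_mul, Complex.norm_I, one_mul, norm_neg, Complex.norm_real,
    Real.norm_eq_abs] at h3
  exact h3

theorem w_decay (A : ℕ) : ∀ f : ℝ → ℂ, ContDiff ℝ ((⊤ : ℕ∞) : WithTop ℕ∞) f →
    HasCompactSupport f → ∃ C : ℝ, 0 ≤ C ∧ ∀ y, (1 + |y|) ^ A * ‖w_J f y‖ ≤ C := by
  induction A with
  | zero =>
    intro f _ _
    refine ⟨∫ u : ℝ, ‖f u‖, integral_nonneg fun u => norm_nonneg _, fun y => ?_⟩
    rw [pow_zero, one_mul]
    exact w_J_norm f y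
  | succ A ih =>
    intro f hf hc
    obtain ⟨C₁, h1, h1'⟩ := ih f hf hc
    obtain ⟨C₂, h2, h2'⟩ := ih (deriv f) (contDiff_infty_iff_deriv.1 hf).2 hc.deriv
    refine ⟨C₁ + C₂, add_nonneg h1 h2, fun y => ?_⟩
    have h3 : (1 + |y|) ^ (A + 1) * ‖w_J f y‖ =
        (1 + |y|) ^ A * ‖w_J f y‖ + (1 + |y|) ^ A * ‖w_J (deriv f) y‖ := by
      rw [← w_parts f hf hc y]
      ring
    rw [h3]
    exact add_le_add (h1' y) (h2' y)

/-- The functions `(iu)^j w(u)`. -/
def w_g (w : ℝ → ℝ) (j : ℕ) (u : ℝ) : ℂ := (Complex.I * u) ^ j * (w u : ℂ)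

theorem w_g_smooth {w : ℝ → ℝ} (hw : IsW w) (j : ℕ) :
    ContDiff ℝ ((⊤ : ℕ∞) : WithTop ℕ∞) (w_g w j) := by
  unfold w_g
  have h1 : ContDiff ℝ ((⊤ : ℕ∞) : WithTop ℕ∞) (fun u : ℝ => (u : ℂ)) :=
    Complex.ofRealCLM.contDiff
  have h2 : ContDiff ℝ ((⊤ : ℕ∞) : WithTop ℕ∞) (fun u : ℝ => ((w u : ℝ) : ℂ)) :=
    Complex.ofRealCLM.contDiff.comp hw.smooth
  exact ((contDiff_const.mul h1).pow j).mul h2

theorem w_g_supp {w : ℝ → ℝ} (hw : IsW w) (j : ℕ) : HasCompactSupport (w_g w j) := by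
  obtain ⟨c, hc, hs⟩ := hw.supp
  refine HasCompactSupport.intro (isCompact_Icc (a := c) (b := 1)) fun u hu => ?_
  have h0 : w u = 0 := by
    by_contra h
    exact hu (hs u h)
  unfold w_g
  rw [h0, Complex.ofReal_zero, mul_zero]

theorem w_W_eq (w : ℝ → ℝ) (j : ℕ) (y : ℝ) : W w j y = w_J (w_g w j) y := rfl

theorem w_deriv {w : ℝ → ℝ} (hw : IsW w) (j : ℕ) (y : ℝ) :
    HasDerivAt (W w j) (W w (j + 1) y) y := by
  have hcont := fun (j : ℕ) (y : ℝ) => (w_g_smooth hw j).continuous.mul (w_cont_exp y)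
  have hint : ∀ (j : ℕ) (y : ℝ), Integrable (fun u : ℝ => w_g w j u *
      Complex.exp (Complex.I * (y * u : ℝ))) := fun j y =>
    (hcont j y).integrable_of_hasCompactSupport (w_g_supp hw j).mul_right
  have h := hasDerivAt_integral_of_dominated_loc_of_deriv_le (μ := (volume : Measure ℝ))
    (F := fun (y u : ℝ) => w_g w j u * Complex.exp (Complex.I * (y * u : ℝ)))
    (F' := fun (y u : ℝ) => w_g w (j + 1) u * Complex.exp (Complex.I * (y * u : ℝ)))
    (x₀ := y) (s := univ) (bound := fun u => ‖w_g w (j + 1) u‖) univ_mem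
    (Eventually.of_forall fun y => (hint j y).aestronglyMeasurable) (hint j y)
    (hint (j + 1) y).aestronglyMeasurable
    (Eventually.of_forall fun u y _ => by rw [norm_mul, w_norm_exp, mul_one])
    ((w_g_smooth hw (j + 1)).continuous.integrable_of_hasCompactSupport (w_g_supp hw (j + 1))).norm
    (Eventually.of_forall fun u y _ => by
      have h1 : HasDerivAt (fun y : ℝ => Complex.exp (Complex.I * (y * u : ℝ)))
          (Complex.I * u * Complex.exp (Complex.I * (y * u : ℝ))) y := by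
        have h2 := w_hasDerivAt_exp u y
        simp only [mul_comm u] at h2
        exact h2
      have h3 := h1.const_mul (w_g w j u)
      have h4 : w_g w j u * (Complex.I * u * Complex.exp (Complex.I * (y * u : ℝ))) =
          w_g w (j + 1) u * Complex.exp (Complex.I * (y * u : ℝ)) := by
        unfold w_g
        ring
      rw [h4] at h3
      exact h3)
  exact h.2

theorem iW : StW := by
  intro w hw
  have hw0 : ∀ u, ‖w_g w 0 u‖ = w u := by
    intro u
    unfold w_g
    rw [pow_zero, one_mul, Complex.norm_real, Real.norm_eq_abs, abs_of_nonneg (hw.nonneg u)]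
  refine ⟨fun j y => w_deriv hw j y, fun j A => ?_, fun y => ?_, ?_, ?_, ?_⟩
  · obtain ⟨C, hC, h⟩ := w_decay A (w_g w j) (w_g_smooth hw j) (w_g_supp hw j)
    refine ⟨C, hC, fun y => ?_⟩
    have hpos : 0 < (1 + |y|) ^ A := by positivity
    rw [le_div_iff₀ hpos, mul_comm, w_W_eq]
    exact h y
  · rw [w_W_eq]
    refine (w_J_norm _ y).trans (le_of_eq ?_)
    unfold W0
    exact integral_congr_ae (Eventually.of_forall hw0)
  · unfold W W0
    rw [← integral_complex_ofReal]
    refine integral_congr_ae (Eventually.of_forall fun u => ?_)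
    simp
  · exact integral_nonneg hw.nonneg
  · unfold W0
    obtain ⟨c, hc, hs⟩ := hw.supp
    have h1 : ∫ u : ℝ, w u ≤ ∫ u : ℝ, (Icc (0 : ℝ) 1).indicator (fun _ => (1 : ℝ)) u := by
      refine integral_mono_of_nonneg (Eventually.of_forall hw.nonneg) ?_
        (Eventually.of_forall fun u => ?_)
      · rw [integrable_indicator_iff measurableSet_Icc]
        exact integrableOn_const (by simp)
      · by_cases hu : w u = 0
        · rw [hu]
          exact indicator_nonneg (fun _ _ => zero_le_one) u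
        · have h2 := hs u hu
          have h3 : u ∈ Icc (0 : ℝ) 1 := ⟨hc.le.trans h2.1, h2.2⟩
          rw [indicator_of_mem h3]
          exact hw.le_one u
    refine h1.trans (le_of_eq ?_)
    rw [integral_indicator measurableSet_Icc]
    simp

end Pool.Agent.Work.MP_56b8f5_nt.EM
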