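import Pool.Agent.Work.MP_56b8f5_nt.EM.Stmts

/-!
MP_56b8f5_nt (eighth moment of the Riemann zeta function), block EM, item WEX: admissible weights
with total mass close to one exist.
-/

open MeasureTheory Set Filter Topology

noncomputable section

namespace Pool.Agent.Work.MP_56b8f5_nt.EM

/-- The bump function of the item. -/
private def wexBump (e : ℝ) (h0 : 0 < e) (h1 : e ≤ 1 / 2) : ContDiffBump (1 / 2 : ℝ) where
  rIn := 1 / 2 - e / 2
  rOut := 1 / 2 - e / 4
  rIn_pos := by linarith
  rIn_lt_rOut := by linarith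

theorem iWEX : StWex := by
  intro ε hε
  have h0 : 0 < min ε (1 / 2 : ℝ) := lt_min hε (by norm_num)
  have h1 : min ε (1 / 2 : ℝ) ≤ 1 / 2 := min_le_right _ _
  have h2 : min ε (1 / 2 : ℝ) ≤ ε := min_le_left _ _
  generalize min ε (1 / 2 : ℝ) = e at h0 h1 h2
  refine ⟨wexBump e h0 h1, ⟨(wexBump e h0 h1).contDiff, fun u => (wexBump e h0 h1).nonneg,
    fun u => (wexBump e h0 h1).le_one, e / 4, by linarith, ?_⟩, ?_⟩
  · intro u hu
    have h3 : u ∈ Function.support (wexBump e h0 h1) := hu
    rw [(wexBump e h0 h1).support_eq, Metric.mem_ball, Real.dist_eq, abs_lt] at h3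
    have h4 : (wexBump e h0 h1).rOut = 1 / 2 - e / 4 := rfl
    rw [h4] at h3
    constructor <;> linarith [h3.1, h3.2]
  · have hint : Integrable (wexBump e h0 h1 : ℝ → ℝ) :=
      (wexBump e h0 h1).continuous.integrable_of_hasCompactSupport
        (wexBump e h0 h1).hasCompactSupport
    have h5 : ∫ u in Metric.closedBall (1 / 2 : ℝ) (1 / 2 - e / 2), (1 : ℝ) ≤
        ∫ u in Metric.closedBall (1 / 2 : ℝ) (1 / 2 - e / 2), wexBump e h0 h1 u := by
      apply setIntegral_mono_on
      · exact integrableOn_const (by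
          rw [Real.volume_closedBall]; exact ENNReal.ofReal_ne_top)
      · exact hint.integrableOn
      · exact Metric.isClosed_closedBall.measurableSet
      · intro u hu
        exact ((wexBump e h0 h1).one_of_mem_closedBall hu).ge
    have h6 : ∫ u in Metric.closedBall (1 / 2 : ℝ) (1 / 2 - e / 2), wexBump e h0 h1 u ≤
        ∫ u : ℝ, wexBump e h0 h1 u :=
      setIntegral_le_integral hint (Filter.Eventually.of_forall fun u => (wexBump e h0 h1).nonneg)
    have h7 : ∫ u in Metric.closedBall (1 / 2 : ℝ) (1 / 2 - e / 2), (1 : ℝ) = 1 - e := by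
      rw [setIntegral_const, smul_eq_mul, mul_one, Measure.real, Real.volume_closedBall,
        ENNReal.toReal_ofReal (by linarith)]
      ring
    unfold W0
    linarith

end Pool.Agent.Work.MP_56b8f5_nt.EM
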