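import Pool.Agent.Work.MP_56b8f5_nt.EM.Stmts

/-!
MP_56b8f5_nt, block EM, item XIN: the inner integral for the numerator.
-/

open MeasureTheory Set Filter Topology

noncomputable section

namespace Pool.Agent.Work.MP_56b8f5_nt.EM

theorem xin_mass {κ : ℝ} {η : ℝ → ℝ} (h : IsEta κ η) :
    ∫⁻ x : ℝ, ENNReal.ofReal (η x) = 1 := by
  have hcs : HasCompactSupport η := by
    refine HasCompactSupport.intro (isCompact_Icc (a := 1 / 3 - 4 * κ) (b := 1 / 3 - 3 * κ)) ?_
    intro x hx
    by_contra hne
    exact hx (h.supp x hne)
  have hint : Integrable η := h.cont.integrable_of_hasCompactSupport hcs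
  rw [← ofReal_integral_eq_lintegral_ofReal hint (Eventually.of_forall h.nonneg), h.mass]
  simp

theorem iXIN : StXin := by
  intro κ hκ hκ1 η hη p q hq hq1 hp
  set A : ℝ := 1 / 3 - 4 * κ - q with hA
  set B : ℝ := 2 / 3 + 2 * κ - p + q with hB
  have hA0 : 0 < A := by rw [hA]; linarith
  have hmass : ∫⁻ J in Ioi (0 : ℝ), ENNReal.ofReal (η (J + q)) = 1 := by
    rw [← lintegral_indicator measurableSet_Ioi]
    have h1 : (Ioi (0 : ℝ)).indicator (fun J => ENNReal.ofReal (η (J + q))) =
        fun J => ENNReal.ofReal (η (J + q)) := by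
      funext J
      by_cases hJ : J ∈ Ioi (0 : ℝ)
      · rw [indicator_of_mem hJ]
      · rw [indicator_of_notMem hJ]
        have hJ' : J ≤ 0 := not_lt.mp hJ
        have : η (J + q) = 0 := by
          by_contra hne
          have := (hη.supp _ hne).1
          rw [hA] at hA0
          linarith
        rw [this]; simp
    rw [h1]
    have h2 := lintegral_add_right_eq_self (μ := (volume : Measure ℝ))
      (fun x => ENNReal.ofReal (η x)) q
    rw [h2, xin_mass hη]
  by_cases hBs : B ≤ 0
  · have : ENNReal.ofReal (A * B) = 0 := by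
      rw [ENNReal.ofReal_eq_zero]
      exact mul_nonpos_of_nonneg_of_nonpos hA0.le hBs
    rw [this]; exact zero_le
  · have hB0 : 0 < B := not_le.mp hBs
    calc ENNReal.ofReal (A * B) = ENNReal.ofReal (A * B) * 1 := (mul_one _).symm
      _ = ENNReal.ofReal (A * B) * ∫⁻ J in Ioi (0 : ℝ), ENNReal.ofReal (η (J + q)) := by
          rw [hmass]
      _ = ∫⁻ J in Ioi (0 : ℝ), ENNReal.ofReal (A * B) * ENNReal.ofReal (η (J + q)) := by
          rw [lintegral_const_mul' _ _ ENNReal.ofReal_ne_top]
      _ ≤ ∫⁻ J in Ioi (0 : ℝ), ENNReal.ofReal J * ENNReal.ofReal (pz κ (J + p) * η (J + q)) := by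
          refine setLIntegral_mono' measurableSet_Ioi ?_
          intro J hJ
          have hJ0 : 0 < J := hJ
          by_cases hne : η (J + q) = 0
          · rw [hne]; simp
          · obtain ⟨h1, h2⟩ := hη.supp _ hne
            have hn := hη.nonneg (J + q)
            rw [← ENNReal.ofReal_mul (mul_nonneg hA0.le hB0.le), ← ENNReal.ofReal_mul hJ0.le]
            apply ENNReal.ofReal_le_ofReal
            have hJA : A ≤ J := by rw [hA]; linarith
            have hpz : B ≤ pz κ (J + p) := by
              have habs : |J + p| = J + p := abs_of_pos (by linarith)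
              unfold pz
              rw [habs]
              refine le_trans ?_ (le_max_right _ _)
              rw [hB]; linarith
            have hAB : A * B ≤ J * pz κ (J + p) := mul_le_mul hJA hpz hB0.le hJ0.le
            calc A * B * η (J + q) ≤ (J * pz κ (J + p)) * η (J + q) :=
                  mul_le_mul_of_nonneg_right hAB hn
              _ = J * (pz κ (J + p) * η (J + q)) := by ring

end Pool.Agent.Work.MP_56b8f5_nt.EM
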