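import Pool.Agent.Work.MP_56b8f5_nt.EM.Stmts

/-! Block EM (56b8f5), item XS. -/

open MeasureTheory Set Filter Topology

noncomputable section

namespace Pool.Agent.Work.MP_56b8f5_nt.EM

/-- The change of variables `(γ, γ₂, γ₄) ↦ (γ - γ₂, γ₂, γ - γ₄)`. -/
def xsEquiv : Gam × Gam × Gam ≃ Quad where
  toFun p := (p.1 - p.2.1, p.2.1, p.1 - p.2.2)
  invFun q := (q.1 + q.2.1, q.2.1, g4 q)
  left_inv p := by
    rcases p with ⟨γ, γ2, γ4⟩
    simp only [g4, Prod.mk.injEq, true_and]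
    constructor <;> abel
  right_inv q := by
    rcases q with ⟨a, b, c⟩
    simp only [g4, Prod.mk.injEq, true_and]
    constructor <;> abel

theorem xs_gc_zero {κ x : ℝ} (hκ : 0 < κ) (hx : 2 / 3 < x) : gc κ x = 0 := by
  unfold gc
  apply max_eq_left
  apply (min_le_right _ _).trans
  apply div_nonpos_of_nonpos_of_nonneg _ hκ.le
  have := le_abs_self x
  linarith

theorem xs_eta_zero {κ : ℝ} {η : ℝ → ℝ} (hκ : 0 < κ) (hη : IsEta κ η) {x : ℝ} (hx : 1 / 3 < x) :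
    η x = 0 := by
  by_contra h
  have := (hη.supp x h).2
  linarith

theorem xs_xsEquiv (L : ℝ) (γ γ2 γ4 : Gam) : xs L (xsEquiv (γ, γ2, γ4)) =
    ![ht (γ - γ2) / L, ht γ2 / L, ht (γ - γ4) / L, ht γ4 / L, ht γ / L] := by
  have h4 : g4 (xsEquiv (γ, γ2, γ4)) = γ4 := by
    simp only [xsEquiv, Equiv.coe_fn_mk, g4]; abel
  have h5 : (xsEquiv (γ, γ2, γ4)).1 + (xsEquiv (γ, γ2, γ4)).2.1 = γ := by
    simp only [xsEquiv, Equiv.coe_fn_mk]; abel
  have h1 : (xsEquiv (γ, γ2, γ4)).1 = γ - γ2 := rfl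
  have h2 : (xsEquiv (γ, γ2, γ4)).2.1 = γ2 := rfl
  have h3 : (xsEquiv (γ, γ2, γ4)).2.2 = γ - γ4 := rfl
  unfold xs
  rw [h4, h5, h1, h2, h3]

theorem iXS (_hG : StGam) : StXs := by
  intro κ hκ _ η hη L hL S S' hS hS'
  unfold AL
  rw [← xsEquiv.tsum_eq (fun q : Quad => wt q * GX κ η (xs L q))]
  have hz : ∀ p ∉ S' ×ˢ S ×ˢ S,
      wt (xsEquiv p) * GX κ η (xs L (xsEquiv p)) = 0 := by
    rintro ⟨γ, γ2, γ4⟩ hp
    have key : ∀ (δ : Gam) (c : ℝ), c * L < ht δ → c < ht δ / L := fun δ c h => by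
      rwa [lt_div_iff₀ hL]
    simp only [Finset.mem_product, not_and_or, hS, hS', not_le] at hp
    apply mul_eq_zero_of_right
    rw [xs_xsEquiv]
    simp only [GX, Matrix.cons_val_zero, Matrix.cons_val_one, Matrix.cons_val]
    rcases hp with h | h | h
    · have := xs_gc_zero hκ (key γ _ h)
      simp [this]
    · have := xs_eta_zero hκ hη (key γ2 _ h)
      simp [this]
    · have := xs_eta_zero hκ hη (key γ4 _ h)
      simp [this]
  rw [tsum_eq_sum hz, Finset.sum_product, Finset.mul_sum]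
  refine Finset.sum_congr rfl fun γ _ => ?_
  rw [Finset.sum_product]
  unfold CC
  rw [sq (∑ γ' ∈ S, _), Finset.sum_mul_sum, Finset.mul_sum, Finset.sum_mul]
  refine Finset.sum_congr rfl fun γ2 _ => ?_
  rw [Finset.mul_sum, Finset.sum_mul]
  refine Finset.sum_congr rfl fun γ4 _ => ?_
  have h4 : g4 (xsEquiv (γ, γ2, γ4)) = γ4 := by
    simp only [xsEquiv, Equiv.coe_fn_mk, g4]; abel
  have h1 : (xsEquiv (γ, γ2, γ4)).1 = γ - γ2 := rfl
  have h2 : (xsEquiv (γ, γ2, γ4)).2.1 = γ2 := rfl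
  have h3 : (xsEquiv (γ, γ2, γ4)).2.2 = γ - γ4 := rfl
  have hw : wt (xsEquiv (γ, γ2, γ4)) = Real.exp (-(ht (γ - γ2) / 2)) * Real.exp (-(ht γ2 / 2)) *
      (Real.exp (-(ht (γ - γ4) / 2)) * Real.exp (-(ht γ4 / 2))) := by
    unfold wt
    rw [h4, h1, h2, h3, ← Real.exp_add, ← Real.exp_add, ← Real.exp_add]
    congr 1
    ring
  rw [hw]
  rw [xs_xsEquiv]
  simp only [GX, cc, Hc, Matrix.cons_val_zero, Matrix.cons_val_one, Matrix.cons_val]
  ring

end Pool.Agent.Work.MP_56b8f5_nt.EM
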