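import Pool.Agent.Work.MP_56b8f5_nt.EM.Stmts

/-!
MP_56b8f5_nt, block EM, item XT: the second moment of `f`.
-/

open MeasureTheory Set Filter Topology

noncomputable section

namespace Pool.Agent.Work.MP_56b8f5_nt.EM

/-- Profiles are bounded. -/
theorem xt_eta_bdd {κ : ℝ} {η : ℝ → ℝ} (hη : IsEta κ η) : ∃ B : ℝ, 0 ≤ B ∧ ∀ x, η x ≤ B := by
  obtain ⟨C, hC⟩ := (isCompact_Icc (a := 1 / 3 - 4 * κ) (b := 1 / 3 - 3 * κ)).exists_bound_of_continuousOn
    hη.cont.continuousOn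
  refine ⟨max C 0, le_max_right _ _, fun x => ?_⟩
  by_cases hx : η x = 0
  · rw [hx]; exact le_max_right _ _
  · have h1 := hη.supp x hx
    have h2 := hC x ⟨h1.1, h1.2⟩
    rw [Real.norm_eq_abs] at h2
    exact le_trans (le_abs_self _) (le_trans h2 (le_max_left _ _))

theorem xt_gc_nonneg (κ x : ℝ) : 0 ≤ gc κ x := le_max_left _ _

theorem xt_gc_le_one (κ x : ℝ) : gc κ x ≤ 1 := by
  unfold gc
  exact max_le zero_le_one (min_le_left _ _)

theorem xt_pz_nonneg (ε x : ℝ) : 0 ≤ pz ε x := le_max_left _ _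

theorem xt_pz_le_one {ε : ℝ} (hε : 0 < ε) (x : ℝ) : pz ε x ≤ 1 := by
  unfold pz
  refine max_le zero_le_one ?_
  have := abs_nonneg x
  linarith

theorem xt_card (hF : StFin) {X : ℝ} (hX : 0 ≤ X) (S : Finset Gam) (hS : ∀ γ, γ ∈ S ↔ ht γ ≤ X) :
    (S.card : ℝ) ≤ Real.exp (2 * X) := by
  obtain ⟨S0, h0, h1⟩ := hF X hX
  have : S = S0 := by
    ext γ
    rw [hS, h0]
  rw [this]
  exact h1

theorem xt_cc (hG : StGam) {κ L : ℝ} (hκ : 0 < κ) (hL : 0 ≤ L) (γ : Gam) : |cc κ L γ| ≤ L := by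
  have h0 : 0 ≤ ht γ := (hG.1 γ).2.2.2.2.2
  have h1 : Real.exp (-(ht γ / 2)) ≤ 1 := by
    rw [Real.exp_le_one_iff]; linarith
  have h2 := xt_pz_nonneg κ (ht γ / L)
  have h3 := xt_pz_le_one hκ (ht γ / L)
  have h4 : 0 ≤ Real.exp (-(ht γ / 2)) := (Real.exp_pos _).le
  unfold cc
  rw [abs_of_nonneg (by positivity)]
  have h5 : Real.exp (-(ht γ / 2)) * pz κ (ht γ / L) ≤ 1 := by nlinarith
  nlinarith

theorem xt_Hc (hG : StGam) {κ : ℝ} {η : ℝ → ℝ} (hη : IsEta κ η) {B : ℝ}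
    (hB : ∀ x, η x ≤ B) (L : ℝ) (γ : Gam) : |Hc η L γ| ≤ B := by
  have h0 : 0 ≤ ht γ := (hG.1 γ).2.2.2.2.2
  have h1 : Real.exp (-(ht γ / 2)) ≤ 1 := by
    rw [Real.exp_le_one_iff]; linarith
  have h4 : 0 ≤ Real.exp (-(ht γ / 2)) := (Real.exp_pos _).le
  have h2 := hη.nonneg (ht γ / L)
  have h3 := hB (ht γ / L)
  unfold Hc
  rw [abs_of_nonneg (by positivity)]
  nlinarith

theorem iXT (hMV : StMV) (hXs : StXs) (hG : StGam) (hF : StFin) : StXT := by
  intro w hw κ hκ hκ' η hη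
  obtain ⟨C, hC0, hC⟩ := hMV w hw
  obtain ⟨B, hB0, hB⟩ := xt_eta_bdd hη
  refine ⟨max 3 (C * B ^ 2), fun T hT S S' hS hS' => ?_⟩
  have hT3 : 3 ≤ T := le_trans (le_max_left _ _) hT
  have hTC : C * B ^ 2 ≤ T := le_trans (le_max_right _ _) hT
  have hT0 : 0 < T := by linarith
  have hL : 0 < Real.log T := Real.log_pos (by linarith)
  have hLT : Real.log T ≤ T := Real.log_le_self hT0.le
  set L := Real.log T with hLdef
  have hexp : Real.exp L = T := Real.exp_log hT0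
  have hcS : (S.card : ℝ) ≤ T := by
    refine le_trans (xt_card hF (by positivity) S hS) ?_
    calc Real.exp (2 * (1 / 3 * L)) ≤ Real.exp L := by
          apply Real.exp_le_exp.mpr; linarith
      _ = T := hexp
  have hcS' : (S'.card : ℝ) ≤ T ^ 2 := by
    refine le_trans (xt_card hF (by positivity) S' hS') ?_
    calc Real.exp (2 * (2 / 3 * L)) ≤ Real.exp (L + L) := by
          apply Real.exp_le_exp.mpr; linarith
      _ = T ^ 2 := by rw [Real.exp_add, hexp]; ring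
  have hfc : ∀ γ, |fc κ η L S γ| ≤ T * (T * B) := by
    intro γ
    have h1 : |CC κ η L S γ| ≤ T * (T * B) := by
      unfold CC
      refine le_trans (Finset.abs_sum_le_sum_abs _ _) ?_
      refine le_trans (Finset.sum_le_card_nsmul S _ (T * B) ?_) ?_
      · intro γ' _
        rw [abs_mul]
        exact mul_le_mul (le_trans (xt_cc hG hκ hL.le _) hLT) (xt_Hc hG hη hB L γ')
          (abs_nonneg _) hT0.le
      · rw [nsmul_eq_mul]
        exact mul_le_mul_of_nonneg_right hcS (by positivity)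
    unfold fc
    rw [abs_mul, abs_of_nonneg (xt_gc_nonneg _ _)]
    calc |CC κ η L S γ| * gc κ (ht γ / L) ≤ |CC κ η L S γ| * 1 :=
          mul_le_mul_of_nonneg_left (xt_gc_le_one _ _) (abs_nonneg _)
      _ ≤ T * (T * B) := by rw [mul_one]; exact h1
  have hsum : ∑ γ ∈ S', |fc κ η L S γ| ≤ T ^ 2 * (T * (T * B)) := by
    refine le_trans (Finset.sum_le_card_nsmul S' _ (T * (T * B)) (fun γ _ => hfc γ)) ?_
    rw [nsmul_eq_mul]
    exact mul_le_mul_of_nonneg_right hcS' (by positivity)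
  have hsum0 : 0 ≤ ∑ γ ∈ S', |fc κ η L S γ| := Finset.sum_nonneg fun _ _ => abs_nonneg _
  have hW0 : 0 ≤ W0 w := by
    unfold W0
    exact integral_nonneg hw.nonneg
  have hmain : ∑ γ ∈ S', fc κ η L S γ ^ 2 ≤ L ^ 2 * AL (GX κ η) L := by
    rw [hXs κ hκ hκ' η hη L hL S S' hS hS']
    refine Finset.sum_le_sum fun γ _ => ?_
    unfold fc
    have h1 := xt_gc_nonneg κ (ht γ / L)
    have h2 := xt_gc_le_one κ (ht γ / L)
    rw [mul_pow]
    refine mul_le_mul_of_nonneg_left ?_ (sq_nonneg _)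
    nlinarith
  have herr : C / T ^ 20 * (∑ γ ∈ S', |fc κ η L S γ|) ^ 2 ≤ 1 := by
    have h1 : (∑ γ ∈ S', |fc κ η L S γ|) ^ 2 ≤ (T ^ 2 * (T * (T * B))) ^ 2 :=
      pow_le_pow_left₀ hsum0 hsum 2
    have h2 : C / T ^ 20 * (∑ γ ∈ S', |fc κ η L S γ|) ^ 2 ≤
        C / T ^ 20 * (T ^ 2 * (T * (T * B))) ^ 2 :=
      mul_le_mul_of_nonneg_left h1 (by positivity)
    refine le_trans h2 ?_
    have h3 : C / T ^ 20 * (T ^ 2 * (T * (T * B))) ^ 2 = C * B ^ 2 / T ^ 12 := by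
      field_simp
    rw [h3, div_le_one (by positivity)]
    refine le_trans hTC ?_
    exact le_self_pow₀ (by linarith) (by norm_num)
  refine le_trans (hC T (by linarith) S' (fc κ η L S) (fun γ hγ => (hS' γ).mp hγ)) ?_
  have h5 : W0 w * ∑ γ ∈ S', fc κ η L S γ ^ 2 ≤ W0 w * (L ^ 2 * AL (GX κ η) L) :=
    mul_le_mul_of_nonneg_left hmain hW0
  linarith

end Pool.Agent.Work.MP_56b8f5_nt.EM
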