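import Pool.Agent.Work.MP_56b8f5_nt.EM.Stmts

/-!
MP_56b8f5_nt, block EM, item YS: `AL (GY η) L` as a finite sum.
-/

open MeasureTheory Set Filter Topology

noncomputable section

namespace Pool.Agent.Work.MP_56b8f5_nt.EM

private lemma ys_zero {κ : ℝ} (hκ : 0 < κ) {η : ℝ → ℝ} (hη : IsEta κ η) {L : ℝ} (hL : 0 < L)
    {S : Finset Gam} (hS : ∀ γ, γ ∈ S ↔ ht γ ≤ 1 / 3 * L) {γ : Gam} (h : γ ∉ S) :
    Hc η L γ = 0 := by
  unfold Hc
  by_contra hne
  have h1 : η (ht γ / L) ≠ 0 := fun h0 => hne (by rw [h0, mul_zero])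
  have h2 := (hη.supp _ h1).2
  apply h
  rw [hS]
  rw [div_le_iff₀ hL] at h2
  nlinarith [mul_pos hκ hL]

private lemma ys_term (hG : StGam) {κ : ℝ} (hκ : 0 < κ) {η : ℝ → ℝ} (hη : IsEta κ η) {L : ℝ}
    (hL : 0 < L) (q : Quad) :
    wt q * GY η (xs L q) = Hc η L q.1 * Hc η L q.2.1 * Hc η L q.2.2 * Hc η L (g4 q) := by
  have hwt : wt q = Real.exp (-(ht q.1 / 2)) * Real.exp (-(ht q.2.1 / 2)) *
      Real.exp (-(ht q.2.2 / 2)) * Real.exp (-(ht (g4 q) / 2)) := by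
    unfold wt
    rw [← Real.exp_add, ← Real.exp_add, ← Real.exp_add]
    congr 1
    ring
  have hGY : GY η (xs L q) = η (ht q.1 / L) * η (ht q.2.1 / L) * η (ht q.2.2 / L) *
      η (ht (g4 q) / L) * kc (ht (q.1 + q.2.1) / L) := by
    simp [GY, xs]
  rw [hwt, hGY]
  unfold Hc
  by_cases h1 : η (ht q.1 / L) = 0
  · rw [h1]; ring
  by_cases h2 : η (ht q.2.1 / L) = 0
  · rw [h2]; ring
  have hk : kc (ht (q.1 + q.2.1) / L) = 1 := by
    have a1 := (hη.supp _ h1).2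
    have a2 := (hη.supp _ h2).2
    have a3 : ht (q.1 + q.2.1) ≤ ht q.1 + ht q.2.1 := hG.2.2.2.2.2.2.1 _ _
    have a4 : 0 ≤ ht (q.1 + q.2.1) := (hG.1 _).2.2.2.2.2
    have a5 : ht (q.1 + q.2.1) / L ≤ ht q.1 / L + ht q.2.1 / L := by
      rw [← add_div]
      exact div_le_div_of_nonneg_right a3 hL.le
    have a6 : 0 ≤ ht (q.1 + q.2.1) / L := div_nonneg a4 hL.le
    unfold kc
    rw [abs_of_nonneg a6]
    have a7 : (1 : ℝ) ≤ 2 - ht (q.1 + q.2.1) / L := by linarith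
    rw [min_eq_left a7]
    exact max_eq_right zero_le_one
  rw [hk]
  ring

theorem iYS (hG : StGam) : StYs := by
  intro κ hκ _ η hη L hL S hS
  have h0 : ∀ γ, γ ∉ S → Hc η L γ = 0 := fun γ h => ys_zero hκ hη hL hS h
  unfold AL
  rw [tsum_congr (fun q => ys_term hG hκ hη hL q)]
  rw [tsum_eq_sum (s := S ×ˢ S ×ˢ S)]
  · rw [Finset.sum_product, Finset.sum_product]
    refine Finset.sum_congr rfl fun x1 _ => ?_
    rw [Finset.sum_product, Finset.sum_product]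
    refine Finset.sum_congr rfl fun x2 _ => ?_
    rw [Finset.sum_product]
    refine Finset.sum_congr rfl fun x3 _ => ?_
    simp only
    have key : ∀ x4 : Gam, (x1 + x2 = x3 + x4) ↔ (x1 + x2 - x3 = x4) := by
      intro x4
      rw [sub_eq_iff_eq_add, add_comm x4 x3]
    simp only [key, g4]
    rw [Finset.sum_ite_eq]
    split_ifs with hmem
    · rfl
    · rw [h0 _ hmem, mul_zero]
  · intro q hq
    rw [Finset.mem_product, Finset.mem_product] at hq
    by_cases h1 : q.1 ∈ S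
    · by_cases h2 : q.2.1 ∈ S
      · have h3 : q.2.2 ∉ S := fun h3 => hq ⟨h1, h2, h3⟩
        rw [h0 _ h3]; ring
      · rw [h0 _ h2]; ring
    · rw [h0 _ h1]; ring

end Pool.Agent.Work.MP_56b8f5_nt.EM
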