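import Pool.Agent.Work.MP_56b8f5_nt.EM.Stmts

/-!
MP_56b8f5_nt, block EM, item YT: the fourth moment of `H`.
-/

set_option autoImplicit false

open MeasureTheory Set Filter Topology

noncomputable section

namespace Pool.Agent.Work.MP_56b8f5_nt.EM

open Classical in
/-- the coefficients of the square -/
def yt_c2 (S : Finset Gam) (c : Gam → ℝ) (γ : Gam) : ℝ :=
  ∑ x ∈ (S ×ˢ S).filter (fun x => x.1 + x.2 = γ), c x.1 * c x.2

open Classical in
/-- the support of the square -/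
def yt_S2 (S : Finset Gam) : Finset Gam := (S ×ˢ S).image (fun x => x.1 + x.2)

lemma yt_chr (hG : StGam) (γ γ' : Gam) (t : ℝ) : chr (γ + γ') t = chr γ t * chr γ' t := by
  unfold chr
  rw [hG.2.2.2.1, ← Complex.exp_add]
  congr 1
  push_cast
  ring

lemma yt_maps (S : Finset Gam) : ∀ x ∈ S ×ˢ S, x.1 + x.2 ∈ yt_S2 S := by
  classical
  intro x hx
  unfold yt_S2
  exact Finset.mem_image_of_mem _ hx

lemma yt_sq (hG : StGam) (S : Finset Gam) (c : Gam → ℝ) (t : ℝ) :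
    D S c t ^ 2 = D (yt_S2 S) (yt_c2 S c) t := by
  classical
  have h1 : D S c t ^ 2 = ∑ x ∈ S ×ˢ S, ((c x.1 * c x.2 : ℝ) : ℂ) * chr (x.1 + x.2) t := by
    unfold D
    rw [sq, Finset.sum_mul_sum, Finset.sum_product]
    apply Finset.sum_congr rfl
    intro x _
    apply Finset.sum_congr rfl
    intro y _
    rw [yt_chr hG]
    push_cast
    ring
  rw [h1, ← Finset.sum_fiberwise_of_maps_to (yt_maps S)]
  unfold D
  apply Finset.sum_congr rfl
  intro γ _
  unfold yt_c2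
  rw [Complex.ofReal_sum, Finset.sum_mul]
  apply Finset.sum_congr (by congr)
  intro x hx
  rw [(Finset.mem_filter.mp hx).2]

lemma yt_sum_sq (S : Finset Gam) (c : Gam → ℝ) :
    ∑ γ ∈ yt_S2 S, yt_c2 S c γ ^ 2 = ∑ x ∈ S ×ˢ S ×ˢ S ×ˢ S,
      (if x.1 + x.2.1 = x.2.2.1 + x.2.2.2 then c x.1 * c x.2.1 * c x.2.2.1 * c x.2.2.2 else 0) := by
  classical
  have h1 : ∀ γ ∈ yt_S2 S, yt_c2 S c γ ^ 2 =
      ∑ x ∈ (S ×ˢ S).filter (fun x => x.1 + x.2 = γ), c x.1 * c x.2 * yt_c2 S c (x.1 + x.2) := by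
    intro γ _
    rw [sq]
    nth_rewrite 1 [yt_c2]
    rw [Finset.sum_mul]
    apply Finset.sum_congr (by congr)
    intro x hx
    rw [(Finset.mem_filter.mp hx).2]
  rw [Finset.sum_congr rfl h1, Finset.sum_fiberwise_of_maps_to (yt_maps S)]
  rw [Finset.sum_product, Finset.sum_product]
  apply Finset.sum_congr rfl
  intro a _
  rw [Finset.sum_product]
  apply Finset.sum_congr rfl
  intro b _
  unfold yt_c2
  rw [Finset.sum_filter, Finset.mul_sum]
  apply Finset.sum_congr rfl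
  intro y _
  simp only
  by_cases h : a + b = y.1 + y.2
  · rw [if_pos h, if_pos h.symm]
    ring
  · rw [if_neg h, if_neg (fun h' => h h'.symm), mul_zero]

lemma yt_sum_abs (S : Finset Gam) (c : Gam → ℝ) :
    ∑ γ ∈ yt_S2 S, |yt_c2 S c γ| ≤ (∑ γ ∈ S, |c γ|) ^ 2 := by
  classical
  calc ∑ γ ∈ yt_S2 S, |yt_c2 S c γ|
      ≤ ∑ γ ∈ yt_S2 S, ∑ x ∈ (S ×ˢ S).filter (fun x => x.1 + x.2 = γ), |c x.1| * |c x.2| := by
        apply Finset.sum_le_sum
        intro γ _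
        unfold yt_c2
        refine (Finset.abs_sum_le_sum_abs _ _).trans (le_of_eq ?_)
        apply Finset.sum_congr (by congr)
        intro x _
        rw [abs_mul]
    _ = ∑ x ∈ S ×ˢ S, |c x.1| * |c x.2| := Finset.sum_fiberwise_of_maps_to (yt_maps S) _
    _ = (∑ γ ∈ S, |c γ|) ^ 2 := by rw [sq, Finset.sum_mul_sum, Finset.sum_product]

lemma yt_bdd {κ : ℝ} {η : ℝ → ℝ} (hη : IsEta κ η) : ∃ C : ℝ, 0 ≤ C ∧ ∀ x, |η x| ≤ C := by
  obtain ⟨C, hC⟩ := (isCompact_Icc (a := 1 / 3 - 4 * κ) (b := 1 / 3 - 3 * κ)).exists_bound_of_continuousOn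
    hη.cont.continuousOn
  refine ⟨max C 0, le_max_right _ _, fun x => ?_⟩
  by_cases h : η x = 0
  · rw [h, abs_zero]
    exact le_max_right _ _
  · have := hC x (hη.supp x h)
    rw [Real.norm_eq_abs] at this
    exact this.trans (le_max_left _ _)

theorem iYT (hMV : StMV) (hYs : StYs) (hG : StGam) (hF : StFin) : StYT := by
  intro w hw κ hκ hκ' η hη
  obtain ⟨C, hC, hM⟩ := hMV w hw
  obtain ⟨E, hE, hEb⟩ := yt_bdd hη
  refine ⟨max 2 (C * E ^ 4), fun T hT S hS => ?_⟩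
  have hT2 : 2 ≤ T := (le_max_left _ _).trans hT
  have hTC : C * E ^ 4 ≤ T := (le_max_right _ _).trans hT
  have hT0 : 0 < T := by linarith
  set L := Real.log T with hL
  have hL0 : 0 < L := Real.log_pos (by linarith)
  have hTL : T = Real.exp L := (Real.exp_log hT0).symm
  set c := Hc η L with hc
  -- the integral
  have h1 : ∫ u : ℝ, w u * ‖D S c (T * u)‖ ^ 4 =
      ∫ u : ℝ, w u * ‖D (yt_S2 S) (yt_c2 S c) (T * u)‖ ^ 2 := by
    congr 1
    funext u
    rw [← yt_sq hG, norm_pow]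
    ring
  rw [h1]
  have hht : ∀ γ ∈ yt_S2 S, ht γ ≤ 2 / 3 * L := by
    classical
    intro γ hγ
    unfold yt_S2 at hγ
    rw [Finset.mem_image] at hγ
    obtain ⟨x, hx, rfl⟩ := hγ
    rw [Finset.mem_product, hS, hS] at hx
    have := hG.2.2.2.2.2.2.1 x.1 x.2
    linarith [hx.1, hx.2]
  refine (hM T (by linarith) (yt_S2 S) (yt_c2 S c) hht).trans ?_
  rw [yt_sum_sq, ← hYs κ hκ hκ' η hη L hL0 S hS]
  -- the error
  have hcard : (S.card : ℝ) ≤ Real.exp (2 / 3 * L) := by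
    obtain ⟨S', hS', hcard⟩ := hF (1 / 3 * L) (by positivity)
    have : S = S' := by
      ext γ
      rw [hS, hS']
    rw [this]
    refine hcard.trans (le_of_eq ?_)
    congr 1
    ring
  have hsum : ∑ γ ∈ S, |c γ| ≤ E * Real.exp (2 / 3 * L) := by
    have h2 : ∀ γ ∈ S, |c γ| ≤ E := by
      intro γ _
      rw [hc]
      unfold Hc
      rw [abs_mul, abs_of_pos (Real.exp_pos _)]
      have h3 : Real.exp (-(ht γ / 2)) ≤ 1 := by
        rw [Real.exp_le_one_iff]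
        have := (hG.1 γ).2.2.2.2.2
        linarith
      calc Real.exp (-(ht γ / 2)) * |η (ht γ / L)| ≤ 1 * E :=
            mul_le_mul h3 (hEb _) (abs_nonneg _) (by norm_num)
        _ = E := one_mul E
    calc ∑ γ ∈ S, |c γ| ≤ ∑ _γ ∈ S, E := Finset.sum_le_sum h2
      _ = S.card * E := by rw [Finset.sum_const, nsmul_eq_mul]
      _ ≤ Real.exp (2 / 3 * L) * E := mul_le_mul_of_nonneg_right hcard hE
      _ = _ := mul_comm _ _
  have herr : C / T ^ 20 * (∑ γ ∈ yt_S2 S, |yt_c2 S c γ|) ^ 2 ≤ 1 := by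
    have h2 : (∑ γ ∈ yt_S2 S, |yt_c2 S c γ|) ≤ (E * Real.exp (2 / 3 * L)) ^ 2 :=
      (yt_sum_abs S c).trans (pow_le_pow_left₀ (Finset.sum_nonneg (fun _ _ => abs_nonneg _)) hsum 2)
    have h3 : (∑ γ ∈ yt_S2 S, |yt_c2 S c γ|) ^ 2 ≤ ((E * Real.exp (2 / 3 * L)) ^ 2) ^ 2 :=
      pow_le_pow_left₀ (Finset.sum_nonneg (fun _ _ => abs_nonneg _)) h2 2
    have h4 : ((E * Real.exp (2 / 3 * L)) ^ 2) ^ 2 ≤ E ^ 4 * T ^ 3 := by
      have e1 : ((E * Real.exp (2 / 3 * L)) ^ 2) ^ 2 = E ^ 4 * Real.exp (2 / 3 * L) ^ 4 := by ring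
      have e2 : Real.exp (2 / 3 * L) ^ 4 = Real.exp (8 / 3 * L) := by
        rw [← Real.exp_nat_mul]; congr 1; push_cast; ring
      have e3 : T ^ 3 = Real.exp (3 * L) := by
        rw [show (3 : ℝ) * L = ((3 : ℕ) : ℝ) * L by norm_num, Real.exp_nat_mul, ← hTL]
      rw [e1, e2, e3]
      apply mul_le_mul_of_nonneg_left _ (by positivity)
      apply Real.exp_le_exp.mpr
      linarith
    have h5 : C / T ^ 20 * (∑ γ ∈ yt_S2 S, |yt_c2 S c γ|) ^ 2 ≤ C / T ^ 20 * (E ^ 4 * T ^ 3) :=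
      mul_le_mul_of_nonneg_left (h3.trans h4) (by positivity)
    refine h5.trans ?_
    rw [div_mul_eq_mul_div, div_le_one (by positivity)]
    have h6 : C * (E ^ 4 * T ^ 3) ≤ T * T ^ 3 := by
      rw [← mul_assoc]
      exact mul_le_mul_of_nonneg_right hTC (by positivity)
    refine h6.trans ?_
    rw [← pow_succ']
    exact pow_le_pow_right₀ (by linarith) (by norm_num)
  linarith

end Pool.Agent.Work.MP_56b8f5_nt.EM
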