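import Pool.Agent.Work.MP_56b8f5_nt.EM.Stmts

set_option autoImplicit false

open MeasureTheory Set Filter Topology

namespace Pool.Agent.Work.MP_56b8f5_nt.EM

/-- the function whose values are summed -/
noncomputable def z1g (K t x : ℝ) : ℂ := (Real.exp (-(x / K)) : ℂ) * (x : ℂ) ^ (1 / 2 - t * Complex.I)

/-- bound of the derivative -/
noncomputable def z1h (K t x : ℝ) : ℝ :=
  (1 / K) * (x ^ (1 / 2 : ℝ) * Real.exp (-(1 / K) * x)) +
    (1 / 2 + |t|) * (x ^ (-(1 / 2) : ℝ) * Real.exp (-(1 / K) * x))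

/-- the derivative -/
noncomputable def z1d (K t x : ℝ) : ℂ :=
  (((-(1 / K)) * Real.exp (-(x / K)) : ℝ) : ℂ) * (x : ℂ) ^ (1 / 2 - t * Complex.I) +
    (Real.exp (-(x / K)) : ℂ) * ((1 / 2 - t * Complex.I) * (x : ℂ) ^ (1 / 2 - t * Complex.I - 1))

private lemma z1_re (t : ℝ) : (1 / 2 - t * Complex.I : ℂ).re = 1 / 2 := by
  simp

private lemma z1_ne (t : ℝ) : (1 / 2 - t * Complex.I : ℂ) ≠ 0 := by
  intro h
  have := congrArg Complex.re h
  rw [z1_re] at this
  simp at this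

private lemma z1_hasDeriv {K t x : ℝ} (hx : 0 < x) : HasDerivAt (z1g K t) (z1d K t x) x := by
  have h1 : HasDerivAt (fun x : ℝ => Real.exp (-(x / K))) ((-(1 / K)) * Real.exp (-(x / K))) x := by
    have h : HasDerivAt (fun x : ℝ => -(x / K)) (-(1 / K)) x := ((hasDerivAt_id' x).div_const K).neg
    have h' := h.exp
    rw [mul_comm] at h'
    exact h'
  have h2 := hasDerivAt_ofReal_cpow_const hx.ne' (z1_ne t)
  exact h1.ofReal_comp.mul h2

private lemma z1_exp (K x : ℝ) : Real.exp (-(1 / K) * x) = Real.exp (-(x / K)) := by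
  congr 1
  ring

private lemma z1_norm_le (t : ℝ) : ‖(1 / 2 - t * Complex.I : ℂ)‖ ≤ 1 / 2 + |t| := by
  refine (norm_sub_le _ _).trans ?_
  simp

private lemma z1_norm_g {K t x : ℝ} (hx : 0 < x) :
    ‖z1g K t x‖ = x ^ (1 / 2 : ℝ) * Real.exp (-(1 / K) * x) := by
  unfold z1g
  rw [norm_mul, Complex.norm_cpow_eq_rpow_re_of_pos hx, z1_re, Complex.norm_real, Real.norm_eq_abs,
    Real.abs_exp, z1_exp, mul_comm]

private lemma z1_norm_d {K t x : ℝ} (hK : 0 < K) (hx : 0 < x) : ‖z1d K t x‖ ≤ z1h K t x := by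
  unfold z1d z1h
  refine (norm_add_le _ _).trans ?_
  have e2 : (1 / 2 - t * Complex.I - 1 : ℂ).re = -(1 / 2) := by
    rw [Complex.sub_re, z1_re]
    norm_num
  rw [norm_mul, norm_mul, norm_mul, Complex.norm_cpow_eq_rpow_re_of_pos hx,
    Complex.norm_cpow_eq_rpow_re_of_pos hx, z1_re, e2, Complex.norm_real, Complex.norm_real,
    Real.norm_eq_abs, Real.norm_eq_abs, abs_mul, Real.abs_exp, z1_exp, abs_neg,
    abs_of_pos (by positivity : (0 : ℝ) < 1 / K)]
  have h0 : 0 ≤ x ^ (-(1 / 2) : ℝ) := Real.rpow_nonneg hx.le _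
  have h1 := z1_norm_le t
  have h2 : 0 ≤ Real.exp (-(x / K)) := (Real.exp_pos _).le
  have h3 : ‖(1 / 2 - t * Complex.I : ℂ)‖ * (x ^ (-(1 / 2) : ℝ) * Real.exp (-(x / K)))
      ≤ (1 / 2 + |t|) * (x ^ (-(1 / 2) : ℝ) * Real.exp (-(x / K))) :=
    mul_le_mul_of_nonneg_right h1 (mul_nonneg h0 h2)
  calc 1 / K * Real.exp (-(x / K)) * x ^ (1 / 2 : ℝ)
        + Real.exp (-(x / K)) * (‖(1 / 2 - t * Complex.I : ℂ)‖ * x ^ (-(1 / 2) : ℝ))
      = 1 / K * (x ^ (1 / 2 : ℝ) * Real.exp (-(x / K)))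
        + ‖(1 / 2 - t * Complex.I : ℂ)‖ * (x ^ (-(1 / 2) : ℝ) * Real.exp (-(x / K))) := by ring
    _ ≤ _ := by linarith

private lemma z1_h_nonneg {K t x : ℝ} (hK : 0 < K) (hx : 0 ≤ x) : 0 ≤ z1h K t x := by
  unfold z1h
  positivity

private lemma z1_int1 {K s : ℝ} (hK : 0 < K) (hs : -1 < s) :
    IntegrableOn (fun x : ℝ => x ^ s * Real.exp (-(1 / K) * x)) (Ioi 0) := by
  have h := integrableOn_rpow_mul_exp_neg_mul_rpow (p := 1) (b := 1 / K) hs one_pos (by positivity)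
  simpa only [Real.rpow_one] using h

private lemma z1_int_h {K t : ℝ} (hK : 0 < K) : IntegrableOn (z1h K t) (Ioi 0) := by
  unfold z1h
  exact ((z1_int1 hK (by norm_num)).const_mul _).add ((z1_int1 hK (by norm_num)).const_mul _)

private lemma z1_contOn_g {K t : ℝ} : ContinuousOn (z1g K t) (Ioi 0) := fun x hx =>
  (z1_hasDeriv (K := K) (t := t) hx).continuousAt.continuousWithinAt

private lemma z1_contOn_d {K t : ℝ} : ContinuousOn (z1d K t) (Ioi 0) := by
  unfold z1d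
  have h1 : ∀ s : ℂ, ContinuousOn (fun x : ℝ => (x : ℂ) ^ s) (Ioi 0) := by
    intro s x hx
    refine ContinuousAt.continuousWithinAt ?_
    exact Complex.continuousAt_ofReal_cpow_const x s (Or.inr (ne_of_gt hx))
  have h2 : Continuous (fun x : ℝ => (Real.exp (-(x / K)) : ℂ)) := by fun_prop
  have h3 : Continuous (fun x : ℝ => (((-(1 / K)) * Real.exp (-(x / K)) : ℝ) : ℂ)) := by fun_prop
  exact (h3.continuousOn.mul (h1 _)).add (h2.continuousOn.mul (continuousOn_const.mul (h1 _)))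

private lemma z1_int_g {K t : ℝ} (hK : 0 < K) : IntegrableOn (z1g K t) (Ioi 0) := by
  refine Integrable.mono' (z1_int1 (s := 1 / 2) hK (by norm_num))
    (z1_contOn_g.aestronglyMeasurable measurableSet_Ioi) ?_
  refine (ae_restrict_iff' measurableSet_Ioi).mpr (Eventually.of_forall fun x hx => ?_)
  exact (z1_norm_g hx).le

private lemma z1_ii_h {K t : ℝ} (hK : 0 < K) {a b : ℝ} (ha : 0 ≤ a) (hab : a ≤ b) :
    IntervalIntegrable (z1h K t) volume a b := by
  rw [intervalIntegrable_iff_integrableOn_Ioc_of_le hab]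
  exact (z1_int_h hK).mono_set (fun x hx => lt_of_le_of_lt ha hx.1)

private lemma z1_ii_g {K t : ℝ} (hK : 0 < K) {a b : ℝ} (ha : 0 ≤ a) (hab : a ≤ b) :
    IntervalIntegrable (z1g K t) volume a b := by
  rw [intervalIntegrable_iff_integrableOn_Ioc_of_le hab]
  exact (z1_int_g hK).mono_set (fun x hx => lt_of_le_of_lt ha hx.1)

private lemma z1_diff {K t : ℝ} (hK : 0 < K) {a b : ℝ} (ha : 0 < a) (hab : a ≤ b) :
    ‖z1g K t b - z1g K t a‖ ≤ ∫ x in a..b, z1h K t x := by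
  have hsub : uIcc a b ⊆ Ioi 0 := by
    rw [uIcc_of_le hab]
    intro x hx
    exact lt_of_lt_of_le ha hx.1
  have hii : IntervalIntegrable (z1d K t) volume a b :=
    (z1_contOn_d.mono hsub).intervalIntegrable
  have h := intervalIntegral.integral_eq_sub_of_hasDerivAt
    (f := z1g K t) (f' := z1d K t) (a := a) (b := b) (fun x hx => z1_hasDeriv (hsub hx)) hii
  rw [← h]
  refine intervalIntegral.norm_integral_le_of_norm_le hab ?_ (z1_ii_h hK ha.le hab)
  exact Eventually.of_forall fun _ hx => z1_norm_d hK (ha.trans hx.1)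

private lemma z1_cell {K t : ℝ} (hK : 0 < K) (M : ℕ) :
    ‖z1g K t ((M + 1 : ℕ) : ℝ) - ∫ x in (M : ℝ)..((M + 1 : ℕ) : ℝ), z1g K t x‖
      ≤ ∫ x in (M : ℝ)..((M + 1 : ℕ) : ℝ), z1h K t x := by
  have hM : (M : ℝ) ≤ ((M + 1 : ℕ) : ℝ) := by push_cast; linarith
  have hM0 : (0 : ℝ) ≤ M := by positivity
  have h1 : z1g K t ((M + 1 : ℕ) : ℝ) - ∫ x in (M : ℝ)..((M + 1 : ℕ) : ℝ), z1g K t x
      = ∫ x in (M : ℝ)..((M + 1 : ℕ) : ℝ), (z1g K t ((M + 1 : ℕ) : ℝ) - z1g K t x) := by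
    rw [intervalIntegral.integral_sub intervalIntegrable_const (z1_ii_g hK hM0 hM),
      intervalIntegral.integral_const]
    push_cast
    simp
  rw [h1]
  have h2 := intervalIntegral.norm_integral_le_of_norm_le_const (a := (M : ℝ))
    (b := ((M + 1 : ℕ) : ℝ)) (f := fun x => z1g K t ((M + 1 : ℕ) : ℝ) - z1g K t x)
    (C := ∫ x in (M : ℝ)..((M + 1 : ℕ) : ℝ), z1h K t x) (fun x hx => ?_)
  · refine h2.trans (le_of_eq ?_)
    have : |((M + 1 : ℕ) : ℝ) - M| = 1 := by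
      push_cast
      simp
    rw [this, mul_one]
  · rw [uIoc_of_le hM] at hx
    have hx0 : 0 < x := lt_of_le_of_lt hM0 hx.1
    refine (z1_diff hK hx0 hx.2).trans ?_
    refine intervalIntegral.integral_mono_interval hx.1.le hx.2 le_rfl ?_ (z1_ii_h hK hM0 hM)
    refine (ae_restrict_iff' measurableSet_Ioc).mpr (Eventually.of_forall fun y hy => ?_)
    exact z1_h_nonneg hK (hM0.trans hy.1.le)

private lemma z1_part {K t : ℝ} (hK : 0 < K) (N : ℕ) :
    ‖(∑ M ∈ Finset.range N, z1g K t ((M + 1 : ℕ) : ℝ)) - ∫ x in (0 : ℝ)..N, z1g K t x‖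
      ≤ ∫ x in Ioi (0 : ℝ), z1h K t x := by
  have h1 : ∑ M ∈ Finset.range N, ∫ x in (M : ℝ)..((M + 1 : ℕ) : ℝ), z1g K t x
      = ∫ x in ((0 : ℕ) : ℝ)..N, z1g K t x := by
    refine intervalIntegral.sum_integral_adjacent_intervals (a := fun n : ℕ => (n : ℝ)) ?_
    intro k _
    exact z1_ii_g hK (by positivity) (by push_cast; linarith)
  have h2 : ∑ M ∈ Finset.range N, ∫ x in (M : ℝ)..((M + 1 : ℕ) : ℝ), z1h K t x
      = ∫ x in ((0 : ℕ) : ℝ)..N, z1h K t x := by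
    refine intervalIntegral.sum_integral_adjacent_intervals (a := fun n : ℕ => (n : ℝ)) ?_
    intro k _
    exact z1_ii_h hK (by positivity) (by push_cast; linarith)
  rw [Nat.cast_zero] at h1 h2
  rw [← h1, ← Finset.sum_sub_distrib]
  refine (norm_sum_le _ _).trans ?_
  refine (Finset.sum_le_sum fun M _ => z1_cell hK M).trans ?_
  rw [h2, intervalIntegral.integral_of_le (by positivity)]
  refine setIntegral_mono_set (z1_int_h hK) ?_ (Ioc_subset_Ioi_self).eventuallyLE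
  refine (ae_restrict_iff' measurableSet_Ioi).mpr (Eventually.of_forall fun y hy => ?_)
  exact z1_h_nonneg hK (le_of_lt hy)

private lemma z1_summable {K t : ℝ} (hK : 0 < K) :
    Summable (fun M : ℕ => z1g K t ((M + 1 : ℕ) : ℝ)) := by
  have h0 := Real.summable_pow_mul_exp_neg_nat_mul 1 (r := 1 / K) (by positivity)
  have h1 := (summable_nat_add_iff 1).mpr h0
  refine Summable.of_norm_bounded h1 fun M => ?_
  have hM : (0 : ℝ) < ((M + 1 : ℕ) : ℝ) := by positivity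
  rw [z1_norm_g hM]
  have h2 : ((M + 1 : ℕ) : ℝ) ^ (1 / 2 : ℝ) ≤ ((M + 1 : ℕ) : ℝ) ^ 1 := by
    rw [← Real.rpow_natCast]
    apply Real.rpow_le_rpow_of_exponent_le
    · push_cast
      linarith [(Nat.cast_nonneg M : (0 : ℝ) ≤ M)]
    · norm_num
  exact mul_le_mul_of_nonneg_right h2 (Real.exp_pos _).le

private lemma z1_tsum {K t : ℝ} (hK : 0 < K) :
    ‖(∑' M : ℕ, z1g K t ((M + 1 : ℕ) : ℝ)) - ∫ x in Ioi (0 : ℝ), z1g K t x‖
      ≤ ∫ x in Ioi (0 : ℝ), z1h K t x := by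
  have h1 : Tendsto (fun N : ℕ => ∑ M ∈ Finset.range N, z1g K t ((M + 1 : ℕ) : ℝ)) atTop
      (𝓝 (∑' M : ℕ, z1g K t ((M + 1 : ℕ) : ℝ))) := (z1_summable hK).hasSum.tendsto_sum_nat
  have h2 : Tendsto (fun N : ℕ => ∫ x in (0 : ℝ)..N, z1g K t x) atTop
      (𝓝 (∫ x in Ioi (0 : ℝ), z1g K t x)) :=
    intervalIntegral_tendsto_integral_Ioi 0 (z1_int_g hK) tendsto_natCast_atTop_atTop
  exact le_of_tendsto (h1.sub h2).norm (Eventually.of_forall fun N => z1_part hK N)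

private lemma z1_Ioi_g {K t : ℝ} (hK : 0 < K) :
    ∫ x in Ioi (0 : ℝ), z1g K t x
      = (K : ℂ) ^ (3 / 2 - t * Complex.I) * Complex.Gamma (3 / 2 - t * Complex.I) := by
  have hre : 0 < (3 / 2 - t * Complex.I : ℂ).re := by simp
  have h := Complex.integral_cpow_mul_exp_neg_mul_Ioi hre (r := 1 / K) (by positivity)
  have e1 : (1 / ((1 / K : ℝ) : ℂ)) = (K : ℂ) := by
    push_cast
    simp
  rw [e1] at h
  rw [← h]
  refine setIntegral_congr_fun measurableSet_Ioi fun x _ => ?_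
  simp only [z1g]
  rw [mul_comm]
  congr 1
  · congr 1
    ring
  · rw [Complex.ofReal_exp]
    congr 1
    push_cast
    ring

private lemma z1_norm_I {K t : ℝ} (hK : 0 < K) :
    ‖∫ x in Ioi (0 : ℝ), z1g K t x‖ = K ^ (3 / 2 : ℝ) * ‖Complex.Gamma (3 / 2 - t * Complex.I)‖ := by
  rw [z1_Ioi_g hK, norm_mul, Complex.norm_cpow_eq_rpow_re_of_pos hK]
  simp

private lemma z1_Ioi_h {K t : ℝ} (hK : 0 < K) :
    ∫ x in Ioi (0 : ℝ), z1h K t x
      = (1 / K) * (K ^ (3 / 2 : ℝ) * Real.Gamma (3 / 2)) +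
        (1 / 2 + |t|) * (K ^ (1 / 2 : ℝ) * Real.Gamma (1 / 2)) := by
  unfold z1h
  rw [integral_add ((z1_int1 hK (by norm_num)).const_mul _)
    ((z1_int1 hK (by norm_num)).const_mul _), integral_const_mul, integral_const_mul]
  have e1 := Real.integral_rpow_mul_exp_neg_mul_Ioi (a := 3 / 2) (r := 1 / K) (by norm_num)
    (by positivity)
  have e2 := Real.integral_rpow_mul_exp_neg_mul_Ioi (a := 1 / 2) (r := 1 / K) (by norm_num)
    (by positivity)
  rw [one_div_one_div] at e1 e2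
  rw [← e1, ← e2]
  congr 2
  · refine setIntegral_congr_fun measurableSet_Ioi fun x _ => ?_
    congr 2 <;> norm_num
  · refine setIntegral_congr_fun measurableSet_Ioi fun x _ => ?_
    congr 2 <;> norm_num

/-- The average of `M^{1/2-it}`. -/
theorem iZ1 (hG : StGa) : StZ1 := by
  obtain ⟨-, C, hC0, hC⟩ := hG
  set C1 : ℝ := Real.Gamma (3 / 2) + 3 / 2 * Real.Gamma (1 / 2) with hC1
  have hG1 : 0 < Real.Gamma (3 / 2) := Real.Gamma_pos_of_pos (by norm_num)
  have hG2 : 0 < Real.Gamma (1 / 2) := Real.Gamma_pos_of_pos (by norm_num)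
  have hC10 : 0 ≤ C1 := by positivity
  refine ⟨max C1 C, le_max_of_le_right hC0, fun K hK t ht => ?_⟩
  have hKp : 0 < K := by linarith
  set f : ℕ → ℂ := fun M : ℕ => (((1 - Real.exp (-(1 / K))) * Real.exp (-((M : ℝ) / K)) : ℝ) : ℂ) *
    (M : ℂ) ^ (1 / 2 - t * Complex.I) with hf
  have hfg : ∀ M : ℕ, f M = ((1 - Real.exp (-(1 / K)) : ℝ) : ℂ) * z1g K t (M : ℝ) := by
    intro M
    simp only [hf, z1g]
    push_cast
    ring
  have hf0 : f 0 = 0 := by
    simp only [hf, Nat.cast_zero]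
    rw [Complex.zero_cpow (z1_ne t), mul_zero]
  have hs1 : Summable (fun M : ℕ => f (M + 1)) := by
    simp only [hfg]
    exact (z1_summable hKp).mul_left _
  have hs : Summable f := (summable_nat_add_iff 1).mp hs1
  refine ⟨hs, ?_⟩
  have h1 : ∑' M : ℕ, f M = ((1 - Real.exp (-(1 / K)) : ℝ) : ℂ) *
      ∑' M : ℕ, z1g K t ((M + 1 : ℕ) : ℝ) := by
    rw [hs.tsum_eq_zero_add, hf0, zero_add, ← tsum_mul_left]
    exact tsum_congr fun M => hfg _
  rw [h1, norm_mul]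
  have hq : ‖((1 - Real.exp (-(1 / K)) : ℝ) : ℂ)‖ ≤ 1 / K := by
    rw [Complex.norm_real, Real.norm_eq_abs, abs_of_nonneg]
    · have := Real.add_one_le_exp (-(1 / K))
      linarith
    · have : Real.exp (-(1 / K)) ≤ 1 := Real.exp_le_one_iff.mpr (by
        have : 0 < 1 / K := by positivity
        linarith)
      linarith
  have h2 : ‖∑' M : ℕ, z1g K t ((M + 1 : ℕ) : ℝ)‖
      ≤ (∫ x in Ioi (0 : ℝ), z1h K t x) + ‖∫ x in Ioi (0 : ℝ), z1g K t x‖ := by
    have h3 := z1_tsum (t := t) hKp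
    have h4 := norm_add_le ((∑' M : ℕ, z1g K t ((M + 1 : ℕ) : ℝ)) - ∫ x in Ioi (0 : ℝ), z1g K t x)
      (∫ x in Ioi (0 : ℝ), z1g K t x)
    rw [sub_add_cancel] at h4
    linarith
  rw [z1_Ioi_h hKp, z1_norm_I hKp] at h2
  have ht0 : t ≠ 0 := by
    intro h
    rw [h, abs_zero] at ht
    linarith
  have h5 := hC t ht0
  have hsq : K ^ (1 / 2 : ℝ) = Real.sqrt K := (Real.sqrt_eq_rpow K).symm
  have h32 : K ^ (3 / 2 : ℝ) = K * Real.sqrt K := by
    rw [← hsq, show (3 / 2 : ℝ) = 1 + 1 / 2 by norm_num, Real.rpow_add hKp, Real.rpow_one]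
  rw [hsq, h32] at h2
  have hsK : 0 < Real.sqrt K := Real.sqrt_pos.mpr hKp
  have hsK2 : Real.sqrt K * Real.sqrt K = K := Real.mul_self_sqrt hKp.le
  have h6 : ‖∑' M : ℕ, z1g K t ((M + 1 : ℕ) : ℝ)‖
      ≤ C1 * (|t| * Real.sqrt K) + C * (K * Real.sqrt K / |t| ^ 2) := by
    refine h2.trans ?_
    have e1 : 1 / K * (K * Real.sqrt K * Real.Gamma (3 / 2)) = Real.sqrt K * Real.Gamma (3 / 2) := by
      field_simp
    rw [e1]
    have e2 : Real.sqrt K * Real.Gamma (3 / 2) ≤ |t| * (Real.sqrt K * Real.Gamma (3 / 2)) := by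
      have : 0 ≤ Real.sqrt K * Real.Gamma (3 / 2) := by positivity
      nlinarith
    have e3 : (1 / 2 + |t|) * (Real.sqrt K * Real.Gamma (1 / 2))
        ≤ (3 / 2 * |t|) * (Real.sqrt K * Real.Gamma (1 / 2)) :=
      mul_le_mul_of_nonneg_right (by linarith) (by positivity)
    have e4 : K * Real.sqrt K * ‖Complex.Gamma (3 / 2 - t * Complex.I)‖
        ≤ K * Real.sqrt K * (C / |t| ^ 2) :=
      mul_le_mul_of_nonneg_left h5 (by positivity)
    have e5 : K * Real.sqrt K * (C / |t| ^ 2) = C * (K * Real.sqrt K / |t| ^ 2) := by ring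
    rw [hC1]
    nlinarith
  calc ‖((1 - Real.exp (-(1 / K)) : ℝ) : ℂ)‖ * ‖∑' M : ℕ, z1g K t ((M + 1 : ℕ) : ℝ)‖
      ≤ 1 / K * (C1 * (|t| * Real.sqrt K) + C * (K * Real.sqrt K / |t| ^ 2)) :=
        mul_le_mul hq h6 (norm_nonneg _) (by positivity)
    _ = C1 * (|t| / Real.sqrt K) + C * (Real.sqrt K / |t| ^ 2) := by
        have e1 : 1 / K * (C1 * (|t| * Real.sqrt K)) = C1 * (|t| / Real.sqrt K) := by
          rw [← hsK2]
          field_simp
          rw [Real.sq_sqrt (by positivity)]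
          ring
        have e2 : 1 / K * (C * (K * Real.sqrt K / |t| ^ 2)) = C * (Real.sqrt K / |t| ^ 2) := by
          field_simp
        rw [mul_add, e1, e2]
    _ ≤ max C1 C * (|t| / Real.sqrt K) + max C1 C * (Real.sqrt K / |t| ^ 2) := by
        have a1 : C1 * (|t| / Real.sqrt K) ≤ max C1 C * (|t| / Real.sqrt K) :=
          mul_le_mul_of_nonneg_right (le_max_left _ _) (by positivity)
        have a2 : C * (Real.sqrt K / |t| ^ 2) ≤ max C1 C * (Real.sqrt K / |t| ^ 2) :=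
          mul_le_mul_of_nonneg_right (le_max_right _ _) (by positivity)
        linarith
    _ = max C1 C * (|t| / Real.sqrt K + Real.sqrt K / |t| ^ 2) := by ring

end Pool.Agent.Work.MP_56b8f5_nt.EM
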