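import Pool.Agent.Work.MP_56b8f5_nt.EM.Stmts

open MeasureTheory Set Filter Topology

noncomputable section

namespace Pool.Agent.Work.MP_56b8f5_nt.EM

/-- the real zeta value at `1 + x` -/
def zex (x : ℝ) : ℝ := (riemannZeta ((1 + x : ℝ) : ℂ)).re

theorem ze_hasProd_cpx {x : ℝ} (hx : 0 < x) :
    HasProd (fun p : Nat.Primes => ((((1 - ((p : ℕ) : ℝ) ^ (-(1 + x)))⁻¹ : ℝ)) : ℂ))
      (riemannZeta ((1 + x : ℝ) : ℂ)) := by
  have h := riemannZeta_eulerProduct_hasProd (s := ((1 + x : ℝ) : ℂ)) (by simp [hx])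
  refine h.congr_fun ?_ |> fun h => h
  intro p
  push_cast
  congr 2
  rw [Complex.ofReal_cpow (by positivity)]
  push_cast
  rfl

theorem ze_hasProd_real {x : ℝ} (hx : 0 < x) :
    HasProd (fun p : Nat.Primes => (1 - ((p : ℕ) : ℝ) ^ (-(1 + x)))⁻¹) (zex x) := by
  have h := ze_hasProd_cpx hx
  unfold HasProd at h ⊢
  have h2 := (Complex.continuous_re.tendsto _).comp h
  refine h2.congr (fun S => ?_)
  simp only [Function.comp]
  rw [← Complex.ofReal_prod, Complex.ofReal_re]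

theorem ze_factor {x : ℝ} (hx : 0 < x) (p : Nat.Primes) :
    0 < 1 - ((p : ℕ) : ℝ) ^ (-(1 + x)) ∧ 1 - ((p : ℕ) : ℝ) ^ (-(1 + x)) ≤ 1 := by
  have hp : (1 : ℝ) < ((p : ℕ) : ℝ) := by exact_mod_cast p.2.one_lt
  have h1 : ((p : ℕ) : ℝ) ^ (-(1 + x)) < 1 :=
    Real.rpow_lt_one_of_one_lt_of_neg hp (by linarith)
  have h2 : 0 ≤ ((p : ℕ) : ℝ) ^ (-(1 + x)) := Real.rpow_nonneg (by linarith) _
  constructor <;> linarith

theorem ze_one_le {x : ℝ} (hx : 0 < x) : 1 ≤ zex x := by
  have h := ze_hasProd_real hx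
  unfold HasProd at h
  refine ge_of_tendsto' h (fun S => ?_)
  have hind : ∀ S : Finset Nat.Primes, 1 ≤ ∏ p ∈ S, (1 - ((p : ℕ) : ℝ) ^ (-(1 + x)))⁻¹ := by
    intro S
    classical
    induction S using Finset.induction_on with
    | empty => simp
    | insert a S ha ih =>
      rw [Finset.prod_insert ha]
      obtain ⟨h1, h2⟩ := ze_factor hx a
      have := (one_le_inv₀ h1).mpr h2
      nlinarith
  exact hind S

theorem ze_hasProd_inv {x : ℝ} (hx : 0 < x) :
    HasProd (fun p : Nat.Primes => (1 - ((p : ℕ) : ℝ) ^ (-(1 + x)))) (zex x)⁻¹ := by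
  have h := ze_hasProd_real hx
  unfold HasProd at h ⊢
  have h2 := h.inv₀ (by linarith [ze_one_le hx])
  refine h2.congr (fun S => ?_)
  rw [← Finset.prod_inv_distrib]
  simp

theorem ze_tendsto : Tendsto (fun x : ℝ => x * zex x) (𝓝[>] 0) (𝓝 1) := by
  have h := riemannZeta_residue_one
  have h1 : Tendsto (fun x : ℝ => ((1 + x : ℝ) : ℂ)) (𝓝[>] 0) (𝓝[≠] 1) := by
    refine tendsto_nhdsWithin_iff.mpr ⟨?_, ?_⟩
    · have : Tendsto (fun x : ℝ => ((1 + x : ℝ) : ℂ)) (𝓝 0) (𝓝 ((1 + 0 : ℝ) : ℂ)) := by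
        refine Continuous.tendsto ?_ 0
        fun_prop
      simpa using this.mono_left nhdsWithin_le_nhds
    · filter_upwards [self_mem_nhdsWithin] with x hx
      have hx' : (0 : ℝ) < x := hx
      intro hc
      have hc' : ((1 + x : ℝ) : ℂ) = ((1 : ℝ) : ℂ) := by simpa using hc
      have := Complex.ofReal_injective hc'
      linarith
  have h2 := h.comp h1
  have h3 := (Complex.continuous_re.tendsto _).comp h2
  simp only [Complex.one_re] at h3
  refine h3.congr (fun x => ?_)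
  simp only [Function.comp, zex]
  have : (((1 + x : ℝ) : ℂ) - 1) = ((x : ℝ) : ℂ) := by push_cast; ring
  rw [this, Complex.re_ofReal_mul]

theorem ze_lim {c : ℝ} (hc : 0 < c) : Tendsto (fun L : ℝ => L * (zex (c / L))⁻¹) atTop (𝓝 c) := by
  have h1 : Tendsto (fun L : ℝ => c / L) atTop (𝓝[>] 0) := by
    refine tendsto_nhdsWithin_iff.mpr ⟨tendsto_const_nhds.div_atTop tendsto_id, ?_⟩
    filter_upwards [eventually_gt_atTop 0] with L hL
    exact div_pos hc hL
  have h2 := ze_tendsto.comp h1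
  have h3 : Tendsto (fun L : ℝ => c / (c / L * zex (c / L))) atTop (𝓝 (c / 1)) :=
    tendsto_const_nhds.div h2 one_ne_zero
  rw [div_one] at h3
  refine h3.congr' ?_
  filter_upwards [eventually_gt_atTop 0] with L hL
  have : zex (c / L) ≠ 0 := by linarith [ze_one_le (div_pos hc hL)]
  field_simp

theorem ze_sij_pos {s : Fin 5 → ℝ} (hs : ∀ i, 0 < s i) (i : Fin 6) : 0 < sij s i := by
  have h0 := hs 0
  have h1 := hs 1
  have h2 := hs 2
  have h3 := hs 3
  have h4 := hs 4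
  fin_cases i <;> simp [sij] <;> linarith

theorem ze_sij_div (s : Fin 5 → ℝ) (L : ℝ) (i : Fin 6) : sij (fun j => s j / L) i = sij s i / L := by
  fin_cases i <;> simp [sij] <;> ring

theorem iZE : StZe := by
  intro lam hlam
  refine ⟨fun L => ∏ i : Fin 6, ((zex (sij lam i / L))⁻¹) ^ 2, ?_, ?_⟩
  · intro L hL
    constructor
    · refine Finset.prod_pos (fun i _ => ?_)
      have := ze_one_le (div_pos (ze_sij_pos hlam i) hL)
      positivity
    · unfold Zf
      refine hasProd_prod (fun i _ => ?_)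
      have h := ze_hasProd_inv (div_pos (ze_sij_pos hlam i) hL)
      have h2 := h.mul h
      simp only [ze_sij_div]
      simpa [pow_two] using h2
  · have h : Tendsto (fun L : ℝ => ∏ i : Fin 6, (L * (zex (sij lam i / L))⁻¹) ^ 2) atTop
        (𝓝 (∏ i : Fin 6, sij lam i ^ 2)) :=
      tendsto_finsetProd _ (fun i _ => (ze_lim (ze_sij_pos hlam i)).pow 2)
    refine h.congr (fun L => ?_)
    show _ = L ^ 12 * ∏ i : Fin 6, (zex (sij lam i / L))⁻¹ ^ 2
    simp only [mul_pow]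
    rw [Finset.prod_mul_distrib]
    congr 1
    rw [Finset.prod_const]
    simp
    ring

end Pool.Agent.Work.MP_56b8f5_nt.EM
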