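import Pool.Agent.Work.MP_56b8f5_nt.EM.I_GAM
import Pool.Agent.Work.MP_56b8f5_nt.EM.I_FIN
import Pool.Agent.Work.MP_56b8f5_nt.EM.I_ELL
import Pool.Agent.Work.MP_56b8f5_nt.EM.I_W
import Pool.Agent.Work.MP_56b8f5_nt.EM.I_WEX
import Pool.Agent.Work.MP_56b8f5_nt.EM.I_ETA
import Pool.Agent.Work.MP_56b8f5_nt.EM.I_ORTH
import Pool.Agent.Work.MP_56b8f5_nt.EM.I_GA
import Pool.Agent.Work.MP_56b8f5_nt.EM.I_Z1
import Pool.Agent.Work.MP_56b8f5_nt.EM.I_PC
import Pool.Agent.Work.MP_56b8f5_nt.EM.I_Z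
import Pool.Agent.Work.MP_56b8f5_nt.EM.I_EXP
import Pool.Agent.Work.MP_56b8f5_nt.EM.I_FAR
import Pool.Agent.Work.MP_56b8f5_nt.EM.I_SUM
import Pool.Agent.Work.MP_56b8f5_nt.EM.I_REO
import Pool.Agent.Work.MP_56b8f5_nt.EM.I_VAR
import Pool.Agent.Work.MP_56b8f5_nt.EM.I_PROG
import Pool.Agent.Work.MP_56b8f5_nt.EM.I_SMALL
import Pool.Agent.Work.MP_56b8f5_nt.EM.I_TRAP
import Pool.Agent.Work.MP_56b8f5_nt.EM.I_F2
import Pool.Agent.Work.MP_56b8f5_nt.EM.I_FINT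
import Pool.Agent.Work.MP_56b8f5_nt.EM.I_NEAR
import Pool.Agent.Work.MP_56b8f5_nt.EM.I_LOG
import Pool.Agent.Work.MP_56b8f5_nt.EM.I_SEC
import Pool.Agent.Work.MP_56b8f5_nt.EM.I_TW
import Pool.Agent.Work.MP_56b8f5_nt.EM.I_EQ
import Pool.Agent.Work.MP_56b8f5_nt.EM.I_EP
import Pool.Agent.Work.MP_56b8f5_nt.EM.I_LOC0
import Pool.Agent.Work.MP_56b8f5_nt.EM.I_LOC1
import Pool.Agent.Work.MP_56b8f5_nt.EM.I_LOC2
import Pool.Agent.Work.MP_56b8f5_nt.EM.I_LOC3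
import Pool.Agent.Work.MP_56b8f5_nt.EM.I_ZE
import Pool.Agent.Work.MP_56b8f5_nt.EM.I_EUL
import Pool.Agent.Work.MP_56b8f5_nt.EM.I_A4
import Pool.Agent.Work.MP_56b8f5_nt.EM.I_REM
import Pool.Agent.Work.MP_56b8f5_nt.EM.I_LAP
import Pool.Agent.Work.MP_56b8f5_nt.EM.I_MU
import Pool.Agent.Work.MP_56b8f5_nt.EM.I_JL
import Pool.Agent.Work.MP_56b8f5_nt.EM.I_SW
import Pool.Agent.Work.MP_56b8f5_nt.EM.I_KAR
import Pool.Agent.Work.MP_56b8f5_nt.EM.I_AR
import Pool.Agent.Work.MP_56b8f5_nt.EM.I_ETA4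
import Pool.Agent.Work.MP_56b8f5_nt.EM.I_NUMY
import Pool.Agent.Work.MP_56b8f5_nt.EM.I_POLY
import Pool.Agent.Work.MP_56b8f5_nt.EM.I_XIN
import Pool.Agent.Work.MP_56b8f5_nt.EM.I_NUMX
import Pool.Agent.Work.MP_56b8f5_nt.EM.I_GC
import Pool.Agent.Work.MP_56b8f5_nt.EM.I_MV
import Pool.Agent.Work.MP_56b8f5_nt.EM.I_YS
import Pool.Agent.Work.MP_56b8f5_nt.EM.I_XS
import Pool.Agent.Work.MP_56b8f5_nt.EM.I_YT
import Pool.Agent.Work.MP_56b8f5_nt.EM.I_XT
import Pool.Agent.Work.MP_56b8f5_nt.EM.I_CR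
import Pool.Agent.Work.MP_56b8f5_nt.EM.I_CS
import Pool.Agent.Work.MP_56b8f5_nt.EM.I_MAIN

/-!
MP_56b8f5_nt, block EM: everything together.
-/

namespace Pool.Agent.Work.MP_56b8f5_nt.EM

theorem all_Gam : StGam := iGAM
theorem all_Fin : StFin := iFIN all_Gam
theorem all_Ell : StEll := iELL all_Gam
theorem all_W : StW := iW
theorem all_Orth : StOrth := iORTH all_W all_Ell
theorem all_Ga : StGa := iGA
theorem all_Z1 : StZ1 := iZ1 all_Ga
theorem all_Pc : StPc := iPC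
theorem all_Z : StZ := iZ all_Z1 all_Pc
theorem all_Exp : StExp := iEXP all_W all_Pc
theorem all_Far : StFar := iFAR all_W all_Pc
theorem all_Sum : StSum := iSUM all_W
theorem all_Reo : StReo := iREO all_W all_Sum
theorem all_Var : StVar := iVAR all_W
theorem all_Small : StSmall := iSMALL all_W
theorem all_F2 : StF2 := iF2 all_W
theorem all_Fint : StFint := iFINT all_W all_Ga
theorem all_Near : StNear := iNEAR all_W iTRAP all_F2 all_Fint
theorem all_Sec : StSec :=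
  iSEC all_W all_Exp all_Far all_Reo all_Sum all_Var iPROG all_Small all_Near iLOG
theorem all_Tw : StTw := iTW all_Sec all_Z all_Pc all_Gam all_W
theorem all_Loc0 : StLoc0 := iLOC0
theorem all_Loc1 : StLoc1 := iLOC1 all_Loc0
theorem all_Loc2 : StLoc2 := iLOC2 all_Loc0
theorem all_Loc3 : StLoc3 := iLOC3
theorem all_Ze : StZe := iZE
theorem all_Eul : StEul := iEUL iEP iEQ all_Loc1 all_Ze
theorem all_A4 : StA4 := iA4 all_Loc1 all_Loc3
theorem all_Rem : StRem := iREM all_Loc1 all_Loc2 all_Loc3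
theorem all_Lap : StLap := iLAP all_Eul all_Rem all_Ze
theorem all_Mu : StMu := iMU
theorem all_JL : StJL := iJL all_Mu
theorem all_Kar : StKar := iKAR iSW
theorem all_Ar : StAr := iAR all_Kar all_Lap all_JL all_Gam all_A4
theorem all_Gc : StGc := iGC
theorem all_NumY : StNumY := iNUMY all_Mu iETA4 all_JL all_Gc
theorem all_NumX : StNumX := iNUMX all_Mu iXIN iPOLY all_JL all_Gc
theorem all_MV : StMV := iMV all_W all_Orth all_Gam
theorem all_Ys : StYs := iYS all_Gam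
theorem all_Xs : StXs := iXS all_Gam
theorem all_YT : StYT := iYT all_MV all_Ys all_Gam all_Fin
theorem all_XT : StXT := iXT all_MV all_Xs all_Gam all_Fin
theorem all_Cr : StCr := iCR all_Tw all_Xs all_Gam

/-- The main theorem of the block. -/
theorem all_main : StMain :=
  iMAIN all_A4 all_Ar all_Gc all_NumX all_NumY all_YT all_XT all_Cr iCS all_Fin iWEX iETA

end Pool.Agent.Work.MP_56b8f5_nt.EM
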