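import Pool.Agent.Work.MP_56b8f5_nt.EM.I_CS
import Pool.Agent.Work.MP_56b8f5_nt.EM.I_MV

/-!
MP_56b8f5_nt, block EM, item CR: the mixed moment.
-/

open MeasureTheory Set Filter Topology

noncomputable section

namespace Pool.Agent.Work.MP_56b8f5_nt.EM

theorem cr_gc01 {κ : ℝ} (x : ℝ) : 0 ≤ gc κ x ∧ gc κ x ≤ 1 := by
  unfold gc
  exact ⟨le_max_left _ _, max_le (by norm_num) (min_le_left _ _)⟩

theorem cr_pz01 {κ : ℝ} (hκ : 0 < κ) (x : ℝ) : 0 ≤ pz κ x ∧ pz κ x ≤ 1 := by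
  unfold pz
  exact ⟨le_max_left _ _, max_le (by norm_num) (by have := abs_nonneg x; linarith)⟩

theorem cr_cc (hG : StGam) {κ : ℝ} (hκ : 0 < κ) {L : ℝ} (hL : 0 ≤ L) (γ : Gam) :
    0 ≤ cc κ L γ ∧ cc κ L γ ≤ L := by
  have h0 : 0 ≤ ht γ := (hG.1 γ).2.2.2.2.2
  have h1 : Real.exp (-(ht γ / 2)) ≤ 1 := by
    rw [Real.exp_le_one_iff]; linarith
  have h3 := Real.exp_pos (-(ht γ / 2))
  obtain ⟨h4, h5⟩ := cr_pz01 hκ (ht γ / L)
  unfold cc
  constructor
  · positivity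
  · have : Real.exp (-(ht γ / 2)) * pz κ (ht γ / L) ≤ 1 := by nlinarith
    nlinarith

theorem cr_int (w : ℝ → ℝ) (hw : IsW w) (T : ℝ) (δ : Gam) : Integrable fun u : ℝ =>
    ((w u * Zt (T * u) : ℝ) : ℂ) * Complex.exp (Complex.I * (T * u * ell δ : ℝ)) := by
  have e : (fun u : ℝ => ((w u * Zt (T * u) : ℝ) : ℂ) *
      Complex.exp (Complex.I * (T * u * ell δ : ℝ))) = fun u : ℝ => (w u : ℂ) *
      ((Zt (T * u) : ℂ) * Complex.exp (Complex.I * (T * u * ell δ : ℝ))) := by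
    funext u
    push_cast
    ring
  rw [e]
  refine cs_int_mulC hw ?_
  have h1 : Continuous fun u : ℝ => Zt (T * u) := by
    have := cs_Zt_cont
    fun_prop
  have h2 : Continuous fun u : ℝ => ((Zt (T * u) : ℝ) : ℂ) := Complex.continuous_ofReal.comp h1
  fun_prop

theorem cr_re (w : ℝ → ℝ) (hw : IsW w) (T : ℝ) (δ : Gam) :
    (∫ u : ℝ, ((w u * Zt (T * u) : ℝ) : ℂ) * Complex.exp (Complex.I * (T * u * ell δ : ℝ))).re =
      ∫ u : ℝ, w u * (Zt (T * u) * Real.cos (T * u * ell δ)) := by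
  have h := integral_re (cr_int w hw T δ)
  have h' : (∫ u : ℝ, ((w u * Zt (T * u) : ℝ) : ℂ) *
      Complex.exp (Complex.I * (T * u * ell δ : ℝ))).re =
      ∫ u : ℝ, (((w u * Zt (T * u) : ℝ) : ℂ) *
      Complex.exp (Complex.I * (T * u * ell δ : ℝ))).re := h.symm
  rw [h']
  congr 1
  funext u
  rw [Complex.re_ofReal_mul, mul_comm Complex.I, Complex.exp_ofReal_mul_I_re]
  ring

theorem iCR (hTw : StTw) (hXs : StXs) (hG : StGam) : StCr := by
  intro w hw hW κ hκ hκ1 η hη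
  obtain ⟨T₀, hT₀⟩ := hTw w hw hW κ hκ (by linarith)
  refine ⟨max 2 T₀, ?_⟩
  intro T hT S S' hS hS'
  have hT2 : 2 ≤ T := (le_max_left _ _).trans hT
  have hT1 : 1 ≤ T := by linarith
  have hT0 : 0 < T := by linarith
  have hL : 0 < Real.log T := Real.log_pos (by linarith)
  have htw := hT₀ T ((le_max_right _ _).trans hT)
  set L := Real.log T with hLdef
  have hxs := hXs κ hκ hκ1 η hη L hL S S' hS hS'
  have hsub := hG.2.2.2.2.2.2.2.1
  have hell := hG.2.2.2.2.1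
  -- nonnegativity
  have hHc : ∀ γ, 0 ≤ Hc η L γ := fun γ => mul_nonneg (Real.exp_pos _).le (hη.nonneg _)
  have hCC : ∀ γ, 0 ≤ CC κ η L S γ := fun γ => Finset.sum_nonneg fun γ' _ =>
    mul_nonneg (cr_cc hG hκ hL.le _).1 (hHc _)
  have hfc : ∀ γ, 0 ≤ fc κ η L S γ := fun γ => mul_nonneg (hCC γ) (cr_gc01 _).1
  -- expansion
  set I : Gam → ℂ := fun δ => ∫ u : ℝ, ((w u * Zt (T * u) : ℝ) : ℂ) *
    Complex.exp (Complex.I * (T * u * ell δ : ℝ)) with hI
  have hexp : (∫ u : ℝ, ((w u * Zt (T * u) : ℝ) : ℂ) * (D S (Hc η L) (T * u) *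
      (starRingEnd ℂ) (D S' (fc κ η L S) (T * u)))) =
      ∑ γ' ∈ S, ∑ γ ∈ S', ((Hc η L γ' * fc κ η L S γ : ℝ) : ℂ) * I (γ - γ') := by
    have e : (fun u : ℝ => ((w u * Zt (T * u) : ℝ) : ℂ) * (D S (Hc η L) (T * u) *
      (starRingEnd ℂ) (D S' (fc κ η L S) (T * u)))) = fun u : ℝ =>
        ∑ γ' ∈ S, ∑ γ ∈ S', ((Hc η L γ' * fc κ η L S γ : ℝ) : ℂ) *
          (((w u * Zt (T * u) : ℝ) : ℂ) *
            Complex.exp (Complex.I * (T * u * ell (γ - γ') : ℝ))) := by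
      funext u
      unfold D
      rw [map_sum, Finset.sum_mul_sum, Finset.mul_sum]
      refine Finset.sum_congr rfl fun γ' _ => ?_
      rw [Finset.mul_sum]
      refine Finset.sum_congr rfl fun γ _ => ?_
      rw [map_mul, Complex.conj_ofReal, ← mv_chr_mul hG]
      push_cast
      ring
    rw [e]
    rw [integral_finsetSum _ fun γ' _ => integrable_finsetSum _ fun γ _ =>
      (cr_int w hw T (γ - γ')).const_mul _]
    refine Finset.sum_congr rfl fun γ' _ => ?_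
    rw [integral_finsetSum _ fun γ _ => (cr_int w hw T (γ - γ')).const_mul _]
    refine Finset.sum_congr rfl fun γ _ => ?_
    rw [integral_const_mul]
  rw [hexp]
  refine le_trans ?_ (Complex.re_le_norm _)
  rw [Complex.re_sum]
  have hterm : ∀ γ' ∈ S, ∀ γ ∈ S', W0 w * (Hc η L γ' * fc κ η L S γ * cc κ L (γ - γ')) ≤
      (((Hc η L γ' * fc κ η L S γ : ℝ) : ℂ) * I (γ - γ')).re := by
    intro γ' _ γ _
    rw [Complex.re_ofReal_mul, hI]
    simp only
    rw [cr_re w hw]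
    by_cases h0 : Hc η L γ' * fc κ η L S γ = 0
    · rw [h0]; simp
    · have h1 : Hc η L γ' ≠ 0 := left_ne_zero_of_mul h0
      have h2 : fc κ η L S γ ≠ 0 := right_ne_zero_of_mul h0
      have h3 : η (ht γ' / L) ≠ 0 := right_ne_zero_of_mul h1
      have h4 : ht γ' ≤ (1 / 3 - 3 * κ) * L := (div_le_iff₀ hL).mp (hη.supp _ h3).2
      have h5 : gc κ (ht γ / L) ≠ 0 := right_ne_zero_of_mul h2
      have h6 : 0 < (2 / 3 - κ - |ht γ / L|) / κ := by
        by_contra h7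
        apply h5
        unfold gc
        exact max_eq_left ((min_le_right _ _).trans (not_lt.mp h7))
      have h8 : 0 < 2 / 3 - κ - |ht γ / L| := by
        rwa [div_pos_iff_of_pos_right hκ] at h6
      have h9 : ht γ / L ≤ 2 / 3 - κ := by
        have := le_abs_self (ht γ / L)
        linarith
      have h10 : ht γ ≤ (2 / 3 - κ) * L := (div_le_iff₀ hL).mp h9
      have h11 := hsub γ γ'
      have h12 : ht (γ - γ') ≤ (1 - κ) * L := by nlinarith
      have h13 := htw (γ - γ') h12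
      have h14 : 0 ≤ Hc η L γ' * fc κ η L S γ := mul_nonneg (hHc _) (hfc _)
      calc W0 w * (Hc η L γ' * fc κ η L S γ * cc κ L (γ - γ'))
          = (Hc η L γ' * fc κ η L S γ) * (W0 w * cc κ L (γ - γ')) := by ring
        _ ≤ _ := mul_le_mul_of_nonneg_left h13 h14
  have hsum : W0 w * (L ^ 2 * AL (GX κ η) L) = ∑ γ' ∈ S, ∑ γ ∈ S',
      W0 w * (Hc η L γ' * fc κ η L S γ * cc κ L (γ - γ')) := by
    rw [hxs, Finset.sum_comm, Finset.mul_sum]
    refine Finset.sum_congr rfl fun γ _ => ?_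
    rw [← Finset.mul_sum]
    congr 1
    have e1 : ∑ γ' ∈ S, Hc η L γ' * fc κ η L S γ * cc κ L (γ - γ') =
        fc κ η L S γ * CC κ η L S γ := by
      unfold CC
      rw [Finset.mul_sum]
      refine Finset.sum_congr rfl fun γ' _ => ?_
      ring
    rw [e1]
    unfold fc
    ring
  rw [hsum]
  refine Finset.sum_le_sum fun γ' hγ' => ?_
  rw [Complex.re_sum]
  exact Finset.sum_le_sum fun γ hγ => hterm γ' hγ' γ hγ

end Pool.Agent.Work.MP_56b8f5_nt.EM
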