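import Pool.Agent.Work.MP_56b8f5_nt.EM.Stmts

/-!
MP_56b8f5_nt, block EM, item ETA4: four profiles.
-/

open MeasureTheory Set Filter Topology

noncomputable section

namespace Pool.Agent.Work.MP_56b8f5_nt.EM

/-- The correlation of a function with itself. -/
private def eta4_A (e : ℝ → ENNReal) (v : ℝ) : ENNReal := ∫⁻ x : ℝ, e x * e (x + v)

private lemma eta4_meas {e : ℝ → ENNReal} (he : Measurable e) : Measurable (eta4_A e) := by
  unfold eta4_A
  apply Measurable.lintegral_prod_right'
    (f := fun z : ℝ × ℝ => e z.2 * e (z.2 + z.1))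
  fun_prop

private lemma eta4_total {e : ℝ → ENNReal} (he : Measurable e) (h1 : ∫⁻ x : ℝ, e x = 1) :
    ∫⁻ v : ℝ, eta4_A e v = 1 := by
  unfold eta4_A
  rw [lintegral_lintegral_swap]
  · have : ∀ x : ℝ, ∫⁻ v : ℝ, e x * e (x + v) = e x := by
      intro x
      rw [lintegral_const_mul _ (by fun_prop), lintegral_add_left_eq_self (fun v => e v) x, h1,
        mul_one]
    simp_rw [this]
    exact h1
  · apply Measurable.aemeasurable
    simp only [Function.uncurry_def]
    fun_prop

private lemma eta4_corr {e : ℝ → ENNReal} (s t : ℝ) :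
    ∫⁻ x : ℝ, e (x + s) * e (x + t) = eta4_A e (s - t) := by
  unfold eta4_A
  rw [← lintegral_add_right_eq_self (fun x => e x * e (x + (s - t))) t]
  apply lintegral_congr
  intro x
  rw [mul_comm]
  congr 2
  ring_nf

private lemma eta4_half (f : ℝ → ENNReal) (hf : Measurable f) (q : ℝ) :
    ∫⁻ a : ℝ, f (2 * a + q) = (1 / 2) * ∫⁻ u : ℝ, f u := by
  have h2 : Measurable (fun a : ℝ => 2 * a) := by fun_prop
  have hm := Real.map_volume_mul_left (a := 2) (by norm_num)
  have h := lintegral_map (μ := (volume : Measure ℝ)) (f := fun u => f (u + q))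
    (g := fun a : ℝ => 2 * a) (by fun_prop) h2
  rw [hm, lintegral_smul_measure, lintegral_add_right_eq_self (fun u => f u) q] at h
  rw [← h]
  congr 1
  rw [abs_of_pos (by norm_num), ENNReal.ofReal_inv_of_pos (by norm_num)]
  simp

theorem iETA4 : StEta4 := by
  intro η hc h0 hs hm c d
  set e : ℝ → ENNReal := fun x => ENNReal.ofReal (η x) with hedef
  have he : Measurable e := by
    have := hc.measurable
    exact this.ennreal_ofReal
  have h1 : ∫⁻ x : ℝ, e x = 1 := by
    have := ofReal_integral_eq_lintegral_ofReal (hc.integrable_of_hasCompactSupport hs (μ := volume))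
      (Eventually.of_forall h0)
    rw [hm, ENNReal.ofReal_one] at this
    exact this.symm
  have hA := eta4_meas he
  have hin : ∀ b a : ℝ, (∫⁻ J : ℝ, ∫⁻ J' : ℝ,
      ENNReal.ofReal (η (J + a + b) * η (J + c + d) * η (J' + a + c) * η (J' + b + d)))
      = eta4_A e (a + b - (c + d)) * eta4_A e (a + c - (b + d)) := by
    intro b a
    have hJ : ∀ J : ℝ, (∫⁻ J' : ℝ,
      ENNReal.ofReal (η (J + a + b) * η (J + c + d) * η (J' + a + c) * η (J' + b + d)))
      = (e (J + (a + b)) * e (J + (c + d))) * eta4_A e (a + c - (b + d)) := by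
      intro J
      rw [← eta4_corr (a + c) (b + d), ← lintegral_const_mul _ (by fun_prop)]
      apply lintegral_congr
      intro J'
      simp only [hedef]
      rw [ENNReal.ofReal_mul (mul_nonneg (mul_nonneg (h0 _) (h0 _)) (h0 _)),
        ENNReal.ofReal_mul (mul_nonneg (h0 _) (h0 _)), ENNReal.ofReal_mul (h0 _)]
      rw [show J + (a + b) = J + a + b by ring, show J + (c + d) = J + c + d by ring,
        show J' + (a + c) = J' + a + c by ring, show J' + (b + d) = J' + b + d by ring]
      ring
    simp_rw [hJ]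
    rw [lintegral_mul_const _ (by fun_prop), eta4_corr]
  simp_rw [hin]
  rw [lintegral_lintegral_swap]
  · have hb : ∀ a : ℝ, (∫⁻ b : ℝ, eta4_A e (a + b - (c + d)) * eta4_A e (a + c - (b + d)))
        = ∫⁻ p : ℝ, eta4_A e p * eta4_A e (2 * a + (-p - 2 * d)) := by
      intro a
      rw [← lintegral_add_right_eq_self
        (fun b => eta4_A e (a + b - (c + d)) * eta4_A e (a + c - (b + d))) (c + d - a)]
      apply lintegral_congr
      intro p
      congr 2 <;> ring
    simp_rw [hb]
    rw [lintegral_lintegral_swap]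
    · have hp : ∀ p : ℝ, (∫⁻ a : ℝ, eta4_A e p * eta4_A e (2 * a + (-p - 2 * d)))
          = eta4_A e p * (1 / 2) := by
        intro p
        rw [lintegral_const_mul _ (by fun_prop), eta4_half _ hA, eta4_total he h1, mul_one]
      simp_rw [hp]
      rw [lintegral_mul_const _ hA, eta4_total he h1, one_mul]
    · apply Measurable.aemeasurable
      simp only [Function.uncurry_def]
      fun_prop
  · apply Measurable.aemeasurable
    simp only [Function.uncurry_def]
    fun_prop

end Pool.Agent.Work.MP_56b8f5_nt.EM
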