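import Pool.Agent.Work.MP_56b8f5_nt.EM.Stmts

/-!
MP_56b8f5_nt, block EM, item FINT: the full integral of `a ↦ F(a,b)` is negligible, and so are its
tails.
-/

open MeasureTheory Set Filter Topology

noncomputable section

namespace Pool.Agent.Work.MP_56b8f5_nt.EM

/-- The amplitude of `F`. -/
private def fint_g (A B b a : ℝ) : ℝ := Real.exp (-(a / A) - b / B) / Real.sqrt (a * b)

/-- The integrand of `F`. -/
private def fint_k (w : ℝ → ℝ) (T A B b a u : ℝ) : ℂ :=
  (fint_g A B b a : ℂ) * ((Complex.I * u) ^ 0 * (w u : ℂ) *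
    Complex.exp (Complex.I * (T * Real.log (a / b) * u : ℝ)))

private lemma fint_g_nonneg (A B b a : ℝ) : 0 ≤ fint_g A B b a := by
  unfold fint_g; positivity

private lemma fint_F_eq (w : ℝ → ℝ) (T A B a b : ℝ) :
    F w T A B a b = ∫ u, fint_k w T A B b a u := by
  unfold F W fint_k fint_g
  rw [integral_const_mul]

private lemma fint_sqrt {x : ℝ} (hx : 0 < x) : Real.sqrt x = Real.exp (Real.log x / 2) := by
  rw [Real.sqrt_eq_rpow, Real.rpow_def_of_pos hx]; congr 1; ring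

private lemma fint_g_eq {A B b a : ℝ} (hb : 0 < b) (ha : 0 < a) :
    fint_g A B b a = Real.exp (-(b / B)) / Real.sqrt b *
      (a ^ ((1 / 2 : ℝ) - 1) * Real.exp (-(1 / A * a))) := by
  unfold fint_g
  rw [Real.sqrt_mul ha.le, show -(a / A) - b / B = -(b / B) + -(1 / A * a) by ring, Real.exp_add,
    show ((1 / 2 : ℝ) - 1) = -(1 / 2) by norm_num, Real.rpow_neg ha.le, ← Real.sqrt_eq_rpow]
  have h1 := Real.sqrt_pos.2 ha
  have h2 := Real.sqrt_pos.2 hb
  field_simp

private lemma fint_g_int {A B b : ℝ} (hA : 0 < A) (hb : 0 < b) :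
    IntegrableOn (fint_g A B b) (Ioi 0) := by
  have h := integrableOn_rpow_mul_exp_neg_mul_rpow (p := 1) (s := (1 / 2 : ℝ) - 1) (b := 1 / A)
    (by norm_num) one_pos (by positivity)
  have h2 : IntegrableOn (fun x : ℝ => Real.exp (-(b / B)) / Real.sqrt b *
      (x ^ ((1 / 2 : ℝ) - 1) * Real.exp (-(1 / A) * x ^ (1 : ℝ)))) (Ioi 0) := h.const_mul _
  refine h2.congr_fun (fun x hx => ?_) measurableSet_Ioi
  dsimp only
  rw [fint_g_eq hb hx, Real.rpow_one, neg_mul]

private lemma fint_g_val {A B b : ℝ} (hA : 0 < A) (hb : 0 < b) :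
    ∫ a in Ioi 0, fint_g A B b a =
      Real.exp (-(b / B)) / Real.sqrt b * (Real.sqrt A * Real.Gamma (1 / 2)) := by
  rw [setIntegral_congr_fun measurableSet_Ioi fun x hx => fint_g_eq hb hx, integral_const_mul,
    Real.integral_rpow_mul_exp_neg_mul_Ioi (by norm_num) (by positivity), one_div_one_div,
    ← Real.sqrt_eq_rpow]

private lemma fint_w_int {w : ℝ → ℝ} (hw : IsW w) : Integrable w := by
  obtain ⟨c, _, hc⟩ := hw.supp
  exact hw.smooth.continuous.integrable_of_hasCompactSupport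
    (HasCompactSupport.of_support_subset_isCompact (isCompact_Icc (a := c) (b := 1))
      fun u hu => hc u hu)

private lemma fint_norm_k (w : ℝ → ℝ) (T A B b a u : ℝ) :
    ‖fint_k w T A B b a u‖ = fint_g A B b a * |w u| := by
  unfold fint_k
  rw [norm_mul, norm_mul, norm_mul, pow_zero, norm_one, one_mul, Complex.norm_real,
    Complex.norm_real, mul_comm Complex.I, Complex.norm_exp_ofReal_mul_I, mul_one,
    Real.norm_of_nonneg (fint_g_nonneg A B b a), Real.norm_eq_abs]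

private lemma fint_meas {w : ℝ → ℝ} (hw : IsW w) (T A B b : ℝ) :
    Measurable (Function.uncurry (fint_k w T A B b)) := by
  have h1 : Measurable w := hw.smooth.continuous.measurable
  unfold Function.uncurry fint_k fint_g
  fun_prop

private lemma fint_int {w : ℝ → ℝ} (hw : IsW w) {T A B b : ℝ} (hA : 0 < A) (hb : 0 < b) :
    Integrable (Function.uncurry (fint_k w T A B b)) ((volume.restrict (Ioi 0)).prod volume) := by
  have h1 : Integrable (fint_g A B b) (volume.restrict (Ioi 0)) := fint_g_int hA hb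
  refine Integrable.mono (h1.mul_prod (fint_w_int hw)) (fint_meas hw T A B b).aestronglyMeasurable
    (Eventually.of_forall fun z => ?_)
  rw [Function.uncurry_def, fint_norm_k, norm_mul, Real.norm_of_nonneg (fint_g_nonneg A B b z.1),
    Real.norm_eq_abs]

private lemma fint_F_int {w : ℝ → ℝ} (hw : IsW w) {T A B b : ℝ} (hA : 0 < A) (hb : 0 < b) :
    IntegrableOn (fun a => F w T A B a b) (Ioi 0) := by
  have h := (fint_int hw hA hb (T := T) (B := B)).integral_prod_left
  refine h.congr (Eventually.of_forall fun a => ?_)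
  dsimp only
  rw [fint_F_eq]; rfl

/-- The inner integral. -/
private lemma fint_inner {w : ℝ → ℝ} {T A B b : ℝ} (hA : 0 < A) (hb : 0 < b) (u : ℝ) :
    ∫ a in Ioi 0, fint_k w T A B b a u = (w u : ℂ) *
      Complex.exp ((-(b / B) - Real.log b / 2 : ℝ) + Complex.I * (-(T * u * Real.log b) : ℝ)) *
      ((A : ℂ) ^ (1 / 2 + (T * u : ℝ) * Complex.I) *
        Complex.Gamma (1 / 2 + (T * u : ℝ) * Complex.I)) := by
  have hre : 0 < ((1 / 2 : ℂ) + (T * u : ℝ) * Complex.I).re := by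
    simp
  have h := Complex.integral_cpow_mul_exp_neg_mul_Ioi hre (r := 1 / A) (by positivity)
  have hA' : (1 / ((1 / A : ℝ) : ℂ)) = A := by
    push_cast; rw [one_div_one_div]
  rw [hA'] at h
  rw [← h, ← integral_const_mul]
  refine setIntegral_congr_fun measurableSet_Ioi fun a ha => ?_
  have ha' : (0 : ℝ) < a := ha
  have ha0 : (a : ℂ) ≠ 0 := by exact_mod_cast ha'.ne'
  unfold fint_k fint_g
  rw [Complex.cpow_def_of_ne_zero ha0, ← Complex.ofReal_log ha'.le, Real.log_div ha'.ne' hb.ne',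
    fint_sqrt (mul_pos ha' hb), Real.log_mul ha'.ne' hb.ne', ← Real.exp_sub, Complex.ofReal_exp,
    pow_zero, one_mul, mul_left_comm, ← Complex.exp_add, ← Complex.exp_add,
    mul_assoc (w u : ℂ), ← Complex.exp_add]
  congr 2
  push_cast
  ring

private lemma fint_inner_norm {w : ℝ → ℝ} (hw : IsW w) {T A B b c C : ℝ} (hA : 0 < A) (hb : 1 ≤ b)
    (hT : 0 < T) (hc : 0 < c) (hcw : ∀ u, w u ≠ 0 → c ≤ u ∧ u ≤ 1) (hC : 0 ≤ C)
    (hG : ∀ t : ℝ, t ≠ 0 → ‖Complex.Gamma (1 / 2 + t * Complex.I)‖ ≤ C / |t| ^ 8) (u : ℝ) :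
    ‖∫ a in Ioi 0, fint_k w T A B b a u‖ ≤
      w u * (Real.exp (-(b / B)) * Real.sqrt A * (C / c ^ 8 / T ^ 8)) := by
  rw [fint_inner hA (by linarith) u]
  rcases eq_or_ne (w u) 0 with h0 | h0
  · rw [h0]; simp
  · obtain ⟨h1, _⟩ := hcw u h0
    have hu : 0 < u := lt_of_lt_of_le hc h1
    rw [norm_mul, norm_mul, norm_mul, Complex.norm_real, Real.norm_of_nonneg (hw.nonneg u),
      Complex.norm_exp, Complex.norm_cpow_eq_rpow_re_of_pos hA, mul_assoc]
    refine mul_le_mul_of_nonneg_left ?_ (hw.nonneg u)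
    have e1 : ((1 / 2 : ℂ) + (T * u : ℝ) * Complex.I).re = 1 / 2 := by simp
    rw [e1, ← Real.sqrt_eq_rpow, mul_assoc (Real.exp (-(b / B)))]
    refine mul_le_mul ?_ (mul_le_mul_of_nonneg_left ?_ (Real.sqrt_nonneg _)) (by positivity)
      (Real.exp_pos _).le
    · refine Real.exp_le_exp.2 ?_
      have h2 := Real.log_nonneg hb
      simp only [Complex.add_re, Complex.ofReal_re, Complex.mul_re, Complex.I_re, zero_mul,
        Complex.ofReal_im, mul_zero, sub_zero, add_zero]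
      linarith
    · refine (hG (T * u) (by positivity)).trans ?_
      rw [div_div, abs_of_pos (by positivity)]
      refine div_le_div_of_nonneg_left hC (by positivity) ?_
      rw [← mul_pow, mul_comm c T]
      exact pow_le_pow_left₀ (by positivity) (mul_le_mul_of_nonneg_left h1 hT.le) 8

/-- Off the diagonal. -/
private lemma fint_log {a b : ℝ} (ha : 0 < a) (hb : 0 < b)
    (h : a ≤ 2 * b / 3 ∨ 4 * b / 3 ≤ a) : 1 / 4 ≤ |Real.log (a / b)| := by
  rcases h with h | h
  · have h1 := Real.one_sub_inv_le_log_of_pos (div_pos hb ha)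
    rw [inv_div] at h1
    have h2 : a / b ≤ 2 / 3 := by rw [div_le_iff₀ hb]; linarith
    have h3 : Real.log (a / b) = - Real.log (b / a) := by
      rw [← Real.log_inv, inv_div]
    rw [h3, abs_neg]
    exact le_trans (by linarith) (le_abs_self _)
  · have h1 := Real.one_sub_inv_le_log_of_pos (div_pos ha hb)
    rw [inv_div] at h1
    have h2 : b / a ≤ 3 / 4 := by rw [div_le_iff₀ ha]; linarith
    exact le_trans (by linarith) (le_abs_self _)

private lemma fint_W {w : ℝ → ℝ} {C T a b : ℝ} (hC : 0 ≤ C) (hT : 0 < T)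
    (hW : ∀ y, ‖W w 0 y‖ ≤ C / (1 + |y|) ^ 8) (ha : 0 < a) (hb : 0 < b)
    (h : a ≤ 2 * b / 3 ∨ 4 * b / 3 ≤ a) :
    ‖W w 0 (T * Real.log (a / b))‖ ≤ C * 4 ^ 8 / T ^ 8 := by
  refine (hW _).trans ?_
  have h1 := fint_log ha hb h
  have h2 : C * 4 ^ 8 / T ^ 8 = C / (T / 4) ^ 8 := by
    rw [div_pow]; field_simp
  rw [h2]
  refine div_le_div_of_nonneg_left hC (by positivity) (pow_le_pow_left₀ (by positivity) ?_ 8)
  rw [abs_mul, abs_of_pos hT]
  have h3 := mul_le_mul_of_nonneg_left h1 hT.le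
  linarith

private lemma fint_F_norm {w : ℝ → ℝ} {C T A B a b : ℝ} (hC : 0 ≤ C) (hT : 0 < T)
    (hW : ∀ y, ‖W w 0 y‖ ≤ C / (1 + |y|) ^ 8) (ha : 0 < a) (hb : 0 < b)
    (h : a ≤ 2 * b / 3 ∨ 4 * b / 3 ≤ a) :
    ‖F w T A B a b‖ ≤ fint_g A B b a * (C * 4 ^ 8 / T ^ 8) := by
  have h1 : F w T A B a b = (fint_g A B b a : ℂ) * W w 0 (T * Real.log (a / b)) := rfl
  rw [h1, norm_mul, Complex.norm_real, Real.norm_of_nonneg (fint_g_nonneg A B b a)]
  exact mul_le_mul_of_nonneg_left (fint_W hC hT hW ha hb h) (fint_g_nonneg A B b a)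

private lemma fint_pt {w : ℝ → ℝ} {C T A B a b : ℝ} (hC : 0 ≤ C) (hT : 0 < T) (hA : 0 < A)
    (hW : ∀ y, ‖W w 0 y‖ ≤ C / (1 + |y|) ^ 8) (hb : 2 ≤ b) (ha : b / 2 ≤ a)
    (h : a ≤ 2 * b / 3 ∨ 4 * b / 3 ≤ a) :
    ‖F w T A B a b‖ ≤ C * 4 ^ 8 * Real.exp (-(b / B)) / T ^ 8 := by
  have ha0 : 0 < a := by linarith
  have hb0 : 0 < b := by linarith
  refine (fint_F_norm hC hT hW ha0 hb0 h).trans ?_
  have h1 : fint_g A B b a ≤ Real.exp (-(b / B)) := by
    unfold fint_g
    have h2 : 1 ≤ Real.sqrt (a * b) := by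
      rw [Real.one_le_sqrt]
      nlinarith
    rw [div_le_iff₀ (by positivity)]
    have h3 : Real.exp (-(a / A) - b / B) ≤ Real.exp (-(b / B)) := by
      apply Real.exp_le_exp.2
      have : 0 ≤ a / A := by positivity
      linarith
    refine h3.trans ?_
    exact le_mul_of_one_le_right (Real.exp_pos _).le h2
  calc fint_g A B b a * (C * 4 ^ 8 / T ^ 8) ≤ Real.exp (-(b / B)) * (C * 4 ^ 8 / T ^ 8) :=
        mul_le_mul_of_nonneg_right h1 (by positivity)
    _ = _ := by ring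

/-- The full integral of `a ↦ F(a,b)` is negligible, and so are its tails. -/
theorem iFINT (hW : StW) (hG : StGa) : StFint := by
  intro w hw
  obtain ⟨_, hW2, _, _, hW0, hW1⟩ := hW w hw
  obtain ⟨C1, hC1, hC1'⟩ := hW2 0 8
  obtain ⟨C2, hC2, hC2'⟩ := hG.1 8
  obtain ⟨c, hc, hcw⟩ := hw.supp
  have hGam : 0 < Real.Gamma (1 / 2) := Real.Gamma_pos_of_pos (by norm_num)
  refine ⟨C2 / c ^ 8 + C1 * 4 ^ 8 * (Real.Gamma (1 / 2) + 1), by positivity, ?_⟩
  intro A B T b hA hB hT hb R hR1 hR2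
  have hA0 : 0 < A := by linarith
  have hT0 : 0 < T := by linarith
  have hb0 : 0 < b := by linarith
  have key : ∀ a, b / 2 ≤ a → (a ≤ 2 * b / 3 ∨ 4 * b / 3 ≤ a) → ‖F w T A B a b‖ ≤
      (C2 / c ^ 8 + C1 * 4 ^ 8 * (Real.Gamma (1 / 2) + 1)) * Real.exp (-(b / B)) / T ^ 8 := by
    intro a ha h
    refine (fint_pt hC1 hT0 hA0 hC1' hb ha h).trans ?_
    refine div_le_div_of_nonneg_right (mul_le_mul_of_nonneg_right ?_ (Real.exp_pos _).le)
      (by positivity)
    have : 0 ≤ C2 / c ^ 8 := by positivity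
    have h2 : 0 ≤ C1 * 4 ^ 8 * Real.Gamma (1 / 2) := by positivity
    linarith
  refine ⟨?_, key _ (by linarith) (Or.inr (by linarith)), key _ (by linarith)
    (Or.inl (by linarith))⟩
  -- the full integral
  have full : ‖∫ a in Ioi 0, F w T A B a b‖ ≤
      Real.exp (-(b / B)) * Real.sqrt A * (C2 / c ^ 8 / T ^ 8) := by
    have h1 : ∫ a in Ioi 0, F w T A B a b = ∫ u, ∫ a in Ioi 0, fint_k w T A B b a u := by
      rw [← integral_integral_swap (fint_int hw hA0 hb0)]
      exact integral_congr_ae (Eventually.of_forall fun a => fint_F_eq w T A B a b)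
    rw [h1]
    have h2 := norm_integral_le_of_norm_le (μ := volume)
      ((fint_w_int hw).mul_const (Real.exp (-(b / B)) * Real.sqrt A * (C2 / c ^ 8 / T ^ 8)))
      (Eventually.of_forall fun u => fint_inner_norm (A := A) (B := B) (b := b) (T := T) hw hA0
        (by linarith) hT0 hc hcw hC2 hC2' u)
    refine h2.trans ?_
    rw [integral_mul_const]
    exact mul_le_of_le_one_left (by positivity) hW1
  -- the tails
  have hsplit := integral_inter_add_sdiff (s := Ioi (0 : ℝ)) (t := Ioc (b - R) (b + R))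
    measurableSet_Ioc (fint_F_int hw hA0 hb0 (T := T) (B := B))
  have hinter : Ioi (0 : ℝ) ∩ Ioc (b - R) (b + R) = Ioc (b - R) (b + R) := by
    refine inter_eq_right.2 fun x hx => ?_
    have := hx.1
    rw [mem_Ioi]; linarith
  rw [hinter] at hsplit
  have tail : ‖∫ a in Ioi 0 \ Ioc (b - R) (b + R), F w T A B a b‖ ≤
      Real.exp (-(b / B)) * (Real.sqrt A * Real.Gamma (1 / 2)) * (C1 * 4 ^ 8 / T ^ 8) := by
    have hm : MeasurableSet (Ioi (0 : ℝ) \ Ioc (b - R) (b + R)) :=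
      measurableSet_Ioi.diff measurableSet_Ioc
    have hgi : IntegrableOn (fun a => fint_g A B b a * (C1 * 4 ^ 8 / T ^ 8)) (Ioi 0) :=
      (fint_g_int hA0 hb0).mul_const _
    have h1 : ‖∫ a in Ioi 0 \ Ioc (b - R) (b + R), F w T A B a b‖ ≤
        ∫ a in Ioi 0 \ Ioc (b - R) (b + R), fint_g A B b a * (C1 * 4 ^ 8 / T ^ 8) := by
      refine norm_integral_le_of_norm_le (hgi.mono_set sdiff_subset) ?_
      refine (ae_restrict_iff' hm).2 (Eventually.of_forall fun a ha => ?_)
      have ha0 : 0 < a := ha.1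
      refine fint_F_norm hC1 hT0 hC1' ha0 hb0 ?_
      have h3 := ha.2
      rw [mem_Ioc, not_and_or, not_lt, not_le] at h3
      rcases h3 with h3 | h3
      · exact Or.inl (by linarith)
      · exact Or.inr (by linarith)
    have h2 : ∫ a in Ioi 0 \ Ioc (b - R) (b + R), fint_g A B b a * (C1 * 4 ^ 8 / T ^ 8) ≤
        ∫ a in Ioi 0, fint_g A B b a * (C1 * 4 ^ 8 / T ^ 8) := by
      refine setIntegral_mono_set hgi (Eventually.of_forall fun a => ?_)
        (LE.le.eventuallyLE (sdiff_subset (s := Ioi (0 : ℝ)) (t := Ioc (b - R) (b + R))))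
      exact mul_nonneg (fint_g_nonneg _ _ _ _) (by positivity)
    refine h1.trans (h2.trans ?_)
    rw [integral_mul_const, fint_g_val hA0 hb0]
    refine mul_le_mul_of_nonneg_right (mul_le_mul_of_nonneg_right ?_ (by positivity))
      (by positivity)
    have h3 : 1 ≤ Real.sqrt b := by
      rw [Real.one_le_sqrt]; linarith
    exact div_le_self (Real.exp_pos _).le h3
  rw [intervalIntegral.integral_of_le (by linarith), eq_sub_of_add_eq hsplit]
  refine (norm_sub_le _ _).trans ((add_le_add full tail).trans ?_)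
  have h4 : 0 ≤ C1 * 4 ^ 8 * (Real.exp (-(b / B)) * Real.sqrt A / T ^ 8) := by positivity
  calc _ = (C2 / c ^ 8 + C1 * 4 ^ 8 * Real.Gamma (1 / 2)) *
        (Real.exp (-(b / B)) * Real.sqrt A / T ^ 8) := by ring
    _ ≤ (C2 / c ^ 8 + C1 * 4 ^ 8 * (Real.Gamma (1 / 2) + 1)) *
        (Real.exp (-(b / B)) * Real.sqrt A / T ^ 8) := by linarith
    _ = _ := by ring

end Pool.Agent.Work.MP_56b8f5_nt.EM
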