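import Pool.Agent.Work.MP_56b8f5_nt.EM.Stmts

/-!
MP_56b8f5_nt, block EM, item GAM: elementary facts on the group of positive rationals.
-/

open MeasureTheory Set Filter Topology

noncomputable section

namespace Pool.Agent.Work.MP_56b8f5_nt.EM

private lemma gam_num_pos (γ : Gam) : 0 < num γ := by
  unfold num Finsupp.prod
  exact Finset.prod_pos fun p _ => pow_pos p.2.pos _

private lemma gam_den_pos (γ : Gam) : 0 < den γ := by
  unfold den Finsupp.prod
  exact Finset.prod_pos fun p _ => pow_pos p.2.pos _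

private lemma gam_coprime (γ : Gam) : (num γ).Coprime (den γ) := by
  unfold num den Finsupp.prod
  refine Nat.Coprime.prod_left fun p _ => Nat.Coprime.prod_right fun q _ => ?_
  beta_reduce
  by_cases h : p = q
  · subst h
    rcases le_total 0 (γ p) with h0 | h0
    · have h1 : (-(γ p)).toNat = 0 := by omega
      rw [h1]; simp
    · have h1 : (γ p).toNat = 0 := by omega
      rw [h1]; simp
  · apply Nat.Coprime.pow
    exact (Nat.coprime_primes p.2 q.2).2 (fun e => h (Subtype.ext e))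

private lemma gam_log_num (γ : Gam) :
    Real.log (num γ) = γ.sum fun p e => (e.toNat : ℝ) * Real.log (p : ℕ) := by
  unfold num Finsupp.prod Finsupp.sum
  rw [Nat.cast_prod, Real.log_prod]
  · apply Finset.sum_congr rfl
    intro p _
    rw [Nat.cast_pow, Real.log_pow]
  · intro p _
    exact_mod_cast (pow_pos p.2.pos _).ne'

private lemma gam_log_den (γ : Gam) :
    Real.log (den γ) = γ.sum fun p e => ((-e).toNat : ℝ) * Real.log (p : ℕ) := by
  unfold den Finsupp.prod Finsupp.sum
  rw [Nat.cast_prod, Real.log_prod]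
  · apply Finset.sum_congr rfl
    intro p _
    rw [Nat.cast_pow, Real.log_pow]
  · intro p _
    exact_mod_cast (pow_pos p.2.pos _).ne'

private lemma gam_ell_eq (γ : Gam) : ell γ = Real.log (num γ) - Real.log (den γ) := by
  rw [gam_log_num, gam_log_den]
  unfold ell Finsupp.sum
  rw [← Finset.sum_sub_distrib]
  apply Finset.sum_congr rfl
  intro p _
  beta_reduce
  rw [← sub_mul]
  congr 1
  have h1 : γ p = ((γ p).toNat : ℤ) - ((-(γ p)).toNat : ℤ) := by omega
  have h2 : ((γ p : ℤ) : ℝ) = ((((γ p).toNat : ℤ) - ((-(γ p)).toNat : ℤ) : ℤ) : ℝ) := by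
    rw [← h1]
  rw [h2]; push_cast; ring

private lemma gam_ht_eq (γ : Gam) : ht γ = Real.log ((num γ : ℝ) * (den γ : ℝ)) := by
  rw [Real.log_mul (by exact_mod_cast (gam_num_pos γ).ne') (by exact_mod_cast (gam_den_pos γ).ne'),
    gam_log_num, gam_log_den]
  unfold ht Finsupp.sum
  rw [← Finset.sum_add_distrib]
  apply Finset.sum_congr rfl
  intro p _
  beta_reduce
  rw [← add_mul]
  congr 1
  have h1 : |γ p| = ((γ p).toNat : ℤ) + ((-(γ p)).toNat : ℤ) := by
    rcases le_total 0 (γ p) with h0 | h0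
    · rw [abs_of_nonneg h0]; omega
    · rw [abs_of_nonpos h0]; omega
  have h2 : |((γ p : ℤ) : ℝ)| = ((|γ p| : ℤ) : ℝ) := by rw [Int.cast_abs]
  rw [h2, h1]; push_cast; ring

private lemma gam_log_nonneg (p : Nat.Primes) : 0 ≤ Real.log ((p : ℕ) : ℝ) :=
  Real.log_nonneg (by exact_mod_cast p.2.one_lt.le)

private lemma gam_ht_nonneg (γ : Gam) : 0 ≤ ht γ := by
  unfold ht Finsupp.sum
  exact Finset.sum_nonneg fun p _ => mul_nonneg (abs_nonneg _) (gam_log_nonneg p)

private lemma gam_ell_add (γ γ' : Gam) : ell (γ + γ') = ell γ + ell γ' := by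
  unfold ell
  apply Finsupp.sum_add_index'
  · intro p; simp
  · intro p a b; push_cast; ring

private lemma gam_ell_zero : ell 0 = 0 := by unfold ell; simp

private lemma gam_ht_zero : ht 0 = 0 := by unfold ht; simp

private lemma gam_ell_sub (γ γ' : Gam) : ell (γ - γ') = ell γ - ell γ' := by
  have h := gam_ell_add (γ - γ') γ'
  rw [sub_add_cancel] at h
  linarith

private lemma gam_ht_neg (γ : Gam) : ht (-γ) = ht γ := by
  unfold ht
  rw [Finsupp.sum_neg_index]
  · apply Finsupp.sum_congr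
    intro p _
    push_cast
    rw [abs_neg]
  · intro p; simp

private lemma gam_ht_sum (γ : Gam) (s : Finset Nat.Primes) (h : γ.support ⊆ s) :
    ht γ = ∑ p ∈ s, |((γ p : ℤ) : ℝ)| * Real.log (p : ℕ) := by
  unfold ht
  exact Finsupp.sum_of_support_subset γ h _ (fun p _ => by simp)

private lemma gam_ht_add (γ γ' : Gam) : ht (γ + γ') ≤ ht γ + ht γ' := by
  classical
  rw [gam_ht_sum γ (γ.support ∪ γ'.support) Finset.subset_union_left,
    gam_ht_sum γ' (γ.support ∪ γ'.support) Finset.subset_union_right,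
    gam_ht_sum (γ + γ') (γ.support ∪ γ'.support) Finsupp.support_add,
    ← Finset.sum_add_distrib]
  apply Finset.sum_le_sum
  intro p _
  rw [← add_mul]
  apply mul_le_mul_of_nonneg_right _ (gam_log_nonneg p)
  rw [Finsupp.add_apply, Int.cast_add]
  exact abs_add_le _ _

private lemma gam_ht_sub (γ γ' : Gam) : ht (γ - γ') ≤ ht γ + ht γ' := by
  rw [sub_eq_add_neg]
  calc ht (γ + -γ') ≤ ht γ + ht (-γ') := gam_ht_add _ _
    _ = ht γ + ht γ' := by rw [gam_ht_neg]

private lemma gam_eq_zero (γ : Gam) (h : num γ = den γ) : γ = 0 := by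
  have hc := gam_coprime γ
  rw [← h, Nat.coprime_self] at hc
  have hd : den γ = 1 := by rw [← h, hc]
  have ht0 : ht γ = 0 := by
    rw [gam_ht_eq, hc, hd]; simp
  unfold ht Finsupp.sum at ht0
  rw [Finset.sum_eq_zero_iff_of_nonneg
    (fun p _ => mul_nonneg (abs_nonneg _) (gam_log_nonneg p))] at ht0
  ext p
  by_contra hp
  have hp' : p ∈ γ.support := Finsupp.mem_support_iff.2 hp
  have h1 := ht0 p hp'
  rcases mul_eq_zero.1 h1 with h2 | h2
  · apply hp
    have h3 := abs_eq_zero.1 h2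
    exact_mod_cast h3
  · have h3 : 0 < Real.log ((p : ℕ) : ℝ) := Real.log_pos (by exact_mod_cast p.2.one_lt)
    linarith

private lemma gam_inj : Function.Injective fun γ : Gam => (num γ, den γ) := by
  intro γ γ' h
  simp only [Prod.mk.injEq] at h
  have h1 : ell γ = ell γ' := by rw [gam_ell_eq, gam_ell_eq, h.1, h.2]
  have h2 : ell (γ - γ') = 0 := by rw [gam_ell_sub, h1, sub_self]
  rw [gam_ell_eq, sub_eq_zero] at h2
  have h3 : ((num (γ - γ') : ℕ) : ℝ) = ((den (γ - γ') : ℕ) : ℝ) := by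
    apply Real.log_injOn_pos _ _ h2
    · exact Set.mem_Ioi.2 (by exact_mod_cast gam_num_pos (γ - γ'))
    · exact Set.mem_Ioi.2 (by exact_mod_cast gam_den_pos (γ - γ'))
  have h4 : num (γ - γ') = den (γ - γ') := by exact_mod_cast h3
  exact sub_eq_zero.1 (gam_eq_zero _ h4)

theorem iGAM : StGam :=
  ⟨fun γ => ⟨gam_num_pos γ, gam_den_pos γ, gam_coprime γ, gam_ell_eq γ, gam_ht_eq γ,
    gam_ht_nonneg γ⟩, gam_eq_zero, gam_inj, gam_ell_add, gam_ell_sub, gam_ht_neg, gam_ht_add,
    gam_ht_sub, gam_ell_zero, gam_ht_zero⟩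

end Pool.Agent.Work.MP_56b8f5_nt.EM
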