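import Pool.Agent.Work.MP_56b8f5_nt.EM.Stmts

/-!
MP_56b8f5_nt, block EM: elementary facts on the group of positive rationals.
-/

open MeasureTheory Set Filter Topology

noncomputable section

namespace Pool.Agent.Work.MP_56b8f5_nt.EM

theorem gm_fac (f : ℤ → ℕ) (hf : f 0 = 0) (γ : Gam) (p : Nat.Primes) :
    (γ.prod fun p e => (p : ℕ) ^ f e : ℕ).factorization (p : ℕ) = f (γ p) := by
  unfold Finsupp.prod
  rw [Nat.factorization_prod fun x _ => pow_ne_zero _ x.2.ne_zero]
  rw [Finsupp.finsetSum_apply]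
  have h : ∀ q ∈ γ.support, ((q : ℕ) ^ f (γ q)).factorization (p : ℕ) =
      if q = p then f (γ p) else 0 := by
    intro q _
    rw [Nat.Prime.factorization_pow q.2, Finsupp.single_apply]
    by_cases h : q = p
    · subst h; simp
    · rw [if_neg h, if_neg fun h' => h (Subtype.ext h')]
  rw [Finset.sum_congr rfl h, Finset.sum_ite_eq']
  split_ifs with h1
  · rfl
  · rw [Finsupp.notMem_support_iff.mp h1, hf]

theorem gm_pos (f : ℤ → ℕ) (γ : Gam) : 0 < (γ.prod fun p e => (p : ℕ) ^ f e : ℕ) := by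
  unfold Finsupp.prod
  exact Finset.prod_pos fun q _ => pow_pos q.2.pos _

theorem gm_log (f : ℤ → ℕ) (γ : Gam) :
    Real.log ((γ.prod fun p e => (p : ℕ) ^ f e : ℕ) : ℝ) =
      ∑ p ∈ γ.support, (f (γ p) : ℝ) * Real.log (p : ℕ) := by
  unfold Finsupp.prod
  push_cast
  rw [Real.log_prod]
  · refine Finset.sum_congr rfl fun p _ => ?_
    rw [Real.log_pow]
  · intro p _
    have : (0 : ℝ) < ((p : ℕ) : ℝ) := by exact_mod_cast p.2.pos
    positivity

theorem gm_logp (p : Nat.Primes) : 0 ≤ Real.log (p : ℕ) := by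
  apply Real.log_nonneg
  exact_mod_cast p.2.one_le

theorem gm_ell (γ : Gam) : ell γ = Real.log (num γ) - Real.log (den γ) := by
  unfold num den
  rw [gm_log (fun e => e.toNat) γ, gm_log (fun e => (-e).toNat) γ, ← Finset.sum_sub_distrib]
  unfold ell Finsupp.sum
  refine Finset.sum_congr rfl fun p _ => ?_
  have h := Int.toNat_sub_toNat_neg (γ p)
  have h' : ((((γ p).toNat : ℕ) : ℤ) : ℝ) - ((((-(γ p)).toNat : ℕ) : ℤ) : ℝ) = ((γ p : ℤ) : ℝ) := by
    rw [← Int.cast_sub, h]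
  rw [Int.cast_natCast, Int.cast_natCast] at h'
  show ((γ p : ℤ) : ℝ) * Real.log (p : ℕ) = (((γ p).toNat : ℕ) : ℝ) * Real.log (p : ℕ) -
    (((-(γ p)).toNat : ℕ) : ℝ) * Real.log (p : ℕ)
  rw [← h']
  ring

theorem gm_num_pos (γ : Gam) : 0 < num γ := gm_pos _ γ

theorem gm_den_pos (γ : Gam) : 0 < den γ := gm_pos _ γ

theorem gm_ht (γ : Gam) : ht γ = Real.log ((num γ : ℝ) * (den γ : ℝ)) := by
  have h1 : (num γ : ℝ) ≠ 0 := by exact_mod_cast (gm_num_pos γ).ne'
  have h2 : (den γ : ℝ) ≠ 0 := by exact_mod_cast (gm_den_pos γ).ne'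
  rw [Real.log_mul h1 h2]
  unfold num den
  rw [gm_log (fun e => e.toNat) γ, gm_log (fun e => (-e).toNat) γ, ← Finset.sum_add_distrib]
  unfold ht Finsupp.sum
  refine Finset.sum_congr rfl fun p _ => ?_
  have h := Int.toNat_add_toNat_neg_eq_natAbs (γ p)
  have h' : (((γ p).toNat : ℕ) : ℝ) + (((-(γ p)).toNat : ℕ) : ℝ) = ((γ p).natAbs : ℝ) := by
    rw [← Nat.cast_add, h]
  rw [Nat.cast_natAbs, Int.cast_abs] at h'
  show |((γ p : ℤ) : ℝ)| * Real.log (p : ℕ) = (((γ p).toNat : ℕ) : ℝ) * Real.log (p : ℕ) +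
    (((-(γ p)).toNat : ℕ) : ℝ) * Real.log (p : ℕ)
  rw [← h']
  ring

theorem gm_num_fac (γ : Gam) (p : Nat.Primes) : (num γ).factorization (p : ℕ) = (γ p).toNat :=
  gm_fac (fun e => e.toNat) rfl γ p

theorem gm_den_fac (γ : Gam) (p : Nat.Primes) : (den γ).factorization (p : ℕ) = (-(γ p)).toNat :=
  gm_fac (fun e => (-e).toNat) rfl γ p

theorem gm_sum_ht (γ : Gam) (s : Finset Nat.Primes) (hs : γ.support ⊆ s) :
    ht γ = ∑ p ∈ s, |(γ p : ℝ)| * Real.log (p : ℕ) := by
  unfold ht Finsupp.sum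
  refine Finset.sum_subset hs fun p _ hp => ?_
  rw [Finsupp.notMem_support_iff.mp hp]
  simp

theorem gm_sum_ell (γ : Gam) (s : Finset Nat.Primes) (hs : γ.support ⊆ s) :
    ell γ = ∑ p ∈ s, (γ p : ℝ) * Real.log (p : ℕ) := by
  unfold ell Finsupp.sum
  refine Finset.sum_subset hs fun p _ hp => ?_
  rw [Finsupp.notMem_support_iff.mp hp]
  simp

theorem gm_ht_add (γ γ' : Gam) : ht (γ + γ') ≤ ht γ + ht γ' := by
  classical
  have h1 : (γ + γ').support ⊆ γ.support ∪ γ'.support := Finsupp.support_add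
  rw [gm_sum_ht _ _ h1, gm_sum_ht γ (γ.support ∪ γ'.support) Finset.subset_union_left,
    gm_sum_ht γ' (γ.support ∪ γ'.support) Finset.subset_union_right, ← Finset.sum_add_distrib]
  refine Finset.sum_le_sum fun p _ => ?_
  rw [← add_mul]
  refine mul_le_mul_of_nonneg_right ?_ (gm_logp p)
  rw [Finsupp.add_apply, Int.cast_add]
  exact abs_add_le _ _

theorem gm_ell_add (γ γ' : Gam) : ell (γ + γ') = ell γ + ell γ' := by
  classical
  have h1 : (γ + γ').support ⊆ γ.support ∪ γ'.support := Finsupp.support_add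
  rw [gm_sum_ell _ _ h1, gm_sum_ell γ (γ.support ∪ γ'.support) Finset.subset_union_left,
    gm_sum_ell γ' (γ.support ∪ γ'.support) Finset.subset_union_right, ← Finset.sum_add_distrib]
  refine Finset.sum_congr rfl fun p _ => ?_
  rw [← add_mul, Finsupp.add_apply, Int.cast_add]

theorem gm_ht_neg (γ : Gam) : ht (-γ) = ht γ := by
  rw [gm_sum_ht (-γ) γ.support (by rw [Finsupp.support_neg]), gm_sum_ht γ γ.support subset_rfl]
  refine Finset.sum_congr rfl fun p _ => ?_
  rw [Finsupp.neg_apply, Int.cast_neg, abs_neg]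

theorem gm_ell_neg (γ : Gam) : ell (-γ) = -ell γ := by
  rw [gm_sum_ell (-γ) γ.support (by rw [Finsupp.support_neg]), gm_sum_ell γ γ.support subset_rfl,
    ← Finset.sum_neg_distrib]
  refine Finset.sum_congr rfl fun p _ => ?_
  rw [Finsupp.neg_apply, Int.cast_neg, neg_mul]

theorem gm_coprime (γ : Gam) : (num γ).Coprime (den γ) := by
  unfold num den Finsupp.prod
  refine Nat.Coprime.prod_left fun p _ => Nat.Coprime.prod_right fun q _ => ?_
  show Nat.Coprime ((p : ℕ) ^ (γ p).toNat) ((q : ℕ) ^ (-(γ q)).toNat)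
  by_cases h : p = q
  · subst h
    rcases le_total 0 (γ p) with h0 | h0
    · have : (-(γ p)).toNat = 0 := by omega
      rw [this, pow_zero]
      exact Nat.coprime_one_right _
    · have : (γ p).toNat = 0 := by omega
      rw [this, pow_zero]
      exact Nat.coprime_one_left _
  · refine Nat.Coprime.pow _ _ ?_
    rw [Nat.coprime_primes p.2 q.2]
    exact fun h' => h (Subtype.ext h')

theorem iGam : StGam := by
  refine ⟨fun γ => ⟨gm_num_pos γ, gm_den_pos γ, gm_coprime γ, gm_ell γ, gm_ht γ, ?_⟩, ?_, ?_,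
    gm_ell_add, ?_, gm_ht_neg, gm_ht_add, ?_, ?_, ?_⟩
  · unfold ht Finsupp.sum
    exact Finset.sum_nonneg fun p _ => mul_nonneg (abs_nonneg _) (gm_logp p)
  · intro γ h
    ext p
    have h1 := gm_num_fac γ p
    have h2 := gm_den_fac γ p
    rw [h] at h1
    have h3 : (γ p).toNat = (-(γ p)).toNat := h1.symm.trans h2
    rw [Finsupp.zero_apply]
    omega
  · intro γ γ' h
    have ha : num γ = num γ' := congrArg Prod.fst h
    have hb : den γ = den γ' := congrArg Prod.snd h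
    ext p
    have h1 := gm_num_fac γ p
    have h2 := gm_den_fac γ p
    have h3 := gm_num_fac γ' p
    have h4 := gm_den_fac γ' p
    rw [ha, h3] at h1
    rw [hb, h4] at h2
    omega
  · intro γ γ'
    rw [sub_eq_add_neg, gm_ell_add, gm_ell_neg, sub_eq_add_neg]
  · intro γ γ'
    rw [sub_eq_add_neg]
    refine (gm_ht_add _ _).trans ?_
    rw [gm_ht_neg]
  · simp [ell]
  · simp [ht]

theorem gm_exp_ht (γ : Gam) : Real.exp (ht γ) = (num γ : ℝ) * (den γ : ℝ) := by
  have h1 : (0 : ℝ) < (num γ : ℝ) := by exact_mod_cast gm_num_pos γ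
  have h2 : (0 : ℝ) < (den γ : ℝ) := by exact_mod_cast gm_den_pos γ
  rw [gm_ht, Real.exp_log (by positivity)]

theorem iFin : StFin := by
  intro X hX
  set N : ℕ := ⌊Real.exp X⌋₊ with hN
  have hmem : ∀ γ : Gam, ht γ ≤ X → (num γ, den γ) ∈ Finset.Icc 1 N ×ˢ Finset.Icc 1 N := by
    intro γ h
    have h1 : (1 : ℝ) ≤ (num γ : ℝ) := by exact_mod_cast gm_num_pos γ
    have h2 : (1 : ℝ) ≤ (den γ : ℝ) := by exact_mod_cast gm_den_pos γ
    have h3 : (num γ : ℝ) * (den γ : ℝ) ≤ Real.exp X := by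
      rw [← gm_exp_ht]
      exact Real.exp_le_exp.mpr h
    rw [Finset.mem_product, Finset.mem_Icc, Finset.mem_Icc]
    refine ⟨⟨gm_num_pos γ, ?_⟩, ⟨gm_den_pos γ, ?_⟩⟩
    · exact Nat.le_floor (by nlinarith)
    · exact Nat.le_floor (by nlinarith)
  have hinj := iGam.2.2.1
  have hfin : {γ : Gam | ht γ ≤ X}.Finite := by
    refine Set.Finite.of_injOn (f := fun γ : Gam => (num γ, den γ))
      (t := ((Finset.Icc 1 N ×ˢ Finset.Icc 1 N : Finset (ℕ × ℕ)) : Set (ℕ × ℕ)))
      ?_ (hinj.injOn) (Finset.finite_toSet _)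
    intro γ h
    exact hmem γ h
  refine ⟨hfin.toFinset, fun γ => by simp, ?_⟩
  have hc : hfin.toFinset.card ≤ (Finset.Icc 1 N ×ˢ Finset.Icc 1 N).card := by
    refine Finset.card_le_card_of_injOn (fun γ : Gam => (num γ, den γ)) ?_ hinj.injOn
    intro γ h
    have h' : ht γ ≤ X := by simpa using h
    exact hmem γ h'
  rw [Finset.card_product, Nat.card_Icc] at hc
  have hc' : (hfin.toFinset.card : ℝ) ≤ (N : ℝ) * N := by
    have : N + 1 - 1 = N := by omega
    rw [this] at hc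
    exact_mod_cast hc
  have hN' : (N : ℝ) ≤ Real.exp X := Nat.floor_le (Real.exp_pos _).le
  calc (hfin.toFinset.card : ℝ) ≤ (N : ℝ) * N := hc'
    _ ≤ Real.exp X * Real.exp X := by gcongr
    _ = Real.exp (2 * X) := by rw [← Real.exp_add]; congr 1; ring

theorem gm_log_lower (n m : ℝ) (hm : 1 ≤ m) (h : m + 1 ≤ n) :
    1 / (2 * Real.sqrt (n * m)) ≤ Real.log n - Real.log m := by
  have hn : 0 < n := by linarith
  have hm0 : 0 < m := by linarith
  have h1 : 1 - (n / m)⁻¹ ≤ Real.log (n / m) := Real.one_sub_inv_le_log_of_pos (by positivity)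
  rw [Real.log_div hn.ne' hm0.ne'] at h1
  have h2 : 1 - (n / m)⁻¹ = (n - m) / n := by
    field_simp
  rw [h2] at h1
  refine le_trans ?_ h1
  have hs : 0 < Real.sqrt (n * m) := Real.sqrt_pos.mpr (by positivity)
  rw [div_le_div_iff₀ (by positivity) hn]
  rcases le_total n (4 * m) with h4 | h4
  · have h5 : n / 2 ≤ Real.sqrt (n * m) := by
      apply Real.le_sqrt_of_sq_le
      nlinarith
    nlinarith
  · have h6 : 1 ≤ Real.sqrt (n * m) := by
      apply Real.le_sqrt_of_sq_le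
      nlinarith
    nlinarith

theorem iEll : StEll := by
  intro γ hγ
  have hn : 0 < num γ := gm_num_pos γ
  have hm : 0 < den γ := gm_den_pos γ
  have hne : num γ ≠ den γ := fun h => hγ (iGam.2.1 γ h)
  have e1 : Real.exp (-(ht γ / 2)) = 1 / Real.sqrt ((num γ : ℝ) * (den γ : ℝ)) := by
    rw [← gm_exp_ht, Real.exp_neg, ← Real.exp_half, one_div]
  have e2 : Real.exp (-(ht γ / 2)) / 2 = 1 / (2 * Real.sqrt ((num γ : ℝ) * (den γ : ℝ))) := by
    rw [e1]; field_simp
  rw [e2, gm_ell]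
  rcases lt_or_gt_of_ne hne with h | h
  · have h1 : (num γ : ℝ) + 1 ≤ (den γ : ℝ) := by exact_mod_cast h
    have h2 := gm_log_lower (den γ) (num γ) (by exact_mod_cast hn) h1
    rw [mul_comm (den γ : ℝ)] at h2
    rw [abs_sub_comm]
    exact h2.trans (le_abs_self _)
  · have h1 : (den γ : ℝ) + 1 ≤ (num γ : ℝ) := by exact_mod_cast h
    have h2 := gm_log_lower (num γ) (den γ) (by exact_mod_cast hm) h1
    exact h2.trans (le_abs_self _)

theorem iOrth (hW : StW) : StOrth := by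
  intro w hw
  obtain ⟨-, hdec, -⟩ := hW w hw
  obtain ⟨C, hC, h⟩ := hdec 0 60
  refine ⟨C * 2 ^ 60, by positivity, ?_⟩
  intro T hT γ hγ hht
  have hT0 : 0 < T := by linarith
  have h1 := iEll γ hγ
  set x := Real.exp (Real.log T / 3) with hx
  have hx0 : 0 < x := Real.exp_pos _
  have hx3 : x ^ 60 = T ^ 20 := by
    have : x ^ 3 = T := by
      rw [hx, ← Real.exp_nat_mul]
      have : ((3 : ℕ) : ℝ) * (Real.log T / 3) = Real.log T := by push_cast; ring
      rw [this, Real.exp_log hT0]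
    calc x ^ 60 = (x ^ 3) ^ 20 := by ring
      _ = T ^ 20 := by rw [this]
  have h2 : x / 2 ≤ |T * ell γ| := by
    rw [abs_mul, abs_of_pos hT0]
    calc x / 2 = T * (Real.exp (-(2 / 3 * Real.log T)) / 2) := by
          have : x = T * Real.exp (-(2 / 3 * Real.log T)) := by
            nth_rewrite 1 [← Real.exp_log hT0]
            rw [← Real.exp_add, hx]
            congr 1
            ring
          rw [this]; ring
      _ ≤ T * (Real.exp (-(ht γ / 2)) / 2) := by
          refine mul_le_mul_of_nonneg_left ?_ hT0.le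
          refine div_le_div_of_nonneg_right ?_ (by norm_num)
          apply Real.exp_le_exp.mpr
          linarith
      _ ≤ T * |ell γ| := mul_le_mul_of_nonneg_left h1 hT0.le
  refine (h _).trans ?_
  rw [div_le_div_iff₀ (by positivity) (by positivity)]
  have h3 : (x / 2) ^ 60 ≤ (1 + |T * ell γ|) ^ 60 := by
    refine pow_le_pow_left₀ (by positivity) ?_ 60
    linarith
  have h4 : T ^ 20 ≤ 2 ^ 60 * (1 + |T * ell γ|) ^ 60 := by
    rw [← hx3]
    calc x ^ 60 = 2 ^ 60 * (x / 2) ^ 60 := by ring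
      _ ≤ _ := by gcongr
  calc C * T ^ 20 ≤ C * (2 ^ 60 * (1 + |T * ell γ|) ^ 60) := mul_le_mul_of_nonneg_left h4 hC
    _ = C * 2 ^ 60 * (1 + |T * ell γ|) ^ 60 := by ring

end Pool.Agent.Work.MP_56b8f5_nt.EM
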