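import Pool.Agent.Work.MP_56b8f5_nt.EM.Stmts

/-!
MP_56b8f5_nt, block EM: the local factor at zero is the local factor of `a_4`.
-/

open MeasureTheory Set Filter Topology

noncomputable section

namespace Pool.Agent.Work.MP_56b8f5_nt.EM

namespace ILoc3

lemma hs_congr {ι : Type*} {f g : ι → ℝ} {a b : ℝ} (h : HasSum f a) (hf : ∀ i, g i = f i)
    (hb : b = a) : HasSum g b := by
  have : g = f := funext hf
  rw [hb, this]
  exact h

/-- `∑_n (n+A)^2 x^n` -/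
lemma hasSum_sq (x A : ℝ) (hx0 : 0 < x) (hx1 : x < 1) :
    HasSum (fun n : ℕ => x ^ n * ((n : ℝ) + A) ^ 2)
      (2 / (1 - x) ^ 3 + (2 * A - 3) / (1 - x) ^ 2 + (A - 1) ^ 2 / (1 - x)) := by
  have hn : ‖x‖ < 1 := by rw [Real.norm_eq_abs, abs_of_pos hx0]; exact hx1
  have h2 := (hasSum_choose_mul_geometric_of_norm_lt_one 2 hn).mul_left 2
  have h1 := (hasSum_choose_mul_geometric_of_norm_lt_one 1 hn).mul_left (2 * A - 3)
  have h0 := (hasSum_choose_mul_geometric_of_norm_lt_one 0 hn).mul_left ((A - 1) ^ 2)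
  have h := (h2.add h1).add h0
  refine hs_congr h ?_ ?_
  · intro n
    have e2 : (((n + 2).choose 2 : ℕ) : ℝ) = ((n : ℝ) + 2) * (n + 1) / 2 := by
      rw [Nat.cast_choose_two]; push_cast; ring
    have e1 : (((n + 1).choose 1 : ℕ) : ℝ) = (n : ℝ) + 1 := by
      rw [Nat.choose_one_right]; push_cast; ring
    have e0 : (((n + 0).choose 0 : ℕ) : ℝ) = 1 := by simp
    rw [e2, e1, e0]
    ring
  · ring

/-- the summand -/
def fj (r : ℝ) (j a : ℤ) : ℝ := r ^ a.natAbs * r ^ (j - a).natAbs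

lemma hasSum_fj_nat (r : ℝ) (hr0 : 0 < r) (hr1 : r < 1) (J : ℕ) :
    HasSum (fj r (J : ℤ)) (r ^ J * ((J : ℝ) + (1 + r ^ 2) / (1 - r ^ 2))) := by
  have hx0 : 0 < r ^ 2 := by positivity
  have hx1 : r ^ 2 < 1 := by nlinarith
  have hg := hasSum_geometric_of_lt_one hx0.le hx1
  have hneg : HasSum (fun n : ℕ => fj r (J : ℤ) (-((n : ℤ) + 1)))
      (r ^ (J + 2) * (1 - r ^ 2)⁻¹) := by
    refine hs_congr (hg.mul_left (r ^ (J + 2))) (fun n => ?_) rfl
    unfold fj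
    have e1 : (-((n : ℤ) + 1)).natAbs = n + 1 := by omega
    have e2 : ((J : ℤ) - (-((n : ℤ) + 1))).natAbs = J + n + 1 := by omega
    rw [e1, e2, ← pow_add, ← pow_mul, ← pow_add]
    congr 1
    ring
  have hpos : HasSum (fun n : ℕ => fj r (J : ℤ) (n : ℤ))
      (r ^ (J + 2) * (1 - r ^ 2)⁻¹ + ∑ n ∈ Finset.range (J + 1), fj r (J : ℤ) (n : ℤ)) := by
    rw [← hasSum_nat_add_iff (J + 1)]
    refine hs_congr (hg.mul_left (r ^ (J + 2))) (fun n => ?_) rfl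
    unfold fj
    have e1 : (((n + (J + 1) : ℕ) : ℤ)).natAbs = n + (J + 1) := by omega
    have e2 : ((J : ℤ) - ((n + (J + 1) : ℕ) : ℤ)).natAbs = n + 1 := by omega
    rw [e1, e2, ← pow_add, ← pow_mul, ← pow_add]
    congr 1
    ring
  have hfin : ∑ n ∈ Finset.range (J + 1), fj r (J : ℤ) (n : ℤ) = ((J : ℝ) + 1) * r ^ J := by
    rw [Finset.sum_congr rfl (g := fun _ => r ^ J)]
    · rw [Finset.sum_const, Finset.card_range, nsmul_eq_mul]; push_cast; ring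
    · intro n hn
      rw [Finset.mem_range] at hn
      unfold fj
      have e1 : ((n : ℤ)).natAbs = n := by omega
      have e2 : ((J : ℤ) - (n : ℤ)).natAbs = J - n := by omega
      rw [e1, e2, ← pow_add]
      congr 1
      omega
  rw [hfin] at hpos
  have h := HasSum.of_nat_of_neg_add_one hpos hneg
  refine hs_congr h (fun _ => rfl) ?_
  have h1 : (1 - r ^ 2) ≠ 0 := by linarith
  rw [pow_add]
  field_simp
  ring

lemma hasSum_fj (r : ℝ) (hr0 : 0 < r) (hr1 : r < 1) (j : ℤ) :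
    HasSum (fj r j) (r ^ j.natAbs * ((j.natAbs : ℝ) + (1 + r ^ 2) / (1 - r ^ 2))) := by
  rcases Int.natAbs_eq j with h | h
  · have := hasSum_fj_nat r hr0 hr1 j.natAbs
    rw [← h] at this
    exact this
  · have h1 := hasSum_fj_nat r hr0 hr1 j.natAbs
    have h2 := (Equiv.hasSum_iff (Equiv.neg ℤ)).mpr h1
    refine hs_congr h2 (fun a => ?_) rfl
    simp only [Function.comp, Equiv.neg_apply]
    unfold fj
    congr 2
    · omega
    · omega

/-- the value of the double sum -/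
def c2 (r : ℝ) (j : ℤ) : ℝ := r ^ j.natAbs * ((j.natAbs : ℝ) + (1 + r ^ 2) / (1 - r ^ 2))

lemma alg1 (x : ℝ) (h3 : (1 - x) ≠ 0) :
    2 / (1 - x) ^ 3 + (2 * ((1 + x) / (1 - x)) - 3) / (1 - x) ^ 2 +
      ((1 + x) / (1 - x) - 1) ^ 2 / (1 - x) +
      (x * (2 / (1 - x) ^ 3 + (2 * ((1 + x) / (1 - x) + 1) - 3) / (1 - x) ^ 2 +
        (((1 + x) / (1 - x) + 1) - 1) ^ 2 / (1 - x))) =
      (1 + 9 * x + 9 * x ^ 2 + x ^ 3) / (1 - x) ^ 3 := by
  obtain ⟨y, hy⟩ : ∃ y, y = (1 - x)⁻¹ := ⟨_, rfl⟩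
  have hxy : (1 - x) * y = 1 := by rw [hy, mul_inv_cancel₀ h3]
  simp only [div_eq_mul_inv, ← inv_pow, ← hy]
  have hx : x * y = y - 1 := by linarith
  have e1 : (1 + x) * y = 2 * y - 1 := by linarith
  rw [e1]
  have e5 : x * y ^ 3 = y ^ 3 - y ^ 2 := by
    calc x * y ^ 3 = (x * y) * y ^ 2 := by ring
      _ = _ := by rw [hx]; ring
  have e6 : x ^ 2 * y ^ 3 = y ^ 3 - 2 * y ^ 2 + y := by
    calc x ^ 2 * y ^ 3 = (x * y) ^ 2 * y := by ring
      _ = _ := by rw [hx]; ring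
  have e7 : x ^ 3 * y ^ 3 = (y - 1) ^ 3 := by
    calc x ^ 3 * y ^ 3 = (x * y) ^ 3 := by ring
      _ = _ := by rw [hx]
  have e8 : x * y ^ 2 = y ^ 2 - y := by
    calc x * y ^ 2 = (x * y) * y := by ring
      _ = _ := by rw [hx]; ring
  linear_combination e5 - 7 * e8 + hx - 9 * e6 - e7

lemma hasSum_c2 (r : ℝ) (hr0 : 0 < r) (hr1 : r < 1) :
    HasSum (fun j => c2 r j * c2 r j)
      ((1 + 9 * r ^ 2 + 9 * (r ^ 2) ^ 2 + (r ^ 2) ^ 3) / (1 - r ^ 2) ^ 3) := by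
  have hx0 : 0 < r ^ 2 := by positivity
  have hx1 : r ^ 2 < 1 := by nlinarith
  set x : ℝ := r ^ 2 with hx
  set A : ℝ := (1 + x) / (1 - x) with hA
  have h1 := hasSum_sq x A hx0 hx1
  have h2 := (hasSum_sq x (A + 1) hx0 hx1).mul_left x
  have h1' : HasSum (fun n : ℕ => c2 r (n : ℤ) * c2 r (n : ℤ))
      (2 / (1 - x) ^ 3 + (2 * A - 3) / (1 - x) ^ 2 + (A - 1) ^ 2 / (1 - x)) := by
    refine hs_congr h1 (fun n => ?_) rfl
    unfold c2
    rw [← hx, ← hA]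
    have e1 : ((n : ℤ)).natAbs = n := by omega
    rw [e1, hx]
    ring
  have h2' : HasSum (fun n : ℕ => c2 r (-((n : ℤ) + 1)) * c2 r (-((n : ℤ) + 1)))
      (x * (2 / (1 - x) ^ 3 + (2 * (A + 1) - 3) / (1 - x) ^ 2 + ((A + 1) - 1) ^ 2 / (1 - x))) := by
    refine hs_congr h2 (fun n => ?_) rfl
    unfold c2
    rw [← hx, ← hA]
    have e1 : (-((n : ℤ) + 1)).natAbs = n + 1 := by omega
    rw [e1, hx]
    push_cast
    ring
  have h := HasSum.of_nat_of_neg_add_one (f := fun j : ℤ => c2 r j * c2 r j) h1' h2'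
  refine hs_congr h (fun _ => rfl) ?_
  have h3 : (1 - x) ≠ 0 := by linarith
  rw [hA]
  exact (alg1 x h3).symm

/-- the change of variables -/
def ej : ℤ × ℤ × ℤ ≃ ℤ × ℤ × ℤ where
  toFun v := (v.2.1, v.1 - v.2.1, v.2.2)
  invFun v := (v.1 + v.2.1, v.1, v.2.2)
  left_inv v := by ext <;> simp
  right_inv v := by ext <;> simp

lemma tsum_quad (r : ℝ) (hr0 : 0 < r) (hr1 : r < 1) :
    HasSum (fun v : ℤ × ℤ × ℤ => r ^ v.1.natAbs * r ^ v.2.1.natAbs *
      (r ^ v.2.2.natAbs * r ^ (v.1 + v.2.1 - v.2.2).natAbs))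
      ((1 + 9 * r ^ 2 + 9 * (r ^ 2) ^ 2 + (r ^ 2) ^ 3) / (1 - r ^ 2) ^ 3) := by
  rw [← Equiv.hasSum_iff ej]
  have hE : ((fun v : ℤ × ℤ × ℤ => r ^ v.1.natAbs * r ^ v.2.1.natAbs *
      (r ^ v.2.2.natAbs * r ^ (v.1 + v.2.1 - v.2.2).natAbs)) ∘ ej) =
      fun v : ℤ × (ℤ × ℤ) => fj r v.1 v.2.1 * fj r v.1 v.2.2 := by
    funext v
    simp only [Function.comp, ej, Equiv.coe_fn_mk, fj]
    congr 3
    ring_nf
  rw [hE]
  have hnn : ∀ j a, 0 ≤ fj r j a := fun j a => by unfold fj; positivity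
  have h1 : ∀ j, HasSum (fun w : ℤ × ℤ => fj r j w.1 * fj r j w.2) (c2 r j * c2 r j) := fun j =>
    HasSum.mul (hasSum_fj r hr0 hr1 j) (hasSum_fj r hr0 hr1 j)
      ((hasSum_fj r hr0 hr1 j).summable.mul_of_nonneg (hasSum_fj r hr0 hr1 j).summable
        (hnn j) (hnn j))
  have h2 := hasSum_c2 r hr0 hr1
  have hs : Summable (fun v : ℤ × (ℤ × ℤ) => fj r v.1 v.2.1 * fj r v.1 v.2.2) := by
    rw [summable_prod_of_nonneg (fun v => mul_nonneg (hnn _ _) (hnn _ _))]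
    refine ⟨fun j => (h1 j).summable, ?_⟩
    refine h2.summable.congr fun j => ?_
    exact (h1 j).tsum_eq.symm
  have h3 := hs.hasSum
  have h4 := HasSum.prod_fiberwise h3 h1
  rw [h2.unique h4]
  exact h3

/-- `∑ C(m+3,m)^2 x^m` -/
lemma hasSum_choose_sq (x : ℝ) (hx0 : 0 < x) (hx1 : x < 1) :
    HasSum (fun m : ℕ => (((m + 3).choose m : ℕ) : ℝ) ^ 2 * x ^ m)
      ((1 + 9 * x + 9 * x ^ 2 + x ^ 3) / (1 - x) ^ 7) := by
  have hn : ‖x‖ < 1 := by rw [Real.norm_eq_abs, abs_of_pos hx0]; exact hx1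
  have h6 := (hasSum_choose_mul_geometric_of_norm_lt_one 6 hn).mul_left 20
  have h5 := (hasSum_choose_mul_geometric_of_norm_lt_one 5 hn).mul_left (-30)
  have h4 := (hasSum_choose_mul_geometric_of_norm_lt_one 4 hn).mul_left 12
  have h3 := (hasSum_choose_mul_geometric_of_norm_lt_one 3 hn).mul_left (-1)
  have h := ((h6.add h5).add h4).add h3
  have hc : ∀ k m : ℕ, (((m + (k + 1)).choose (k + 1) : ℕ) : ℝ) * (k + 1) =
      (((m + k).choose k : ℕ) : ℝ) * (m + k + 1) := by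
    intro k m
    have := Nat.add_one_mul_choose_eq (m + k) k
    have h' : ((m + k + 1 : ℕ) : ℝ) * (((m + k).choose k : ℕ) : ℝ) =
        (((m + k + 1).choose (k + 1) : ℕ) : ℝ) * ((k + 1 : ℕ) : ℝ) := by exact_mod_cast this
    push_cast at h'
    rw [show m + (k + 1) = m + k + 1 by ring]
    linarith
  refine hs_congr h ?_ ?_
  · intro m
    have e0 : (((m + 0).choose 0 : ℕ) : ℝ) = 1 := by simp
    have e1 := hc 0 m
    have e2 := hc 1 m
    have e3 := hc 2 m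
    have e4 := hc 3 m
    have e5 := hc 4 m
    have e6 := hc 5 m
    norm_num at e0 e1 e2 e3 e4 e5 e6
    have e3' : (m + 3).choose m = (m + 3).choose 3 := by
      rw [← Nat.choose_symm_of_eq_add (show m + 3 = 3 + m by ring)]
    rw [e3']
    have f2 : (((m + 2).choose 2 : ℕ) : ℝ) = (m + 1) * (m + 2) / 2 := by
      push_cast at *
      linarith
    have f3 : (((m + 3).choose 3 : ℕ) : ℝ) = (m + 1) * (m + 2) * (m + 3) / 6 := by
      rw [f2] at e3; linarith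
    have f4 : (((m + 4).choose 4 : ℕ) : ℝ) = (m + 1) * (m + 2) * (m + 3) * (m + 4) / 24 := by
      rw [f3] at e4; linarith
    have f5 : (((m + 5).choose 5 : ℕ) : ℝ) =
        (m + 1) * (m + 2) * (m + 3) * (m + 4) * (m + 5) / 120 := by
      rw [f4] at e5; linarith
    have f6 : (((m + 6).choose 6 : ℕ) : ℝ) =
        (m + 1) * (m + 2) * (m + 3) * (m + 4) * (m + 5) * (m + 6) / 720 := by
      rw [f5] at e6; linarith
    rw [f3, f4, f5, f6]
    ring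
  · have h3 : (1 - x) ≠ 0 := by linarith
    obtain ⟨y, hy⟩ : ∃ y, y = (1 - x)⁻¹ := ⟨_, rfl⟩
    have hxy : (1 - x) * y = 1 := by rw [hy, mul_inv_cancel₀ h3]
    simp only [div_eq_mul_inv, ← inv_pow, ← hy]
    have hx : x * y = y - 1 := by linarith
    have e5 : x * y ^ 7 = y ^ 7 - y ^ 6 := by
      calc x * y ^ 7 = (x * y) * y ^ 6 := by ring
        _ = _ := by rw [hx]; ring
    have e6 : x ^ 2 * y ^ 7 = y ^ 7 - 2 * y ^ 6 + y ^ 5 := by
      calc x ^ 2 * y ^ 7 = (x * y) ^ 2 * y ^ 5 := by ring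
        _ = _ := by rw [hx]; ring
    have e7 : x ^ 3 * y ^ 7 = y ^ 7 - 3 * y ^ 6 + 3 * y ^ 5 - y ^ 4 := by
      calc x ^ 3 * y ^ 7 = (x * y) ^ 3 * y ^ 4 := by ring
        _ = _ := by rw [hx]; ring
    linear_combination 9 * e5 + 9 * e6 + e7

end ILoc3

open ILoc3 in
theorem iLOC3 : StLoc3 := by
  intro p
  have hp2 : (2 : ℝ) ≤ ((p : ℕ) : ℝ) := by exact_mod_cast p.2.two_le
  have hp0 : (0 : ℝ) < ((p : ℕ) : ℝ) := by linarith
  set P : ℝ := ((p : ℕ) : ℝ) with hP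
  set r : ℝ := P ^ (-(1 / 2) : ℝ) with hr
  have hr0 : 0 < r := Real.rpow_pos_of_pos hp0 _
  have hr2 : r ^ 2 = 1 / P := by
    rw [hr, ← Real.rpow_natCast, ← Real.rpow_mul hp0.le]
    norm_num
    rw [Real.rpow_neg_one]
  have hr1 : r < 1 := by
    have : r ^ 2 < 1 := by
      rw [hr2, div_lt_one hp0]; linarith
    nlinarith
  have hx0 : 0 < 1 / P := by positivity
  have hx1 : 1 / P < 1 := by rw [div_lt_one hp0]; linarith
  have hS : Sp p 0 = (1 + 9 * r ^ 2 + 9 * (r ^ 2) ^ 2 + (r ^ 2) ^ 3) / (1 - r ^ 2) ^ 3 := by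
    unfold Sp
    rw [← (tsum_quad r hr0 hr1).tsum_eq]
    refine tsum_congr fun v => ?_
    have hab : ∀ a : ℤ, |(a : ℝ)| = (a.natAbs : ℝ) := fun a => by
      rw [Nat.cast_natAbs]; push_cast; rfl
    have e1 : ex 0 v = (1 / 2) * ((v.1.natAbs + v.2.1.natAbs + (v.2.2.natAbs +
        (v.1 + v.2.1 - v.2.2).natAbs) : ℕ) : ℝ) := by
      unfold ex
      have h4 : |(v.1 : ℝ) + v.2.1 - v.2.2| = ((v.1 + v.2.1 - v.2.2).natAbs : ℝ) := by
        rw [← hab]; push_cast; rfl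
      rw [h4, hab, hab, hab]
      simp only [Pi.zero_apply]
      push_cast
      ring
    rw [e1, ← pow_add, ← pow_add, ← pow_add, hr, ← Real.rpow_natCast, ← Real.rpow_mul hp0.le]
    congr 1
    ring
  have hZ : Zf p 0 = (1 - 1 / P) ^ 12 := by
    unfold Zf
    have : ∀ i : Fin 6, (1 - P ^ (-(1 + sij 0 i))) ^ 2 = (1 - 1 / P) ^ 2 := by
      intro i
      have h0 : sij 0 i = 0 := by
        fin_cases i <;> simp [sij]
      rw [h0, add_zero, Real.rpow_neg_one]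
      norm_num
    rw [Finset.prod_congr rfl fun i _ => this i]
    rw [Finset.prod_const, Finset.card_univ, Fintype.card_fin, ← pow_mul]
  have hA : a4f p = (1 - 1 / P) ^ 16 * ((1 + 9 * (1 / P) + 9 * (1 / P) ^ 2 + (1 / P) ^ 3) /
      (1 - 1 / P) ^ 7) := by
    unfold a4f
    rw [← (hasSum_choose_sq (1 / P) hx0 hx1).tsum_eq]
  rw [hS, hZ, hA, hr2]
  have h3 : (1 - 1 / P) ≠ 0 := by linarith
  field_simp

end Pool.Agent.Work.MP_56b8f5_nt.EM
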