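import Pool.Agent.Work.MP_56b8f5_nt.EM.Stmts
import Pool.Agent.Work.MP_37bd4f_nt.ZetaApprox

/-!
MP_56b8f5_nt, block EM, item Z: approximation of `ζ(1/2+it)` by the smooth sum `P K t`.
-/

open MeasureTheory Set Filter Topology

noncomputable section

namespace Pool.Agent.Work.MP_56b8f5_nt.EM

/-- partial sums of the zeta series -/
private def z_S (s : ℂ) (N : ℕ) : ℂ := ∑ n ∈ Finset.Icc 1 N, (n : ℂ) ^ (-s)

private lemma z_abel (q : ℝ) (s : ℂ) (hs : s ≠ 0) (N : ℕ) :
    ∑ M ∈ Finset.range (N + 1), (((1 - q) * q ^ M : ℝ) : ℂ) * z_S s M =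
      ∑ n ∈ Finset.range (N + 1), ((q ^ n : ℝ) : ℂ) * (n : ℂ) ^ (-s) -
        ((q ^ (N + 1) : ℝ) : ℂ) * z_S s N := by
  induction N with
  | zero => simp [z_S, Complex.zero_cpow (neg_ne_zero.mpr hs)]
  | succ N ih =>
    rw [Finset.sum_range_succ, ih, Finset.sum_range_succ (n := N + 1)]
    have h1 : z_S s (N + 1) = z_S s N + ((N + 1 : ℕ) : ℂ) ^ (-s) := by
      unfold z_S
      rw [Finset.sum_Icc_succ_top (by omega)]
    rw [h1]
    push_cast
    ring

private lemma z_norm_S (s : ℂ) (hs : 0 ≤ s.re) (N : ℕ) : ‖z_S s N‖ ≤ N := by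
  unfold z_S
  calc ‖∑ n ∈ Finset.Icc 1 N, (n : ℂ) ^ (-s)‖ ≤ ∑ n ∈ Finset.Icc 1 N, ‖(n : ℂ) ^ (-s)‖ :=
        norm_sum_le _ _
    _ ≤ ∑ n ∈ Finset.Icc 1 N, (1 : ℝ) := by
        refine Finset.sum_le_sum fun n hn => ?_
        have hn1 : 1 ≤ n := (Finset.mem_Icc.mp hn).1
        rw [Complex.norm_natCast_cpow_of_pos (by omega)]
        have : (1 : ℝ) ≤ n := by exact_mod_cast hn1
        exact Real.rpow_le_one_of_one_le_of_nonpos this (by simpa using hs)
    _ = N := by simp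

/-- the main inequality -/
private lemma z_main (h1 : StZ1) (hP : StPc) (K : ℝ) (hK : 1 ≤ K) (t : ℝ) (ht : 1 ≤ |t|) (T1 : ℂ)
    (hT1 : T1 = ∑' M : ℕ, (((1 - Real.exp (-(1 / K))) * Real.exp (-((M : ℝ) / K)) : ℝ) : ℂ) *
      (M : ℂ) ^ (1 / 2 - t * Complex.I)) (s : ℂ) (hs : s = 1 / 2 + t * Complex.I) :
    ‖(Real.exp (-(1 / K)) : ℂ) * riemannZeta₁ s - ((s - 1) * P K t + T1)‖ ≤
      ‖s - 1‖ * ‖s‖ * (4 / Real.sqrt K) := by
  obtain ⟨C, hC, hZ⟩ := h1
  obtain ⟨-, -, hPs, hPr, hPb⟩ := hP K hK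
  obtain ⟨hTs, -⟩ := hZ K hK t ht
  set q : ℝ := Real.exp (-(1 / K)) with hq
  have hK0 : 0 < K := by linarith
  have hq0 : 0 < q := Real.exp_pos _
  have hq1 : q < 1 := by
    rw [hq, Real.exp_lt_one_iff]
    have : 0 < 1 / K := by positivity
    linarith
  have hqM : ∀ M : ℕ, Real.exp (-((M : ℝ) / K)) = q ^ M := by
    intro M
    rw [hq, ← Real.exp_nat_mul]
    congr 1
    field_simp
  have hre : s.re = 1 / 2 := by rw [hs]; simp
  have hs0 : s ≠ 0 := by
    intro h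
    rw [h] at hre
    norm_num at hre
  have hs1 : (1 / 2 - t * Complex.I : ℂ) = 1 - s := by rw [hs]; ring
  rw [hs1] at hTs hT1
  -- limits of the partial sums
  have L1 : Tendsto (fun N : ℕ => ∑ M ∈ Finset.range (N + 1), (((1 - q) * q ^ M : ℝ) : ℂ) * z_S s M)
      atTop (𝓝 (P K t)) := by
    have e1 : Tendsto (fun N : ℕ => ∑ n ∈ Finset.range (N + 1), ((q ^ n : ℝ) : ℂ) * (n : ℂ) ^ (-s))
        atTop (𝓝 (P K t)) := by
      have h := (hPs t).of_norm.hasSum.tendsto_sum_nat.comp (tendsto_add_atTop_nat 1)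
      refine (h.congr fun N => ?_)
      simp only [Function.comp]
      refine Finset.sum_congr rfl fun n _ => ?_
      rw [hqM, hs]
    have e2 : Tendsto (fun N : ℕ => ((q ^ (N + 1) : ℝ) : ℂ) * z_S s N) atTop (𝓝 0) := by
      have h3 := tendsto_self_mul_const_pow_of_lt_one hq0.le hq1
      refine squeeze_zero_norm (fun N => ?_) h3
      rw [norm_mul, Complex.norm_real, Real.norm_of_nonneg (by positivity)]
      calc q ^ (N + 1) * ‖z_S s N‖ ≤ q ^ N * (N : ℝ) := by
            have h4 := z_norm_S s (by rw [hre]; norm_num) N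
            have h5 : q ^ (N + 1) ≤ q ^ N := pow_le_pow_of_le_one hq0.le hq1.le (by omega)
            gcongr
        _ = (N : ℝ) * q ^ N := by ring
    have h := e1.sub e2
    rw [sub_zero] at h
    exact h.congr fun N => (z_abel q s hs0 N).symm
  have L2 : Tendsto (fun N : ℕ => ∑ M ∈ Finset.range (N + 1), (((1 - q) * q ^ M : ℝ) : ℂ) *
      (M : ℂ) ^ (1 - s)) atTop (𝓝 T1) := by
    rw [hT1]
    have h := hTs.hasSum.tendsto_sum_nat.comp (tendsto_add_atTop_nat 1)
    refine (h.congr fun N => ?_)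
    simp only [Function.comp]
    refine Finset.sum_congr rfl fun n _ => ?_
    rw [hqM]
  have L3 : Tendsto (fun N : ℕ => ∑ M ∈ Finset.range (N + 1), (((1 - q) * q ^ M : ℝ) : ℂ) *
      (if M = 0 then 0 else riemannZeta₁ s)) atTop (𝓝 ((q : ℂ) * riemannZeta₁ s)) := by
    have e1 : ∀ N : ℕ, ∑ M ∈ Finset.range (N + 1), (((1 - q) * q ^ M : ℝ) : ℂ) *
        (if M = 0 then 0 else riemannZeta₁ s) = ((q - q ^ (N + 1) : ℝ) : ℂ) * riemannZeta₁ s := by
      intro N
      induction N with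
      | zero => simp
      | succ N ih =>
        rw [Finset.sum_range_succ, ih, if_neg (by omega)]
        push_cast
        ring
    have e2 : Tendsto (fun N : ℕ => ((q - q ^ (N + 1) : ℝ) : ℂ) * riemannZeta₁ s) atTop
        (𝓝 (((q - 0 : ℝ) : ℂ) * riemannZeta₁ s)) := by
      have h3 : Tendsto (fun N : ℕ => q ^ (N + 1)) atTop (𝓝 0) :=
        (tendsto_pow_atTop_nhds_zero_of_lt_one hq0.le hq1).comp (tendsto_add_atTop_nat 1)
      have h4 : Tendsto (fun N : ℕ => q - q ^ (N + 1)) atTop (𝓝 (q - 0)) :=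
        tendsto_const_nhds.sub h3
      exact ((Complex.continuous_ofReal.tendsto _).comp h4).mul_const _
    rw [sub_zero] at e2
    exact e2.congr fun N => (e1 N).symm
  have L := (L3.sub ((L1.const_mul (s - 1)).add L2)).norm
  refine le_of_tendsto L (Eventually.of_forall fun N => ?_)
  have e3 : (∑ M ∈ Finset.range (N + 1), (((1 - q) * q ^ M : ℝ) : ℂ) *
      (if M = 0 then 0 else riemannZeta₁ s)) -
      ((s - 1) * (∑ M ∈ Finset.range (N + 1), (((1 - q) * q ^ M : ℝ) : ℂ) * z_S s M) +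
        ∑ M ∈ Finset.range (N + 1), (((1 - q) * q ^ M : ℝ) : ℂ) * (M : ℂ) ^ (1 - s)) =
      ∑ M ∈ Finset.range (N + 1), (((1 - q) * q ^ M : ℝ) : ℂ) *
        ((if M = 0 then 0 else riemannZeta₁ s) - ((s - 1) * z_S s M + (M : ℂ) ^ (1 - s))) := by
    rw [Finset.mul_sum, ← Finset.sum_add_distrib, ← Finset.sum_sub_distrib]
    refine Finset.sum_congr rfl fun M _ => ?_
    ring
  rw [e3]
  have hq2 : 1 - q ≤ 1 / K := by
    have := Real.one_sub_le_exp_neg (1 / K)
    linarith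
  calc ‖∑ M ∈ Finset.range (N + 1), (((1 - q) * q ^ M : ℝ) : ℂ) *
        ((if M = 0 then 0 else riemannZeta₁ s) - ((s - 1) * z_S s M + (M : ℂ) ^ (1 - s)))‖
      ≤ ∑ M ∈ Finset.range (N + 1), ‖(((1 - q) * q ^ M : ℝ) : ℂ) *
        ((if M = 0 then 0 else riemannZeta₁ s) - ((s - 1) * z_S s M + (M : ℂ) ^ (1 - s)))‖ :=
        norm_sum_le _ _
    _ ≤ ∑ M ∈ Finset.range (N + 1), (‖s - 1‖ * ‖s‖ * 2 * (1 / K)) *
        (Real.exp (-((M : ℝ) / K)) / Real.sqrt M) := by
        refine Finset.sum_le_sum fun M _ => ?_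
        rw [norm_mul, Complex.norm_real, Real.norm_of_nonneg (mul_nonneg (by linarith) (by positivity)),
          hqM]
        rcases Nat.eq_zero_or_pos M with h0 | hpos
        · subst h0
          have hs2 : 1 - s ≠ 0 := by
            intro h
            have : s = 1 := by linear_combination -h
            rw [this] at hre
            norm_num at hre
          simp [z_S, Complex.zero_cpow hs2]
        · rw [if_neg (by omega)]
          have h5 := Pool.Agent.Work.MP_37bd4f_nt.zeta₁_approx (s := s) (by rw [hre]; norm_num)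
            (M := M) hpos
          rw [hre] at h5
          have hM0 : (0 : ℝ) < M := by exact_mod_cast hpos
          have h6 : (M : ℝ) ^ (-(1 / 2 : ℝ)) / (1 / 2) = 2 / Real.sqrt M := by
            rw [Real.rpow_neg hM0.le, ← Real.sqrt_eq_rpow]
            field_simp
          rw [h6] at h5
          have h7 : 0 ≤ q ^ M := by positivity
          calc (1 - q) * q ^ M * ‖riemannZeta₁ s - ((s - 1) * z_S s M + (M : ℂ) ^ (1 - s))‖
              ≤ (1 / K) * q ^ M * (‖s - 1‖ * ‖s‖ * (2 / Real.sqrt M)) := by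
                have h8 : 0 ≤ 1 - q := by linarith
                unfold z_S
                gcongr
            _ = ‖s - 1‖ * ‖s‖ * 2 * (1 / K) * (q ^ M / Real.sqrt M) := by ring
    _ = (‖s - 1‖ * ‖s‖ * 2 * (1 / K)) *
        ∑ M ∈ Finset.range (N + 1), Real.exp (-((M : ℝ) / K)) / Real.sqrt M := by
        rw [Finset.mul_sum]
    _ ≤ (‖s - 1‖ * ‖s‖ * 2 * (1 / K)) * (2 * Real.sqrt K) := by
        have h9 : ∑ M ∈ Finset.range (N + 1), Real.exp (-((M : ℝ) / K)) / Real.sqrt M ≤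
            2 * Real.sqrt K :=
          (hPr.sum_le_tsum _ (fun i _ => by positivity)).trans hPb
        gcongr
    _ = ‖s - 1‖ * ‖s‖ * (4 / Real.sqrt K) := by
        have h10 : Real.sqrt K ≠ 0 := (Real.sqrt_pos.mpr hK0).ne'
        have h11 : Real.sqrt K * Real.sqrt K = K := Real.mul_self_sqrt hK0.le
        have h12 : (1 / K) * Real.sqrt K = 1 / Real.sqrt K := by
          rw [one_div, one_div, inv_mul_eq_iff_eq_mul₀ hK0.ne', eq_mul_inv_iff_mul_eq₀ h10]
          exact h11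
        calc ‖s - 1‖ * ‖s‖ * 2 * (1 / K) * (2 * Real.sqrt K)
            = ‖s - 1‖ * ‖s‖ * 4 * ((1 / K) * Real.sqrt K) := by ring
          _ = ‖s - 1‖ * ‖s‖ * 4 * (1 / Real.sqrt K) := by rw [h12]
          _ = _ := by ring

theorem iZ (h1 : StZ1) (hP : StPc) : StZ := by
  obtain ⟨C, hC, hZ⟩ := id h1
  refine ⟨13 + C, by positivity, fun K hK t ht => ?_⟩
  obtain ⟨-, hTb⟩ := hZ K hK t ht
  set T1 : ℂ := ∑' M : ℕ, (((1 - Real.exp (-(1 / K))) * Real.exp (-((M : ℝ) / K)) : ℝ) : ℂ) *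
      (M : ℂ) ^ (1 / 2 - t * Complex.I) with hT1
  set s : ℂ := 1 / 2 + t * Complex.I with hs
  have hm := z_main h1 hP K hK t ht T1 hT1 s hs
  set q : ℝ := Real.exp (-(1 / K)) with hq
  have hK0 : 0 < K := by linarith
  have hsK : 0 < Real.sqrt K := Real.sqrt_pos.mpr hK0
  have ht0 : 0 < |t| := by linarith
  have hre : s.re = 1 / 2 := by simp [hs]
  have him : s.im = t := by simp [hs]
  have hs1 : s ≠ 1 := by
    intro h
    rw [h] at hre
    norm_num at hre
  have hsub : s - 1 ≠ 0 := sub_ne_zero.mpr hs1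
  have n1 : |t| ≤ ‖s - 1‖ := by
    have h := Complex.abs_im_le_norm (s - 1)
    rwa [Complex.sub_im, him, Complex.one_im, sub_zero] at h
  have n0 : 0 < ‖s - 1‖ := by linarith
  have n2 : ‖s‖ ≤ 2 * |t| := by
    calc ‖s‖ ≤ ‖(1 / 2 : ℂ)‖ + ‖(t : ℂ) * Complex.I‖ := norm_add_le _ _
      _ = 1 / 2 + |t| := by
          rw [norm_mul, Complex.norm_I, mul_one, Complex.norm_real, Real.norm_eq_abs]
          norm_num
      _ ≤ 2 * |t| := by linarith
  have n3 : ‖s‖ = ‖s - 1‖ := by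
    have h1 : Complex.normSq s = Complex.normSq (s - 1) := by
      rw [Complex.normSq_apply, Complex.normSq_apply, Complex.sub_re, Complex.sub_im, hre, him]
      norm_num
    rw [Complex.norm_def, Complex.norm_def, h1]
  have hz : riemannZeta s = (s - 1)⁻¹ * riemannZeta₁ s := riemannZeta_eq_inv_sub_mul hs1
  have hz1 : riemannZeta₁ s = (s - 1) * riemannZeta s := by
    rw [hz]
    field_simp
  have hzn : ‖riemannZeta s‖ ≤ 5 * |t| := by
    have h := Pool.Agent.Work.MP_37bd4f_nt.zeta₁_norm_le (s := s) (by rw [hre]; norm_num)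
    rw [hre, hz1, norm_mul] at h
    have h2 : ‖s - 1‖ * ‖riemannZeta s‖ ≤ ‖s - 1‖ * (5 * |t|) := by
      calc ‖s - 1‖ * ‖riemannZeta s‖ ≤ ‖s‖ + ‖s - 1‖ * ‖s‖ / (1 / 2) := h
        _ = ‖s - 1‖ * (1 + 2 * ‖s‖) := by
            rw [n3]
            ring
        _ ≤ ‖s - 1‖ * (5 * |t|) := by
            gcongr
            linarith
    exact le_of_mul_le_mul_left h2 n0
  have hq2 : 1 - q ≤ 1 / K := by
    have := Real.one_sub_le_exp_neg (1 / K)
    linarith
  have hq3 : 0 ≤ 1 - q := by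
    have : q ≤ 1 := by
      rw [hq, Real.exp_le_one_iff]
      have : 0 < 1 / K := by positivity
      linarith
    linarith
  have hKs : 1 / K ≤ 1 / Real.sqrt K := by
    apply one_div_le_one_div_of_le hsK
    rw [Real.sqrt_le_left hK0.le]
    nlinarith
  -- division by `s - 1`
  have hd : ‖(q : ℂ) * riemannZeta s - (P K t + T1 / (s - 1))‖ ≤ ‖s‖ * (4 / Real.sqrt K) := by
    have e : (s - 1) * ((q : ℂ) * riemannZeta s - (P K t + T1 / (s - 1))) =
        (q : ℂ) * riemannZeta₁ s - ((s - 1) * P K t + T1) := by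
      rw [hz1]
      field_simp
    have h := hm
    rw [← e, norm_mul, mul_assoc] at h
    exact le_of_mul_le_mul_left h n0
  have e1 : riemannZeta s - P K t = ((q : ℂ) * riemannZeta s - (P K t + T1 / (s - 1))) +
      (((1 - q : ℝ) : ℂ) * riemannZeta s + T1 / (s - 1)) := by
    push_cast
    ring
  have hT : ‖T1 / (s - 1)‖ ≤ C * (1 / Real.sqrt K + Real.sqrt K / |t| ^ 3) := by
    rw [norm_div]
    calc ‖T1‖ / ‖s - 1‖ ≤ (C * (|t| / Real.sqrt K + Real.sqrt K / |t| ^ 2)) / |t| := by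
          gcongr
      _ = C * (1 / Real.sqrt K + Real.sqrt K / |t| ^ 3) := by
          field_simp
  have hq4 : ‖((1 - q : ℝ) : ℂ) * riemannZeta s‖ ≤ (1 / Real.sqrt K) * (5 * |t|) := by
    rw [norm_mul, Complex.norm_real, Real.norm_of_nonneg hq3]
    have : 1 - q ≤ 1 / Real.sqrt K := hq2.trans hKs
    gcongr
  calc ‖riemannZeta s - P K t‖ ≤ ‖(q : ℂ) * riemannZeta s - (P K t + T1 / (s - 1))‖ +
        (‖((1 - q : ℝ) : ℂ) * riemannZeta s‖ + ‖T1 / (s - 1)‖) := by
        rw [e1]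
        exact (norm_add_le _ _).trans (add_le_add le_rfl (norm_add_le _ _))
    _ ≤ ‖s‖ * (4 / Real.sqrt K) + ((1 / Real.sqrt K) * (5 * |t|) +
        C * (1 / Real.sqrt K + Real.sqrt K / |t| ^ 3)) := by gcongr
    _ ≤ (2 * |t|) * (4 / Real.sqrt K) + ((1 / Real.sqrt K) * (5 * |t|) +
        C * (|t| / Real.sqrt K + Real.sqrt K / |t| ^ 3)) := by gcongr
    _ = 13 * (|t| / Real.sqrt K) + C * (|t| / Real.sqrt K + Real.sqrt K / |t| ^ 3) := by ring
    _ ≤ 13 * (|t| / Real.sqrt K + Real.sqrt K / |t| ^ 3) +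
        C * (|t| / Real.sqrt K + Real.sqrt K / |t| ^ 3) := by
        have : 0 ≤ Real.sqrt K / |t| ^ 3 := by positivity
        linarith
    _ = (13 + C) * (|t| / Real.sqrt K + Real.sqrt K / |t| ^ 3) := by ring

end Pool.Agent.Work.MP_56b8f5_nt.EM
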