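import Pool.Agent.Work.MP_56b8f5_nt.EM.Defs

/-!
MP_56b8f5_nt (eighth moment of the Riemann zeta function), block EM: statements of the items.
-/

open MeasureTheory Set Filter Topology

noncomputable section

namespace Pool.Agent.Work.MP_56b8f5_nt.EM

/-! ### Group G0: elementary facts on `Gam` -/

/-- Numerators, denominators, heights. -/
def StGam : Prop :=
  (∀ γ : Gam, 0 < num γ ∧ 0 < den γ ∧ (num γ).Coprime (den γ) ∧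
    ell γ = Real.log (num γ) - Real.log (den γ) ∧
    ht γ = Real.log ((num γ : ℝ) * (den γ : ℝ)) ∧ 0 ≤ ht γ) ∧
  (∀ γ : Gam, num γ = den γ → γ = 0) ∧
  (Function.Injective fun γ : Gam => (num γ, den γ)) ∧
  (∀ γ γ' : Gam, ell (γ + γ') = ell γ + ell γ') ∧
  (∀ γ γ' : Gam, ell (γ - γ') = ell γ - ell γ') ∧
  (∀ γ : Gam, ht (-γ) = ht γ) ∧
  (∀ γ γ' : Gam, ht (γ + γ') ≤ ht γ + ht γ') ∧
  (∀ γ γ' : Gam, ht (γ - γ') ≤ ht γ + ht γ') ∧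
  ell 0 = 0 ∧ ht 0 = 0

/-- The ball of radius `X` is finite, with at most `e^{2X}` elements. -/
def StFin : Prop := ∀ X : ℝ, 0 ≤ X →
  ∃ S : Finset Gam, (∀ γ, γ ∈ S ↔ ht γ ≤ X) ∧ (S.card : ℝ) ≤ Real.exp (2 * X)

/-- `γ ≠ 0` implies that `ell γ` is not too small. -/
def StEll : Prop := ∀ γ : Gam, γ ≠ 0 → Real.exp (-(ht γ / 2)) / 2 ≤ |ell γ|

/-! ### Group W: the Fourier transform of the weight -/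

/-- Derivatives and decay of `W`. -/
def StW : Prop := ∀ w : ℝ → ℝ, IsW w →
  (∀ j y, HasDerivAt (W w j) (W w (j + 1) y) y) ∧
  (∀ j A : ℕ, ∃ C : ℝ, 0 ≤ C ∧ ∀ y, ‖W w j y‖ ≤ C / (1 + |y|) ^ A) ∧
  (∀ y, ‖W w 0 y‖ ≤ W0 w) ∧ W w 0 0 = (W0 w : ℂ) ∧ 0 ≤ W0 w ∧ W0 w ≤ 1

/-- Weights with total mass close to one exist. -/
def StWex : Prop := ∀ ε : ℝ, 0 < ε → ∃ w : ℝ → ℝ, IsW w ∧ 1 - ε ≤ W0 w

/-- Profiles exist. -/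
def StEta : Prop := ∀ κ : ℝ, 0 < κ → κ < 1 / 100 → ∃ η : ℝ → ℝ, IsEta κ η

/-- For non-zero `γ` of height at most `T^{4/3}` the Fourier transform is negligible. -/
def StOrth : Prop := ∀ w : ℝ → ℝ, IsW w → ∃ C : ℝ, 0 ≤ C ∧ ∀ T : ℝ, 1 ≤ T → ∀ γ : Gam, γ ≠ 0 →
  ht γ ≤ 4 / 3 * Real.log T → ‖W w 0 (T * ell γ)‖ ≤ C / T ^ 20

/-! ### Group Z: approximation of zeta on the critical line -/

/-- Bounds for the Gamma function. -/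
def StGa : Prop :=
  (∀ A : ℕ, ∃ C : ℝ, 0 ≤ C ∧ ∀ t : ℝ, t ≠ 0 → ‖Complex.Gamma (1 / 2 + t * Complex.I)‖ ≤ C / |t| ^ A) ∧
  (∃ C : ℝ, 0 ≤ C ∧ ∀ t : ℝ, t ≠ 0 → ‖Complex.Gamma (3 / 2 - t * Complex.I)‖ ≤ C / |t| ^ 2)

/-- The average of `M^{1/2-it}`. -/
def StZ1 : Prop := ∃ C : ℝ, 0 ≤ C ∧ ∀ K : ℝ, 1 ≤ K → ∀ t : ℝ, 1 ≤ |t| →
  Summable (fun M : ℕ => (((1 - Real.exp (-(1 / K))) * Real.exp (-((M : ℝ) / K)) : ℝ) : ℂ) *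
    (M : ℂ) ^ (1 / 2 - t * Complex.I)) ∧
  ‖∑' M : ℕ, (((1 - Real.exp (-(1 / K))) * Real.exp (-((M : ℝ) / K)) : ℝ) : ℂ) *
    (M : ℂ) ^ (1 / 2 - t * Complex.I)‖ ≤ C * (|t| / Real.sqrt K + Real.sqrt K / |t| ^ 2)

/-- The approximation of zeta by `P K`. -/
def StZ : Prop := ∃ C : ℝ, 0 ≤ C ∧ ∀ K : ℝ, 1 ≤ K → ∀ t : ℝ, 1 ≤ |t| →
  ‖riemannZeta (1 / 2 + t * Complex.I) - P K t‖ ≤ C * (|t| / Real.sqrt K + Real.sqrt K / |t| ^ 3)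

/-- `P K` is continuous and bounded. -/
def StPc : Prop := ∀ K : ℝ, 1 ≤ K → Continuous (P K) ∧ (∀ t, ‖P K t‖ ≤ 2 * Real.sqrt K) ∧
  (∀ t, Summable fun k : ℕ => ‖(Real.exp (-((k : ℝ) / K)) : ℂ) *
    (k : ℂ) ^ (-(1 / 2 + t * Complex.I))‖) ∧
  (Summable fun k : ℕ => Real.exp (-((k : ℝ) / K)) / Real.sqrt k) ∧
  ∑' k : ℕ, Real.exp (-((k : ℝ) / K)) / Real.sqrt k ≤ 2 * Real.sqrt K

/-! ### Group B: the twisted second moment of `P` -/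

/-- Expansion of the twisted second moment. -/
def StExp : Prop := ∀ w : ℝ → ℝ, IsW w → ∀ K T : ℝ, 1 ≤ K → 0 < T → ∀ n m : ℕ, 0 < n → 0 < m →
  (Summable fun p : ℕ × ℕ => F w T (n * K) (m * K) (n * p.1) (m * p.2)) ∧
  ∫ u : ℝ, ((w u * ‖P K (T * u)‖ ^ 2 : ℝ) : ℂ) *
      Complex.exp (Complex.I * (T * u * Real.log ((n : ℝ) / m) : ℝ)) =
    (Real.sqrt (n * m) : ℂ) * ∑' p : ℕ × ℕ, F w T (n * K) (m * K) (n * p.1) (m * p.2)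

/-- The pairs that are not close to the diagonal are negligible. -/
def StFar : Prop := ∀ w : ℝ → ℝ, IsW w → ∃ C : ℝ, 0 ≤ C ∧ ∀ K T : ℝ, 1 ≤ K → 1 ≤ T →
  ∀ n m : ℕ, 0 < n → 0 < m →
  (Real.sqrt (n * m)) * ∑' p : ℕ × ℕ, (if 2 * |(n * p.1 : ℤ) - m * p.2| ≤ (m * p.2 : ℤ) then 0
    else ‖F w T (n * K) (m * K) (n * p.1) (m * p.2)‖) ≤ C * K / T ^ 8

/-- Reordering of the near pairs by `r = n k' - m k` and `b = m k`. -/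
def StReo : Prop := ∀ w : ℝ → ℝ, IsW w → ∀ K T : ℝ, 1 ≤ K → 1 ≤ T → ∀ n m : ℕ, 0 < n → 0 < m →
  n.Coprime m → ∃ β : ℤ → ℕ, (∀ r, β r < n * m) ∧ β 0 = 0 ∧
  ∑' p : ℕ × ℕ, (if 2 * |(n * p.1 : ℤ) - m * p.2| ≤ (m * p.2 : ℤ) then
      F w T (n * K) (m * K) (n * p.1) (m * p.2) else 0) =
    ∑' r : ℤ, ∑' b : ℕ, (if b % (n * m) = β r then fr w T (n * K) (m * K) r b else 0)

/-- Absolute summability over `(r, b)`. -/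
def StSum : Prop := ∀ w : ℝ → ℝ, IsW w → ∀ A B T : ℝ, 1 ≤ A → 1 ≤ B → 1 ≤ T →
  Summable fun p : ℤ × ℕ => ‖fr w T A B p.1 p.2‖

/-- Variation in `b` for fixed `r ≠ 0`. -/
def StVar : Prop := ∀ w : ℝ → ℝ, IsW w → ∃ C : ℝ, 0 ≤ C ∧ ∀ A B T : ℝ, 1 ≤ A → 1 ≤ B → 1 ≤ T →
  ∀ r : ℤ, r ≠ 0 → Summable (fun b : ℕ => ‖fr w T A B r (b + 1) - fr w T A B r b‖) ∧
  ∑' b : ℕ, ‖fr w T A B r (b + 1) - fr w T A B r b‖ ≤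
    C * Real.exp (-(2 * |(r : ℝ)| / B)) / (T * |(r : ℝ)|)

/-- Sums over a residue class. -/
def StProg : Prop := ∀ g : ℕ → ℂ, Summable (fun b => ‖g b‖) →
  Summable (fun b => ‖g (b + 1) - g b‖) → ∀ D' β : ℕ, β < D' →
  ‖∑' b : ℕ, (if b % D' = β then g b else 0) - (1 / (D' : ℂ)) * ∑' b : ℕ, g b‖ ≤
    ∑' b : ℕ, ‖g (b + 1) - g b‖

/-- Off-diagonal terms with small `b`. -/
def StSmall : Prop := ∀ w : ℝ → ℝ, IsW w → ∃ C : ℝ, 0 ≤ C ∧ ∀ A B T : ℝ, 1 ≤ A → 1 ≤ B → 1 ≤ T →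
  ∀ b : ℕ, Summable (fun r : ℤ => if r = 0 then 0 else ‖fr w T A B r b‖) ∧
  ∑' r : ℤ, (if r = 0 then 0 else ‖fr w T A B r b‖) ≤ C * b / T ^ 2

/-- The trapezoidal rule. -/
def StTrap : Prop := ∀ (h h1 h2 : ℝ → ℂ) (R : ℕ),
  (∀ x ∈ Icc (-(R : ℝ)) R, HasDerivAt h (h1 x) x) → (∀ x ∈ Icc (-(R : ℝ)) R, HasDerivAt h1 (h2 x) x) →
  ContinuousOn h2 (Icc (-(R : ℝ)) R) →
  ‖∑ r ∈ Finset.Icc (-(R : ℤ)) R, h r - (∫ x in (-(R : ℝ))..R, h x) - (h R + h (-(R : ℝ))) / 2‖ ≤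
    ∫ x in (-(R : ℝ))..R, ‖h2 x‖

/-- Second derivative of `a ↦ F(a,b)`. -/
def StF2 : Prop := ∀ w : ℝ → ℝ, IsW w → ∃ C : ℝ, 0 ≤ C ∧ ∀ A B T b : ℝ, 1 ≤ A → 1 ≤ B → 1 ≤ T →
  0 < b → ∃ F1 F2 : ℝ → ℂ, (∀ a : ℝ, 0 < a → HasDerivAt (fun a => F w T A B a b) (F1 a) a) ∧
    (∀ a : ℝ, 0 < a → HasDerivAt F1 (F2 a) a) ∧ ContinuousOn F2 (Ioi 0) ∧
    (∀ a : ℝ, b / 2 ≤ a → a ≤ 3 * b / 2 →
      ‖F2 a‖ ≤ C * T ^ 2 / b ^ 3 / (1 + T * |a - b| / b) ^ 2)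

/-- The full integral of `a ↦ F(a,b)` is negligible, and so are its tails. -/
def StFint : Prop := ∀ w : ℝ → ℝ, IsW w → ∃ C : ℝ, 0 ≤ C ∧ ∀ A B T b : ℝ, 1 ≤ A → 1 ≤ B → 1 ≤ T →
  2 ≤ b → ∀ R : ℝ, b / 3 ≤ R → R ≤ b / 2 →
  ‖∫ a in (b - R)..(b + R), F w T A B a b‖ ≤ C * Real.exp (-(b / B)) * Real.sqrt A / T ^ 8 ∧
  ‖F w T A B (b + R) b‖ ≤ C * Real.exp (-(b / B)) / T ^ 8 ∧
  ‖F w T A B (b - R) b‖ ≤ C * Real.exp (-(b / B)) / T ^ 8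

/-- The sum over all `r` for fixed `b`. -/
def StNear : Prop := ∀ w : ℝ → ℝ, IsW w → ∃ C : ℝ, 0 ≤ C ∧ ∀ A B T : ℝ, 1 ≤ A → 1 ≤ B → 1 ≤ T →
  ∀ b : ℕ, 1 ≤ b → ‖∑' r : ℤ, fr w T A B r b‖ ≤
    C * (T / (b : ℝ) ^ 2 + Real.exp (-((b : ℝ) / B)) * Real.sqrt A / T ^ 8)

/-- The truncated logarithmic sum. -/
def StLog : Prop := ∃ C : ℝ, 0 ≤ C ∧ ∀ X Y : ℝ, 1 / 2 ≤ Y → Y ≤ X →
  (Summable fun b : ℕ => if Y < (b : ℝ) then Real.exp (-((b : ℝ) / X)) / b else 0) ∧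
  |(∑' b : ℕ, if Y < (b : ℝ) then Real.exp (-((b : ℝ) / X)) / b else 0) - Real.log (X / Y)| ≤ C

/-- The twisted second moment of `P`. -/
def StSec : Prop := ∀ w : ℝ → ℝ, IsW w → ∃ C : ℝ, 0 ≤ C ∧ ∀ T : ℝ, 2 ≤ T → ∀ n m : ℕ, 0 < n → 0 < m →
  n.Coprime m → (n : ℝ) * m ≤ T →
  ‖(∫ u : ℝ, ((w u * ‖P (T ^ 3) (T * u)‖ ^ 2 : ℝ) : ℂ) *
      Complex.exp (Complex.I * (T * u * Real.log ((n : ℝ) / m) : ℝ))) -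
    ((W0 w / Real.sqrt (n * m) * Real.log (T / (n * m)) : ℝ) : ℂ)‖ ≤
  C * (1 / Real.sqrt (n * m) + Real.sqrt (n * m) * Real.log T / T)

/-- The lower bound for the twisted second moment of zeta. -/
def StTw : Prop := ∀ w : ℝ → ℝ, IsW w → 0 < W0 w → ∀ κ : ℝ, 0 < κ → κ < 1 →
  ∃ T₀ : ℝ, ∀ T : ℝ, T₀ ≤ T → ∀ γ : Gam, ht γ ≤ (1 - κ) * Real.log T →
  W0 w * cc κ (Real.log T) γ ≤ ∫ u : ℝ, w u * (Zt (T * u) * Real.cos (T * u * ell γ))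

/-! ### Group A: arithmetic -/

/-- The Euler product. -/
def StEul : Prop := ∀ s : Fin 5 → ℝ, (∀ i, 0 < s i) →
  (Summable fun q : Quad => Real.exp (-(EX s q))) ∧ HasProd (fun p : Nat.Primes => Sp p s) (Lam s)

/-- Triples of elements of `Gam` as finitely supported functions on the primes. -/
def StEq : Prop := ∃ e : Quad ≃ (Nat.Primes →₀ ℤ × ℤ × ℤ), ∀ s q,
  Real.exp (-(EX s q)) = ∏ p ∈ (e q).support, ((p : ℕ) : ℝ) ^ (-(ex s (e q p)))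

/-- The general Euler product over finitely supported functions. -/
def StEP : Prop := ∀ (ι M : Type) [DecidableEq ι] [Zero M] [DecidableEq M]
  (f : ι → M → ENNReal), (∀ i, f i 0 = 1) →
  ∑' x : ι →₀ M, ∏ i ∈ x.support, f i (x i) = ⨆ S : Finset ι, ∏ i ∈ S, ∑' m : M, f i m

/-- Local factors: the twelve vectors of length two and the rest. -/
def StLoc0 : Prop := ∃ C : ℝ, 0 ≤ C ∧ ∀ p : Nat.Primes, ∀ s : Fin 5 → ℝ, (∀ i, 0 ≤ s i) →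
  (Summable fun v : ℤ × ℤ × ℤ => ((p : ℕ) : ℝ) ^ (-(ex s v))) ∧
  0 ≤ Sp p s - 1 - 2 * ∑ i : Fin 6, ((p : ℕ) : ℝ) ^ (-(1 + sij s i)) ∧
  Sp p s - 1 - 2 * ∑ i : Fin 6, ((p : ℕ) : ℝ) ^ (-(1 + sij s i)) ≤ C / ((p : ℕ) : ℝ) ^ 2

/-- Local factors, first part: the bound. -/
def StLoc1 : Prop := ∃ C : ℝ, 0 ≤ C ∧ ∀ p : Nat.Primes, ∀ s : Fin 5 → ℝ, (∀ i, 0 ≤ s i) →
  (Summable fun v : ℤ × ℤ × ℤ => ((p : ℕ) : ℝ) ^ (-(ex s v))) ∧ 1 ≤ Sp p s ∧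
  0 < Zf p s ∧ |Sp p s * Zf p s - 1| ≤ C / ((p : ℕ) : ℝ) ^ 2

/-- Local factors, second part: continuity at zero. -/
def StLoc2 : Prop := ∀ p : Nat.Primes,
  Tendsto (fun s : Fin 5 → ℝ => Sp p s * Zf p s) (𝓝[{s | ∀ i, 0 ≤ s i}] 0) (𝓝 (Sp p 0 * Zf p 0))

/-- Local factors, third part: the value at zero. -/
def StLoc3 : Prop := ∀ p : Nat.Primes, Sp p 0 * Zf p 0 = a4f p

/-- The product `a_4`. -/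
def StA4 : Prop := Multipliable a4f ∧ 0 < a4

/-- The product of the remainders. -/
def StRem : Prop := ∀ lam : Fin 5 → ℝ, (∀ i, 0 < lam i) →
  Tendsto (fun L : ℝ => ∏' p : Nat.Primes, Sp p (fun i => lam i / L) * Zf p (fun i => lam i / L))
    atTop (𝓝 a4) ∧
  ∀ L : ℝ, 0 < L → Multipliable fun p : Nat.Primes =>
    Sp p (fun i => lam i / L) * Zf p (fun i => lam i / L)

/-- Zeta factors. -/
def StZe : Prop := ∀ lam : Fin 5 → ℝ, (∀ i, 0 < lam i) →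
  ∃ z : ℝ → ℝ, (∀ L : ℝ, 0 < L → 0 < z L ∧
    HasProd (fun p : Nat.Primes => Zf p (fun i => lam i / L)) (z L)) ∧
  Tendsto (fun L : ℝ => L ^ 12 * z L) atTop (𝓝 (∏ i : Fin 6, sij lam i ^ 2))

/-- The Laplace transform of the arithmetic measure. -/
def StLap : Prop := ∀ lam : Fin 5 → ℝ, (∀ i, 0 < lam i) →
  (∀ L : ℝ, 0 < L → Summable fun q : Quad => wt q * Real.exp (-(∑ i, lam i * xs L q i))) ∧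
  Tendsto (fun L : ℝ => (∑' q : Quad, wt q * Real.exp (-(∑ i, lam i * xs L q i))) / L ^ 12) atTop
    (𝓝 (a4 * ∏ i : Fin 6, (1 / sij lam i ^ 2)))

/-- The Laplace transform of the limit measure. -/
def StJL : Prop := ∀ lam : Fin 5 → ℝ, (∀ i, 0 < lam i) →
  Integrable (fun t : T6 => Real.exp (-(∑ i, lam i * xt t i))) mu6 ∧
  ∫ t, Real.exp (-(∑ i, lam i * xt t i)) ∂mu6 = ∏ i : Fin 6, (1 / sij lam i ^ 2)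

/-- The measure `mu6` as an iterated integral. -/
def StMu : Prop := ∀ f : T6 → ENNReal, Measurable f →
  ∫⁻ t, f t ∂mu6 = ∫⁻ d in Ioi (0 : ℝ), ENNReal.ofReal d * ∫⁻ c in Ioi (0 : ℝ), ENNReal.ofReal c *
    ∫⁻ b in Ioi (0 : ℝ), ENNReal.ofReal b * ∫⁻ a in Ioi (0 : ℝ), ENNReal.ofReal a *
    ∫⁻ J in Ioi (0 : ℝ), ENNReal.ofReal J * ∫⁻ J' in Ioi (0 : ℝ), ENNReal.ofReal J' *
    f (d, c, b, a, J, J')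

/-- Approximation by exponential polynomials (Stone-Weierstrass). -/
def StSW : Prop := ∀ G : (Fin 5 → ℝ) → ℝ, Continuous G → HasCompactSupport G → ∀ ε : ℝ, 0 < ε →
  ∃ (S : Finset (Fin 5 → ℕ)) (c : (Fin 5 → ℕ) → ℝ), ∀ x : Fin 5 → ℝ, (∀ i, 0 ≤ x i) →
    |G x - ∑ k ∈ S, c k * Real.exp (-(∑ i, ((k i : ℝ) + 1) * x i))| ≤ ε * Real.exp (-(∑ i, x i))

/-- A Karamata type theorem in five variables. -/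
def StKar : Prop := ∀ (M : ℝ → Measure (Fin 5 → ℝ)) (M0 : Measure (Fin 5 → ℝ)),
  (∀ L, 0 < L → ∀ᵐ x ∂(M L), ∀ i, 0 ≤ x i) → (∀ᵐ x ∂M0, ∀ i, 0 ≤ x i) →
  (∀ k : Fin 5 → ℕ, (∀ i, 1 ≤ k i) →
    (∀ L, 0 < L → Integrable (fun x : Fin 5 → ℝ => Real.exp (-(∑ i, (k i : ℝ) * x i))) (M L)) ∧
    Integrable (fun x : Fin 5 → ℝ => Real.exp (-(∑ i, (k i : ℝ) * x i))) M0 ∧
    Tendsto (fun L => ∫ x, Real.exp (-(∑ i, (k i : ℝ) * x i)) ∂(M L)) atTop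
      (𝓝 (∫ x, Real.exp (-(∑ i, (k i : ℝ) * x i)) ∂M0))) →
  ∀ G : (Fin 5 → ℝ) → ℝ, Continuous G → HasCompactSupport G →
    Tendsto (fun L => ∫ x, G x ∂(M L)) atTop (𝓝 (∫ x, G x ∂M0))

/-- The asymptotic formula for the arithmetic sums. -/
def StAr : Prop := ∀ G : (Fin 5 → ℝ) → ℝ, Continuous G → HasCompactSupport G →
  Tendsto (fun L : ℝ => AL G L / L ^ 12) atTop (𝓝 (a4 * Jf G))

/-! ### Group N: numbers -/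

/-- Four profiles. -/
def StEta4 : Prop := ∀ η : ℝ → ℝ, Continuous η → (∀ x, 0 ≤ η x) → HasCompactSupport η →
  ∫ x, η x = 1 → ∀ c d : ℝ,
  ∫⁻ b : ℝ, ∫⁻ a : ℝ, ∫⁻ J : ℝ, ∫⁻ J' : ℝ,
    ENNReal.ofReal (η (J + a + b) * η (J + c + d) * η (J' + a + c) * η (J' + b + d)) ≤ 1 / 2

/-- The upper bound for the denominator. -/
def StNumY : Prop := ∀ κ : ℝ, 0 < κ → κ < 1 / 100 → ∀ η : ℝ → ℝ, IsEta κ η →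
  Jf (GY η) ≤ (1 / 3) ^ 8 / 10080

/-- The polynomial integral. -/
def StPoly : Prop := ∀ σ : ℝ, 0 ≤ σ →
  ∫ d in (0 : ℝ)..σ, ∫ c in (0 : ℝ)..(σ - d), ∫ b in (0 : ℝ)..(σ - d),
    ∫ a in (0 : ℝ)..(2 * σ - b - c - d),
    a * b * c * d * (σ - c - d) * (σ - b - d) * (2 * σ - a - b + c + d) * (2 * σ - a - c + b + d) =
  17627 / 29937600 * σ ^ 12

/-- The inner integral for the numerator: `σ = 1/3 - 4κ`. -/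
def StXin : Prop := ∀ κ : ℝ, 0 < κ → κ < 1 / 100 → ∀ η : ℝ → ℝ, IsEta κ η →
  ∀ p q : ℝ, 0 < q → q < 1 / 3 - 4 * κ → 0 < p →
  ENNReal.ofReal ((1 / 3 - 4 * κ - q) * (2 / 3 + 2 * κ - p + q)) ≤
    ∫⁻ J in Ioi (0 : ℝ), ENNReal.ofReal J * ENNReal.ofReal (pz κ (J + p) * η (J + q))

/-- The lower bound for the numerator. -/
def StNumX : Prop := ∀ κ : ℝ, 0 < κ → κ < 1 / 100 → ∀ η : ℝ → ℝ, IsEta κ η →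
  (1 - 12 * κ) ^ 12 * (1 / 3) ^ 12 * (17627 / 29937600) ≤ Jf (GX κ η)

/-- Continuity and compact support of the test functions. -/
def StGc : Prop := ∀ κ : ℝ, 0 < κ → κ < 1 / 100 → ∀ η : ℝ → ℝ, IsEta κ η →
  Continuous (GX κ η) ∧ HasCompactSupport (GX κ η) ∧ Continuous (GY η) ∧ HasCompactSupport (GY η)

/-! ### Group M: the moment -/

/-- Mean value of a finite sum over small heights. -/
def StMV : Prop := ∀ w : ℝ → ℝ, IsW w → ∃ C : ℝ, 0 ≤ C ∧ ∀ T : ℝ, 1 ≤ T → ∀ (S : Finset Gam)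
  (c : Gam → ℝ), (∀ γ ∈ S, ht γ ≤ 2 / 3 * Real.log T) →
  ∫ u : ℝ, w u * ‖D S c (T * u)‖ ^ 2 ≤ W0 w * ∑ γ ∈ S, c γ ^ 2 + C / T ^ 20 * (∑ γ ∈ S, |c γ|) ^ 2

/-- The fourth moment of `H`. -/
def StYT : Prop := ∀ w : ℝ → ℝ, IsW w → ∀ κ : ℝ, 0 < κ → κ < 1 / 100 → ∀ η : ℝ → ℝ, IsEta κ η →
  ∃ T₀ : ℝ, ∀ T : ℝ, T₀ ≤ T → ∀ S : Finset Gam, (∀ γ, γ ∈ S ↔ ht γ ≤ 1 / 3 * Real.log T) →
  ∫ u : ℝ, w u * ‖D S (Hc η (Real.log T)) (T * u)‖ ^ 4 ≤ W0 w * AL (GY η) (Real.log T) + 1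

/-- Coefficients of `|zeta|^2 H`. -/
def CC (κ : ℝ) (η : ℝ → ℝ) (L : ℝ) (S : Finset Gam) (γ : Gam) : ℝ :=
  ∑ γ' ∈ S, cc κ L (γ - γ') * Hc η L γ'

/-- Coefficients of `f`. -/
def fc (κ : ℝ) (η : ℝ → ℝ) (L : ℝ) (S : Finset Gam) (γ : Gam) : ℝ :=
  CC κ η L S γ * gc κ (ht γ / L)

/-- The second moment of `f`. -/
def StXT : Prop := ∀ w : ℝ → ℝ, IsW w → ∀ κ : ℝ, 0 < κ → κ < 1 / 100 → ∀ η : ℝ → ℝ, IsEta κ η →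
  ∃ T₀ : ℝ, ∀ T : ℝ, T₀ ≤ T → ∀ S S' : Finset Gam, (∀ γ, γ ∈ S ↔ ht γ ≤ 1 / 3 * Real.log T) →
  (∀ γ, γ ∈ S' ↔ ht γ ≤ 2 / 3 * Real.log T) →
  ∫ u : ℝ, w u * ‖D S' (fc κ η (Real.log T) S) (T * u)‖ ^ 2 ≤
    W0 w * (Real.log T ^ 2 * AL (GX κ η) (Real.log T)) + 1

/-- The main sum as a sum over `S'`. -/
def StXs : Prop := ∀ κ : ℝ, 0 < κ → κ < 1 / 100 → ∀ η : ℝ → ℝ, IsEta κ η →
  ∀ L : ℝ, 0 < L → ∀ S S' : Finset Gam, (∀ γ, γ ∈ S ↔ ht γ ≤ 1 / 3 * L) →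
  (∀ γ, γ ∈ S' ↔ ht γ ≤ 2 / 3 * L) →
  L ^ 2 * AL (GX κ η) L = ∑ γ ∈ S', CC κ η L S γ ^ 2 * gc κ (ht γ / L)

/-- The same for the denominator. -/
def StYs : Prop := ∀ κ : ℝ, 0 < κ → κ < 1 / 100 → ∀ η : ℝ → ℝ, IsEta κ η →
  ∀ L : ℝ, 0 < L → ∀ S : Finset Gam, (∀ γ, γ ∈ S ↔ ht γ ≤ 1 / 3 * L) →
  AL (GY η) L = ∑ x ∈ S ×ˢ S ×ˢ S ×ˢ S, (if x.1 + x.2.1 = x.2.2.1 + x.2.2.2 then
    Hc η L x.1 * Hc η L x.2.1 * Hc η L x.2.2.1 * Hc η L x.2.2.2 else 0)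

/-- The mixed moment. -/
def StCr : Prop := ∀ w : ℝ → ℝ, IsW w → 0 < W0 w → ∀ κ : ℝ, 0 < κ → κ < 1 / 100 →
  ∀ η : ℝ → ℝ, IsEta κ η →
  ∃ T₀ : ℝ, ∀ T : ℝ, T₀ ≤ T → ∀ S S' : Finset Gam, (∀ γ, γ ∈ S ↔ ht γ ≤ 1 / 3 * Real.log T) →
  (∀ γ, γ ∈ S' ↔ ht γ ≤ 2 / 3 * Real.log T) →
  W0 w * (Real.log T ^ 2 * AL (GX κ η) (Real.log T)) ≤
    ‖∫ u : ℝ, ((w u * Zt (T * u) : ℝ) : ℂ) * (D S (Hc η (Real.log T)) (T * u) *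
      (starRingEnd ℂ) (D S' (fc κ η (Real.log T) S) (T * u)))‖

/-- The two Cauchy-Schwarz steps. -/
def StCS : Prop := ∀ w : ℝ → ℝ, IsW w → ∀ T : ℝ, 0 < T → ∀ h f : ℝ → ℂ, Continuous h →
  Continuous f →
  ‖∫ u : ℝ, ((w u * Zt (T * u) : ℝ) : ℂ) * (h u * (starRingEnd ℂ) (f u))‖ ^ 4 ≤
    M4 T * (∫ u : ℝ, w u * ‖h u‖ ^ 4) * (∫ u : ℝ, w u * ‖f u‖ ^ 2) ^ 2

/-- The result. -/
def StMain : Prop := Multipliable a4f ∧ 0 < a4 ∧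
  ∀ᶠ T : ℝ in atTop, 1698 * (a4 / (Nat.factorial 16 : ℝ)) * Real.log T ^ 16 ≤ M4 T

end Pool.Agent.Work.MP_56b8f5_nt.EM
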